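import Pool.Agent.GeoNet.Block

/-!
# The collision theorem: a thin system of `m` threads has a bounded number of collision times
-/

namespace Pool.Agent.GeoNet

open Set Metric Filter
open scoped Topology RealInnerProductSpace

variable {E : Type*} [NormedAddCommGroup E] [InnerProductSpace ℝ E]

/-- families of disjoint connected blocks in `(a, b)` -/
structure IsBlocks {ι : Type*} (I : Finset ι) (X : ι → ℝ → E) (a b : ℝ) (𝓑 : Finset (ℝ × ℝ)) :
    Prop where
  mem : ∀ B ∈ 𝓑, a < B.1 ∧ B.1 ≤ B.2 ∧ B.2 < b ∧ Conn I X B.1 B.2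
  disj : ∀ B ∈ 𝓑, ∀ B' ∈ 𝓑, B ≠ B' → B.2 < B'.1 ∨ B'.2 < B.1

/-- auxiliary constant -/
noncomputable def kk (m : ℕ) : ℝ := 10 ^ 15 * (m : ℝ) ^ 3

/-- auxiliary constant -/
noncomputable def Nf (m : ℕ) : ℕ := ⌊kk m ^ 2 * (10 ^ 6 * (m : ℝ) ^ 2)⌋₊ + 1

namespace TSys

variable {𝒢 : LocGeo E} {ι : Type*} {I : Finset ι} {X τp τm : ι → ℝ → E} {ω : E} {a b : ℝ}

lemma forward (S : TSys 𝒢 I X τp τm ω a b) (hI : 2 ≤ I.card)
    (hfin : ∀ i ∈ I, ∀ j ∈ I, i ≠ j → {t | t ∈ Icc a b ∧ X i t = X j t}.Finite)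
    {d₀ : ℝ} (h1 : ∀ i ∈ I, ∀ j ∈ I, ‖X i a - X j a‖ ≤ d₀)
    (h2 : ∀ t ∈ Icc a b, ∃ i ∈ I, ∃ j ∈ I, d₀ ≤ ‖X i t - X j t‖) {𝓑 : Finset (ℝ × ℝ)}
    (hB : IsBlocks I X a b 𝓑) : 𝓑.card ≤ Nf I.card := by
  classical
  obtain ⟨i₀, hi₀⟩ : I.Nonempty := Finset.card_pos.1 (by omega)
  have hab := S.lt
  have haI : a ∈ Icc a b := ⟨le_rfl, hab.le⟩
  have haI' : a ∈ Ico a b := ⟨le_rfl, hab⟩
  set m : ℝ := (I.card : ℝ) with hm
  have hm2 : (2:ℝ) ≤ m := by rw [hm]; exact_mod_cast hI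
  set q₁ : ℝ := I.sup' ⟨i₀, hi₀⟩ (fun i => ‖τp i a - τp i₀ a‖) with hq₁
  have hq₁' : ∀ i ∈ I, ‖τp i a - τp i₀ a‖ ≤ q₁ := fun i hi =>
    Finset.le_sup' (fun i => ‖τp i a - τp i₀ a‖) hi
  obtain ⟨i₁, hi₁, hq₁e⟩ := Finset.exists_mem_eq_sup' ⟨i₀, hi₀⟩ (fun i => ‖τp i a - τp i₀ a‖)
  rw [← hq₁] at hq₁e
  have hq₁0 : 0 ≤ q₁ := by rw [hq₁e]; exact norm_nonneg _
  have hq₁3 : q₁ ≤ 3 := by
    rw [hq₁e]
    have hg1 := S.right i₁ hi₁ a haI'
    have hg0 := S.right i₀ hi₀ a haI'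
    have e1 := (LocGeo.unit_norm (𝒢 := 𝒢) hg1.mem hg1.unit).1
    have e0 := (LocGeo.unit_norm (𝒢 := 𝒢) hg0.mem hg0.unit).1
    have := norm_sub_le (τp i₁ a) (τp i₀ a)
    linarith
  have hd₀ : 0 ≤ d₀ := (norm_nonneg _).trans (h1 i₀ hi₀ i₀ hi₀)
  have hd₀3 : d₀ ≤ 3 := by
    obtain ⟨i, hi, j, hj, h⟩ := h2 a haI
    have e1 := mem_ball_zero_iff.1 (S.ball1 i hi a haI)
    have e2 := mem_ball_zero_iff.1 (S.ball1 j hj a haI)
    have := norm_sub_le (X i a) (X j a)
    linarith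
  set q : ℝ := max q₁ d₀ with hq
  have hq3 : q ≤ 3 := max_le hq₁3 hd₀3
  have hq0 : 0 ≤ q := hq₁0.trans (le_max_left _ _)
  rcases eq_or_lt_of_le hq0 with hq0' | hqpos
  · -- all threads coincide
    exfalso
    have e1 : q₁ ≤ 0 := by rw [hq0']; exact le_max_left _ _
    have e2 : d₀ ≤ 0 := by rw [hq0']; exact le_max_right _ _
    obtain ⟨i, hi, j, hj, hij⟩ := Finset.one_lt_card.1 (by omega : 1 < I.card)
    have key := (S.coarse hi₀ (T := 1) (q := 0) one_pos le_rfl le_rfl (by norm_num)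
      (fun k hk => by
        have := h1 k hk i₀ hi₀
        linarith)
      (fun k hk => (hq₁' k hk).trans e1) hi hj).2
    have hall : ∀ t ∈ Icc a b, X i t = X j t := by
      intro t ht
      have := key t ht
      rw [mul_zero, zero_mul] at this
      exact sub_eq_zero.1 (norm_le_zero_iff.1 this)
    have hinf : (Icc a b).Infinite := Icc_infinite hab
    exact hinf ((hfin i hi j hj hij).subset (fun t ht => ⟨ht, hall t ht⟩))
  set T₀ : ℝ := d₀ / q with hT₀
  have hT₀0 : 0 ≤ T₀ := by positivity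
  have hT₀1 : T₀ ≤ 1 := div_le_one_of_le₀ (le_max_right _ _) hq0
  have hqT₀ : q * T₀ = d₀ := by rw [hT₀]; field_simp
  have hkk : 10 ^ 15 ≤ kk I.card := by
    unfold kk
    rw [← hm]
    have : (1:ℝ) ≤ m ^ 3 := one_le_pow₀ (by linarith)
    linarith
  have hkkpos : 0 < kk I.card := by linarith [hkk, (by norm_num : (0:ℝ) < 10 ^ 15)]
  -- Claim A
  have claimA : ∀ B ∈ 𝓑, B.1 - a ≤ kk I.card ^ 2 * T₀ := by
    intro B hBm
    obtain ⟨hb1, hb2, hb3, hconn⟩ := hB.mem B hBm
    by_contra hcon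
    push Not at hcon
    set T₁ : ℝ := (B.1 - a) / kk I.card ^ 2 with hT₁
    have hT₁0 : T₀ < T₁ := by
      rw [hT₁, lt_div_iff₀ (by positivity)]; linarith
    have hT₁pos : 0 < T₁ := lt_of_le_of_lt hT₀0 hT₁0
    have hba : B.1 - a ≤ 1 / 2 := by linarith [S.len]
    have hT₁h : T₁ ≤ 1 / 2 := by
      rw [hT₁, div_le_iff₀ (by positivity)]
      have : (1:ℝ) ≤ kk I.card ^ 2 := one_le_pow₀ (by linarith [hkk, (by norm_num : (1:ℝ) ≤ 10 ^ 15)])
      nlinarith
    have hdq : d₀ ≤ q₁ := by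
      by_contra hlt
      push Not at hlt
      have e1 : q = d₀ := by rw [hq]; exact max_eq_right hlt.le
      have e2 : T₀ = 1 := by rw [hT₀, e1]; exact div_self (by linarith)
      linarith
    have hqq : q = q₁ := by rw [hq]; exact max_eq_left hdq
    rw [hqq] at hqpos hqT₀
    have hr : √T₁ / √(B.1 - a + T₁) ≤ 1 / kk I.card := by
      have hsa : 0 < √(B.1 - a) := Real.sqrt_pos.2 (by linarith)
      have e1 : √T₁ = √(B.1 - a) / kk I.card := by
        rw [hT₁, Real.sqrt_div (by linarith), Real.sqrt_sq hkkpos.le]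
      have e2 : √(B.1 - a) ≤ √(B.1 - a + T₁) := Real.sqrt_le_sqrt (by linarith)
      rw [e1]
      calc √(B.1 - a) / kk I.card / √(B.1 - a + T₁) ≤ √(B.1 - a) / kk I.card / √(B.1 - a) :=
            div_le_div_of_nonneg_left (by positivity) hsa e2
        _ = 1 / kk I.card := by field_simp
    have hval : 6000 * m ^ 2 * q₁ * (1 / kk I.card) = 6 / 10 ^ 12 * (q₁ / m) := by
      unfold kk
      rw [← hm]
      field_simp
      norm_num
    have hqm : q₁ / m ≤ 3 / 2 := by
      rw [div_le_iff₀ (by linarith)]; nlinarith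
    have hqm0 : 0 ≤ q₁ / m := by positivity
    have key := S.far hi₀ hT₁pos hT₁h hq₁0 hq₁3
      (fun i hi => by
        have := h1 i hi i₀ hi₀
        calc ‖X i a - X i₀ a‖ ≤ d₀ := this
          _ = q₁ * T₀ := hqT₀.symm
          _ ≤ q₁ * T₁ := mul_le_mul_of_nonneg_left hT₁0.le hq₁0) hq₁' hb1 hb2 hb3.le hconn hr
      (by rw [← hm, hval]; nlinarith) hi₁ hi₀
    rw [← hq₁e, ← hm, hval] at key
    have e3 : 10 ^ 7 * m * (1001 * (6 / 10 ^ 12 * (q₁ / m))) = 6006 / 10 ^ 5 * q₁ := by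
      field_simp; norm_num
    rw [e3] at key
    linarith
  -- Claim B
  have claimB : ∀ B ∈ 𝓑, T₀ ≤ 10 ^ 6 * m ^ 2 * (B.2 - B.1) := by
    intro B hBm
    obtain ⟨hb1, hb2, hb3, hconn⟩ := hB.mem B hBm
    have hlen : 0 ≤ B.2 - B.1 := by linarith
    have hm4 : (1:ℝ) ≤ m ^ 2 := one_le_pow₀ (by linarith)
    rcases eq_or_lt_of_le hT₀0 with h0 | hpos
    · rw [← h0]; positivity
    by_cases hc : B.2 - B.1 ≤ T₀
    · obtain ⟨i, hi, j, hj, hij⟩ := h2 B.2 ⟨by linarith, hb3.le⟩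
      have key := S.block_long hi₀ hpos hT₀1 hq0 hq3
        (fun k hk => by rw [hqT₀]; exact h1 k hk i₀ hi₀)
        (fun k hk => (hq₁' k hk).trans (le_max_left _ _)) hb1.le hb2 hb3.le hconn hc hi hj
      rw [← hm] at key
      rw [hT₀, div_le_iff₀ hqpos]
      have : 0 ≤ m ^ 2 * q * (B.2 - B.1) := by positivity
      linarith
    · push Not at hc
      have : B.2 - B.1 ≤ 10 ^ 6 * m ^ 2 * (B.2 - B.1) := by nlinarith
      linarith
  rcases eq_or_lt_of_le hT₀0 with h0 | hpos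
  · -- no block at all
    have : 𝓑 = ∅ := by
      rw [Finset.eq_empty_iff_forall_notMem]
      intro B hBm
      have e1 := claimA B hBm
      rw [← h0, mul_zero] at e1
      have e2 := (hB.mem B hBm).1
      linarith
    rw [this]; simp
  · set δ : ℝ := T₀ / (10 ^ 6 * m ^ 2) with hδ
    have hδ0 : 0 < δ := by positivity
    have hmaps : ∀ B ∈ 𝓑, ⌊(B.1 - a) / δ⌋₊ ∈ Finset.range (Nf I.card) := by
      intro B hBm
      rw [Finset.mem_range]
      unfold Nf
      rw [Nat.lt_succ_iff]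
      apply Nat.floor_le_floor
      rw [div_le_iff₀ hδ0, ← hm, hδ]
      have e1 := claimA B hBm
      have e2 : kk I.card ^ 2 * (10 ^ 6 * m ^ 2) * (T₀ / (10 ^ 6 * m ^ 2))
          = kk I.card ^ 2 * T₀ := by field_simp
      rw [e2]; exact e1
    have hinj : ∀ B ∈ 𝓑, ∀ B' ∈ 𝓑, B.2 < B'.1 → ⌊(B.1 - a) / δ⌋₊ < ⌊(B'.1 - a) / δ⌋₊ := by
      intro B hBm B' hBm' hlt
      have e1 := claimB B hBm
      have e2 : δ ≤ B.2 - B.1 := by
        rw [hδ, div_le_iff₀ (by positivity)]; linarith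
      have e3 : (B.1 - a) / δ + 1 ≤ (B'.1 - a) / δ := by
        rw [div_add_one hδ0.ne']
        apply div_le_div_of_nonneg_right _ hδ0.le
        linarith
      have e4 : 0 ≤ (B.1 - a) / δ := by
        have := (hB.mem B hBm).1
        apply div_nonneg _ hδ0.le
        linarith
      calc ⌊(B.1 - a) / δ⌋₊ < ⌊(B.1 - a) / δ⌋₊ + 1 := Nat.lt_succ_self _
        _ = ⌊(B.1 - a) / δ + 1⌋₊ := (Nat.floor_add_one e4).symm
        _ ≤ _ := Nat.floor_le_floor e3
    calc 𝓑.card ≤ (Finset.range (Nf I.card)).card := by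
          apply Finset.card_le_card_of_injOn (fun B : ℝ × ℝ => ⌊(B.1 - a) / δ⌋₊)
            (fun B hBm => hmaps B hBm)
          intro B hBm B' hBm' heq
          by_contra hne
          simp only at heq
          rcases hB.disj B hBm B' hBm' hne with h | h
          · have := hinj B hBm B' hBm' h
            omega
          · have := hinj B' hBm' B hBm h
            omega
      _ = Nf I.card := Finset.card_range _

/-- bound for the number of disjoint connected blocks -/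
lemma blocks_le (S : TSys 𝒢 I X τp τm ω a b) (hI : 2 ≤ I.card)
    (hfin : ∀ i ∈ I, ∀ j ∈ I, i ≠ j → {t | t ∈ Icc a b ∧ X i t = X j t}.Finite)
    {𝓑 : Finset (ℝ × ℝ)} (hB : IsBlocks I X a b 𝓑) : 𝓑.card ≤ 2 * Nf I.card + 1 := by
  classical
  obtain ⟨i₀, hi₀⟩ : I.Nonempty := Finset.card_pos.1 (by omega)
  have hab := S.lt
  have hne : (I ×ˢ I).Nonempty := ⟨(i₀, i₀), Finset.mk_mem_product hi₀ hi₀⟩
  set D : ℝ → ℝ := fun t => (I ×ˢ I).sup' hne (fun p => ‖X p.1 t - X p.2 t‖) with hD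
  have hDc : ContinuousOn D (Icc a b) := by
    apply ContinuousOn.finset_sup'_apply
    intro p hp
    rw [Finset.mem_product] at hp
    exact ((S.cont hp.1).sub (S.cont hp.2)).norm
  obtain ⟨s, hs, hmin⟩ := isCompact_Icc.exists_isMinOn ⟨a, ⟨le_rfl, hab.le⟩⟩ hDc
  have hD1 : ∀ i ∈ I, ∀ j ∈ I, ‖X i s - X j s‖ ≤ D s := fun i hi j hj =>
    Finset.le_sup' (fun p : ι × ι => ‖X p.1 s - X p.2 s‖) (Finset.mk_mem_product hi hj)
  have hD2 : ∀ t ∈ Icc a b, ∃ i ∈ I, ∃ j ∈ I, D s ≤ ‖X i t - X j t‖ := by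
    intro t ht
    obtain ⟨p, hp, hpe⟩ := Finset.exists_mem_eq_sup' hne (fun p : ι × ι => ‖X p.1 t - X p.2 t‖)
    rw [Finset.mem_product] at hp
    refine ⟨p.1, hp.1, p.2, hp.2, ?_⟩
    rw [← hpe]
    exact isMinOn_iff.1 hmin t ht
  -- forward part
  have hF : (𝓑.filter (fun B => s < B.1)).card ≤ Nf I.card := by
    rcases eq_or_lt_of_le hs.2 with h | h
    · have : 𝓑.filter (fun B => s < B.1) = ∅ := by
        rw [Finset.eq_empty_iff_forall_notMem]
        intro B hBm
        rw [Finset.mem_filter] at hBm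
        obtain ⟨-, e2, e3, -⟩ := hB.mem B hBm.1
        linarith [hBm.2]
      rw [this]; simp
    · refine (S.restrict hs.1 le_rfl h).forward hI ?_ hD1 ?_ (𝓑 := 𝓑.filter (fun B => s < B.1))
        ⟨?_, ?_⟩
      · intro i hi j hj hij
        exact (hfin i hi j hj hij).subset fun t ht => ⟨⟨hs.1.trans ht.1.1, ht.1.2⟩, ht.2⟩
      · intro t ht
        exact hD2 t ⟨hs.1.trans ht.1, ht.2⟩
      · intro B hBm
        rw [Finset.mem_filter] at hBm
        obtain ⟨-, e2, e3, e4⟩ := hB.mem B hBm.1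
        exact ⟨hBm.2, e2, e3, e4⟩
      · intro B hBm B' hBm' hne'
        exact hB.disj B (Finset.mem_filter.1 hBm).1 B' (Finset.mem_filter.1 hBm').1 hne'
  -- backward part
  have hG : (𝓑.filter (fun B => B.2 < s)).card ≤ Nf I.card := by
    rcases eq_or_lt_of_le hs.1 with h | h
    · have : 𝓑.filter (fun B => B.2 < s) = ∅ := by
        rw [Finset.eq_empty_iff_forall_notMem]
        intro B hBm
        rw [Finset.mem_filter] at hBm
        obtain ⟨e1, e2, e3, -⟩ := hB.mem B hBm.1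
        linarith [hBm.2]
      rw [this]; simp
    · have S' := (S.restrict le_rfl hs.2 h).reverse
      set 𝓑' : Finset (ℝ × ℝ) := (𝓑.filter (fun B => B.2 < s)).image (fun B => (-B.2, -B.1))
        with h𝓑'
      have hcard : 𝓑'.card = (𝓑.filter (fun B => B.2 < s)).card := by
        apply Finset.card_image_of_injective
        intro B B' hBB
        simp only [Prod.mk.injEq, neg_inj] at hBB
        exact Prod.ext hBB.2 hBB.1
      rw [← hcard]
      refine S'.forward hI ?_ (d₀ := D s) ?_ ?_ ⟨?_, ?_⟩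
      · intro i hi j hj hij
        have := (hfin i hi j hj hij).preimage (f := fun t : ℝ => -t) (neg_injective.injOn)
        refine this.subset fun t ht => ?_
        simp only [mem_preimage, mem_ofPred_eq]
        exact ⟨⟨by linarith [ht.1.2], by linarith [ht.1.1, hs.2]⟩, ht.2⟩
      · intro i hi j hj
        simp only [neg_neg]
        exact hD1 i hi j hj
      · intro t ht
        exact hD2 (-t) ⟨by linarith [ht.2], by linarith [ht.1, hs.2]⟩
      · intro B hBm
        rw [h𝓑', Finset.mem_image] at hBm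
        obtain ⟨C, hC, rfl⟩ := hBm
        rw [Finset.mem_filter] at hC
        obtain ⟨e1, e2, e3, e4⟩ := hB.mem C hC.1
        refine ⟨by simpa using hC.2, by simpa using e2, by simpa using e1, ?_⟩
        intro J hJ hJn hJI
        obtain ⟨i, hi, j, hj, hnj, t, ht, hX⟩ := e4 J hJ hJn hJI
        refine ⟨i, hi, j, hj, hnj, -t, ⟨?_, ?_⟩, ?_⟩
        · simpa using ht.2
        · simpa using ht.1
        · simpa using hX
      · intro B hBm B' hBm' hne'
        rw [h𝓑', Finset.mem_image] at hBm hBm'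
        obtain ⟨C, hC, rfl⟩ := hBm
        obtain ⟨C', hC', rfl⟩ := hBm'
        have hne2 : C ≠ C' := by
          rintro rfl; exact hne' rfl
        rcases hB.disj C (Finset.mem_filter.1 hC).1 C' (Finset.mem_filter.1 hC').1 hne2 with h | h
        · right; simpa using h
        · left; simpa using h
  -- middle part
  have hM : (𝓑.filter (fun B => B.1 ≤ s ∧ s ≤ B.2)).card ≤ 1 := by
    rw [Finset.card_le_one]
    intro B hBm B' hBm'
    rw [Finset.mem_filter] at hBm hBm'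
    by_contra hne'
    rcases hB.disj B hBm.1 B' hBm'.1 hne' with h | h
    · linarith [hBm.2.2, hBm'.2.1]
    · linarith [hBm.2.1, hBm'.2.2]
  have hsub : 𝓑 ⊆ (𝓑.filter (fun B => s < B.1)) ∪ (𝓑.filter (fun B => B.2 < s))
      ∪ (𝓑.filter (fun B => B.1 ≤ s ∧ s ≤ B.2)) := by
    intro B hBm
    simp only [Finset.mem_union, Finset.mem_filter]
    by_cases h1 : s < B.1
    · left; left; exact ⟨hBm, h1⟩
    · by_cases h2 : B.2 < s
      · left; right; exact ⟨hBm, h2⟩
      · right; exact ⟨hBm, not_lt.1 h1, not_lt.1 h2⟩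
  have h3 := Finset.card_le_card hsub
  have h4 := Finset.card_union_le ((𝓑.filter (fun B => s < B.1)) ∪ (𝓑.filter (fun B => B.2 < s)))
    (𝓑.filter (fun B => B.1 ≤ s ∧ s ≤ B.2))
  have h5 := Finset.card_union_le (𝓑.filter (fun B => s < B.1)) (𝓑.filter (fun B => B.2 < s))
  omega

end TSys

/-- collision times of a family of curves in `(a, b)` -/
def Coll {ι : Type*} (I : Finset ι) (X : ι → ℝ → E) (a b : ℝ) : Set ℝ :=
  {t | t ∈ Ioo a b ∧ ∃ i ∈ I, ∃ j ∈ I, i ≠ j ∧ X i t = X j t}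

omit [InnerProductSpace ℝ E] in
set_option linter.unusedSectionVars false in
lemma Coll.finite {ι : Type*} {I : Finset ι} {X : ι → ℝ → E} {a b : ℝ}
    (hfin : ∀ i ∈ I, ∀ j ∈ I, i ≠ j → {t | t ∈ Icc a b ∧ X i t = X j t}.Finite) :
    (Coll I X a b).Finite := by
  classical
  have h1 : Coll I X a b ⊆ ⋃ p ∈ (I ×ˢ I).filter (fun p => p.1 ≠ p.2),
      {t | t ∈ Icc a b ∧ X p.1 t = X p.2 t} := by
    rintro t ⟨ht, i, hi, j, hj, hij, hX⟩
    simp only [mem_iUnion]
    exact ⟨(i, j), Finset.mem_filter.2 ⟨Finset.mk_mem_product hi hj, hij⟩,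
      ⟨ht.1.le, ht.2.le⟩, hX⟩
  refine Set.Finite.subset (Set.Finite.biUnion (Finset.finite_toSet _) ?_) h1
  intro p hp
  rw [Finset.mem_coe, Finset.mem_filter, Finset.mem_product] at hp
  exact hfin p.1 hp.1.1 p.2 hp.1.2 hp.2

/-- The collision theorem. -/
theorem collision_bound (E : Type*) [NormedAddCommGroup E] [InnerProductSpace ℝ E] (m : ℕ) :
    ∃ S : ℕ, ∀ (𝒢 : LocGeo E) (ι : Type) (I : Finset ι) (X τp τm : ι → ℝ → E) (ω : E) (a b : ℝ),
      TSys 𝒢 I X τp τm ω a b →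
      (∀ i ∈ I, ∀ j ∈ I, i ≠ j → {t | t ∈ Icc a b ∧ X i t = X j t}.Finite) →
      I.card = m → (Coll I X a b).ncard ≤ S := by
  classical
  induction m using Nat.strong_induction_on with
  | _ m ih =>
  by_cases hm : m < 2
  · refine ⟨0, ?_⟩
    intro 𝒢 ι I X τp τm ω a b S hfin hI
    have : Coll I X a b = ∅ := by
      rw [Set.eq_empty_iff_forall_notMem]
      rintro t ⟨ht, i, hi, j, hj, hij, hX⟩
      have : 1 < I.card := Finset.one_lt_card.2 ⟨i, hi, j, hj, hij⟩
      omega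
    rw [this]; simp
  push Not at hm
  -- uniform bound for smaller systems
  obtain ⟨S', hS'⟩ : ∃ S' : ℕ, ∀ m' < m, ∀ (𝒢 : LocGeo E) (ι : Type) (I : Finset ι)
      (X τp τm : ι → ℝ → E) (ω : E) (a b : ℝ), TSys 𝒢 I X τp τm ω a b →
      (∀ i ∈ I, ∀ j ∈ I, i ≠ j → {t | t ∈ Icc a b ∧ X i t = X j t}.Finite) →
      I.card = m' → (Coll I X a b).ncard ≤ S' := by
    have h1 : ∀ m' : ℕ, ∃ S : ℕ, m' < m → ∀ (𝒢 : LocGeo E) (ι : Type) (I : Finset ι)
      (X τp τm : ι → ℝ → E) (ω : E) (a b : ℝ), TSys 𝒢 I X τp τm ω a b →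
      (∀ i ∈ I, ∀ j ∈ I, i ≠ j → {t | t ∈ Icc a b ∧ X i t = X j t}.Finite) →
      I.card = m' → (Coll I X a b).ncard ≤ S := by
      intro m'
      by_cases h : m' < m
      · obtain ⟨S, hS⟩ := ih m' h
        exact ⟨S, fun _ => hS⟩
      · exact ⟨0, fun h' => absurd h' h⟩
    choose f hf using h1
    refine ⟨(Finset.range m).sup f, ?_⟩
    intro m' hm' 𝒢 ι I X τp τm ω a b hS hfin hI
    exact (hf m' hm' 𝒢 ι I X τp τm ω a b hS hfin hI).trans
      (Finset.le_sup (f := f) (Finset.mem_range.2 hm'))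
  -- systems with an uncrossed cut
  have caseA : ∀ (𝒢 : LocGeo E) (ι : Type) (I : Finset ι) (X τp τm : ι → ℝ → E) (ω : E)
      (a b : ℝ), TSys 𝒢 I X τp τm ω a b →
      (∀ i ∈ I, ∀ j ∈ I, i ≠ j → {t | t ∈ Icc a b ∧ X i t = X j t}.Finite) →
      I.card = m → (∃ J ⊆ I, J.Nonempty ∧ J ≠ I ∧
        ∀ t ∈ Ioo a b, ∀ i ∈ J, ∀ j ∈ I, j ∉ J → X i t ≠ X j t) →
      (Coll I X a b).ncard ≤ 2 * S' := by
    intro 𝒢 ι I X τp τm ω a b S hfin hI ⟨J, hJ, hJn, hJI, hcut⟩
    have hJlt : J.card < m := by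
      rw [← hI]; exact Finset.card_lt_card (Finset.ssubset_iff_subset_ne.2 ⟨hJ, hJI⟩)
    have hJ'lt : (I \ J).card < m := by
      rw [Finset.card_sdiff_of_subset hJ, hI]
      have := Finset.card_pos.2 hJn
      omega
    have S1 := S.sub hJ hcut
    have S2 : TSys 𝒢 (I \ J) X τp τm ω a b := by
      apply S.sub Finset.sdiff_subset
      intro t ht i hi j hj hnj
      rw [Finset.mem_sdiff] at hi
      have hjJ : j ∈ J := by
        by_contra h
        exact hnj (Finset.mem_sdiff.2 ⟨hj, h⟩)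
      exact (hcut t ht j hjJ i hi.1 hi.2).symm
    have b1 := hS' _ hJlt 𝒢 ι J X τp τm ω a b S1
      (fun i hi j hj => hfin i (hJ hi) j (hJ hj)) rfl
    have b2 := hS' _ hJ'lt 𝒢 ι (I \ J) X τp τm ω a b S2
      (fun i hi j hj => hfin i (Finset.sdiff_subset hi) j (Finset.sdiff_subset hj)) rfl
    have hsub : Coll I X a b ⊆ Coll J X a b ∪ Coll (I \ J) X a b := by
      rintro t ⟨ht, i, hi, j, hj, hij, hX⟩
      by_cases hiJ : i ∈ J
      · by_cases hjJ : j ∈ J
        · left; exact ⟨ht, i, hiJ, j, hjJ, hij, hX⟩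
        · exact absurd hX (hcut t ht i hiJ j hj hjJ)
      · by_cases hjJ : j ∈ J
        · exact absurd hX.symm (hcut t ht j hjJ i hi hiJ)
        · right
          exact ⟨ht, i, Finset.mem_sdiff.2 ⟨hi, hiJ⟩, j, Finset.mem_sdiff.2 ⟨hj, hjJ⟩, hij, hX⟩
    have hfinU : (Coll J X a b ∪ Coll (I \ J) X a b).Finite :=
      (Coll.finite (fun i hi j hj => hfin i (hJ hi) j (hJ hj))).union
        (Coll.finite (fun i hi j hj => hfin i (Finset.sdiff_subset hi) j (Finset.sdiff_subset hj)))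
    calc (Coll I X a b).ncard ≤ (Coll J X a b ∪ Coll (I \ J) X a b).ncard :=
          Set.ncard_le_ncard hsub hfinU
      _ ≤ (Coll J X a b).ncard + (Coll (I \ J) X a b).ncard := Set.ncard_union_le _ _
      _ ≤ _ := by omega
  -- induction on the number of blocks
  have inner : ∀ (B : ℕ) (𝒢 : LocGeo E) (ι : Type) (I : Finset ι) (X τp τm : ι → ℝ → E) (ω : E)
      (a b : ℝ), TSys 𝒢 I X τp τm ω a b →
      (∀ i ∈ I, ∀ j ∈ I, i ≠ j → {t | t ∈ Icc a b ∧ X i t = X j t}.Finite) →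
      I.card = m → (∀ 𝓑, IsBlocks I X a b 𝓑 → 𝓑.card ≤ B) →
      (Coll I X a b).ncard ≤ (B + 1) * (2 * S' + 1) := by
    intro B
    induction B with
    | zero =>
      intro 𝒢 ι I X τp τm ω a b S hfin hI hblocks
      by_cases hA : ∃ J ⊆ I, J.Nonempty ∧ J ≠ I ∧
        ∀ t ∈ Ioo a b, ∀ i ∈ J, ∀ j ∈ I, j ∉ J → X i t ≠ X j t
      · have := caseA 𝒢 ι I X τp τm ω a b S hfin hI hA
        omega
      · exfalso
        push Not at hA
        have hCf := Coll.finite (X := X) hfin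
        obtain ⟨i₀, hi₀⟩ : I.Nonempty := Finset.card_pos.1 (by omega)
        have hCn : hCf.toFinset.Nonempty := by
          have h2 : ({i₀} : Finset ι) ≠ I := by
            intro h
            rw [← h] at hI
            simp at hI
            omega
          obtain ⟨t, ht, i, hi, j, hj, hnj, hX⟩ := hA {i₀} (by simpa using hi₀) (by simp) h2
          refine ⟨t, hCf.mem_toFinset.2 ⟨ht, i, by rw [Finset.mem_singleton.1 hi]; exact hi₀, j,
            hj, ?_, hX⟩⟩
          rintro rfl; exact hnj hi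
        have hmem : ∀ J ⊆ I, J.Nonempty → J ≠ I → ∃ i ∈ J, ∃ j ∈ I, j ∉ J ∧
            ∃ t ∈ Icc (hCf.toFinset.min' hCn) (hCf.toFinset.max' hCn), X i t = X j t := by
          intro J hJ hJn hJI
          obtain ⟨t, ht, i, hi, j, hj, hnj, hX⟩ := hA J hJ hJn hJI
          have htC : t ∈ hCf.toFinset := hCf.mem_toFinset.2 ⟨ht, i, hJ hi, j, hj, by
            rintro rfl; exact hnj hi, hX⟩
          exact ⟨i, hi, j, hj, hnj, t, ⟨Finset.min'_le _ _ htC, Finset.le_max' _ _ htC⟩, hX⟩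
        have h3 := hblocks {(hCf.toFinset.min' hCn, hCf.toFinset.max' hCn)} ⟨by
          intro B hB
          rw [Finset.mem_singleton] at hB
          subst hB
          have e1 := (hCf.mem_toFinset.1 (Finset.min'_mem _ hCn)).1
          have e2 := (hCf.mem_toFinset.1 (Finset.max'_mem _ hCn)).1
          exact ⟨e1.1, Finset.min'_le_max' _ hCn, e2.2, hmem⟩, by
          intro B hB B' hB' hne
          rw [Finset.mem_singleton] at hB hB'
          exact absurd (hB.trans hB'.symm) hne⟩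
        simp at h3
    | succ B ihB =>
      intro 𝒢 ι I X τp τm ω a b S hfin hI hblocks
      by_cases hA : ∃ J ⊆ I, J.Nonempty ∧ J ≠ I ∧
        ∀ t ∈ Ioo a b, ∀ i ∈ J, ∀ j ∈ I, j ∉ J → X i t ≠ X j t
      · have := caseA 𝒢 ι I X τp τm ω a b S hfin hI hA
        nlinarith
      · push Not at hA
        have hCf := Coll.finite (X := X) hfin
        obtain ⟨i₀, hi₀⟩ : I.Nonempty := Finset.card_pos.1 (by omega)
        have hCn : hCf.toFinset.Nonempty := by
          have h2 : ({i₀} : Finset ι) ≠ I := by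
            intro h
            rw [← h] at hI
            simp at hI
            omega
          obtain ⟨t, ht, i, hi, j, hj, hnj, hX⟩ := hA {i₀} (by simpa using hi₀) (by simp) h2
          refine ⟨t, hCf.mem_toFinset.2 ⟨ht, i, by rw [Finset.mem_singleton.1 hi]; exact hi₀, j,
            hj, ?_, hX⟩⟩
          rintro rfl; exact hnj hi
        set F := hCf.toFinset with hF
        have hcross : ∀ J ⊆ I, J.Nonempty → J ≠ I → ∃ t ∈ F, ∃ i ∈ J, ∃ j ∈ I, j ∉ J ∧
            X i t = X j t := by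
          intro J hJ hJn hJI
          obtain ⟨t, ht, i, hi, j, hj, hnj, hX⟩ := hA J hJ hJn hJI
          exact ⟨t, hCf.mem_toFinset.2 ⟨ht, i, hJ hi, j, hj, by
            rintro rfl; exact hnj hi, hX⟩, i, hi, j, hj, hnj, hX⟩
        set c₀ := F.min' hCn with hc₀
        have hGn : (F.filter (fun t => Conn I X c₀ t)).Nonempty := by
          refine ⟨F.max' hCn, Finset.mem_filter.2 ⟨Finset.max'_mem _ _, ?_⟩⟩
          intro J hJ hJn hJI
          obtain ⟨t, ht, i, hi, j, hj, hnj, hX⟩ := hcross J hJ hJn hJI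
          exact ⟨i, hi, j, hj, hnj, t, ⟨Finset.min'_le _ _ ht, Finset.le_max' _ _ ht⟩, hX⟩
        set t₁ := (F.filter (fun t => Conn I X c₀ t)).min' hGn with ht₁
        have ht₁m := Finset.min'_mem _ hGn
        rw [← ht₁, Finset.mem_filter] at ht₁m
        have ht₁I : t₁ ∈ Ioo a b := (hCf.mem_toFinset.1 ht₁m.1).1
        have hc₀I : c₀ ∈ Ioo a b := (hCf.mem_toFinset.1 (Finset.min'_mem _ hCn)).1
        have hc₀t₁ : c₀ ≤ t₁ := Finset.min'_le _ _ ht₁m.1
        -- left part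
        have hL : (Coll I X a t₁).ncard ≤ 2 * S' := by
          apply caseA 𝒢 ι I X τp τm ω a t₁ (S.restrict le_rfl ht₁I.2.le ht₁I.1)
            (fun i hi j hj hij => (hfin i hi j hj hij).subset
              fun t ht => ⟨⟨ht.1.1, ht.1.2.trans ht₁I.2.le⟩, ht.2⟩) hI
          by_contra hcon
          push Not at hcon
          have hcross' : ∀ J ⊆ I, J.Nonempty → J ≠ I →
              ∃ t ∈ F.filter (fun t => t < t₁), ∃ i ∈ J, ∃ j ∈ I, j ∉ J ∧ X i t = X j t := by
            intro J hJ hJn hJI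
            obtain ⟨t, ht, i, hi, j, hj, hnj, hX⟩ := hcon J hJ hJn hJI
            refine ⟨t, Finset.mem_filter.2 ⟨hCf.mem_toFinset.2
              ⟨⟨ht.1, ht.2.trans ht₁I.2⟩, i, hJ hi, j, hj, ?_, hX⟩, ht.2⟩, i, hi, j, hj, hnj, hX⟩
            rintro rfl; exact hnj hi
          have h2 : ({i₀} : Finset ι) ≠ I := by
            intro h
            rw [← h] at hI
            simp at hI
            omega
          obtain ⟨t, ht, -⟩ := hcross' {i₀} (by simpa using hi₀) (by simp) h2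
          have hFn : (F.filter (fun t => t < t₁)).Nonempty := ⟨t, ht⟩
          set t₂ := (F.filter (fun t => t < t₁)).max' hFn with ht₂
          have ht₂m := Finset.max'_mem _ hFn
          rw [← ht₂, Finset.mem_filter] at ht₂m
          have hconn₂ : Conn I X c₀ t₂ := by
            intro J hJ hJn hJI
            obtain ⟨t, ht, i, hi, j, hj, hnj, hX⟩ := hcross' J hJ hJn hJI
            exact ⟨i, hi, j, hj, hnj, t, ⟨Finset.min'_le _ _ (Finset.mem_filter.1 ht).1,
              Finset.le_max' _ _ ht⟩, hX⟩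
          have h5 : t₁ ≤ t₂ := Finset.min'_le _ _ (Finset.mem_filter.2 ⟨ht₂m.1, hconn₂⟩)
          linarith [ht₂m.2]
        -- right part
        have hR : (Coll I X t₁ b).ncard ≤ (B + 1) * (2 * S' + 1) := by
          apply ihB 𝒢 ι I X τp τm ω t₁ b (S.restrict ht₁I.1.le le_rfl ht₁I.2)
            (fun i hi j hj hij => (hfin i hi j hj hij).subset
              fun t ht => ⟨⟨ht₁I.1.le.trans ht.1.1, ht.1.2⟩, ht.2⟩) hI
          intro 𝓑 h𝓑
          have hnot : (c₀, t₁) ∉ 𝓑 := by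
            intro h
            have := (h𝓑.mem _ h).1
            simp only at this
            linarith
          have h6 := hblocks (insert (c₀, t₁) 𝓑) ⟨by
            intro C hC
            rcases Finset.mem_insert.1 hC with hC | hC
            · subst hC
              exact ⟨hc₀I.1, hc₀t₁, ht₁I.2, ht₁m.2⟩
            · obtain ⟨e1, e2, e3, e4⟩ := h𝓑.mem C hC
              exact ⟨ht₁I.1.trans e1, e2, e3, e4⟩, by
            intro C hC C' hC' hne
            rcases Finset.mem_insert.1 hC with hC | hC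
            · rcases Finset.mem_insert.1 hC' with hC' | hC'
              · exact absurd (hC.trans hC'.symm) hne
              · subst hC
                left; exact (h𝓑.mem C' hC').1
            · rcases Finset.mem_insert.1 hC' with hC' | hC'
              · subst hC'
                right; exact (h𝓑.mem C hC).1
              · exact h𝓑.disj C hC C' hC' hne⟩
          rw [Finset.card_insert_of_notMem hnot] at h6
          omega
        have hsub : Coll I X a b ⊆ (Coll I X a t₁ ∪ {t₁}) ∪ Coll I X t₁ b := by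
          rintro t ⟨ht, hrest⟩
          rcases lt_trichotomy t t₁ with h | h | h
          · left; left; exact ⟨⟨ht.1, h⟩, hrest⟩
          · left; right; exact h
          · right; exact ⟨⟨h, ht.2⟩, hrest⟩
        have hf1 : (Coll I X a t₁).Finite := hCf.subset (fun t ht =>
          ⟨⟨ht.1.1, ht.1.2.trans ht₁I.2⟩, ht.2⟩)
        have hf2 : (Coll I X t₁ b).Finite := hCf.subset (fun t ht =>
          ⟨⟨ht₁I.1.trans ht.1.1, ht.1.2⟩, ht.2⟩)
        have h7 := Set.ncard_le_ncard hsub ((hf1.union (Set.finite_singleton _)).union hf2)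
        have h8 := Set.ncard_union_le (Coll I X a t₁ ∪ {t₁}) (Coll I X t₁ b)
        have h9 := Set.ncard_union_le (Coll I X a t₁) {t₁}
        rw [Set.ncard_singleton] at h9
        have h10 : (B + 1 + 1) * (2 * S' + 1) = (B + 1) * (2 * S' + 1) + (2 * S' + 1) := by ring
        rw [h10]
        omega
  refine ⟨(2 * Nf m + 1 + 1) * (2 * S' + 1), ?_⟩
  intro 𝒢 ι I X τp τm ω a b S hfin hI
  exact inner (2 * Nf m + 1) 𝒢 ι I X τp τm ω a b S hfin hI
    (fun 𝓑 h𝓑 => by rw [← hI]; exact S.blocks_le (by omega) hfin h𝓑)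

end Pool.Agent.GeoNet
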