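import Pool.Agent.GeoNet.ODeg

/-!
# Labelled threads of an outward network
-/

namespace Pool.Agent.GeoNet

open Set Metric Filter
open scoped Topology RealInnerProductSpace

variable {E : Type*} [NormedAddCommGroup E] [InnerProductSpace ℝ E]

lemma RGerm.congr {𝒢 : LocGeo E} {X τ X₁ τ₁ : ℝ → E} {t : ℝ} (h : RGerm 𝒢 X τ t)
    (he : ∀ᶠ t' in 𝓝[≥] t, X₁ t' = X t' ∧ τ₁ t' = τ t') : RGerm 𝒢 X₁ τ₁ t := by
  obtain ⟨Y, Y', s₀, h₁, σ, c, hlt, hY, hσt, hc, hc', hσ, hev⟩ := h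
  refine ⟨Y, Y', s₀, h₁, σ, c, hlt, hY, hσt, hc, hc', hσ, ?_⟩
  filter_upwards [hev, he] with s hs hs'
  exact ⟨hs.1, hs'.1.trans hs.2.1, hs'.2.trans hs.2.2⟩

lemma LGerm.congr {𝒢 : LocGeo E} {X τ X₁ τ₁ : ℝ → E} {t : ℝ} (h : LGerm 𝒢 X τ t)
    (he : ∀ᶠ t' in 𝓝[≤] t, X₁ t' = X t' ∧ τ₁ t' = τ t') : LGerm 𝒢 X₁ τ₁ t := by
  have h2 : Tendsto (fun s : ℝ => -s) (𝓝[≥] (-t)) (𝓝[≤] t) := by
    have := tendsto_neg_nhdsGE (a := -t)
    simpa using this
  refine RGerm.congr (show RGerm 𝒢 (fun s => X (-s)) (fun s => -τ (-s)) (-t) from h) ?_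
  filter_upwards [h2.eventually he] with s hs
  exact ⟨hs.1, by rw [hs.2]⟩

namespace ONet

variable {𝒢 : LocGeo E} {O : E} {R : ℝ} (N : ONet 𝒢 O R)

variable {N}

lemma exists_succ {R₁ R₂ : ℝ}
    (hio : ∀ p ∈ U E, R₁ ≤ 𝒢.rho O p → 𝒢.rho O p ≤ R₂ → N.outD p = N.inD p) :
    ∃ succ : N.A → N.A,
      (∀ a, N.be a ∈ Icc R₁ R₂ → N.Y (succ a) 0 = N.Y a (N.h a)) ∧
      (∀ a b, N.be a ∈ Icc R₁ R₂ → N.be b ∈ Icc R₁ R₂ → succ a = succ b → a = b) ∧
      (∀ a, N.be a ∉ Icc R₁ R₂ → succ a = a) := by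
  classical
  have hbij : ∀ p : E, ∃ e : N.A → N.A, p ∈ U E → R₁ ≤ 𝒢.rho O p → 𝒢.rho O p ≤ R₂ →
      BijOn e {a | N.Y a (N.h a) = p} {a | N.Y a 0 = p} := by
    intro p
    by_cases hp : p ∈ U E ∧ R₁ ≤ 𝒢.rho O p ∧ 𝒢.rho O p ≤ R₂
    · have h1 := hio p hp.1 hp.2.1 hp.2.2
      unfold outD inD at h1
      have f1 : {a | N.Y a (N.h a) = p}.Finite := Set.toFinite _
      have f2 : {a | N.Y a 0 = p}.Finite := Set.toFinite _
      have h2 : {a | N.Y a (N.h a) = p}.encard = {a | N.Y a 0 = p}.encard := by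
        rw [← f1.cast_ncard_eq, ← f2.cast_ncard_eq, h1]
      rcases Set.eq_empty_or_nonempty {a | N.Y a (N.h a) = p} with he | hne
      · refine ⟨id, fun _ _ _ => ?_⟩
        have h3 : {a | N.Y a 0 = p} = ∅ := by
          rw [he, Set.encard_empty] at h2
          exact Set.encard_eq_zero.1 h2.symm
        rw [he, h3]
        exact Set.bijOn_empty _
      · haveI : Nonempty N.A := hne.to_type
        obtain ⟨e, he⟩ := f1.exists_bijOn_of_encard_eq h2
        exact ⟨e, fun _ _ _ => he⟩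
    · exact ⟨id, fun a b c => absurd ⟨a, b, c⟩ hp⟩
  choose e he using hbij
  have key : ∀ a, N.be a ∈ Icc R₁ R₂ →
      BijOn (e (N.Y a (N.h a))) {b | N.Y b (N.h b) = N.Y a (N.h a)} {b | N.Y b 0 = N.Y a (N.h a)} :=
    fun a ha => he _ ((N.geo a).mem _ ⟨(N.h_pos a).le, le_rfl⟩) ha.1 ha.2
  refine ⟨fun a => if N.be a ∈ Icc R₁ R₂ then e (N.Y a (N.h a)) a else a, ?_, ?_, ?_⟩
  · intro a ha
    simp only [if_pos ha]
    exact (key a ha).mapsTo (show N.Y a (N.h a) = N.Y a (N.h a) from rfl)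
  · intro a b ha hb hab
    simp only [if_pos ha, if_pos hb] at hab
    have h1 : N.Y (e (N.Y a (N.h a)) a) 0 = N.Y a (N.h a) :=
      (key a ha).mapsTo (show N.Y a (N.h a) = N.Y a (N.h a) from rfl)
    have h2 : N.Y (e (N.Y b (N.h b)) b) 0 = N.Y b (N.h b) :=
      (key b hb).mapsTo (show N.Y b (N.h b) = N.Y b (N.h b) from rfl)
    have h3 : N.Y a (N.h a) = N.Y b (N.h b) := by rw [← h1, ← h2, hab]
    rw [← h3] at hab
    exact (key a ha).injOn (show N.Y a (N.h a) = N.Y a (N.h a) from rfl)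
      (show N.Y b (N.h b) = N.Y a (N.h a) from h3.symm) hab
  · intro a ha
    simp only [if_neg ha]

section orbit

variable {succ : N.A → N.A} {R₁ R₂ : ℝ}

/-- the data of a successor map -/
structure IsSucc (N : ONet 𝒢 O R) (succ : N.A → N.A) (R₁ R₂ : ℝ) : Prop where
  start : ∀ a, N.be a ∈ Icc R₁ R₂ → N.Y (succ a) 0 = N.Y a (N.h a)
  inj : ∀ a b, N.be a ∈ Icc R₁ R₂ → N.be b ∈ Icc R₁ R₂ → succ a = succ b → a = b
  fix : ∀ a, N.be a ∉ Icc R₁ R₂ → succ a = a

lemma IsSucc.al_succ (H : IsSucc N succ R₁ R₂) {a : N.A} (ha : N.be a ∈ Icc R₁ R₂) :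
    N.al (succ a) = N.be a := by
  unfold al be; rw [H.start a ha]

lemma IsSucc.be_gt (H : IsSucc N succ R₁ R₂) {i : N.A} (hi : R₁ < N.be i) (n : ℕ) :
    R₁ < N.be (succ^[n] i) := by
  induction n with
  | zero => exact hi
  | succ n ih =>
    rw [Function.iterate_succ_apply']
    by_cases h : N.be (succ^[n] i) ∈ Icc R₁ R₂
    · have h1 := H.al_succ h
      have h2 := al_lt_be (succ (succ^[n] i))
      linarith
    · rw [H.fix _ h]; exact ih

lemma IsSucc.be_succ (H : IsSucc N succ R₁ R₂) {i : N.A} (hi : R₁ < N.be i) {n : ℕ}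
    (hn : N.be (succ^[n] i) ≤ R₂) :
    N.al (succ^[n + 1] i) = N.be (succ^[n] i) ∧ N.be (succ^[n] i) < N.be (succ^[n + 1] i) ∧
    N.Y (succ^[n + 1] i) 0 = N.Y (succ^[n] i) (N.h (succ^[n] i)) := by
  have hm : N.be (succ^[n] i) ∈ Icc R₁ R₂ := ⟨(H.be_gt hi n).le, hn⟩
  rw [Function.iterate_succ_apply']
  have h1 := H.al_succ hm
  have h2 := al_lt_be (succ (succ^[n] i))
  exact ⟨h1, by linarith, H.start _ hm⟩

lemma IsSucc.be_mono (H : IsSucc N succ R₁ R₂) {i : N.A} (hi : R₁ < N.be i) :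
    Monotone fun n => N.be (succ^[n] i) := by
  apply monotone_nat_of_le_succ
  intro n
  by_cases h : N.be (succ^[n] i) ≤ R₂
  · exact (H.be_succ hi h).2.1.le
  · rw [Function.iterate_succ_apply']
    rw [H.fix _ (fun hh => h hh.2)]

lemma IsSucc.exists_gt (H : IsSucc N succ R₁ R₂) {i : N.A} (hi : R₁ < N.be i) :
    ∃ n, R₂ < N.be (succ^[n] i) := by
  by_contra hcon
  push Not at hcon
  have hs : StrictMono fun n => N.be (succ^[n] i) :=
    strictMono_nat_of_lt_succ fun n => (H.be_succ hi (hcon n)).2.1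
  have hinj : Function.Injective fun n => succ^[n] i := by
    intro m n hmn
    exact hs.injective (congrArg N.be hmn)
  exact not_injective_infinite_finite _ hinj

lemma IsSucc.orbit_inj (H : IsSucc N succ R₁ R₂) {i j : N.A} (hi : R₁ < N.be i)
    (hi' : N.al i ≤ R₁) (hj : R₁ < N.be j) (hj' : N.al j ≤ R₁) :
    ∀ n m : ℕ, (∀ l < n, N.be (succ^[l] i) ≤ R₂) → (∀ l < m, N.be (succ^[l] j) ≤ R₂) →
      succ^[n] i = succ^[m] j → n = m ∧ i = j := by
  intro n
  induction n with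
  | zero =>
    intro m _ hm h
    cases m with
    | zero => exact ⟨rfl, h⟩
    | succ m =>
      exfalso
      have h1 := (H.be_succ hj (hm m (Nat.lt_succ_self m))).1
      have h2 := H.be_gt hj m
      rw [← h] at h1
      simp only [Function.iterate_zero, id] at h1
      linarith
  | succ n ih =>
    intro m hn hm h
    cases m with
    | zero =>
      exfalso
      have h1 := (H.be_succ hi (hn n (Nat.lt_succ_self n))).1
      have h2 := H.be_gt hi n
      rw [h] at h1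
      simp only [Function.iterate_zero, id] at h1
      linarith
    | succ m =>
      rw [Function.iterate_succ_apply', Function.iterate_succ_apply'] at h
      have h1 : N.be (succ^[n] i) ∈ Icc R₁ R₂ := ⟨(H.be_gt hi n).le, hn n (Nat.lt_succ_self n)⟩
      have h2 : N.be (succ^[m] j) ∈ Icc R₁ R₂ := ⟨(H.be_gt hj m).le, hm m (Nat.lt_succ_self m)⟩
      have h3 := H.inj _ _ h1 h2 h
      obtain ⟨e1, e2⟩ := ih m (fun l hl => hn l (by omega)) (fun l hl => hm l (by omega)) h3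
      exact ⟨by omega, e2⟩

open scoped Classical in
/-- number of steps: first arc with `t < be` -/
noncomputable def nR (N : ONet 𝒢 O R) (succ : N.A → N.A) (i : N.A) (t : ℝ) : ℕ :=
  if h : ∃ n, t < N.be (succ^[n] i) then Nat.find h else 0

open scoped Classical in
/-- number of steps: first arc with `t ≤ be` -/
noncomputable def nL (N : ONet 𝒢 O R) (succ : N.A → N.A) (i : N.A) (t : ℝ) : ℕ :=
  if h : ∃ n, t ≤ N.be (succ^[n] i) then Nat.find h else 0

/-- right arc of the thread `i` at time `t` -/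
noncomputable def arcR (N : ONet 𝒢 O R) (succ : N.A → N.A) (i : N.A) (t : ℝ) : N.A :=
  succ^[N.nR succ i t] i

/-- left arc of the thread `i` at time `t` -/
noncomputable def arcL (N : ONet 𝒢 O R) (succ : N.A → N.A) (i : N.A) (t : ℝ) : N.A :=
  succ^[N.nL succ i t] i

lemma IsSucc.nR_spec (H : IsSucc N succ R₁ R₂) {i : N.A} (hi : R₁ < N.be i) {t : ℝ}
    (ht : t ≤ R₂) : t < N.be (N.arcR succ i t) ∧ ∀ l < N.nR succ i t, N.be (succ^[l] i) ≤ t := by
  classical
  have hex : ∃ n, t < N.be (succ^[n] i) := by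
    obtain ⟨n, hn⟩ := H.exists_gt hi
    exact ⟨n, by linarith⟩
  unfold arcR nR
  rw [dif_pos hex]
  refine ⟨Nat.find_spec hex, fun l hl => ?_⟩
  have := Nat.find_min hex hl
  push Not at this
  exact this

lemma IsSucc.nL_spec (H : IsSucc N succ R₁ R₂) {i : N.A} (hi : R₁ < N.be i) {t : ℝ}
    (ht : t ≤ R₂) : t ≤ N.be (N.arcL succ i t) ∧ ∀ l < N.nL succ i t, N.be (succ^[l] i) < t := by
  classical
  have hex : ∃ n, t ≤ N.be (succ^[n] i) := by
    obtain ⟨n, hn⟩ := H.exists_gt hi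
    exact ⟨n, by linarith⟩
  unfold arcL nL
  rw [dif_pos hex]
  refine ⟨Nat.find_spec hex, fun l hl => ?_⟩
  have := Nat.find_min hex hl
  push Not at this
  exact this

lemma nR_eq {i : N.A} {t : ℝ} {n : ℕ} (h1 : t < N.be (succ^[n] i))
    (h2 : ∀ l < n, N.be (succ^[l] i) ≤ t) : N.nR succ i t = n := by
  classical
  have hex : ∃ n, t < N.be (succ^[n] i) := ⟨n, h1⟩
  unfold nR
  rw [dif_pos hex, Nat.find_eq_iff]
  exact ⟨h1, fun l hl => by push Not; exact h2 l hl⟩

lemma nL_eq {i : N.A} {t : ℝ} {n : ℕ} (h1 : t ≤ N.be (succ^[n] i))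
    (h2 : ∀ l < n, N.be (succ^[l] i) < t) : N.nL succ i t = n := by
  classical
  have hex : ∃ n, t ≤ N.be (succ^[n] i) := ⟨n, h1⟩
  unfold nL
  rw [dif_pos hex, Nat.find_eq_iff]
  exact ⟨h1, fun l hl => by push Not; exact h2 l hl⟩

lemma IsSucc.arcR_mem (H : IsSucc N succ R₁ R₂) {i : N.A} (hi : R₁ < N.be i) (hi' : N.al i ≤ R₁)
    {t : ℝ} (ht1 : R₁ ≤ t) (ht : t ≤ R₂) :
    N.al (N.arcR succ i t) ≤ t ∧ t < N.be (N.arcR succ i t) := by
  obtain ⟨h1, h2⟩ := H.nR_spec hi ht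
  refine ⟨?_, h1⟩
  unfold arcR
  rcases Nat.eq_zero_or_pos (N.nR succ i t) with h0 | h0
  · rw [h0]; exact hi'.trans ht1
  · obtain ⟨m, hm⟩ : ∃ m, N.nR succ i t = m + 1 := ⟨N.nR succ i t - 1, by omega⟩
    have h3 := h2 m (by omega)
    have h4 := (H.be_succ hi (h3.trans ht)).1
    rw [hm, h4]; exact h3

lemma IsSucc.arcL_mem (H : IsSucc N succ R₁ R₂) {i : N.A} (hi : R₁ < N.be i) (hi' : N.al i ≤ R₁)
    {t : ℝ} (ht1 : R₁ < t) (ht : t ≤ R₂) :
    N.al (N.arcL succ i t) < t ∧ t ≤ N.be (N.arcL succ i t) := by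
  obtain ⟨h1, h2⟩ := H.nL_spec hi ht
  refine ⟨?_, h1⟩
  unfold arcL
  rcases Nat.eq_zero_or_pos (N.nL succ i t) with h0 | h0
  · rw [h0]; exact lt_of_le_of_lt hi' ht1
  · obtain ⟨m, hm⟩ : ∃ m, N.nL succ i t = m + 1 := ⟨N.nL succ i t - 1, by omega⟩
    have h3 := h2 m (by omega)
    have h4 := (H.be_succ hi (h3.le.trans ht)).1
    rw [hm, h4]; exact h3

lemma IsSucc.arcR_inj (H : IsSucc N succ R₁ R₂) {i j : N.A} (hi : R₁ < N.be i)
    (hi' : N.al i ≤ R₁) (hj : R₁ < N.be j) (hj' : N.al j ≤ R₁) {t : ℝ} (ht : t ≤ R₂)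
    (h : N.arcR succ i t = N.arcR succ j t) : i = j :=
  (H.orbit_inj hi hi' hj hj' _ _ (fun l hl => ((H.nR_spec hi ht).2 l hl).trans ht)
    (fun l hl => ((H.nR_spec hj ht).2 l hl).trans ht) h).2

lemma IsSucc.arcL_inj (H : IsSucc N succ R₁ R₂) {i j : N.A} (hi : R₁ < N.be i)
    (hi' : N.al i ≤ R₁) (hj : R₁ < N.be j) (hj' : N.al j ≤ R₁) {t : ℝ} (ht : t ≤ R₂)
    (h : N.arcL succ i t = N.arcL succ j t) : i = j :=
  (H.orbit_inj hi hi' hj hj' _ _ (fun l hl => ((H.nL_spec hi ht).2 l hl).le.trans ht)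
    (fun l hl => ((H.nL_spec hj ht).2 l hl).le.trans ht) h).2

/-- away from the end times, the two arcs agree -/
lemma arc_eq {i : N.A} {t : ℝ} (ht : ∀ a, N.be a ≠ t) : N.arcR succ i t = N.arcL succ i t := by
  classical
  have : (fun n => t < N.be (succ^[n] i)) = (fun n => t ≤ N.be (succ^[n] i)) := by
    funext n
    exact propext ⟨fun h => h.le, fun h => lt_of_le_of_ne h (Ne.symm (ht _))⟩
  unfold arcR arcL nR nL
  simp only [this]

/-- at each time, either the two arcs agree or the left one ends where the right one starts -/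
lemma IsSucc.arc_dich (H : IsSucc N succ R₁ R₂) {i : N.A} (hi : R₁ < N.be i) {t : ℝ}
    (ht : t ≤ R₂) : N.arcR succ i t = N.arcL succ i t ∨
      (N.be (N.arcL succ i t) = t ∧ N.al (N.arcR succ i t) = t ∧
        N.Y (N.arcR succ i t) 0 = N.Y (N.arcL succ i t) (N.h (N.arcL succ i t))) := by
  obtain ⟨h1, h2⟩ := H.nL_spec hi ht
  rcases eq_or_lt_of_le h1 with h | h
  · right
    have h3 : N.be (succ^[N.nL succ i t] i) = t := h.symm
    have h4 := H.be_succ hi (n := N.nL succ i t) (by rw [h3]; exact ht)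
    have h5 : N.nR succ i t = N.nL succ i t + 1 := by
      apply nR_eq
      · rw [h3] at h4; exact h4.2.1
      · intro l hl
        rcases Nat.lt_succ_iff_lt_or_eq.1 hl with h6 | h6
        · exact (h2 l h6).le
        · rw [h6, h3]
    refine ⟨h.symm, ?_, ?_⟩
    · unfold arcR; rw [h5, h4.1, h3]
    · unfold arcR; rw [h5, h4.2.2]; rfl
  · left
    have : N.nR succ i t = N.nL succ i t := nR_eq h (fun l hl => (h2 l hl).le)
    unfold arcR arcL; rw [this]

lemma IsSucc.pos_eq (H : IsSucc N succ R₁ R₂) (hO : O ∈ U E) {i : N.A} (hi : R₁ < N.be i)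
    {t : ℝ} (ht : t ≤ R₂) : N.pos (N.arcR succ i t) t = N.pos (N.arcL succ i t) t := by
  rcases H.arc_dich hi ht with h | ⟨h1, h2, h3⟩
  · rw [h]
  · have e1 : N.pos (N.arcR succ i t) t = N.Y (N.arcR succ i t) 0 := by
      have := pos_al hO (N.arcR succ i t)
      rwa [h2] at this
    have e2 : N.pos (N.arcL succ i t) t = N.Y (N.arcL succ i t) (N.h (N.arcL succ i t)) := by
      have := pos_be hO (N.arcL succ i t)
      rwa [h1] at this
    rw [e1, e2, h3]

lemma IsSucc.arcR_eventually (H : IsSucc N succ R₁ R₂) {i : N.A} (hi : R₁ < N.be i)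
    {t : ℝ} (ht : t ≤ R₂) : ∀ᶠ t' in 𝓝[≥] t, N.arcR succ i t' = N.arcR succ i t := by
  obtain ⟨h1, h2⟩ := H.nR_spec hi ht
  have : ∀ᶠ x in 𝓝[≥] t, x ∈ Ico t (N.be (N.arcR succ i t)) := Ico_mem_nhdsGE h1
  filter_upwards [this] with x hx
  have : N.nR succ i x = N.nR succ i t := nR_eq hx.2 (fun l hl => (h2 l hl).trans hx.1)
  unfold arcR; rw [this]

lemma IsSucc.arcL_eventually (H : IsSucc N succ R₁ R₂) {i : N.A} (hi : R₁ < N.be i)
    {t : ℝ} (ht : t ≤ R₂) : ∀ᶠ t' in 𝓝[≤] t, N.arcL succ i t' = N.arcL succ i t := by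
  obtain ⟨h1, h2⟩ := H.nL_spec hi ht
  rcases Nat.eq_zero_or_pos (N.nL succ i t) with h0 | h0
  · filter_upwards [self_mem_nhdsWithin] with x hx
    have hx : x ≤ t := hx
    have : N.nL succ i x = N.nL succ i t := by
      apply nL_eq (hx.trans h1)
      intro l hl; omega
    unfold arcL; rw [this]
  · obtain ⟨m, hm⟩ : ∃ m, N.nL succ i t = m + 1 := ⟨N.nL succ i t - 1, by omega⟩
    have h3 := h2 m (by omega)
    have : ∀ᶠ x in 𝓝[≤] t, x ∈ Ioc (N.be (succ^[m] i)) t := Ioc_mem_nhdsLE h3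
    filter_upwards [this] with x hx
    have : N.nL succ i x = N.nL succ i t := by
      apply nL_eq (hx.2.trans h1)
      intro l hl
      exact lt_of_le_of_lt (H.be_mono hi (show l ≤ m by omega)) hx.1
    unfold arcL; rw [this]

end orbit

/-- the active arcs before `t` are the active arcs after some earlier time -/
lemma exists_actR_eq_actL {R₁ t : ℝ} (h : R₁ < t) : ∃ t' ∈ Ico R₁ t, N.actR t' = N.actL t := by
  classical
  -- choose `t'` above all al, be smaller than `t`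
  have fin : (((univ : Set N.A).image N.al) ∪ ((univ : Set N.A).image N.be)).Finite :=
    ((Set.toFinite _).image _).union ((Set.toFinite _).image _)
  have ev : ∀ᶠ x in 𝓝[<] t, ∀ y ∈ ((univ : Set N.A).image N.al) ∪ ((univ : Set N.A).image N.be),
      y < t → y < x := by
    rw [Filter.eventually_all_finite fin]
    intro y _
    by_cases hy : y < t
    · filter_upwards [Ioo_mem_nhdsLT hy] with x hx _
      exact hx.1
    · filter_upwards with x hx
      exact absurd hx hy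
  have ev2 : ∀ᶠ x in 𝓝[<] t, x ∈ Ioo R₁ t := Ioo_mem_nhdsLT h
  obtain ⟨x, hx1, hx2⟩ := (ev.and ev2).exists
  refine ⟨x, ⟨hx2.1.le, hx2.2⟩, ?_⟩
  ext a
  rw [mem_actR, mem_actL]
  constructor
  · rintro ⟨h1, h2⟩
    refine ⟨lt_of_le_of_lt h1 hx2.2, ?_⟩
    by_contra hcon
    push Not at hcon
    have := hx1 (N.be a) (Or.inr ⟨a, mem_univ _, rfl⟩) hcon
    linarith
  · rintro ⟨h1, h2⟩
    exact ⟨(hx1 (N.al a) (Or.inl ⟨a, mem_univ _, rfl⟩) h1).le, lt_of_lt_of_le hx2.2 h2⟩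

open scoped Classical in
/-- balance of all active arcs at a point -/
lemma bal_act (hO : O ∈ U E) {t : ℝ} (h0 : 0 < t) (htR : t < R) (x : E) :
    ∑ a ∈ N.actR t with N.pos a t = x, N.tan a t = ∑ a ∈ N.actL t with N.pos a t = x, N.tan a t := by
  classical
  -- common part
  have split1 : ∑ a ∈ N.actR t with N.pos a t = x, N.tan a t
      = ∑ a with (N.al a < t ∧ t < N.be a) ∧ N.pos a t = x, N.tan a t
        + ∑ a with N.al a = t ∧ N.Y a 0 = x, N.Y' a 0 := by
    rw [← Finset.sum_filter_add_sum_filter_not (s := {a ∈ N.actR t | N.pos a t = x})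
      (p := fun a => N.al a < t)]
    congr 1
    · refine Finset.sum_congr ?_ fun _ _ => rfl
      ext a
      simp only [Finset.mem_filter, mem_actR, Finset.mem_univ, true_and]
      constructor
      · rintro ⟨⟨⟨_, h2⟩, h3⟩, h4⟩; exact ⟨⟨h4, h2⟩, h3⟩
      · rintro ⟨⟨h4, h2⟩, h3⟩; exact ⟨⟨⟨h4.le, h2⟩, h3⟩, h4⟩
    · refine Finset.sum_congr ?_ ?_
      · ext a
        simp only [Finset.mem_filter, mem_actR, Finset.mem_univ, true_and, not_lt]
        constructor
        · rintro ⟨⟨⟨h1, h2⟩, h3⟩, h4⟩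
          have h5 : N.al a = t := le_antisymm h1 h4
          refine ⟨h5, ?_⟩
          rw [← h3, ← h5, pos_al hO]
        · rintro ⟨h1, h2⟩
          refine ⟨⟨⟨h1.le, ?_⟩, ?_⟩, h1.ge⟩
          · rw [← h1]; exact al_lt_be a
          · rw [← h1, pos_al hO, h2]
      · intro a ha
        simp only [Finset.mem_filter, Finset.mem_univ, true_and] at ha
        rw [← ha.1, tan_al hO]
  have split2 : ∑ a ∈ N.actL t with N.pos a t = x, N.tan a t
      = ∑ a with (N.al a < t ∧ t < N.be a) ∧ N.pos a t = x, N.tan a t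
        + ∑ a with N.be a = t ∧ N.Y a (N.h a) = x, N.Y' a (N.h a) := by
    rw [← Finset.sum_filter_add_sum_filter_not (s := {a ∈ N.actL t | N.pos a t = x})
      (p := fun a => t < N.be a)]
    congr 1
    · refine Finset.sum_congr ?_ fun _ _ => rfl
      ext a
      simp only [Finset.mem_filter, mem_actL, Finset.mem_univ, true_and]
      constructor
      · rintro ⟨⟨⟨h1, _⟩, h3⟩, h4⟩; exact ⟨⟨h1, h4⟩, h3⟩
      · rintro ⟨⟨h1, h4⟩, h3⟩; exact ⟨⟨⟨h1, h4.le⟩, h3⟩, h4⟩
    · refine Finset.sum_congr ?_ ?_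
      · ext a
        simp only [Finset.mem_filter, mem_actL, Finset.mem_univ, true_and, not_lt]
        constructor
        · rintro ⟨⟨⟨h1, h2⟩, h3⟩, h4⟩
          have h5 : N.be a = t := le_antisymm h4 h2
          refine ⟨h5, ?_⟩
          rw [← h3, ← h5, pos_be hO]
        · rintro ⟨h1, h2⟩
          refine ⟨⟨⟨?_, h1.ge⟩, ?_⟩, h1.le⟩
          · rw [← h1]; exact al_lt_be a
          · rw [← h1, pos_be hO, h2]
      · intro a ha
        simp only [Finset.mem_filter, Finset.mem_univ, true_and] at ha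
        rw [← ha.1, tan_be hO]
  rw [split1, split2]
  congr 1
  by_cases hx : x ∈ U E ∧ 𝒢.rho O x = t
  · have hne : x ≠ O := by
      intro h
      have := LocGeo.rho_self (𝒢 := 𝒢) hO
      rw [← h] at this
      rw [h] at hx
      rw [h] at this
      linarith [hx.2]
    have hb := N.bal x hx.1 hne (by rw [hx.2]; exact htR)
    have e1 : (Finset.univ.filter fun a : N.A => N.al a = t ∧ N.Y a 0 = x)
        = Finset.univ.filter fun a : N.A => N.Y a 0 = x := by
      ext a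
      simp only [Finset.mem_filter, Finset.mem_univ, true_and]
      refine ⟨fun h => h.2, fun h => ⟨?_, h⟩⟩
      unfold al; rw [h]; exact hx.2
    have e2 : (Finset.univ.filter fun a : N.A => N.be a = t ∧ N.Y a (N.h a) = x)
        = Finset.univ.filter fun a : N.A => N.Y a (N.h a) = x := by
      ext a
      simp only [Finset.mem_filter, Finset.mem_univ, true_and]
      refine ⟨fun h => h.2, fun h => ⟨?_, h⟩⟩
      unfold be; rw [h]; exact hx.2
    rw [e1, e2]
    convert hb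
  · rw [Finset.sum_eq_zero, Finset.sum_eq_zero]
    · intro a ha
      simp only [Finset.mem_filter, Finset.mem_univ, true_and] at ha
      exfalso
      apply hx
      refine ⟨?_, ?_⟩
      · rw [← ha.2]; exact (N.geo a).mem _ ⟨(N.h_pos a).le, le_rfl⟩
      · have := ha.1
        unfold be at this
        rw [ha.2] at this
        exact this
    · intro a ha
      simp only [Finset.mem_filter, Finset.mem_univ, true_and] at ha
      exfalso
      apply hx
      refine ⟨?_, ?_⟩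
      · rw [← ha.2]; exact (N.geo a).mem _ ⟨le_rfl, (N.h_pos a).le⟩
      · have := ha.1
        unfold al at this
        rw [ha.2] at this
        exact this

variable (N)

theorem exists_threads (hO : O ∈ U E) {k : ℕ} {R₁ R₂ : ℝ} (h0 : 0 < R₁) (h12 : R₁ < R₂)
    (h2 : R₂ < R) (hcard : ∀ r ∈ Icc R₁ R₂, (N.actR r).card = k)
    (hcoR : ∀ r ∈ Icc R₁ R₂, ∀ a ∈ N.actR r, 1 / 2 ≤ N.co a r)
    (hcoL : ∀ r ∈ Icc R₁ R₂, ∀ a ∈ N.actL r, 1 / 2 ≤ N.co a r)
    (hio : ∀ p ∈ U E, R₁ ≤ 𝒢.rho O p → 𝒢.rho O p ≤ R₂ → N.outD p = N.inD p) :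
    ∃ X τp τm : Fin k → ℝ → E,
      TBase 𝒢 Finset.univ X τp τm R₁ R₂ ∧
      (∀ i, ∀ t ∈ Icc R₁ R₂, 𝒢.rho O (X i t) = t) ∧
      (∀ i j, i ≠ j → {t | t ∈ Icc R₁ R₂ ∧ X i t = X j t}.Finite) ∧
      (∀ t ∈ Ico R₁ R₂, ∃ f : Fin k → N.A, Function.Injective f ∧
        ∀ i, f i ∈ N.actR t ∧ X i t = N.pos (f i) t ∧ τp i t = N.tan (f i) t) := by
  classical
  obtain ⟨succ, s1, s2, s3⟩ := exists_succ hio
  have H : IsSucc N succ R₁ R₂ := ⟨s1, s2, s3⟩
  have hk : (N.actR R₁).card = k := hcard R₁ ⟨le_rfl, h12.le⟩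
  let e : Fin k ≃ N.actR R₁ := (N.actR R₁).equivFinOfCardEq hk |>.symm
  let ix : Fin k → N.A := fun i => (e i : N.A)
  have hix : ∀ i, N.al (ix i) ≤ R₁ ∧ R₁ < N.be (ix i) := fun i => mem_actR.1 (e i).2
  have ixinj : Function.Injective ix := fun i j h => e.injective (Subtype.ext h)
  -- active arcs
  have hR : ∀ i t, t ∈ Icc R₁ R₂ → N.arcR succ (ix i) t ∈ N.actR t := fun i t ht =>
    mem_actR.2 (H.arcR_mem (hix i).2 (hix i).1 ht.1 ht.2)
  have hL : ∀ i t, t ∈ Ioc R₁ R₂ → N.arcL succ (ix i) t ∈ N.actL t := fun i t ht =>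
    mem_actL.2 (H.arcL_mem (hix i).2 (hix i).1 ht.1 ht.2)
  have injR : ∀ t ≤ R₂, Function.Injective fun i => N.arcR succ (ix i) t := fun t ht i j h =>
    ixinj (H.arcR_inj (hix i).2 (hix i).1 (hix j).2 (hix j).1 ht h)
  have injL : ∀ t ≤ R₂, Function.Injective fun i => N.arcL succ (ix i) t := fun t ht i j h =>
    ixinj (H.arcL_inj (hix i).2 (hix i).1 (hix j).2 (hix j).1 ht h)
  have cardL : ∀ t ∈ Ioc R₁ R₂, (N.actL t).card = k := by
    intro t ht
    obtain ⟨t', ht', he⟩ := exists_actR_eq_actL (N := N) ht.1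
    rw [← he]
    exact hcard t' ⟨ht'.1, ht'.2.le.trans ht.2⟩
  have imR : ∀ t ∈ Icc R₁ R₂, Finset.univ.image (fun i => N.arcR succ (ix i) t) = N.actR t := by
    intro t ht
    refine Finset.eq_of_subset_of_card_le ?_ ?_
    · intro a ha
      obtain ⟨i, _, rfl⟩ := Finset.mem_image.1 ha
      exact hR i t ht
    · rw [hcard t ht, Finset.card_image_of_injective _ (injR t ht.2)]
      simp
  have imL : ∀ t ∈ Ioc R₁ R₂, Finset.univ.image (fun i => N.arcL succ (ix i) t) = N.actL t := by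
    intro t ht
    refine Finset.eq_of_subset_of_card_le ?_ ?_
    · intro a ha
      obtain ⟨i, _, rfl⟩ := Finset.mem_image.1 ha
      exact hL i t ht
    · rw [cardL t ht, Finset.card_image_of_injective _ (injL t ht.2)]
      simp
  -- end times
  have finT : (((univ : Set N.A).image N.al) ∪ ((univ : Set N.A).image N.be)).Finite :=
    ((Set.toFinite _).image _).union ((Set.toFinite _).image _)
  have avoid : ∀ t : ℝ, ∀ᶠ t' in 𝓝[≠] t, ∀ a, N.be a ≠ t' := by
    intro t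
    rw [Filter.eventually_all]
    intro a
    by_cases h : N.be a = t
    · filter_upwards [self_mem_nhdsWithin] with x hx
      rw [h]; exact Ne.symm hx
    · have : ∀ᶠ x in 𝓝 t, N.be a ≠ x := by
        have := (isOpen_ne (x := N.be a)).mem_nhds (show t ≠ N.be a from Ne.symm h)
        filter_upwards [this] with x hx
        exact Ne.symm hx
      exact this.filter_mono nhdsWithin_le_nhds
  let X : Fin k → ℝ → E := fun i t => N.pos (N.arcL succ (ix i) t) t
  let τp : Fin k → ℝ → E := fun i t => N.tan (N.arcR succ (ix i) t) t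
  let τm : Fin k → ℝ → E := fun i t => N.tan (N.arcL succ (ix i) t) t
  have hXR : ∀ i, ∀ t ≤ R₂, X i t = N.pos (N.arcR succ (ix i) t) t := fun i t ht =>
    (H.pos_eq hO (hix i).2 ht).symm
  have hact : ∀ i t, t ∈ Icc R₁ R₂ → t ∈ Icc (N.al (N.arcR succ (ix i) t))
      (N.be (N.arcR succ (ix i) t)) := fun i t ht =>
    ⟨(mem_actR.1 (hR i t ht)).1, (mem_actR.1 (hR i t ht)).2.le⟩
  refine ⟨X, τp, τm, ⟨h12, ?_, ?_, ?_, ?_, ?_⟩, ?_, ?_, ?_⟩
  · -- right germs
    intro i _ t ht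
    have ht' : t ∈ Icc R₁ R₂ := ⟨ht.1, ht.2.le⟩
    have hm := mem_actR.1 (hR i t ht')
    have g := N.rgerm hO (a := N.arcR succ (ix i) t) (r := t) hm (h0.trans_le ht.1)
      (hcoR t ht' _ (hR i t ht'))
    refine g.congr ?_
    have e1 : ∀ᶠ x in 𝓝[≥] t, x ∈ Ico t R₂ := Ico_mem_nhdsGE ht.2
    filter_upwards [e1, H.arcR_eventually (hix i).2 ht.2.le] with x hx hx'
    refine ⟨?_, ?_⟩
    · rw [hXR i x hx.2.le, hx']
    · show N.tan (N.arcR succ (ix i) x) x = _
      rw [hx']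
  · -- left germs
    intro i _ t ht
    have ht' : t ∈ Icc R₁ R₂ := ⟨ht.1.le, ht.2⟩
    have hm := mem_actL.1 (hL i t ht)
    have g := N.lgerm hO (a := N.arcL succ (ix i) t) (r := t) hm (hcoL t ht' _ (hL i t ht))
    refine g.congr ?_
    filter_upwards [H.arcL_eventually (hix i).2 ht.2] with x hx'
    refine ⟨?_, ?_⟩
    · show N.pos (N.arcL succ (ix i) x) x = _
      rw [hx']
    · show N.tan (N.arcL succ (ix i) x) x = _
      rw [hx']
  · intro i _ t _
    have := (avoid t).filter_mono (nhdsWithin_mono t (fun x (hx : x < t) => hx.ne))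
    filter_upwards [this] with x hx
    show N.tan (N.arcR succ (ix i) x) x = N.tan (N.arcL succ (ix i) x) x
    rw [arc_eq hx]
  · intro i _ t _
    have := (avoid t).filter_mono (nhdsWithin_mono t (fun x (hx : t < x) => hx.ne'))
    filter_upwards [this] with x hx
    show N.tan (N.arcR succ (ix i) x) x = N.tan (N.arcL succ (ix i) x) x
    rw [arc_eq hx]
  · -- balance
    intro t ht x
    have ht' : t ∈ Icc R₁ R₂ := ⟨ht.1.le, ht.2.le⟩
    have ht'' : t ∈ Ioc R₁ R₂ := ⟨ht.1, ht.2.le⟩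
    have hb := bal_act (N := N) hO (h0.trans ht.1) (ht.2.trans h2) x
    rw [← imR t ht', ← imL t ht'', Finset.filter_image, Finset.filter_image,
      Finset.sum_image (fun i _ j _ h => injR t ht'.2 h),
      Finset.sum_image (fun i _ j _ h => injL t ht'.2 h)] at hb
    have e1 : ∀ i, (X i t = x) = (N.pos (N.arcR succ (ix i) t) t = x) := fun i => by
      rw [hXR i t ht'.2]
    have lhs : ∑ i with X i t = x, τp i t
        = ∑ i with N.pos (N.arcR succ (ix i) t) t = x, N.tan (N.arcR succ (ix i) t) t := by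
      refine Finset.sum_congr ?_ fun _ _ => rfl
      ext i
      simp only [Finset.mem_filter, Finset.mem_univ, true_and, e1]
    rw [lhs]
    convert hb
  · intro i t ht
    rw [hXR i t ht.2]
    exact rho_pos_eq hO (hact i t ht)
  · intro i j hij
    refine finT.subset ?_
    rintro t ⟨ht, heq⟩
    rw [hXR i t ht.2, hXR j t ht.2] at heq
    have hne : N.arcR succ (ix i) t ≠ N.arcR succ (ix j) t := fun h => hij (injR t ht.2 h)
    rcases N.emb _ _ _ (sg_mem hO (hact i t ht)) _ (sg_mem hO (hact j t ht)) heq with h | h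
    · exact absurd h.1 hne
    · have hrho := rho_pos_eq hO (hact i t ht)
      rcases h.1 with h | h
      · left
        refine ⟨N.arcR succ (ix i) t, mem_univ _, ?_⟩
        unfold pos at hrho
        rw [h] at hrho
        exact hrho
      · right
        refine ⟨N.arcR succ (ix i) t, mem_univ _, ?_⟩
        unfold pos at hrho
        rw [h] at hrho
        exact hrho
  · intro t ht
    refine ⟨fun i => N.arcR succ (ix i) t, injR t ht.2.le, fun i => ⟨hR i t ⟨ht.1, ht.2.le⟩,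
      hXR i t ht.2.le, rfl⟩⟩

end ONet

end Pool.Agent.GeoNet
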