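import Pool.Agent.GeoNet.Plateau2
import Pool.Agent.GeoNet.Threads
import Pool.Agent.GeoNet.Collide

/-!
# The number of vertices in an annulus where the density is almost an integer
-/

namespace Pool.Agent.GeoNet

open Set Metric Filter
open scoped Topology RealInnerProductSpace

variable {E : Type*} [NormedAddCommGroup E] [InnerProductSpace ℝ E]

namespace LocGeo

variable {𝒢 : LocGeo E}

lemma uu_unit {O x : E} (hO : O ∈ U E) (hρ : 0 < 𝒢.rho O x) :
    𝒢.g O (𝒢.uu O x) (𝒢.uu O x) = 1 := by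
  unfold uu
  simp only [map_smul, smul_apply, smul_eq_mul]
  rw [← rho_sq hO]
  field_simp

/-- the distance is almost a linear function on thin cones -/
lemma slice_aux {O x y u ω : E} {η : ℝ} (hO : O ∈ U E) (hx : x ∈ U E) (hy : y ∈ U E)
    (hρx : 0 < 𝒢.rho O x) (hρy : 0 < 𝒢.rho O y) (hu : 𝒢.g O u u = 1) (hη : η ≤ 1 / 1000)
    (hux : ‖𝒢.uu O x - u‖ ≤ η) (huy : ‖𝒢.uu O y - u‖ ≤ η) (hω : ∀ w, ⟪ω, w⟫ = 𝒢.g O u w) :
    |(𝒢.rho O x - 𝒢.rho O y) - ⟪ω, x - y⟫| ≤ 1 / 100 * ‖x - y‖ := by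
  have hη0 : 0 ≤ η := (norm_nonneg _).trans hux
  have ux1 := uu_unit hO hρx
  have uy1 := uu_unit hO hρy
  have hvx : 𝒢.v O x = 𝒢.rho O x • 𝒢.uu O x := by
    unfold uu; rw [smul_smul, mul_inv_cancel₀ hρx.ne', one_smul]
  have hvy : 𝒢.v O y = 𝒢.rho O y • 𝒢.uu O y := by
    unfold uu; rw [smul_smul, mul_inv_cancel₀ hρy.ne', one_smul]
  have hv := 𝒢.v_near O hO x hx y hy
  have hun := (unit_norm (𝒢 := 𝒢) hO hu).1
  have h1 := rho_sub_le (𝒢 := 𝒢) hO hx hy
  have h2 := uu_sub_le (𝒢 := 𝒢) hO hx hy hρx hρy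
  set a := 𝒢.uu O x with ha
  set b := 𝒢.uu O y with hb
  set n := ‖x - y‖ with hn
  have hn0 : 0 ≤ n := norm_nonneg _
  set ex := 1 - 𝒢.g O u a with hex
  set ey := 1 - 𝒢.g O u b with hey
  -- ey
  have e1 : 2 * ey = 𝒢.g O (b - u) (b - u) := by
    simp only [map_sub, _root_.sub_apply]
    rw [uy1, hu, 𝒢.g_symm O b u, hey]; ring
  have e2 : |ey| ≤ 1 / 1000 := by
    have h3 := g_abs_le (𝒢 := 𝒢) hO (b - u) (b - u)
    rw [← e1] at h3
    norm_num [dl] at h3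
    have h4 : 1001 / 1000 * ‖b - u‖ * ‖b - u‖ ≤ 1001 / 1000 * η * η := by gcongr
    have h5 : |2 * ey| = 2 * |ey| := by rw [abs_mul]; norm_num
    have h6 : |2 * ey| ≤ 1001 / 1000 * ‖b - u‖ * ‖b - u‖ := by simpa using h3
    nlinarith
  -- ex - ey
  have e3 : ex - ey = 𝒢.g O (u - (1 / 2 : ℝ) • (a + b)) (b - a) := by
    simp only [map_sub, _root_.sub_apply, map_smul, smul_apply, map_add, _root_.add_apply,
      smul_eq_mul]
    rw [ux1, uy1, 𝒢.g_symm O b a, hex, hey]; ring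
  have e4 : ‖u - (1 / 2 : ℝ) • (a + b)‖ ≤ η := by
    have : u - (1 / 2 : ℝ) • (a + b) = -((1 / 2 : ℝ) • (a - u) + (1 / 2 : ℝ) • (b - u)) := by
      module
    rw [this, norm_neg]
    calc _ ≤ ‖(1 / 2 : ℝ) • (a - u)‖ + ‖(1 / 2 : ℝ) • (b - u)‖ := norm_add_le _ _
      _ = 1 / 2 * ‖a - u‖ + 1 / 2 * ‖b - u‖ := by
          rw [norm_smul, norm_smul]; norm_num
      _ ≤ η := by linarith
  have e5 : 𝒢.rho O x * |ex - ey| ≤ 22 / 10000 * n := by
    have h3 := g_abs_le (𝒢 := 𝒢) hO (u - (1 / 2 : ℝ) • (a + b)) (b - a)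
    rw [← e3] at h3
    norm_num [dl] at h3
    have h3' : |ex - ey| ≤ 1001 / 1000 * ‖u - (1 / 2 : ℝ) • (a + b)‖ * ‖b - a‖ := by
      simpa using h3
    have h4 : |ex - ey| ≤ 1001 / 1000 * (1 / 1000) * (201 / 100 * n / 𝒢.rho O x) := by
      refine h3'.trans ?_
      rw [norm_sub_rev b a]
      gcongr
      exact e4.trans hη
    calc 𝒢.rho O x * |ex - ey| ≤ 𝒢.rho O x * (1001 / 1000 * (1 / 1000) *
          (201 / 100 * n / 𝒢.rho O x)) := mul_le_mul_of_nonneg_left h4 hρx.le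
      _ = 1001 / 1000 * (1 / 1000) * (201 / 100 * n) := by field_simp
      _ ≤ _ := by nlinarith
  -- decomposition
  have e6 : (𝒢.rho O x - 𝒢.rho O y) - ⟪ω, x - y⟫
      = (𝒢.rho O x - 𝒢.rho O y) * ey + 𝒢.rho O x * (ex - ey)
        + 𝒢.g O u (𝒢.v O x - 𝒢.v O y - (x - y)) := by
    rw [hω]
    simp only [map_sub]
    rw [hvx, hvy]
    simp only [map_smul, smul_eq_mul]
    rw [hex, hey]; ring
  rw [e6]
  have e7 : |(𝒢.rho O x - 𝒢.rho O y) * ey| ≤ 11 / 10000 * n := by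
    rw [abs_mul]
    calc _ ≤ (1003 / 1000 * n) * (1 / 1000) := by gcongr
      _ ≤ _ := by nlinarith
  have e8 : |𝒢.rho O x * (ex - ey)| ≤ 22 / 10000 * n := by
    rw [abs_mul, abs_of_pos hρx]; exact e5
  have e9 : |𝒢.g O u (𝒢.v O x - 𝒢.v O y - (x - y))| ≤ 11 / 10000 * n := by
    have h3 := g_abs_le (𝒢 := 𝒢) hO u (𝒢.v O x - 𝒢.v O y - (x - y))
    norm_num [dl] at h3 hv
    calc _ ≤ 1001 / 1000 * ‖u‖ * ‖𝒢.v O x - 𝒢.v O y - (x - y)‖ := by simpa using h3
      _ ≤ 1001 / 1000 * (1001 / 1000) * (1 / 1000 * n) := by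
          gcongr
      _ ≤ _ := by nlinarith
  have t1 := abs_add_le ((𝒢.rho O x - 𝒢.rho O y) * ey + 𝒢.rho O x * (ex - ey))
    (𝒢.g O u (𝒢.v O x - 𝒢.v O y - (x - y)))
  have t2 := abs_add_le ((𝒢.rho O x - 𝒢.rho O y) * ey) (𝒢.rho O x * (ex - ey))
  linarith

end LocGeo

open scoped Classical in
lemma TBase.sub {𝒢 : LocGeo E} {ι : Type*} {I : Finset ι} {X τp τm : ι → ℝ → E} {a b : ℝ}
    (S : TBase 𝒢 I X τp τm a b) {J : Finset ι} (hJ : J ⊆ I)
    (hcut : ∀ t ∈ Ioo a b, ∀ i ∈ J, ∀ j ∈ I, j ∉ J → X i t ≠ X j t) :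
    TBase 𝒢 J X τp τm a b where
  lt := S.lt
  right i hi := S.right i (hJ hi)
  left i hi := S.left i (hJ hi)
  eqL i hi := S.eqL i (hJ hi)
  eqR i hi := S.eqR i (hJ hi)
  bal t ht x := by
    have h := S.bal t ht x
    by_cases hx : ∃ i ∈ J, X i t = x
    · obtain ⟨i, hi, hix⟩ := hx
      have e : I.filter (fun i => X i t = x) = J.filter (fun i => X i t = x) := by
        ext j
        simp only [Finset.mem_filter]
        constructor
        · rintro ⟨hj, hjx⟩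
          refine ⟨?_, hjx⟩
          by_contra hnj
          exact hcut t ht i hi j hj hnj (hix.trans hjx.symm)
        · rintro ⟨hj, hjx⟩
          exact ⟨hJ hj, hjx⟩
      rw [e] at h
      exact h
    · have e : J.filter (fun i => X i t = x) = ∅ := by
        ext j
        simp only [Finset.mem_filter, Finset.notMem_empty, iff_false]
        rintro ⟨hj, hjx⟩
        exact hx ⟨j, hj, hjx⟩
      rw [e]; simp

omit [InnerProductSpace ℝ E] in
set_option linter.unusedSectionVars false in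
/-- the connected component of a thread -/
lemma exists_component {ι : Type*} (I : Finset ι) (X : ι → ℝ → E) (c d : ℝ) {i : ι}
    (hi : i ∈ I) :
    ∃ J ⊆ I, i ∈ J ∧ Conn J X c d ∧
      ∀ t ∈ Icc c d, ∀ i' ∈ J, ∀ j ∈ I, j ∉ J → X i' t ≠ X j t := by
  classical
  set P : Finset (Finset ι) := I.powerset.filter (fun J => i ∈ J ∧
    ∀ t ∈ Icc c d, ∀ i' ∈ J, ∀ j ∈ I, j ∉ J → X i' t ≠ X j t) with hP
  have hne : P.Nonempty := ⟨I, by
    rw [hP, Finset.mem_filter, Finset.mem_powerset]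
    exact ⟨le_rfl, hi, fun t _ i' _ j hj hnj => absurd hj hnj⟩⟩
  obtain ⟨J, hJP, hmin⟩ := Finset.exists_min_image P Finset.card hne
  rw [hP, Finset.mem_filter, Finset.mem_powerset] at hJP
  obtain ⟨hJI, hiJ, hcut⟩ := hJP
  refine ⟨J, hJI, hiJ, ?_, hcut⟩
  intro K hK hKn hKJ
  by_contra hcon
  push Not at hcon
  have hcardK : K.card < J.card := Finset.card_lt_card (Finset.ssubset_iff_subset_ne.2 ⟨hK, hKJ⟩)
  have hcardJK : (J \ K).card < J.card := by
    rw [Finset.card_sdiff_of_subset hK]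
    have := Finset.card_pos.2 hKn
    omega
  by_cases hiK : i ∈ K
  · have hKP : K ∈ P := by
      rw [hP, Finset.mem_filter, Finset.mem_powerset]
      refine ⟨hK.trans hJI, hiK, ?_⟩
      intro t ht i' hi' j hj hnj
      by_cases hjJ : j ∈ J
      · exact hcon i' hi' j hjJ hnj t ht
      · exact hcut t ht i' (hK hi') j hj hjJ
    have := hmin K hKP
    omega
  · have hKP : J \ K ∈ P := by
      rw [hP, Finset.mem_filter, Finset.mem_powerset]
      refine ⟨Finset.sdiff_subset.trans hJI, Finset.mem_sdiff.2 ⟨hiJ, hiK⟩, ?_⟩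
      intro t ht i' hi' j hj hnj
      rw [Finset.mem_sdiff] at hi'
      by_cases hjJ : j ∈ J
      · have hjK : j ∈ K := by
          by_contra h
          exact hnj (Finset.mem_sdiff.2 ⟨hjJ, h⟩)
        exact fun h => hcon j hjK i' hi'.1 hi'.2 t ht h.symm
      · exact hcut t ht i' hi'.1 j hj hjJ
    have := hmin _ hKP
    omega

/-- the small constant of the annulus bound -/
noncomputable def eps1 (k : ℕ) : ℝ := (1 / (100000 * ((k : ℝ) + 2) ^ 2)) ^ 2

lemma eps1_pos (k : ℕ) : 0 < eps1 k := by unfold eps1; positivity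

lemma sqrt_eps1 (k : ℕ) : √(eps1 k) = 1 / (100000 * ((k : ℝ) + 2) ^ 2) := by
  unfold eps1
  rw [Real.sqrt_sq (by positivity)]

lemma eps1_le (k : ℕ) : eps1 k ≤ ONet.eps0 k := by
  unfold eps1 ONet.eps0
  gcongr
  norm_num

end Pool.Agent.GeoNet
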