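import Pool.Agent.GeoNet.Annulus

/-!
# The annulus bound
-/

namespace Pool.Agent.GeoNet

open Set Metric Filter
open scoped Topology RealInnerProductSpace

variable {E : Type*} [NormedAddCommGroup E] [InnerProductSpace ℝ E]

/-- components of the threads are thread systems -/
lemma component_sys [CompleteSpace E] {𝒢 : LocGeo E} {O : E} {k : ℕ} {X τp τm : Fin k → ℝ → E}
    {a b : ℝ} (S : TBase 𝒢 Finset.univ X τp τm a b) (hO : O ∈ ball (0 : E) (1 / 2))
    (ha : 0 < a) (hb : b ≤ 1 / 3) (hρ : ∀ i, ∀ t ∈ Icc a b, 𝒢.rho O (X i t) = t)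
    (hΦ : TBase.Phi 𝒢 Finset.univ X τp O a ≤ eps1 k * a) {J : Finset (Fin k)} {i₀ : Fin k}
    (hi₀ : i₀ ∈ J) (hconn : Conn J X a b)
    (hcut : ∀ t ∈ Icc a b, ∀ i' ∈ J, ∀ j ∈ (Finset.univ : Finset (Fin k)), j ∉ J →
      X i' t ≠ X j t) :
    ∃ ω : E, TSys 𝒢 J X τp τm ω a b := by
  have hOU : O ∈ U E := ball_subset_ball (by norm_num) hO
  have haI : a ∈ Icc a b := ⟨le_rfl, S.lt.le⟩
  have hk0 : (0 : ℝ) ≤ k := Nat.cast_nonneg k
  set q : ℝ := 1 / (100000 * ((k : ℝ) + 2) ^ 2) with hq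
  have hq0 : 0 < q := by positivity
  -- drift
  have hdrift : ∀ i, ∀ t ∈ Icc a b, ‖𝒢.uu O (X i t) - 𝒢.uu O (X i a)‖ ≤ 16 * q := by
    intro i t ht
    have h1 := S.drift hOU (κ := 1) (T := a) (P := eps1 k * a) one_pos ha
      (fun i _ t ht => by rw [hρ i t ht]; linarith) hΦ (Finset.mem_univ i) le_rfl ht.1 ht.2
    refine h1.trans (le_of_eq ?_)
    rw [Real.sqrt_mul (eps1_pos k).le, sqrt_eps1, sub_self, zero_add, Real.sqrt_one, mul_one,
      div_one, ← hq]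
    have : √a ≠ 0 := (Real.sqrt_pos.2 ha).ne'
    field_simp
  have hρpos : ∀ i, ∀ t ∈ Icc a b, 0 < 𝒢.rho O (X i t) := fun i t ht => by
    rw [hρ i t ht]; linarith [ht.1]
  set u := 𝒢.uu O (X i₀ a) with hu
  have hu1 : 𝒢.g O u u = 1 := LocGeo.uu_unit hOU (hρpos i₀ a haI)
  have hnear : ∀ j ∈ J, ∀ t ∈ Icc a b, ‖𝒢.uu O (X j t) - u‖ ≤ 1 / 1000 := by
    intro j hj t ht
    have h1 := hconn.chain (F := fun i => 𝒢.uu O (X i a)) (θ := 32 * q) (by positivity)
      (fun i _ j _ t ht hX => by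
        have e1 := hdrift i t ht
        have e2 := hdrift j t ht
        rw [hX] at e1
        calc ‖𝒢.uu O (X i a) - 𝒢.uu O (X j a)‖
            = ‖(𝒢.uu O (X j t) - 𝒢.uu O (X j a)) - (𝒢.uu O (X j t) - 𝒢.uu O (X i a))‖ := by
              congr 1; abel
          _ ≤ _ + _ := norm_sub_le _ _
          _ ≤ _ := by linarith) hi₀ hj
    have h2 := hdrift j t ht
    have h3 : (J.card : ℝ) ≤ k := by
      have := Finset.card_le_univ J
      rw [Fintype.card_fin] at this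
      exact_mod_cast this
    have h4 : ‖𝒢.uu O (X j t) - u‖ ≤ 16 * q + k * (32 * q) := by
      calc ‖𝒢.uu O (X j t) - u‖
          = ‖(𝒢.uu O (X j t) - 𝒢.uu O (X j a)) - (𝒢.uu O (X i₀ a) - 𝒢.uu O (X j a))‖ := by
            congr 1; rw [hu]; abel
        _ ≤ _ + _ := norm_sub_le _ _
        _ ≤ 16 * q + J.card * (32 * q) := add_le_add h2 h1
        _ ≤ _ := by gcongr
    refine h4.trans ?_
    have h5 : q * (100000 * ((k : ℝ) + 2) ^ 2) = 1 := by rw [hq]; field_simp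
    have h6 : 16 * q + k * (32 * q) ≤ 32 * (q * ((k : ℝ) + 2)) := by nlinarith
    have h7 : q * ((k : ℝ) + 2) ≤ q * ((k : ℝ) + 2) ^ 2 := by
      apply mul_le_mul_of_nonneg_left _ hq0.le
      nlinarith
    linarith
  -- the covector
  set ω : E := (InnerProductSpace.toDual ℝ E).symm (𝒢.g O u) with hω
  have hωw : ∀ w, ⟪ω, w⟫ = 𝒢.g O u w := fun w => by
    rw [hω, InnerProductSpace.toDual_symm_apply]
  have hωn : ‖ω‖ ≤ 11 / 10 := by
    have h1 := hωw ω
    rw [real_inner_self_eq_norm_sq] at h1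
    have h2 := le_trans (le_abs_self _) (LocGeo.g_abs_le (𝒢 := 𝒢) hOU u ω)
    have h3 := (LocGeo.unit_norm (𝒢 := 𝒢) hOU hu1).1
    have h0 := norm_nonneg ω
    norm_num [dl] at h2
    rw [← h1] at h2
    by_contra hcon
    push Not at hcon
    have h4 : ‖ω‖ ^ 2 ≤ 1001 / 1000 * (1001 / 1000) * ‖ω‖ := by
      refine h2.trans ?_
      gcongr
    nlinarith
  have hS := TBase.sub S (Finset.subset_univ J)
    (fun t ht i hi j hj hnj => hcut t ⟨ht.1.le, ht.2.le⟩ i hi j hj hnj)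
  refine ⟨ω, { toTBase := hS, len := by linarith, ω_norm := hωn, ball1 := ?_, slice := ?_ }⟩
  · intro i _ t ht
    have h1 := (LocGeo.rho_le_dist (𝒢 := 𝒢) hOU (S.mem (Finset.mem_univ i) ht)).2
    rw [hρ i t ht] at h1
    have h2 : ‖O‖ < 1 / 2 := by simpa using hO
    have h3 : ‖X i t‖ ≤ ‖X i t - O‖ + ‖O‖ := by
      calc ‖X i t‖ = ‖(X i t - O) + O‖ := by congr 1; abel
        _ ≤ _ := norm_add_le _ _
    rw [mem_ball_zero_iff]
    linarith [ht.2]
  · intro i hi j hj t ht t' ht'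
    have h1 := LocGeo.slice_aux (η := 1 / 1000) hOU (S.mem (Finset.mem_univ i) ht)
      (S.mem (Finset.mem_univ j) ht') (hρpos i t ht) (hρpos j t' ht') hu1 le_rfl
      (hnear i hi t ht) (hnear j hj t' ht') hωw
    rw [hρ i t ht, hρ j t' ht'] at h1
    exact h1

/-- The annulus bound. -/
theorem annulus_bound (E : Type*) [NormedAddCommGroup E] [InnerProductSpace ℝ E]
    [CompleteSpace E] (k : ℕ) : ∃ ε > 0, ∃ M : ℕ, ∀ (𝒢 : LocGeo E) (O : E) (R : ℝ)
      (N : ONet 𝒢 O R) (R₁ R₂ : ℝ),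
      O ∈ ball (0 : E) (1 / 2) → R ≤ 1 / 2 → 0 < R₁ → R₂ ≤ R →
      (∀ r ∈ Ioo R₁ R₂, |N.dens r - k| ≤ ε) →
      {p | p ∈ U E ∧ 3 ≤ N.deg p ∧ 2 * R₁ ≤ 𝒢.rho O p ∧ 𝒢.rho O p ≤ R₂ / 2}.ncard ≤ M := by
  classical
  choose f hf using collision_bound E
  set S₀ := (Finset.range (k + 1)).sup f with hS₀
  refine ⟨eps1 k, eps1_pos k, k * S₀, ?_⟩
  intro 𝒢 O R N R₁ R₂ hO hR h1 h2 hd
  have hOU : O ∈ U E := ball_subset_ball (by norm_num) hO
  set V := {p | p ∈ U E ∧ 3 ≤ N.deg p ∧ 2 * R₁ ≤ 𝒢.rho O p ∧ 𝒢.rho O p ≤ R₂ / 2} with hV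
  by_cases h4 : 4 * R₁ ≤ R₂
  swap
  · have : V = ∅ := by
      rw [Set.eq_empty_iff_forall_notMem]
      rintro p ⟨-, -, h5, h6⟩
      apply h4
      linarith
    rw [this]; simp
  set a : ℝ := 7 / 4 * R₁ with ha
  set b : ℝ := 5 / 8 * R₂ with hb
  have hR₂ : 0 < R₂ := by linarith
  have ha0 : 0 < a := by linarith
  have hab : a < b := by linarith
  have hbR : b < R := by linarith
  have hin : ∀ r ∈ Icc a b, r ∈ Ioo (3 / 2 * R₁) (2 / 3 * R₂) := fun r hr =>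
    ⟨by linarith [hr.1], by linarith [hr.2]⟩
  have hin' : ∀ r ∈ Icc a b, r ∈ Ioo R₁ R₂ := fun r hr =>
    ⟨by linarith [hr.1], by linarith [hr.2]⟩
  have hd0 : ∀ r ∈ Ioo R₁ R₂, |N.dens r - k| ≤ ONet.eps0 k := fun r hr =>
    (hd r hr).trans (eps1_le k)
  have hε1 : eps1 k ≤ 1 / 1000000 := (eps1_le k).trans (ONet.eps0_le k)
  have hcR : ∀ r ∈ Icc a b, (N.actR r).card = k := fun r hr =>
    ONet.plateau hOU h1 h2 (by linarith) hd0 (hin r hr)
  have hcL : ∀ r ∈ Icc a b, (N.actL r).card = k := fun r hr =>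
    ONet.plateauL hOU h1 h2 (by linarith) hd0 (hin r hr)
  have hio : ∀ p ∈ U E, a ≤ 𝒢.rho O p → 𝒢.rho O p ≤ b → N.outD p = N.inD p := by
    intro p hp hpa hpb
    exact ONet.outD_eq_inD hOU (by linarith) (by linarith) (by linarith)
      (hd _ (hin' _ ⟨hpa, hpb⟩)) (hcR _ ⟨hpa, hpb⟩) (hcL _ ⟨hpa, hpb⟩) hp rfl
  obtain ⟨X, τp, τm, hS, hρ, hfin, hact⟩ := N.exists_threads hOU ha0 hab hbR hcR
    (fun r hr c hc => by
      have := ONet.one_sub_R hOU (hcR r hr) (hd r (hin' r hr)) hc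
      linarith)
    (fun r hr c hc => by
      have := ONet.one_sub_L hOU (by linarith [hr.1]) (by linarith [hr.2]) (hcL r hr)
        (hd r (hin' r hr)) hc
      linarith) hio
  have haI : a ∈ Icc a b := ⟨le_rfl, hab.le⟩
  -- the functional at the start
  have hΦ : TBase.Phi 𝒢 Finset.univ X τp O a ≤ eps1 k * a := by
    obtain ⟨g, hg, hg'⟩ := hact a ⟨le_rfl, hab⟩
    have e1 : TBase.Phi 𝒢 Finset.univ X τp O a = ∑ i, a * (1 - N.co (g i) a) := by
      unfold TBase.Phi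
      apply Finset.sum_congr rfl
      intro i _
      obtain ⟨m1, m2, m3⟩ := hg' i
      have m4 := ONet.mem_actR.1 m1
      rw [hρ i a haI, m2, m3, ONet.gZ_eq hOU ⟨m4.1, m4.2.le⟩]
      ring
    rw [e1, ← Finset.mul_sum, mul_comm]
    apply mul_le_mul_of_nonneg_right _ ha0.le
    have e2 := ONet.sum_one_sub_R hOU (hcR a haI) (hd a (hin' a haI))
      (S := Finset.univ.image g) (by
        intro c hc
        rw [Finset.mem_image] at hc
        obtain ⟨i, _, rfl⟩ := hc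
        exact (hg' i).1)
    rw [Finset.sum_image (fun i _ j _ h => hg h)] at e2
    exact e2
  -- components
  have hcomp : ∀ i : Fin k, ∃ J : Finset (Fin k), i ∈ J ∧ (∀ t ∈ Icc a b, ∀ i' ∈ J,
      ∀ j ∈ (Finset.univ : Finset (Fin k)), j ∉ J → X i' t ≠ X j t) ∧
      ∃ ω : E, TSys 𝒢 J X τp τm ω a b := by
    intro i
    obtain ⟨J, -, hiJ, hconn, hcut⟩ := exists_component Finset.univ X a b (Finset.mem_univ i)
    exact ⟨J, hiJ, hcut, component_sys hS hO ha0 (by linarith) hρ hΦ hiJ hconn hcut⟩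
  choose J hiJ hcut ω hsys using hcomp
  have hColl : ∀ i, (Coll (J i) X a b).ncard ≤ S₀ := by
    intro i
    have h5 := hf (J i).card 𝒢 (Fin k) (J i) X τp τm (ω i) a b (hsys i)
      (fun i' _ j' _ hne => hfin i' j' hne) rfl
    refine h5.trans (Finset.le_sup (f := f) ?_)
    rw [Finset.mem_range]
    have := Finset.card_le_univ (J i)
    rw [Fintype.card_fin] at this
    omega
  have hCf : ∀ i, (Coll (J i) X a b).Finite := fun i =>
    Coll.finite (fun i' _ j' _ hne => hfin i' j' hne)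
  -- vertices are collisions
  have hsub : V ⊆ ⋃ i : Fin k, (X i) '' (Coll (J i) X a b) := by
    rintro p ⟨hpU, hdeg, hp1, hp2⟩
    set t := 𝒢.rho O p with ht
    have htI : t ∈ Ioo a b := ⟨by linarith, by linarith⟩
    have hout : 2 ≤ N.outD p := by
      have h5 := hio p hpU htI.1.le htI.2.le
      unfold ONet.deg at hdeg
      omega
    unfold ONet.outD at hout
    have hnt : ∃ c ∈ {c | N.Y c 0 = p}, ∃ c' ∈ {c | N.Y c 0 = p}, c ≠ c' :=
      Set.one_lt_ncard_iff_nontrivial_and_finite.1 (by omega) |>.1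
    obtain ⟨c, hc, c', hc', hne⟩ := hnt
    simp only [Set.mem_ofPred_eq] at hc hc'
    obtain ⟨g, hg, hg'⟩ := hact t ⟨htI.1.le, htI.2⟩
    have himg : Finset.univ.image g = N.actR t := by
      apply Finset.eq_of_subset_of_card_le
      · intro d hd
        rw [Finset.mem_image] at hd
        obtain ⟨i, _, rfl⟩ := hd
        exact (hg' i).1
      · rw [hcR t ⟨htI.1.le, htI.2.le⟩, Finset.card_image_of_injective _ hg, Finset.card_univ,
          Fintype.card_fin]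
    have hact' : ∀ d, N.Y d 0 = p → d ∈ N.actR t ∧ N.pos d t = p := by
      intro d hd
      have e1 : N.al d = t := by unfold ONet.al; rw [hd]
      refine ⟨ONet.mem_actR.2 ⟨e1.le, by rw [← e1]; exact ONet.al_lt_be d⟩, ?_⟩
      rw [← e1, ONet.pos_al hOU, hd]
    have hex : ∀ d, N.Y d 0 = p → ∃ i, g i = d ∧ X i t = p := by
      intro d hd
      obtain ⟨m1, m2⟩ := hact' d hd
      rw [← himg, Finset.mem_image] at m1
      obtain ⟨i, _, hi⟩ := m1
      refine ⟨i, hi, ?_⟩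
      rw [(hg' i).2.1, hi, m2]
    obtain ⟨i, hi, hXi⟩ := hex c hc
    obtain ⟨j, hj, hXj⟩ := hex c' hc'
    have hij : i ≠ j := by rintro rfl; exact hne (hi.symm.trans hj)
    have hjJ : j ∈ J i := by
      by_contra hcon
      exact hcut i t ⟨htI.1.le, htI.2.le⟩ i (hiJ i) j (Finset.mem_univ j) hcon (hXi.trans hXj.symm)
    rw [mem_iUnion]
    exact ⟨i, t, ⟨htI, i, hiJ i, j, hjJ, hij, hXi.trans hXj.symm⟩, hXi⟩
  have hfinU : (⋃ i : Fin k, (X i) '' (Coll (J i) X a b)).Finite :=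
    Set.finite_iUnion fun i => (hCf i).image _
  calc V.ncard ≤ (⋃ i : Fin k, (X i) '' (Coll (J i) X a b)).ncard :=
        Set.ncard_le_ncard hsub hfinU
    _ ≤ ∑ i : Fin k, ((X i) '' (Coll (J i) X a b)).ncard := by
        exact Set.ncard_iUnion_le_of_fintype (fun i : Fin k => (X i) '' (Coll (J i) X a b))
    _ ≤ ∑ _i : Fin k, S₀ := Finset.sum_le_sum fun i _ =>
        (Set.ncard_image_le (hCf i)).trans (hColl i)
    _ = k * S₀ := by simp

end Pool.Agent.GeoNet
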