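import Pool.Agent.GeoNet.Defs

/-!
# Basic facts on local geometries
-/

namespace Pool.Agent.GeoNet

open Set Metric Filter
open scoped Topology RealInnerProductSpace

variable {E : Type*} [NormedAddCommGroup E] [InnerProductSpace ℝ E]

/-- the ball of radius three -/
abbrev U (E : Type*) [NormedAddCommGroup E] : Set E := ball (0 : E) 3

namespace LocGeo

variable (𝒢 : LocGeo E)

/-- the distance from `O` -/
noncomputable def rho (O x : E) : ℝ := √(𝒢.g O (𝒢.v O x) (𝒢.v O x))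

/-- the cosine of the angle between `τ` and the radial direction from `O` at `x` -/
noncomputable def cs (O x τ : E) : ℝ := 𝒢.g x (𝒢.Z O x) τ / 𝒢.rho O x

variable {𝒢}

lemma g_abs_le {x : E} (hx : x ∈ U E) (u w : E) : |𝒢.g x u w| ≤ (1 + dl) * ‖u‖ * ‖w‖ := by
  have h1 := 𝒢.g_near x hx u w
  have h2 := abs_real_inner_le_norm u w
  calc |𝒢.g x u w| = |(𝒢.g x u w - ⟪u, w⟫) + ⟪u, w⟫| := by ring_nf
    _ ≤ |𝒢.g x u w - ⟪u, w⟫| + |⟪u, w⟫| := abs_add_le _ _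
    _ ≤ dl * ‖u‖ * ‖w‖ + ‖u‖ * ‖w‖ := add_le_add h1 h2
    _ = _ := by ring

lemma g_self_le {x : E} (hx : x ∈ U E) (u : E) : 𝒢.g x u u ≤ (1 + dl) * ‖u‖ ^ 2 := by
  have h1 := (abs_le.1 (𝒢.g_near x hx u u)).2
  rw [real_inner_self_eq_norm_sq] at h1
  nlinarith

lemma le_g_self {x : E} (hx : x ∈ U E) (u : E) : (1 - dl) * ‖u‖ ^ 2 ≤ 𝒢.g x u u := by
  have h1 := (abs_le.1 (𝒢.g_near x hx u u)).1
  rw [real_inner_self_eq_norm_sq] at h1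
  nlinarith

lemma g_self_nonneg {x : E} (hx : x ∈ U E) (u : E) : 0 ≤ 𝒢.g x u u :=
  le_trans (by have : (0:ℝ) ≤ 1 - dl := by norm_num [dl]
               positivity) (le_g_self hx u)

lemma g_self_pos {x : E} (hx : x ∈ U E) {u : E} (hu : u ≠ 0) : 0 < 𝒢.g x u u :=
  lt_of_lt_of_le (by have : (0:ℝ) < 1 - dl := by norm_num [dl]
                     have := norm_pos_iff.2 hu
                     positivity) (le_g_self hx u)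

/-- Cauchy-Schwarz -/
lemma g_cs {x : E} (hx : x ∈ U E) (u w : E) :
    𝒢.g x u w ^ 2 ≤ 𝒢.g x u u * 𝒢.g x w w := by
  by_cases hw : w = 0
  · subst hw; simp
  have hpos := g_self_pos (𝒢 := 𝒢) hx hw
  have key := g_self_nonneg (𝒢 := 𝒢) hx (𝒢.g x w w • u - 𝒢.g x u w • w)
  have hexp : 𝒢.g x (𝒢.g x w w • u - 𝒢.g x u w • w) (𝒢.g x w w • u - 𝒢.g x u w • w)
      = 𝒢.g x w w * (𝒢.g x u u * 𝒢.g x w w - 𝒢.g x u w ^ 2) := by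
    simp only [map_sub, map_smul, _root_.sub_apply, smul_apply, smul_eq_mul]
    rw [𝒢.g_symm x w u]
    ring
  rw [hexp] at key
  by_contra hcon
  push Not at hcon
  have : 𝒢.g x w w * (𝒢.g x u u * 𝒢.g x w w - 𝒢.g x u w ^ 2) < 0 :=
    mul_neg_of_pos_of_neg hpos (by linarith)
  linarith

lemma unit_norm {x : E} (hx : x ∈ U E) {τ : E} (h : 𝒢.g x τ τ = 1) :
    ‖τ‖ ≤ 1001 / 1000 ∧ 999 / 1000 ≤ ‖τ‖ := by
  have h1 := g_self_le (𝒢 := 𝒢) hx τ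
  have h2 := le_g_self (𝒢 := 𝒢) hx τ
  rw [h] at h1 h2
  have h0 := norm_nonneg τ
  norm_num [dl] at h1 h2
  constructor
  · nlinarith
  · nlinarith

lemma v_sub_le {O x y : E} (hO : O ∈ U E) (hx : x ∈ U E) (hy : y ∈ U E) :
    ‖𝒢.v O x - 𝒢.v O y‖ ≤ (1 + dl) * ‖x - y‖ ∧ (1 - dl) * ‖x - y‖ ≤ ‖𝒢.v O x - 𝒢.v O y‖ := by
  have h := 𝒢.v_near O hO x hx y hy
  constructor
  · calc ‖𝒢.v O x - 𝒢.v O y‖ = ‖(𝒢.v O x - 𝒢.v O y - (x - y)) + (x - y)‖ := by congr 1; abel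
      _ ≤ _ + _ := norm_add_le _ _
      _ ≤ _ := by linarith
  · have : ‖x - y‖ ≤ ‖𝒢.v O x - 𝒢.v O y‖ + ‖𝒢.v O x - 𝒢.v O y - (x - y)‖ := by
      calc ‖x - y‖ = ‖(𝒢.v O x - 𝒢.v O y) - (𝒢.v O x - 𝒢.v O y - (x - y))‖ := by congr 1; abel
        _ ≤ _ := norm_sub_le _ _
    linarith

lemma Z_sub_le {O x y : E} (hO : O ∈ U E) (hx : x ∈ U E) (hy : y ∈ U E) :
    ‖𝒢.Z O x - 𝒢.Z O y‖ ≤ (1 + dl) * ‖x - y‖ ∧ (1 - dl) * ‖x - y‖ ≤ ‖𝒢.Z O x - 𝒢.Z O y‖ := by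
  have h := 𝒢.Z_near O hO x hx y hy
  constructor
  · calc ‖𝒢.Z O x - 𝒢.Z O y‖ = ‖(𝒢.Z O x - 𝒢.Z O y - (x - y)) + (x - y)‖ := by congr 1; abel
      _ ≤ _ + _ := norm_add_le _ _
      _ ≤ _ := by linarith
  · have : ‖x - y‖ ≤ ‖𝒢.Z O x - 𝒢.Z O y‖ + ‖𝒢.Z O x - 𝒢.Z O y - (x - y)‖ := by
      calc ‖x - y‖ = ‖(𝒢.Z O x - 𝒢.Z O y) - (𝒢.Z O x - 𝒢.Z O y - (x - y))‖ := by congr 1; abel
        _ ≤ _ := norm_sub_le _ _
    linarith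

lemma v_near' {O x : E} (hO : O ∈ U E) (hx : x ∈ U E) :
    ‖𝒢.v O x - (x - O)‖ ≤ dl * ‖x - O‖ := by
  have := 𝒢.v_near O hO x hx O hO
  rwa [𝒢.v_self O hO, sub_zero] at this

lemma Z_near' {O x : E} (hO : O ∈ U E) (hx : x ∈ U E) :
    ‖𝒢.Z O x - (x - O)‖ ≤ dl * ‖x - O‖ := by
  have := 𝒢.Z_near O hO x hx O hO
  rwa [𝒢.Z_self O hO, sub_zero] at this

lemma rho_nonneg (O x : E) : 0 ≤ 𝒢.rho O x := Real.sqrt_nonneg _

lemma rho_sq {O x : E} (hO : O ∈ U E) : 𝒢.rho O x ^ 2 = 𝒢.g O (𝒢.v O x) (𝒢.v O x) :=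
  Real.sq_sqrt (g_self_nonneg hO _)

lemma rho_sq' {O x : E} (hO : O ∈ U E) (hx : x ∈ U E) :
    𝒢.rho O x ^ 2 = 𝒢.g x (𝒢.Z O x) (𝒢.Z O x) := by
  rw [rho_sq hO, 𝒢.norm_eq O hO x hx]

lemma norm_v_le_rho {O x : E} (hO : O ∈ U E) : ‖𝒢.v O x‖ ≤ 1001 / 1000 * 𝒢.rho O x ∧
    999 / 1000 * 𝒢.rho O x ≤ ‖𝒢.v O x‖ := by
  have h1 := g_self_le (𝒢 := 𝒢) hO (𝒢.v O x)
  have h2 := le_g_self (𝒢 := 𝒢) hO (𝒢.v O x)
  rw [← rho_sq hO] at h1 h2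
  have h0 := norm_nonneg (𝒢.v O x)
  have h3 := rho_nonneg (𝒢 := 𝒢) O x
  norm_num [dl] at h1 h2
  constructor
  · apply le_of_sq_le_sq _ (by positivity)
    nlinarith [sq_nonneg (𝒢.rho O x)]
  · apply le_of_sq_le_sq _ (by positivity)
    nlinarith [sq_nonneg (𝒢.rho O x)]

lemma norm_Z_le_rho {O x : E} (hO : O ∈ U E) (hx : x ∈ U E) :
    ‖𝒢.Z O x‖ ≤ 1001 / 1000 * 𝒢.rho O x ∧ 999 / 1000 * 𝒢.rho O x ≤ ‖𝒢.Z O x‖ := by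
  have h1 := g_self_le (𝒢 := 𝒢) hx (𝒢.Z O x)
  have h2 := le_g_self (𝒢 := 𝒢) hx (𝒢.Z O x)
  rw [← rho_sq' hO hx] at h1 h2
  have h0 := norm_nonneg (𝒢.Z O x)
  have h3 := rho_nonneg (𝒢 := 𝒢) O x
  norm_num [dl] at h1 h2
  constructor
  · apply le_of_sq_le_sq _ (by positivity)
    nlinarith [sq_nonneg (𝒢.rho O x)]
  · apply le_of_sq_le_sq _ (by positivity)
    nlinarith [sq_nonneg (𝒢.rho O x)]

lemma rho_le_dist {O x : E} (hO : O ∈ U E) (hx : x ∈ U E) :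
    𝒢.rho O x ≤ 1003 / 1000 * ‖x - O‖ ∧ 997 / 1000 * ‖x - O‖ ≤ 𝒢.rho O x := by
  have h1 := norm_v_le_rho (𝒢 := 𝒢) (x := x) hO
  have h2 := v_sub_le (𝒢 := 𝒢) hO hx hO
  rw [𝒢.v_self O hO, sub_zero] at h2
  norm_num [dl] at h2
  have h0 := norm_nonneg (x - O)
  constructor <;> nlinarith [rho_nonneg (𝒢 := 𝒢) O x]

lemma rho_pos {O x : E} (hO : O ∈ U E) (hx : x ∈ U E) (hne : x ≠ O) : 0 < 𝒢.rho O x := by
  have h := (rho_le_dist (𝒢 := 𝒢) hO hx).2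
  have : 0 < ‖x - O‖ := norm_pos_iff.2 (sub_ne_zero.2 hne)
  nlinarith

lemma rho_self {O : E} (hO : O ∈ U E) : 𝒢.rho O O = 0 := by
  simp [rho, 𝒢.v_self O hO]

/-- `rho` is almost 1-Lipschitz -/
lemma rho_sub_le {O x y : E} (hO : O ∈ U E) (hx : x ∈ U E) (hy : y ∈ U E) :
    |𝒢.rho O x - 𝒢.rho O y| ≤ 1003 / 1000 * ‖x - y‖ := by
  -- triangle inequality for the norm of `g O`
  have tri : ∀ u w : E, √(𝒢.g O u u) ≤ √(𝒢.g O w w) + √(𝒢.g O (u - w) (u - w)) := by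
    intro u w
    have hu := g_self_nonneg (𝒢 := 𝒢) hO u
    have hw := g_self_nonneg (𝒢 := 𝒢) hO w
    have huw := g_self_nonneg (𝒢 := 𝒢) hO (u - w)
    have hcs := g_cs (𝒢 := 𝒢) hO w (u - w)
    apply Real.sqrt_le_iff.2
    refine ⟨by positivity, ?_⟩
    rw [add_sq, Real.sq_sqrt hw, Real.sq_sqrt huw]
    have h1 : 𝒢.g O u u = 𝒢.g O w w + 2 * 𝒢.g O w (u - w) + 𝒢.g O (u - w) (u - w) := by
      simp only [map_sub, _root_.sub_apply]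
      rw [𝒢.g_symm O w u]; ring
    have h2 : 𝒢.g O w (u - w) ≤ √(𝒢.g O w w) * √(𝒢.g O (u - w) (u - w)) := by
      rw [← Real.sqrt_mul hw]
      exact Real.le_sqrt_of_sq_le hcs
    rw [h1]; linarith
  have small : ∀ u : E, √(𝒢.g O u u) ≤ 1001 / 1000 * ‖u‖ := by
    intro u
    have h1 := g_self_le (𝒢 := 𝒢) hO u
    apply Real.sqrt_le_iff.2
    refine ⟨by positivity, h1.trans ?_⟩
    norm_num [dl]
    nlinarith [sq_nonneg ‖u‖]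
  have h1 := (v_sub_le (𝒢 := 𝒢) hO hx hy).1
  have h1' := (v_sub_le (𝒢 := 𝒢) hO hy hx).1
  have h2 := tri (𝒢.v O x) (𝒢.v O y)
  have h3 := tri (𝒢.v O y) (𝒢.v O x)
  have h4 := small (𝒢.v O x - 𝒢.v O y)
  have h5 := small (𝒢.v O y - 𝒢.v O x)
  rw [norm_sub_rev y x] at h1'
  norm_num [dl] at h1 h1'
  rw [abs_le]
  unfold rho
  have h0 := norm_nonneg (x - y)
  constructor <;> nlinarith

lemma cs_abs_le {O x τ : E} (hO : O ∈ U E) (hx : x ∈ U E) (hτ : 𝒢.g x τ τ = 1) :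
    |𝒢.cs O x τ| ≤ 1 := by
  unfold cs
  rw [abs_div, abs_of_nonneg (rho_nonneg O x)]
  apply div_le_one_of_le₀ _ (rho_nonneg O x)
  have h := g_cs (𝒢 := 𝒢) hx (𝒢.Z O x) τ
  rw [hτ, mul_one, ← rho_sq' hO hx] at h
  exact abs_le_of_sq_le_sq h (rho_nonneg O x)

lemma g_Z_eq {O x : E} (hO : O ∈ U E) (hx : x ∈ U E) (τ : E) :
    𝒢.g x (𝒢.Z O x) τ = 𝒢.rho O x * 𝒢.cs O x τ := by
  unfold cs
  by_cases h : 𝒢.rho O x = 0
  · rw [h, zero_mul]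
    have h1 := g_cs (𝒢 := 𝒢) hx (𝒢.Z O x) τ
    rw [← rho_sq' hO hx, h] at h1
    nlinarith [sq_nonneg (𝒢.g x (𝒢.Z O x) τ)]
  · field_simp

lemma g_Z_le {O x τ : E} (hO : O ∈ U E) (hx : x ∈ U E) (hτ : 𝒢.g x τ τ = 1) :
    𝒢.g x (𝒢.Z O x) τ ≤ 𝒢.rho O x := by
  rw [g_Z_eq hO hx]
  have := (abs_le.1 (cs_abs_le (𝒢 := 𝒢) hO hx hτ)).2
  nlinarith [rho_nonneg (𝒢 := 𝒢) O x]

/-- the gap identity -/
lemma gap_eq {O x τ : E} (hO : O ∈ U E) (hx : x ∈ U E) (hτ : 𝒢.g x τ τ = 1)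
    (hρ : 0 < 𝒢.rho O x) :
    𝒢.g x ((𝒢.rho O x)⁻¹ • 𝒢.Z O x - τ) ((𝒢.rho O x)⁻¹ • 𝒢.Z O x - τ)
      = 2 * (1 - 𝒢.cs O x τ) := by
  have h1 := rho_sq' (𝒢 := 𝒢) hO hx
  unfold cs
  simp only [map_sub, map_smul, _root_.sub_apply, smul_apply, smul_eq_mul]
  rw [← h1, 𝒢.g_symm x τ (𝒢.Z O x), hτ]
  field_simp
  ring

/-- near radial: the distance between the tangent and the radial direction -/
lemma norm_sub_sq_le {O x τ : E} (hO : O ∈ U E) (hx : x ∈ U E) (hτ : 𝒢.g x τ τ = 1)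
    (hρ : 0 < 𝒢.rho O x) :
    ‖(𝒢.rho O x)⁻¹ • 𝒢.Z O x - τ‖ ^ 2 ≤ 2002 / 1000 * (1 - 𝒢.cs O x τ + 0) * (1001 / 1000) := by
  have h := le_g_self (𝒢 := 𝒢) hx ((𝒢.rho O x)⁻¹ • 𝒢.Z O x - τ)
  rw [gap_eq hO hx hτ hρ] at h
  norm_num [dl] at h
  have h2 := (abs_le.1 (cs_abs_le (𝒢 := 𝒢) hO hx hτ)).2
  nlinarith

lemma gap_le {O x τ : E} (hO : O ∈ U E) (hx : x ∈ U E) (hτ : 𝒢.g x τ τ = 1)
    (hρ : 0 < 𝒢.rho O x) :
    1 - 𝒢.cs O x τ ≤ ‖(𝒢.rho O x)⁻¹ • 𝒢.Z O x - τ‖ ^ 2 := by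
  have h := g_self_le (𝒢 := 𝒢) hx ((𝒢.rho O x)⁻¹ • 𝒢.Z O x - τ)
  rw [gap_eq hO hx hτ hρ] at h
  norm_num [dl] at h
  nlinarith [sq_nonneg ‖(𝒢.rho O x)⁻¹ • 𝒢.Z O x - τ‖]

end LocGeo

namespace IsGeo

variable {g : E → E →L[ℝ] E →L[ℝ] ℝ} {acc : E → E → E} {X X' : ℝ → E} {a b : ℝ}

lemma mono (h : IsGeo g acc X X' a b) {a' b' : ℝ} (ha : a ≤ a') (hb : b' ≤ b) :
    IsGeo g acc X X' a' b' where
  mem s hs := h.mem s ⟨ha.trans hs.1, hs.2.trans hb⟩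
  d1 s hs := (h.d1 s ⟨ha.trans hs.1, hs.2.trans hb⟩).mono (Icc_subset_Icc ha hb)
  d2 s hs := (h.d2 s ⟨ha.trans hs.1, hs.2.trans hb⟩).mono (Icc_subset_Icc ha hb)
  unit s hs := h.unit s ⟨ha.trans hs.1, hs.2.trans hb⟩

/-- time reversal -/
lemma reverse (hneg : ∀ x u, acc x (-u) = acc x u) (h : IsGeo g acc X X' a b) (t₀ : ℝ) :
    IsGeo g acc (fun s => X (t₀ - s)) (fun s => -X' (t₀ - s)) (t₀ - b) (t₀ - a) where
  mem s hs := h.mem _ ⟨by linarith [hs.2], by linarith [hs.1]⟩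
  d1 s hs := by
    have h1 := h.d1 (t₀ - s) ⟨by linarith [hs.2], by linarith [hs.1]⟩
    have h2 : HasDerivWithinAt (fun s : ℝ => t₀ - s) (-1) (Icc (t₀ - b) (t₀ - a)) s :=
      ((hasDerivAt_id s).const_sub t₀).hasDerivWithinAt
    have h3 : MapsTo (fun s : ℝ => t₀ - s) (Icc (t₀ - b) (t₀ - a)) (Icc a b) := by
      intro r hr
      exact ⟨by linarith [hr.2], by linarith [hr.1]⟩
    have := HasDerivWithinAt.scomp s h1 h2 h3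
    simpa [Function.comp_def] using this
  d2 s hs := by
    have h1 := h.d2 (t₀ - s) ⟨by linarith [hs.2], by linarith [hs.1]⟩
    have h2 : HasDerivWithinAt (fun s : ℝ => t₀ - s) (-1) (Icc (t₀ - b) (t₀ - a)) s :=
      ((hasDerivAt_id s).const_sub t₀).hasDerivWithinAt
    have h3 : MapsTo (fun s : ℝ => t₀ - s) (Icc (t₀ - b) (t₀ - a)) (Icc a b) := by
      intro r hr
      exact ⟨by linarith [hr.2], by linarith [hr.1]⟩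
    have := (HasDerivWithinAt.scomp s h1 h2 h3).neg
    rw [hneg]
    simpa [Function.comp_def, Pi.neg_def] using this
  unit s hs := by
    have h1 := h.unit (t₀ - s) ⟨by linarith [hs.2], by linarith [hs.1]⟩
    simpa using h1

lemma continuousOn (h : IsGeo g acc X X' a b) : ContinuousOn X (Icc a b) :=
  fun s hs => (h.d1 s hs).continuousWithinAt

lemma continuousOn' (h : IsGeo g acc X X' a b) : ContinuousOn X' (Icc a b) :=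
  fun s hs => (h.d2 s hs).continuousWithinAt

end IsGeo

namespace LocGeo

variable {𝒢 : LocGeo E} {X X' : ℝ → E} {a b : ℝ}

/-- geodesic arcs of the local geometry -/
abbrev Geo (𝒢 : LocGeo E) (X X' : ℝ → E) (a b : ℝ) : Prop := IsGeo 𝒢.g 𝒢.acc X X' a b

lemma Geo.f_deriv (h : 𝒢.Geo X X' a b) {O : E} (hO : O ∈ U E) {s : ℝ} (hs : s ∈ Icc a b) :
    HasDerivWithinAt (fun s => 𝒢.rho O (X s) ^ 2 / 2) (𝒢.g (X s) (𝒢.Z O (X s)) (X' s))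
      (Icc a b) s := by
  have h1 := (𝒢.f_deriv O hO (X s) (h.mem s hs)).comp_hasDerivWithinAt s (h.d1 s hs)
  refine h1.congr ?_ ?_
  · intro r _
    simp only [Function.comp]
    rw [rho_sq hO]
  · simp only [Function.comp]
    rw [rho_sq hO]

lemma Geo.rho_deriv (h : 𝒢.Geo X X' a b) {O : E} (hO : O ∈ U E) {s : ℝ} (hs : s ∈ Icc a b)
    (hne : X s ≠ O) :
    HasDerivWithinAt (fun s => 𝒢.rho O (X s)) (𝒢.cs O (X s) (X' s)) (Icc a b) s := by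
  have hpos := rho_pos (𝒢 := 𝒢) hO (h.mem s hs) hne
  have h1 := h.f_deriv hO hs
  have h2 : HasDerivWithinAt (fun s => √(𝒢.rho O (X s) ^ 2 / 2 * 2))
      ((𝒢.g (X s) (𝒢.Z O (X s)) (X' s) * 2) / (2 * √(𝒢.rho O (X s) ^ 2 / 2 * 2)))
      (Icc a b) s := by
    apply (h1.mul_const 2).sqrt
    positivity
  have h3 : ∀ r, √(𝒢.rho O (X r) ^ 2 / 2 * 2) = 𝒢.rho O (X r) := by
    intro r
    rw [div_mul_cancel₀ _ (two_ne_zero)]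
    exact Real.sqrt_sq (rho_nonneg _ _)
  simp only [h3] at h2
  convert h2 using 1
  unfold cs
  field_simp

lemma Geo.second' (h : 𝒢.Geo X X' a b) {O : E} (hO : O ∈ U E) {s : ℝ} (hs : s ∈ Icc a b) :
    ∃ A : ℝ, HasDerivWithinAt (fun s => 𝒢.g (X s) (𝒢.Z O (X s)) (X' s)) A (Icc a b) s ∧
      (1 + 𝒢.cs O (X s) (X' s) ^ 2) / 2 ≤ A :=
  𝒢.second O hO X X' a b h s hs

lemma Geo.angular' (h : 𝒢.Geo X X' a b) {O : E} (hO : O ∈ U E) {s : ℝ} (hs : s ∈ Icc a b)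
    (hne : X s ≠ O) :
    ∃ D : E, HasDerivWithinAt (fun s => (𝒢.rho O (X s))⁻¹ • 𝒢.v O (X s)) D (Icc a b) s ∧
      ‖D‖ ≤ 2 * √(1 - 𝒢.cs O (X s) (X' s) ^ 2) / 𝒢.rho O (X s) :=
  𝒢.angular O hO X X' a b h s hs hne

end LocGeo

end Pool.Agent.GeoNet
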