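import Pool.Agent.GeoNet.Estimate

/-!
# Connected blocks of collisions
-/

namespace Pool.Agent.GeoNet

open Set Metric Filter
open scoped Topology RealInnerProductSpace

variable {E : Type*} [NormedAddCommGroup E] [InnerProductSpace ℝ E]

/-- every cut of `I` is crossed by a collision at a time of `[c, d]` -/
def Conn {ι : Type*} (I : Finset ι) (X : ι → ℝ → E) (c d : ℝ) : Prop :=
  ∀ J ⊆ I, J.Nonempty → J ≠ I → ∃ i ∈ J, ∃ j ∈ I, j ∉ J ∧ ∃ t ∈ Icc c d, X i t = X j t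

omit [InnerProductSpace ℝ E] in
lemma Conn.chain {ι : Type*} {I : Finset ι} {X : ι → ℝ → E} {c d : ℝ} (h : Conn I X c d)
    {V : Type*} [SeminormedAddCommGroup V] {F : ι → V} {θ : ℝ} (hθ : 0 ≤ θ)
    (hF : ∀ i ∈ I, ∀ j ∈ I, ∀ t ∈ Icc c d, X i t = X j t → ‖F i - F j‖ ≤ θ) {i j : ι}
    (hi : i ∈ I) (hj : j ∈ I) : ‖F i - F j‖ ≤ I.card * θ := by
  classical
  have key : ∀ n : ℕ, ∃ J ⊆ I, i ∈ J ∧ (n + 1 ≤ J.card ∨ J = I) ∧
      ∀ k ∈ J, ‖F i - F k‖ ≤ n * θ := by
    intro n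
    induction n with
    | zero =>
      refine ⟨{i}, by simpa using hi, by simp, Or.inl (by simp), ?_⟩
      intro k hk
      rw [Finset.mem_singleton.1 hk]; simp
    | succ n ih =>
      obtain ⟨J, hJ, hiJ, hc, hb⟩ := ih
      have hmono : (n : ℝ) * θ ≤ ((n + 1 : ℕ) : ℝ) * θ := by push_cast; linarith
      by_cases hJI : J = I
      · exact ⟨J, hJ, hiJ, Or.inr hJI, fun k hk => (hb k hk).trans hmono⟩
      · obtain ⟨i', hi', j', hj', hnj, t, ht, hX⟩ := h J hJ ⟨i, hiJ⟩ hJI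
        refine ⟨insert j' J, ?_, Finset.mem_insert_of_mem hiJ, Or.inl ?_, ?_⟩
        · exact Finset.insert_subset hj' hJ
        · rw [Finset.card_insert_of_notMem hnj]
          rcases hc with hc | hc
          · omega
          · exact absurd hc hJI
        · intro k hk
          rcases Finset.mem_insert.1 hk with hk | hk
          · subst hk
            have h1 := hb i' hi'
            have h2 := hF i' (hJ hi') k hj' t ht hX
            calc ‖F i - F k‖ = ‖(F i - F i') + (F i' - F k)‖ := by congr 1; abel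
              _ ≤ _ + _ := norm_add_le _ _
              _ ≤ _ := by push_cast; linarith
          · exact (hb k hk).trans hmono
  obtain ⟨J, hJ, hiJ, hc, hb⟩ := key I.card
  have hJI : J = I := by
    rcases hc with hc | hc
    · have := Finset.card_le_card hJ; omega
    · exact hc
  exact hb j (hJI ▸ hj)

namespace TSys

variable {𝒢 : LocGeo E} {ι : Type*} {I : Finset ι} {X τp τm : ι → ℝ → E} {ω : E} {a b : ℝ}

lemma restrict (S : TSys 𝒢 I X τp τm ω a b) {a' b' : ℝ} (ha : a ≤ a') (hb : b' ≤ b)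
    (hlt : a' < b') : TSys 𝒢 I X τp τm ω a' b' where
  lt := hlt
  right i hi t ht := S.right i hi t ⟨ha.trans ht.1, ht.2.trans_le hb⟩
  left i hi t ht := S.left i hi t ⟨ha.trans_lt ht.1, ht.2.trans hb⟩
  eqL i hi t ht := S.eqL i hi t ⟨ha.trans_lt ht.1, ht.2.trans hb⟩
  eqR i hi t ht := S.eqR i hi t ⟨ha.trans ht.1, ht.2.trans_le hb⟩
  bal t ht x := S.bal t ⟨ha.trans_lt ht.1, ht.2.trans_le hb⟩ x
  len := by linarith [S.len]
  ω_norm := S.ω_norm
  ball1 i hi t ht := S.ball1 i hi t ⟨ha.trans ht.1, ht.2.trans hb⟩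
  slice i hi j hj t ht t' ht' := S.slice i hi j hj t ⟨ha.trans ht.1, ht.2.trans hb⟩ t'
    ⟨ha.trans ht'.1, ht'.2.trans hb⟩

open scoped Classical in
lemma sub (S : TSys 𝒢 I X τp τm ω a b) {J : Finset ι} (hJ : J ⊆ I)
    (hcut : ∀ t ∈ Ioo a b, ∀ i ∈ J, ∀ j ∈ I, j ∉ J → X i t ≠ X j t) :
    TSys 𝒢 J X τp τm ω a b where
  lt := S.lt
  right i hi := S.right i (hJ hi)
  left i hi := S.left i (hJ hi)
  eqL i hi := S.eqL i (hJ hi)
  eqR i hi := S.eqR i (hJ hi)
  bal t ht x := by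
    have h := S.bal t ht x
    by_cases hx : ∃ i ∈ J, X i t = x
    · obtain ⟨i, hi, hix⟩ := hx
      have e : I.filter (fun i => X i t = x) = J.filter (fun i => X i t = x) := by
        ext j
        simp only [Finset.mem_filter]
        constructor
        · rintro ⟨hj, hjx⟩
          refine ⟨?_, hjx⟩
          by_contra hnj
          exact hcut t ht i hi j hj hnj (hix.trans hjx.symm)
        · rintro ⟨hj, hjx⟩
          exact ⟨hJ hj, hjx⟩
      rw [e] at h
      exact h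
    · have e : J.filter (fun i => X i t = x) = ∅ := by
        ext j
        simp only [Finset.mem_filter, Finset.notMem_empty, iff_false]
        rintro ⟨hj, hjx⟩
        exact hx ⟨j, hj, hjx⟩
      rw [e]; simp
  len := S.len
  ω_norm := S.ω_norm
  ball1 i hi := S.ball1 i (hJ hi)
  slice i hi j hj := S.slice i (hJ hi) j (hJ hj)

lemma reverse (S : TSys 𝒢 I X τp τm ω a b) :
    TSys 𝒢 I (fun i s => X i (-s)) (fun i s => -τm i (-s)) (fun i s => -τp i (-s)) (-ω)
      (-b) (-a) where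
  lt := by linarith [S.lt]
  right i hi t ht := by
    have h := S.left i hi (-t) ⟨by linarith [ht.2], by linarith [ht.1]⟩
    unfold LGerm at h
    rwa [neg_neg] at h
  left i hi t ht := by
    have h := S.right i hi (-t) ⟨by linarith [ht.2], by linarith [ht.1]⟩
    unfold LGerm
    simp only [neg_neg]
    exact h
  eqL i hi t ht := by
    have h := S.eqR i hi (-t) ⟨by linarith [ht.2], by linarith [ht.1]⟩
    have h2 : Tendsto (fun s : ℝ => -s) (𝓝[<] t) (𝓝[>] (-t)) := tendsto_neg_nhdsLT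
    filter_upwards [h2.eventually h] with r hr
    rw [hr]
  eqR i hi t ht := by
    have h := S.eqL i hi (-t) ⟨by linarith [ht.2], by linarith [ht.1]⟩
    have h2 : Tendsto (fun s : ℝ => -s) (𝓝[>] t) (𝓝[<] (-t)) := tendsto_neg_nhdsGT
    filter_upwards [h2.eventually h] with r hr
    rw [hr]
  bal t ht x := by
    have h := S.bal (-t) ⟨by linarith [ht.2], by linarith [ht.1]⟩ x
    rw [Finset.sum_neg_distrib, Finset.sum_neg_distrib, h]
  len := by linarith [S.len]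
  ω_norm := by rw [norm_neg]; exact S.ω_norm
  ball1 i hi t ht := S.ball1 i hi (-t) ⟨by linarith [ht.2], by linarith [ht.1]⟩
  slice i hi j hj t ht t' ht' := by
    have h := S.slice i hi j hj (-t) ⟨by linarith [ht.2], by linarith [ht.1]⟩ (-t')
      ⟨by linarith [ht'.2], by linarith [ht'.1]⟩
    rw [inner_neg_left]
    have e : t - t' - -⟪ω, X i (-t) - X j (-t')⟫ = -(-t - -t' - ⟪ω, X i (-t) - X j (-t')⟫) := by
      ring
    rw [e, abs_neg]
    exact h

/-- coarse consequence of the estimate -/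
lemma coarse (S : TSys 𝒢 I X τp τm ω a b) {i₀ : ι} (hi₀ : i₀ ∈ I) {q T : ℝ} (hT : 0 < T)
    (hT1 : T ≤ 1) (hq0 : 0 ≤ q) (hq : q ≤ 3) (hX : ∀ i ∈ I, ‖X i a - X i₀ a‖ ≤ q * T)
    (hτ : ∀ i ∈ I, ‖τp i a - τp i₀ a‖ ≤ q) {i j : ι} (hi : i ∈ I) (hj : j ∈ I) :
    (∀ t ∈ Ioc a b, ‖τm i t - τm j t‖ ≤ 10 ^ 7 * I.card * q) ∧
    (∀ t ∈ Icc a b, ‖X i t - X j t‖ ≤ 10 ^ 6 * I.card * q * (t - a + T)) := by
  obtain ⟨O, hO, h1, -, h2, -, h3, h4⟩ := S.estimate hi₀ hT hT1 hq0 hq hX hτ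
  have hcard : (1:ℝ) ≤ I.card := by
    have : 0 < I.card := Finset.card_pos.2 ⟨i₀, hi₀⟩
    exact_mod_cast this
  have hsT : 0 < √T := Real.sqrt_pos.2 hT
  have hmq : q ≤ I.card * q := by nlinarith
  have hu : ∀ t ∈ Icc a b, ‖𝒢.uu O (X i t) - 𝒢.uu O (X j t)‖ ≤ 6020 * (I.card * q) := by
    intro t ht
    have e1 := h1 i hi a t le_rfl ht.1 ht.2
    have e2 := h1 j hj a t le_rfl ht.1 ht.2
    rw [sub_self, zero_add, div_self hsT.ne', mul_one] at e1 e2
    have e3 := h4 i hi j hj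
    calc ‖𝒢.uu O (X i t) - 𝒢.uu O (X j t)‖
        = ‖(𝒢.uu O (X i t) - 𝒢.uu O (X i a)) - (𝒢.uu O (X j t) - 𝒢.uu O (X j a))
          + (𝒢.uu O (X i a) - 𝒢.uu O (X j a))‖ := by congr 1; abel
      _ ≤ ‖𝒢.uu O (X i t) - 𝒢.uu O (X i a)‖ + ‖𝒢.uu O (X j t) - 𝒢.uu O (X j a)‖
          + ‖𝒢.uu O (X i a) - 𝒢.uu O (X j a)‖ :=
          (norm_add_le _ _).trans (add_le_add_left (norm_sub_le _ _) _)
      _ ≤ _ := by linarith
  constructor
  · intro t ht
    have e1 := h3 i hi j hj t ht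
    have e2 := hu t ⟨ht.1.le, ht.2⟩
    have e3 : √T / √(t - a + T) ≤ 1 := by
      apply div_le_one_of_le₀ _ (Real.sqrt_nonneg _)
      exact Real.sqrt_le_sqrt (by linarith [ht.1])
    have e4 : 140 * I.card * q * (√T / √(t - a + T)) ≤ 140 * (I.card * q) := by
      have : 0 ≤ 140 * I.card * q := by positivity
      nlinarith
    nlinarith
  · intro t ht
    have e1 := h2 i hi j hj t ht
    have e2 := hu t ht
    have hw : 0 ≤ t - a + T := by linarith [ht.1]
    have hq' : 0 ≤ I.card * q := by positivity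
    calc ‖X i t - X j t‖ ≤ 100 * (t - a + T) * ‖𝒢.uu O (X i t) - 𝒢.uu O (X j t)‖ := e1
      _ ≤ 100 * (t - a + T) * (6020 * (I.card * q)) := by gcongr
      _ ≤ _ := by nlinarith [mul_nonneg hw hq']

/-- a connected block takes some time -/
lemma block_long (S : TSys 𝒢 I X τp τm ω a b) {i₀ : ι} (hi₀ : i₀ ∈ I) {q T : ℝ} (hT : 0 < T)
    (hT1 : T ≤ 1) (hq0 : 0 ≤ q) (hq : q ≤ 3) (hX : ∀ i ∈ I, ‖X i a - X i₀ a‖ ≤ q * T)
    (hτ : ∀ i ∈ I, ‖τp i a - τp i₀ a‖ ≤ q) {c d : ℝ} (hac : a ≤ c) (hcd : c ≤ d) (hdb : d ≤ b)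
    (hconn : Conn I X c d) (hdc : d - c ≤ T) {i j : ι} (hi : i ∈ I) (hj : j ∈ I) :
    ‖X i d - X j d‖ ≤ 500000 * I.card ^ 2 * q * (d - c) := by
  obtain ⟨O, hO, -, h1, h2, -⟩ := S.estimate hi₀ hT hT1 hq0 hq hX hτ
  set m : ℝ := (I.card : ℝ) with hm
  have hm0 : 0 ≤ m := Nat.cast_nonneg _
  set W := c - a + T with hW
  have hW0 : 0 < W := by rw [hW]; linarith
  have hsW : 0 < √W := Real.sqrt_pos.2 hW0
  have hsT : 0 < √T := Real.sqrt_pos.2 hT
  set R : ℝ := √T / (W * √W) with hR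
  have hR0 : 0 ≤ R := by positivity
  have hdr : ∀ k ∈ I, ∀ s ∈ Icc c d, ‖𝒢.uu O (X k d) - 𝒢.uu O (X k s)‖
      ≤ 1200 * m * q * R * (d - c) := by
    intro k hk s hs
    refine (h1 k hk s d (hac.trans hs.1) hs.2 hdb).trans ?_
    have e1 : W ≤ s - a + T := by rw [hW]; linarith [hs.1]
    have e2 := Real.sqrt_le_sqrt e1
    have e3 : W * √W ≤ (s - a + T) * √(s - a + T) := mul_le_mul e1 e2 hsW.le (by linarith)
    have e4 : √T / ((s - a + T) * √(s - a + T)) ≤ R := by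
      rw [hR]; exact div_le_div_of_nonneg_left hsT.le (by positivity) e3
    have e5 : d - s ≤ d - c := by linarith [hs.1]
    have e6 : 0 ≤ d - s := by linarith [hs.2]
    gcongr
  have hch := hconn.chain (F := fun k => 𝒢.uu O (X k d)) (θ := 2 * (1200 * m * q * R * (d - c)))
    (by have : 0 ≤ d - c := by linarith
        positivity)
    (by
      intro k hk l hl s hs hkl
      have e1 := hdr k hk s hs
      have e2 := hdr l hl s hs
      have e3 : 𝒢.uu O (X k d) - 𝒢.uu O (X l d) = (𝒢.uu O (X k d) - 𝒢.uu O (X k s))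
        - (𝒢.uu O (X l d) - 𝒢.uu O (X l s)) := by rw [hkl]; abel
      rw [e3]
      exact (norm_sub_le _ _).trans (by linarith)) hi hj
  rw [← hm] at hch
  have h3 := h2 i hi j hj d ⟨hac.trans hcd, hdb⟩
  have h4 : d - a + T ≤ 2 * W := by rw [hW]; linarith
  have h5 : W * R ≤ 1 := by
    rw [hR]
    have : W * (√T / (W * √W)) = √T / √W := by field_simp
    rw [this]
    apply div_le_one_of_le₀ _ hsW.le
    exact Real.sqrt_le_sqrt (by rw [hW]; linarith)
  have hdc0 : 0 ≤ d - c := by linarith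
  calc ‖X i d - X j d‖ ≤ 100 * (d - a + T) * ‖𝒢.uu O (X i d) - 𝒢.uu O (X j d)‖ := h3
    _ ≤ 100 * (2 * W) * (m * (2 * (1200 * m * q * R * (d - c)))) := by
        gcongr
    _ = 480000 * m ^ 2 * q * (d - c) * (W * R) := by ring
    _ ≤ 480000 * m ^ 2 * q * (d - c) * 1 := by
        apply mul_le_mul_of_nonneg_left h5 (by positivity)
    _ ≤ _ := by
        have : 0 ≤ m ^ 2 * q * (d - c) := by positivity
        nlinarith

/-- a late connected block forces the initial directions to be close -/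
lemma far (S : TSys 𝒢 I X τp τm ω a b) {i₀ : ι} (hi₀ : i₀ ∈ I) {q T : ℝ} (hT : 0 < T)
    (hT1 : T ≤ 1 / 2) (hq0 : 0 ≤ q) (hq : q ≤ 3) (hX : ∀ i ∈ I, ‖X i a - X i₀ a‖ ≤ q * T)
    (hτ : ∀ i ∈ I, ‖τp i a - τp i₀ a‖ ≤ q) {c d : ℝ} (hac : a < c) (hcd : c ≤ d) (hdb : d ≤ b)
    (hconn : Conn I X c d) {r : ℝ} (hr : √T / √(c - a + T) ≤ r)
    (hr3 : 1001 * (6000 * I.card ^ 2 * q * r) ≤ 3) {i j : ι} (hi : i ∈ I) (hj : j ∈ I) :
    ‖τp i a - τp j a‖ ≤ 10 ^ 7 * I.card * (1001 * (6000 * I.card ^ 2 * q * r)) := by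
  obtain ⟨O, hO, h1, -, h2, -, h3, -⟩ := S.estimate hi₀ hT (by linarith) hq0 hq hX hτ
  set m : ℝ := (I.card : ℝ) with hm
  have hm1 : (1:ℝ) ≤ m := by
    have : 0 < I.card := Finset.card_pos.2 ⟨i₀, hi₀⟩
    rw [hm]; exact_mod_cast this
  set W := c - a + T with hW
  have hW0 : 0 < W := by rw [hW]; linarith
  have hsW : 0 < √W := Real.sqrt_pos.2 hW0
  have hsT : 0 < √T := Real.sqrt_pos.2 hT
  have hr0 : 0 ≤ r := le_trans (by positivity) hr
  set θ : ℝ := 6000 * m ^ 2 * q * r with hθ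
  have hθ0 : 0 ≤ θ := by positivity
  have had : a < d := hac.trans_le hcd
  have hdr : ∀ k ∈ I, ∀ s ∈ Icc c d, ‖𝒢.uu O (X k d) - 𝒢.uu O (X k s)‖
      ≤ 3000 * m * q * r := by
    intro k hk s hs
    refine (h1 k hk s d (hac.le.trans hs.1) hs.2 hdb).trans ?_
    have e1 : W ≤ s - a + T := by rw [hW]; linarith [hs.1]
    have e2 := Real.sqrt_le_sqrt e1
    have e3 : √T / √(s - a + T) ≤ r :=
      (div_le_div_of_nonneg_left hsT.le hsW e2).trans hr
    exact mul_le_mul_of_nonneg_left e3 (by positivity)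
  have hu : ∀ k ∈ I, ∀ l ∈ I, ‖𝒢.uu O (X k d) - 𝒢.uu O (X l d)‖ ≤ θ := by
    intro k hk l hl
    have hch := hconn.chain (F := fun k => 𝒢.uu O (X k d)) (θ := 2 * (3000 * m * q * r))
      (by positivity)
      (by
        intro k hk l hl s hs hkl
        have e1 := hdr k hk s hs
        have e2 := hdr l hl s hs
        have e3 : 𝒢.uu O (X k d) - 𝒢.uu O (X l d) = (𝒢.uu O (X k d) - 𝒢.uu O (X k s))
          - (𝒢.uu O (X l d) - 𝒢.uu O (X l s)) := by rw [hkl]; abel
        rw [e3]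
        exact (norm_sub_le _ _).trans (by linarith)) hk hl
    rw [← hm] at hch
    refine hch.trans (le_of_eq ?_)
    rw [hθ]; ring
  set T' : ℝ := d - a + T with hT'
  have hT'0 : 0 < T' := by rw [hT']; linarith
  have hT'1 : T' ≤ 1 := by
    have := S.len
    rw [hT']; linarith
  -- positions and directions at time d
  have hXd : ∀ k ∈ I, ‖X k d - X i₀ d‖ ≤ (1001 * θ) * T' := by
    intro k hk
    have e1 := h2 k hk i₀ hi₀ d ⟨had.le, hdb⟩
    have e2 := hu k hk i₀ hi₀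
    calc ‖X k d - X i₀ d‖ ≤ 100 * (d - a + T) * ‖𝒢.uu O (X k d) - 𝒢.uu O (X i₀ d)‖ := e1
      _ ≤ 100 * T' * θ := by gcongr
      _ ≤ _ := by nlinarith [mul_nonneg hθ0 hT'0.le]
  have hτd : ∀ k ∈ I, ‖τm k d - τm i₀ d‖ ≤ 1001 * θ := by
    intro k hk
    have e1 := h3 k hk i₀ hi₀ d ⟨had, hdb⟩
    have e2 := hu k hk i₀ hi₀
    have e3 : √T / √(d - a + T) ≤ r := by
      have e4 : W ≤ d - a + T := by rw [hW]; linarith
      exact (div_le_div_of_nonneg_left hsT.le hsW (Real.sqrt_le_sqrt e4)).trans hr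
    have e5 : 140 * m * q * (√T / √(d - a + T)) ≤ θ := by
      calc 140 * m * q * (√T / √(d - a + T)) ≤ 140 * m * q * r := by gcongr
        _ ≤ θ := by
          rw [hθ]
          have : 0 ≤ m * q * r := by positivity
          nlinarith [mul_le_mul_of_nonneg_right hm1 this]
    linarith
  have S' := (S.restrict le_rfl hdb had).reverse
  have key := (S'.coarse hi₀ hT'0 hT'1 (q := 1001 * θ) (by positivity) hr3
    (by
      intro k hk
      simp only [neg_neg]
      exact hXd k hk)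
    (by
      intro k hk
      simp only [neg_neg]
      have e : -τm k d - -τm i₀ d = -(τm k d - τm i₀ d) := by abel
      rw [e, norm_neg]
      exact hτd k hk) hi hj).1 (-a) ⟨by linarith, le_rfl⟩
  simp only [neg_neg] at key
  rw [← hm] at key
  have e : -τp i a - -τp j a = -(τp i a - τp j a) := by abel
  rw [e, norm_neg] at key
  exact key

end TSys

end Pool.Agent.GeoNet
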