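import Pool.Agent.GeoNet.ODeg

/-!
# The outward network of a local net
-/

namespace Pool.Agent.GeoNet

open Set Metric Filter
open scoped Topology RealInnerProductSpace

variable {E : Type*} [NormedAddCommGroup E] [InnerProductSpace ℝ E]

/-- translation of the parameter -/
lemma IsGeo.shift {g : E → E →L[ℝ] E →L[ℝ] ℝ} {acc : E → E → E} {X X' : ℝ → E} {a b : ℝ}
    (hneg : ∀ x u, acc x (-u) = acc x u) (h : IsGeo g acc X X' a b) (c : ℝ) :
    IsGeo g acc (fun s => X (c + s)) (fun s => X' (c + s)) (a - c) (b - c) := by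
  have h1 := (h.reverse hneg c).reverse hneg 0
  have e1 : (fun s => X (c - (0 - s))) = fun s => X (c + s) := by
    funext s
    congr 1
    ring
  have e2 : (fun s => - -X' (c - (0 - s))) = fun s => X' (c + s) := by
    funext s
    rw [neg_neg]
    congr 1
    ring
  rw [e1, e2] at h1
  have e3 : 0 - (c - a) = a - c := by ring
  have e4 : 0 - (c - b) = b - c := by ring
  rw [e3, e4] at h1
  exact h1

namespace LocGeo

variable {𝒢 : LocGeo E} {X X' : ℝ → E} {h : ℝ}

/-- the radial speed (times the distance) is strictly increasing along an arc -/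
lemma Geo.radial_strictMono (hX : 𝒢.Geo X X' 0 h) {O : E} (hO : O ∈ U E) :
    StrictMonoOn (fun s => 𝒢.g (X s) (𝒢.Z O (X s)) (X' s)) (Icc 0 h) := by
  have hA : ∀ s : ℝ, ∃ A : ℝ, s ∈ Icc 0 h →
      HasDerivWithinAt (fun s => 𝒢.g (X s) (𝒢.Z O (X s)) (X' s)) A (Icc 0 h) s ∧
      0 < A := by
    intro s
    by_cases hs : s ∈ Icc 0 h
    · obtain ⟨A, hA, hA'⟩ := hX.second' hO hs
      refine ⟨A, fun _ => ⟨hA, ?_⟩⟩
      nlinarith [sq_nonneg (𝒢.cs O (X s) (X' s))]
    · exact ⟨0, fun h => absurd h hs⟩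
  choose A hA using hA
  apply strictMonoOn_of_deriv_pos (convex_Icc _ _)
  · intro s hs
    exact (hA s hs).1.continuousWithinAt
  · intro s hs
    rw [interior_Icc] at hs
    have h1 := (hA s ⟨hs.1.le, hs.2.le⟩).1.hasDerivAt (Icc_mem_nhds hs.1 hs.2)
    rw [h1.deriv]
    exact (hA s ⟨hs.1.le, hs.2.le⟩).2

/-- the distance from `O` is first strictly decreasing, then strictly increasing along an arc -/
lemma Geo.exists_turn (hX : 𝒢.Geo X X' 0 h) (hh : 0 < h) {O : E} (hO : O ∈ U E) :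
    ∃ st ∈ Icc 0 h, StrictAntiOn (fun s => 𝒢.rho O (X s)) (Icc 0 st) ∧
      StrictMonoOn (fun s => 𝒢.rho O (X s)) (Icc st h) := by
  set φ : ℝ → ℝ := fun s => 𝒢.g (X s) (𝒢.Z O (X s)) (X' s) with hφ
  have hmono : StrictMonoOn φ (Icc 0 h) := hX.radial_strictMono hO
  have hcont : ContinuousOn φ (Icc 0 h) := by
    intro s hs
    obtain ⟨A, hA, -⟩ := hX.second' hO hs
    exact hA.continuousWithinAt
  have h0 : (0 : ℝ) ∈ Icc 0 h := ⟨le_rfl, hh.le⟩
  have h1 : h ∈ Icc 0 h := ⟨hh.le, le_rfl⟩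
  have key : ∃ st ∈ Icc 0 h, (∀ s ∈ Icc 0 h, s < st → φ s < 0) ∧
      (∀ s ∈ Icc 0 h, st < s → 0 < φ s) := by
    by_cases hc0 : 0 ≤ φ 0
    · refine ⟨0, h0, fun s hs hlt => absurd hlt (not_lt.2 hs.1), fun s hs hlt => ?_⟩
      exact hc0.trans_lt (hmono h0 hs hlt)
    · push Not at hc0
      by_cases hc1 : φ h ≤ 0
      · refine ⟨h, h1, fun s hs hlt => ?_, fun s hs hlt => absurd hlt (not_lt.2 hs.2)⟩
        exact (hmono hs h1 hlt).trans_le hc1
      · push Not at hc1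
        obtain ⟨st, hst, hst0⟩ := intermediate_value_Icc hh.le hcont ⟨hc0.le, hc1.le⟩
        refine ⟨st, hst, fun s hs hlt => ?_, fun s hs hlt => ?_⟩
        · have := hmono hs hst hlt
          linarith
        · have := hmono hst hs hlt
          linarith
  obtain ⟨st, hst, hneg, hpos⟩ := key
  have hsub1 : Icc 0 st ⊆ Icc 0 h := Icc_subset_Icc le_rfl hst.2
  have hsub2 : Icc st h ⊆ Icc 0 h := Icc_subset_Icc hst.1 le_rfl
  have hF : ∀ s ∈ Icc 0 h, HasDerivWithinAt (fun s => 𝒢.rho O (X s) ^ 2 / 2) (φ s) (Icc 0 h) s :=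
    fun s hs => hX.f_deriv hO hs
  have hFc : ContinuousOn (fun s => 𝒢.rho O (X s) ^ 2 / 2) (Icc 0 h) :=
    fun s hs => (hF s hs).continuousWithinAt
  refine ⟨st, hst, ?_, ?_⟩
  · have h2 : StrictAntiOn (fun s => 𝒢.rho O (X s) ^ 2 / 2) (Icc 0 st) := by
      apply strictAntiOn_of_deriv_neg (convex_Icc _ _) (hFc.mono hsub1)
      intro s hs
      rw [interior_Icc] at hs
      have hs' : s ∈ Icc 0 h := hsub1 ⟨hs.1.le, hs.2.le⟩
      have h3 := (hF s hs').hasDerivAt (Icc_mem_nhds hs.1 (hs.2.trans_le hst.2))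
      rw [h3.deriv]
      exact hneg s hs' hs.2
    intro s hs t ht hlt
    have h3 := h2 hs ht hlt
    simp only at h3 ⊢
    have h4 : 𝒢.rho O (X t) ^ 2 < 𝒢.rho O (X s) ^ 2 := by linarith
    exact lt_of_pow_lt_pow_left₀ 2 (rho_nonneg _ _) h4
  · have h2 : StrictMonoOn (fun s => 𝒢.rho O (X s) ^ 2 / 2) (Icc st h) := by
      apply strictMonoOn_of_deriv_pos (convex_Icc _ _) (hFc.mono hsub2)
      intro s hs
      rw [interior_Icc] at hs
      have hs' : s ∈ Icc 0 h := hsub2 ⟨hs.1.le, hs.2.le⟩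
      have h3 := (hF s hs').hasDerivAt (Icc_mem_nhds (hst.1.trans_lt hs.1) hs.2)
      rw [h3.deriv]
      exact hpos s hs' hs.1
    intro s hs t ht hlt
    have h3 := h2 hs ht hlt
    simp only at h3 ⊢
    have h4 : 𝒢.rho O (X s) ^ 2 < 𝒢.rho O (X t) ^ 2 := by linarith
    exact lt_of_pow_lt_pow_left₀ 2 (rho_nonneg _ _) h4

end LocGeo

namespace LNet

variable {𝒢 : LocGeo E} (𝒩 : LNet 𝒢) (st : 𝒩.A → ℝ)

/-- sign of a direction -/
def sgn (β : Bool) : ℝ := if β then 1 else -1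

/-- length of the piece -/
noncomputable def len (x : 𝒩.A × Bool) : ℝ := if x.2 then 𝒩.h x.1 - st x.1 else st x.1

/-- the pieces -/
abbrev PA : Type := {x : 𝒩.A × Bool // 0 < 𝒩.len st x}

/-- position on a piece -/
noncomputable def pY (x : 𝒩.A × Bool) (s : ℝ) : E := 𝒩.X x.1 (st x.1 + sgn x.2 * s)

/-- tangent on a piece -/
noncomputable def pY' (x : 𝒩.A × Bool) (s : ℝ) : E :=
  sgn x.2 • 𝒩.X' x.1 (st x.1 + sgn x.2 * s)

open scoped Classical in
lemma sum_pieces {M : Type*} [AddCommMonoid M] (f : 𝒩.A × Bool → M) :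
    ∑ x : 𝒩.PA st, f x.1 = ∑ a : 𝒩.A, ((if 0 < 𝒩.h a - st a then f (a, true) else 0) +
      (if 0 < st a then f (a, false) else 0)) := by
  have h1 : ∑ x : 𝒩.PA st, f x.1 = ∑ x with 0 < 𝒩.len st x, f x :=
    (Finset.sum_subtype (p := fun x => 0 < 𝒩.len st x) _ (fun x => by simp) f).symm
  rw [h1, Finset.sum_filter, Fintype.sum_prod_type]
  refine Finset.sum_congr rfl fun a _ => ?_
  rw [Fintype.sum_bool]
  rfl

variable {st} (hst : ∀ a, st a ∈ Icc 0 (𝒩.h a))

include hst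

lemma piece_geo (x : 𝒩.A × Bool) :
    𝒢.Geo (𝒩.pY st x) (𝒩.pY' st x) 0 (𝒩.len st x) := by
  obtain ⟨a, β⟩ := x
  cases β
  · have h1 := ((𝒩.geo a).mono le_rfl (hst a).2).reverse 𝒢.acc_neg (st a)
    rw [sub_self, sub_zero] at h1
    have e1 : (fun s => 𝒩.X a (st a - s)) = 𝒩.pY st (a, false) := by
      funext s
      simp [pY, sgn, sub_eq_add_neg]
    have e2 : (fun s => -𝒩.X' a (st a - s)) = 𝒩.pY' st (a, false) := by
      funext s
      simp [pY', sgn, sub_eq_add_neg]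
    rw [e1, e2] at h1
    exact h1
  · have h1 := ((𝒩.geo a).mono (hst a).1 le_rfl).shift 𝒢.acc_neg (st a)
    rw [sub_self] at h1
    have e1 : (fun s => 𝒩.X a (st a + s)) = 𝒩.pY st (a, true) := by
      funext s
      simp [pY, sgn]
    have e2 : (fun s => 𝒩.X' a (st a + s)) = 𝒩.pY' st (a, true) := by
      funext s
      simp [pY', sgn]
    rw [e1, e2] at h1
    exact h1

lemma piece_param {a : 𝒩.A} {β : Bool} {s : ℝ} (hs : s ∈ Icc 0 (𝒩.len st (a, β))) :
    st a + sgn β * s ∈ Icc 0 (𝒩.h a) ∧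
      ((st a + sgn β * s = 0 ∨ st a + sgn β * s = 𝒩.h a) → (s = 0 ∨ s = 𝒩.len st (a, β))) := by
  have h0 := hst a
  obtain ⟨hs1, hs2⟩ := hs
  cases β
  · simp only [len, sgn, Bool.false_eq_true, if_false] at hs2 ⊢
    refine ⟨⟨by linarith, by linarith [h0.2]⟩, ?_⟩
    rintro (h | h)
    · right
      linarith
    · left
      linarith [h0.2]
  · simp only [len, sgn, if_true] at hs2 ⊢
    refine ⟨⟨by linarith [h0.1], by linarith⟩, ?_⟩
    rintro (h | h)
    · left
      linarith [h0.1]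
    · right
      linarith

lemma piece_emb (x y : 𝒩.A × Bool) (s : ℝ) (hs : s ∈ Icc 0 (𝒩.len st x)) (t : ℝ)
    (ht : t ∈ Icc 0 (𝒩.len st y)) (h : 𝒩.pY st x s = 𝒩.pY st y t) :
    (x = y ∧ s = t) ∨ ((s = 0 ∨ s = 𝒩.len st x) ∧ (t = 0 ∨ t = 𝒩.len st y)) := by
  obtain ⟨a, β⟩ := x
  obtain ⟨b, γ⟩ := y
  have h1 := 𝒩.piece_param hst hs
  have h2 := 𝒩.piece_param hst ht
  rcases 𝒩.emb a b _ h1.1 _ h2.1 h with ⟨hab, huv⟩ | ⟨hu, hv⟩
  · subst hab
    have huv' : sgn β * s = sgn γ * t := by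
      have := huv
      linarith
    cases β <;> cases γ
    · left
      refine ⟨rfl, ?_⟩
      simp only [sgn, Bool.false_eq_true, if_false] at huv'
      linarith
    · right
      simp only [sgn, Bool.false_eq_true, if_false, if_true] at huv'
      have e1 : s = 0 := by linarith [hs.1, ht.1]
      have e2 : t = 0 := by linarith [hs.1, ht.1]
      exact ⟨Or.inl e1, Or.inl e2⟩
    · right
      simp only [sgn, Bool.false_eq_true, if_false, if_true] at huv'
      have e1 : s = 0 := by linarith [hs.1, ht.1]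
      have e2 : t = 0 := by linarith [hs.1, ht.1]
      exact ⟨Or.inl e1, Or.inl e2⟩
    · left
      refine ⟨rfl, ?_⟩
      simp only [sgn, if_true] at huv'
      linarith
  · right
    exact ⟨h1.2 hu, h2.2 hv⟩

lemma piece_out {O : E} (hanti : ∀ a, StrictAntiOn (fun s => 𝒢.rho O (𝒩.X a s)) (Icc 0 (st a)))
    (hmono : ∀ a, StrictMonoOn (fun s => 𝒢.rho O (𝒩.X a s)) (Icc (st a) (𝒩.h a)))
    (x : 𝒩.A × Bool) :
    StrictMonoOn (fun s => 𝒢.rho O (𝒩.pY st x s)) (Icc 0 (𝒩.len st x)) := by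
  obtain ⟨a, β⟩ := x
  intro s hs t ht hlt
  cases β
  · simp only [len, Bool.false_eq_true, if_false] at hs ht
    have m1 : st a - t ∈ Icc 0 (st a) := ⟨by linarith [ht.2], by linarith [ht.1]⟩
    have m2 : st a - s ∈ Icc 0 (st a) := ⟨by linarith [hs.2], by linarith [hs.1]⟩
    have h1 := hanti a m1 m2 (by linarith)
    simpa [pY, sgn, sub_eq_add_neg] using h1
  · simp only [len, if_true] at hs ht
    have m1 : st a + s ∈ Icc (st a) (𝒩.h a) := ⟨by linarith [hs.1], by linarith [hs.2]⟩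
    have m2 : st a + t ∈ Icc (st a) (𝒩.h a) := ⟨by linarith [ht.1], by linarith [ht.2]⟩
    have h1 := hmono a m1 m2 (by linarith)
    simpa [pY, sgn] using h1

open scoped Classical in
lemma piece_bal {p : E} (hp : p ∈ ball (0 : E) 2) :
    ∑ x : 𝒩.PA st with 𝒩.pY st x.1 0 = p, 𝒩.pY' st x.1 0 =
      ∑ x : 𝒩.PA st with 𝒩.pY st x.1 (𝒩.len st x.1) = p, 𝒩.pY' st x.1 (𝒩.len st x.1) := by
  rw [Finset.sum_filter, Finset.sum_filter, ← sub_eq_zero,
    𝒩.sum_pieces st (fun x => if 𝒩.pY st x 0 = p then 𝒩.pY' st x 0 else 0),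
    𝒩.sum_pieces st (fun x => if 𝒩.pY st x (𝒩.len st x) = p then 𝒩.pY' st x (𝒩.len st x)
      else 0), ← Finset.sum_sub_distrib]
  have hb := 𝒩.bal p hp
  rw [← Finset.sum_sub_distrib] at hb
  refine Eq.trans (Finset.sum_congr rfl fun a _ => ?_) hb
  have e1 : 𝒩.pY st (a, true) 0 = 𝒩.X a (st a) := by simp [pY]
  have e2 : 𝒩.pY st (a, false) 0 = 𝒩.X a (st a) := by simp [pY]
  have e3 : 𝒩.pY' st (a, true) 0 = 𝒩.X' a (st a) := by simp [pY', sgn]
  have e4 : 𝒩.pY' st (a, false) 0 = -𝒩.X' a (st a) := by simp [pY', sgn]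
  have e5 : 𝒩.pY st (a, true) (𝒩.len st (a, true)) = 𝒩.X a (𝒩.h a) := by simp [pY, sgn, len]
  have e6 : 𝒩.pY st (a, false) (𝒩.len st (a, false)) = 𝒩.X a 0 := by simp [pY, sgn, len]
  have e7 : 𝒩.pY' st (a, true) (𝒩.len st (a, true)) = 𝒩.X' a (𝒩.h a) := by
    simp [pY', sgn, len]
  have e8 : 𝒩.pY' st (a, false) (𝒩.len st (a, false)) = -𝒩.X' a 0 := by simp [pY', sgn, len]
  simp only [e1, e2, e3, e4, e5, e6, e7, e8]
  have hh := 𝒩.h_pos a
  rcases (hst a).1.eq_or_lt with h0 | h0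
  · rw [← h0]
    simp [hh]
  · rcases (hst a).2.eq_or_lt with h1 | h1
    · rw [h1]
      simp only [sub_self, lt_irrefl, if_false, hh, if_true, zero_add]
      split_ifs <;> abel
    · have h2 : 0 < 𝒩.h a - st a := by linarith
      simp only [h2, h0, if_true]
      split_ifs <;> abel

/-- the outward network -/
noncomputable def onet {O : E} (hO : O ∈ ball (0 : E) 1)
    (hanti : ∀ a, StrictAntiOn (fun s => 𝒢.rho O (𝒩.X a s)) (Icc 0 (st a)))
    (hmono : ∀ a, StrictMonoOn (fun s => 𝒢.rho O (𝒩.X a s)) (Icc (st a) (𝒩.h a))) :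
    ONet 𝒢 O (1 / 2) where
  A := 𝒩.PA st
  fin := inferInstance
  Y x := 𝒩.pY st x.1
  Y' x := 𝒩.pY' st x.1
  h x := 𝒩.len st x.1
  h_pos x := x.2
  geo x := 𝒩.piece_geo hst x.1
  out x := 𝒩.piece_out hst hanti hmono x.1
  bal p hp _ hr := by
    refine 𝒩.piece_bal hst ?_
    have hO3 : O ∈ U E := ball_subset_ball (by norm_num) hO
    have h1 := (LocGeo.rho_le_dist (𝒢 := 𝒢) hO3 hp).2
    have h2 : ‖O‖ < 1 := mem_ball_zero_iff.1 hO
    rw [mem_ball_zero_iff]
    have h3 : ‖p‖ ≤ ‖p - O‖ + ‖O‖ := by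
      have := norm_add_le (p - O) O
      rwa [sub_add_cancel] at this
    linarith
  emb a b s hs t ht h := by
    rcases 𝒩.piece_emb hst a.1 b.1 s hs t ht h with ⟨h1, h2⟩ | h1
    · exact Or.inl ⟨Subtype.ext h1, h2⟩
    · exact Or.inr h1

omit hst [InnerProductSpace ℝ E] [NormedAddCommGroup E] in
lemma ncard_sum {α : Type*} [Fintype α] (P : α → Prop) [DecidablePred P] :
    {a | P a}.ncard = ∑ a, if P a then 1 else 0 := by
  rw [← Finset.card_filter, ← Set.ncard_coe_finset]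
  congr 1
  ext a
  simp

lemma onet_deg {O : E} (hO : O ∈ ball (0 : E) 1)
    (hanti : ∀ a, StrictAntiOn (fun s => 𝒢.rho O (𝒩.X a s)) (Icc 0 (st a)))
    (hmono : ∀ a, StrictMonoOn (fun s => 𝒢.rho O (𝒩.X a s)) (Icc (st a) (𝒩.h a))) (p : E) :
    (𝒩.onet hst hO hanti hmono).deg p =
      𝒩.deg p + 2 * {a | 0 < st a ∧ st a < 𝒩.h a ∧ 𝒩.X a (st a) = p}.ncard := by
  classical
  have e1 : ({x : 𝒩.PA st | 𝒩.pY st x.1 0 = p}.ncard : ℕ) = ∑ x : 𝒩.PA st,
      (fun x => if 𝒩.pY st x 0 = p then 1 else 0) x.1 := ncard_sum _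
  have e2 : ({x : 𝒩.PA st | 𝒩.pY st x.1 (𝒩.len st x.1) = p}.ncard : ℕ) = ∑ x : 𝒩.PA st,
      (fun x => if 𝒩.pY st x (𝒩.len st x) = p then 1 else 0) x.1 := ncard_sum _
  have e3 : (𝒩.onet hst hO hanti hmono).deg p = {x : 𝒩.PA st | 𝒩.pY st x.1 0 = p}.ncard +
      {x : 𝒩.PA st | 𝒩.pY st x.1 (𝒩.len st x.1) = p}.ncard := rfl
  rw [e3, e1, e2, 𝒩.sum_pieces st (fun x => if 𝒩.pY st x 0 = p then 1 else 0),
    𝒩.sum_pieces st (fun x => if 𝒩.pY st x (𝒩.len st x) = p then 1 else 0), LNet.deg,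
    ncard_sum, ncard_sum, ncard_sum,
    Finset.mul_sum, ← Finset.sum_add_distrib, ← Finset.sum_add_distrib,
    ← Finset.sum_add_distrib]
  refine Finset.sum_congr rfl fun a _ => ?_
  have e1 : 𝒩.pY st (a, true) 0 = 𝒩.X a (st a) := by simp [pY]
  have e2 : 𝒩.pY st (a, false) 0 = 𝒩.X a (st a) := by simp [pY]
  have e5 : 𝒩.pY st (a, true) (𝒩.len st (a, true)) = 𝒩.X a (𝒩.h a) := by simp [pY, sgn, len]
  have e6 : 𝒩.pY st (a, false) (𝒩.len st (a, false)) = 𝒩.X a 0 := by simp [pY, sgn, len]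
  simp only [e1, e2, e5, e6]
  have hh := 𝒩.h_pos a
  rcases (hst a).1.eq_or_lt with h0 | h0
  · rw [← h0]
    simp [hh]
  · rcases (hst a).2.eq_or_lt with h1 | h1
    · rw [h1]
      simp only [sub_self, lt_irrefl, if_false, hh, if_true, zero_add]
      split_ifs <;> simp_all
    · have h2 : 0 < 𝒩.h a - st a := by linarith
      simp only [h2, h0, h1, if_true, true_and]
      split_ifs <;> simp

end LNet

namespace ONet

variable {𝒢 : LocGeo E} {O : E} {R : ℝ} {N : ONet 𝒢 O R}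

/-- arcs starting at the centre are radial -/
lemma co_eq_one (hO : O ∈ U E) {a : N.A} (ha : N.al a = 0) {r : ℝ} (hr : r ∈ Ioc 0 (N.be a)) :
    N.co a r = 1 := by
  have hr' : r ∈ Icc (N.al a) (N.be a) := ⟨by rw [ha]; exact hr.1.le, hr.2⟩
  refine le_antisymm (co_le_one hO hr') ?_
  have key := le_of_deriv_off_finite (F := fun x => x * N.co a x - x) ∅ (a := 0) (b := r)
    hr.1.le ?_ ?_
  · simp only [zero_mul, sub_self] at key
    have h1 : r * 1 ≤ r * N.co a r := by linarith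
    exact le_of_mul_le_mul_left h1 hr.1
  · have h1 := co_cont hO a
    rw [ha] at h1
    exact (h1.mono (Icc_subset_Icc le_rfl hr.2)).sub continuousOn_id
  · intro x hx _
    have hx' : x ∈ Ioo (N.al a) (N.be a) := ⟨by rw [ha]; exact hx.1, hx.2.trans_le hr.2⟩
    obtain ⟨D, hD, hD1, -⟩ := co_deriv hO hx'
    have h1 : HasDerivAt (fun x => x * N.co a x - x) (1 * N.co a x + x * D - 1) x :=
      ((hasDerivAt_id x).mul hD).sub (hasDerivAt_id x)
    refine ⟨_, ?_, h1⟩
    have h2 : (1 - N.co a x) ≤ x * D := by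
      rw [div_le_iff₀ hx.1] at hD1
      linarith
    linarith

/-- near the centre the density is the number of arcs starting there -/
lemma dens_near (hO : O ∈ U E) : ∃ r₁ > 0, ∀ r ∈ Ioo 0 r₁, N.dens r = N.outD O := by
  classical
  have hev : ∀ᶠ r in 𝓝[>] (0 : ℝ), ∀ a : N.A, (N.al a ≤ r ↔ N.al a = 0) ∧ r < N.be a := by
    rw [Filter.eventually_all]
    intro a
    have hbe : 0 < N.be a := (al_nonneg a).trans_lt (al_lt_be a)
    have h1 : ∀ᶠ r in 𝓝[>] (0 : ℝ), r < N.be a :=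
      mem_of_superset (Ioo_mem_nhdsGT hbe) (fun x hx => hx.2)
    have h2 : ∀ᶠ r in 𝓝[>] (0 : ℝ), (N.al a ≤ r ↔ N.al a = 0) := by
      rcases (al_nonneg a).eq_or_lt with h | h
      · filter_upwards [self_mem_nhdsWithin] with r hr
        rw [← h]
        simp only [iff_true]
        exact le_of_lt hr
      · filter_upwards [Ioo_mem_nhdsGT h] with r hr
        constructor
        · intro h3
          exact absurd hr.2 (not_lt.2 h3)
        · intro h3
          exact absurd h3 h.ne'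
    filter_upwards [h1, h2] with r hr1 hr2
    exact ⟨hr2, hr1⟩
  obtain ⟨r₁, hr₁, hsub⟩ := mem_nhdsGT_iff_exists_Ioo_subset.1 hev
  refine ⟨r₁, hr₁, fun r hr => ?_⟩
  have hr' := hsub hr
  have hact : N.actR r = Finset.univ.filter (fun a => N.Y a 0 = O) := by
    ext a
    rw [mem_actR, Finset.mem_filter]
    constructor
    · intro h
      refine ⟨Finset.mem_univ _, ?_⟩
      by_contra hne
      have h1 := LocGeo.rho_pos (𝒢 := 𝒢) hO ((N.geo a).mem 0 ⟨le_rfl, (N.h_pos a).le⟩) hne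
      have h2 : N.al a = 0 := (hr' a).1.1 h.1
      unfold al at h2
      linarith
    · intro h
      have h2 : N.al a = 0 := by
        unfold al
        rw [h.2, LocGeo.rho_self hO]
      exact ⟨(hr' a).1.2 h2, (hr' a).2⟩
  rw [dens_eq_R, hact, outD, LNet.ncard_sum]
  push_cast
  rw [Finset.sum_filter]
  refine Finset.sum_congr rfl fun a _ => ?_
  by_cases h : N.Y a 0 = O
  · rw [if_pos h, if_pos h]
    have h2 : N.al a = 0 := by
      unfold al
      rw [h, LocGeo.rho_self hO]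
    exact co_eq_one hO h2 ⟨hr.1, (hr' a).2.le⟩
  · rw [if_neg h, if_neg h]

/-- the distance increases at most as fast as the arc length -/
lemma be_sub_al_le (hO : O ∈ U E) (a : N.A) : N.be a - N.al a ≤ N.h a := by
  have key := le_of_deriv_off_finite (F := fun s => s - 𝒢.rho O (N.Y a s)) ∅ (a := 0)
    (b := N.h a) (N.h_pos a).le (continuousOn_id.sub (rho_cont hO a)) ?_
  · simp only [zero_sub] at key
    unfold be al
    linarith
  · intro s hs _
    have hs' : s ∈ Icc 0 (N.h a) := ⟨hs.1.le, hs.2.le⟩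
    have h0 : 0 ≤ 𝒢.rho O (N.Y a 0) := LocGeo.rho_nonneg _ _
    have h1 : 𝒢.rho O (N.Y a 0) < 𝒢.rho O (N.Y a s) :=
      N.out a ⟨le_rfl, (N.h_pos a).le⟩ hs' hs.1
    have hne : N.Y a s ≠ O := by
      intro h
      rw [h, LocGeo.rho_self hO] at h1
      linarith
    have h2 := ((N.geo a).rho_deriv hO hs' hne).hasDerivAt (Icc_mem_nhds hs.1 hs.2)
    have h3 : HasDerivAt (fun s => s - 𝒢.rho O (N.Y a s)) (1 - 𝒢.cs O (N.Y a s) (N.Y' a s)) s :=
      (hasDerivAt_id s).sub h2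
    refine ⟨_, ?_, h3⟩
    have h4 := (abs_le.1 (LocGeo.cs_abs_le (𝒢 := 𝒢) hO ((N.geo a).mem s hs')
      ((N.geo a).unit s hs'))).2
    linarith

/-- integrated density bound -/
lemma dens_length (hO : O ∈ U E) {r₀ : ℝ} (h0 : 0 < r₀) (hR : r₀ ≤ R) :
    N.dens r₀ * (R - r₀) ≤ ∑ a, N.h a := by
  classical
  have key := le_of_deriv_off_finite
    (F := fun r => ∑ a, min (N.be a) (max (N.al a) r) - N.dens r₀ * r) N.crit (a := r₀)
    (b := R) hR ?_ ?_
  · have h1 : ∑ a, min (N.be a) (max (N.al a) R) - ∑ a, min (N.be a) (max (N.al a) r₀) ≤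
        ∑ a, N.h a := by
      rw [← Finset.sum_sub_distrib]
      refine Finset.sum_le_sum fun a _ => ?_
      refine le_trans ?_ (be_sub_al_le hO a)
      have h2 : min (N.be a) (max (N.al a) R) ≤ N.be a := min_le_left _ _
      have h3 : N.al a ≤ min (N.be a) (max (N.al a) r₀) :=
        le_min (al_lt_be a).le (le_max_left _ _)
      linarith
    linarith
  · apply Continuous.continuousOn
    fun_prop
  · intro r hr hrc
    have hr' : ∀ a, N.al a ≠ r ∧ N.be a ≠ r := by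
      rw [mem_crit] at hrc
      push Not at hrc
      exact fun a => ⟨hrc.1 a, hrc.2 a⟩
    have h1 : ∀ a : N.A, HasDerivAt (fun r => min (N.be a) (max (N.al a) r))
        (if N.al a ≤ r ∧ r < N.be a then 1 else 0) r := by
      intro a
      have hab := al_lt_be a
      rcases lt_or_gt_of_ne (hr' a).1 with h | h
      · rcases lt_or_gt_of_ne (hr' a).2 with h' | h'
        · rw [if_neg (by rintro ⟨-, h3⟩; exact absurd h3 (not_lt.2 h'.le))]
          refine (hasDerivAt_const r (N.be a)).congr_of_eventuallyEq ?_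
          filter_upwards [Ioi_mem_nhds h'] with x hx
          exact min_eq_left (le_max_of_le_right (le_of_lt hx))
        · rw [if_pos ⟨h.le, h'⟩]
          refine (hasDerivAt_id r).congr_of_eventuallyEq ?_
          filter_upwards [Ioo_mem_nhds h h'] with x hx
          rw [max_eq_right hx.1.le, min_eq_right hx.2.le]
          rfl
      · rw [if_neg (by rintro ⟨h3, -⟩; exact absurd h (not_lt.2 h3))]
        refine (hasDerivAt_const r (N.al a)).congr_of_eventuallyEq ?_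
        filter_upwards [Iio_mem_nhds h] with x hx
        rw [max_eq_left (le_of_lt hx), min_eq_right hab.le]
    have h2 : HasDerivAt (fun r => ∑ a, min (N.be a) (max (N.al a) r))
        (∑ a, if N.al a ≤ r ∧ r < N.be a then (1 : ℝ) else 0) r :=
      HasDerivAt.fun_sum fun a _ => h1 a
    have h3 := h2.sub ((hasDerivAt_id r).const_mul (N.dens r₀))
    refine ⟨_, ?_, h3⟩
    have h4 : (∑ a, if N.al a ≤ r ∧ r < N.be a then (1 : ℝ) else 0) = (N.actR r).card := by
      rw [← Finset.sum_filter, Finset.sum_const, nsmul_eq_mul, mul_one]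
      congr 2
    rw [h4, mul_one]
    have h5 := dens_mono (N := N) hO h0 hr.1.le hr.2
    have h6 := dens_le_card (N := N) hO r
    linarith

end ONet

theorem LNet.exists_onet {𝒢 : LocGeo E} (𝒩 : LNet 𝒢) {O : E} (hO : O ∈ ball (0 : E) 1) :
    ∃ N : ONet 𝒢 O (1 / 2),
      (∀ p, 3 ≤ 𝒩.deg p ↔ 3 ≤ N.deg p) ∧
      (3 ≤ 𝒩.deg O → ∃ r₁ > 0, ∀ r ∈ Ioo 0 r₁, N.dens r = 𝒩.deg O) ∧
      N.dens (1 / 4) ≤ 4 * 𝒩.length := by
  classical
  have hO3 : O ∈ U E := ball_subset_ball (by norm_num) hO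
  have hturn := fun a => LocGeo.Geo.exists_turn (𝒩.geo a) (𝒩.h_pos a) hO3
  choose st hst hanti hmono using hturn
  set N := 𝒩.onet hst hO hanti hmono with hN
  have hdeg := 𝒩.onet_deg hst hO hanti hmono
  rw [← hN] at hdeg
  have hkey : ∀ p, (∃ a, 0 < st a ∧ st a < 𝒩.h a ∧ 𝒩.X a (st a) = p) →
      𝒩.deg p = 0 ∧ {a | 0 < st a ∧ st a < 𝒩.h a ∧ 𝒩.X a (st a) = p}.ncard = 1 := by
    rintro p ⟨a, ha1, ha2, ha3⟩
    have hmeet : ∀ b : 𝒩.A, ∀ t ∈ Icc 0 (𝒩.h b), 𝒩.X b t = p → a = b ∧ st a = t := by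
      intro b t ht hbt
      rcases 𝒩.emb a b (st a) (hst a) t ht (ha3.trans hbt.symm) with h | ⟨h | h, -⟩
      · exact h
      · exact absurd h ha1.ne'
      · exact absurd h ha2.ne
    constructor
    · unfold LNet.deg
      have e1 : {b | 𝒩.X b 0 = p} = ∅ := by
        ext b
        simp only [mem_setOf_eq, mem_empty_iff_false, iff_false]
        intro h
        have := (hmeet b 0 ⟨le_rfl, (𝒩.h_pos b).le⟩ h).2
        linarith
      have e2 : {b | 𝒩.X b (𝒩.h b) = p} = ∅ := by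
        ext b
        simp only [mem_setOf_eq, mem_empty_iff_false, iff_false]
        intro h
        have h1 := hmeet b (𝒩.h b) ⟨(𝒩.h_pos b).le, le_rfl⟩ h
        rw [← h1.1] at h1
        linarith [h1.2]
      rw [e1, e2]
      simp
    · have e1 : {a | 0 < st a ∧ st a < 𝒩.h a ∧ 𝒩.X a (st a) = p} = {a} := by
        ext b
        simp only [mem_setOf_eq, mem_singleton_iff]
        constructor
        · rintro ⟨h1, h2, h3⟩
          exact (hmeet b (st b) (hst b) h3).1.symm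
        · rintro rfl
          exact ⟨ha1, ha2, ha3⟩
      rw [e1, Set.ncard_singleton]
  have hdeg' : ∀ p, 3 ≤ 𝒩.deg p ∨ 3 ≤ N.deg p → N.deg p = 𝒩.deg p := by
    intro p hp
    by_cases h : ∃ a, 0 < st a ∧ st a < 𝒩.h a ∧ 𝒩.X a (st a) = p
    · obtain ⟨h1, h2⟩ := hkey p h
      rw [hdeg, h1, h2] at hp
      omega
    · have e1 : {a | 0 < st a ∧ st a < 𝒩.h a ∧ 𝒩.X a (st a) = p} = ∅ := by
        ext b
        simp only [mem_setOf_eq, mem_empty_iff_false, iff_false]
        intro hb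
        exact h ⟨b, hb⟩
      rw [hdeg, e1]
      simp
  refine ⟨N, fun p => ⟨fun h => ?_, fun h => ?_⟩, fun h => ?_, ?_⟩
  · rw [hdeg' p (Or.inl h)]
    exact h
  · rw [← hdeg' p (Or.inr h)]
    exact h
  · obtain ⟨r₁, hr₁, hr⟩ := ONet.dens_near (N := N) hO3
    refine ⟨r₁, hr₁, fun r hr' => ?_⟩
    rw [hr r hr', ← hdeg' O (Or.inl h)]
    have h1 : N.inD O = 0 := by
      unfold ONet.inD
      have e1 : {a | N.Y a (N.h a) = O} = ∅ := by
        ext a
        simp only [mem_setOf_eq, mem_empty_iff_false, iff_false]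
        intro ha
        have h2 := ONet.al_lt_be a
        have h3 := ONet.al_nonneg a
        have h4 : N.be a = 0 := by
          unfold ONet.be
          rw [ha, LocGeo.rho_self hO3]
        linarith
      rw [e1]
      simp
    rw [ONet.deg, h1, add_zero]
  · have h1 := ONet.dens_length (N := N) hO3 (r₀ := 1 / 4) (by norm_num) (by norm_num)
    have h2 : ∑ a, N.h a = 𝒩.length := by
      have h3 : ∑ x : 𝒩.PA st, 𝒩.len st x.1 = 𝒩.length := by
        rw [𝒩.sum_pieces st (fun x => 𝒩.len st x), LNet.length]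
        refine Finset.sum_congr rfl fun a _ => ?_
        have e1 : 𝒩.len st (a, true) = 𝒩.h a - st a := by simp [LNet.len]
        have e2 : 𝒩.len st (a, false) = st a := by simp [LNet.len]
        rw [e1, e2]
        have h4 := hst a
        split_ifs with h5 h6 h6
        · ring
        · linarith [h4.1]
        · linarith [h4.2]
        · linarith [h4.1, h4.2, 𝒩.h_pos a]
      exact h3
    rw [h2] at h1
    linarith

end Pool.Agent.GeoNet
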