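import Mathlib

/-!
# Local geometries with exact polar functions, geodesic arcs and local nets

`LocGeo E` abstracts what is needed from a Riemannian metric which is nearly Euclidean on the
ball of radius 3 of a Euclidean space `E`: for each centre `O` we have the (inverse of the)
exponential map `v O`, the gradient `Z O` of half the squared distance from `O`, and the
comparison inequalities for them along unit speed geodesics.
-/

namespace Pool.Agent.GeoNet

open Set Metric Filter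
open scoped Topology RealInnerProductSpace

/-- the universal small constant -/
noncomputable def dl : ℝ := 1 / 1000

lemma dl_pos : 0 < dl := by norm_num [dl]

variable {E : Type*} [NormedAddCommGroup E] [InnerProductSpace ℝ E]

/-- the inner product as a continuous bilinear form -/
noncomputable def inn (E : Type*) [NormedAddCommGroup E] [InnerProductSpace ℝ E] :
    E →L[ℝ] E →L[ℝ] ℝ := innerSL ℝ

@[simp] lemma inn_apply (u w : E) : inn E u w = ⟪u, w⟫ := rfl

/-- Unit speed geodesic arcs: solutions of `X'' = acc X X'` on `[a, b]` with `g`-unit speed,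
staying in the ball of radius 3. -/
structure IsGeo (g : E → E →L[ℝ] E →L[ℝ] ℝ) (acc : E → E → E) (X X' : ℝ → E) (a b : ℝ) :
    Prop where
  mem : ∀ s ∈ Icc a b, X s ∈ ball (0 : E) 3
  d1 : ∀ s ∈ Icc a b, HasDerivWithinAt X (X' s) (Icc a b) s
  d2 : ∀ s ∈ Icc a b, HasDerivWithinAt X' (acc (X s) (X' s)) (Icc a b) s
  unit : ∀ s ∈ Icc a b, g (X s) (X' s) (X' s) = 1

/-- A nearly Euclidean local geometry on the ball of radius 3, with exact polar functions. -/
structure LocGeo (E : Type*) [NormedAddCommGroup E] [InnerProductSpace ℝ E] where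
  /-- the metric -/
  g : E → E →L[ℝ] E →L[ℝ] ℝ
  /-- geodesic acceleration -/
  acc : E → E → E
  /-- inverse exponential map: `v O x` is the initial velocity at `O` of the geodesic which
  reaches `x` at time one -/
  v : E → E → E
  /-- `Z O x` is the final velocity of this geodesic: the gradient at `x` of half the squared
  distance from `O` -/
  Z : E → E → E
  g_symm : ∀ x u w, g x u w = g x w u
  g_near : ∀ x ∈ ball (0 : E) 3, ∀ u w, |g x u w - ⟪u, w⟫| ≤ dl * ‖u‖ * ‖w‖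
  g_lip : ∀ x ∈ ball (0 : E) 3, ∀ y ∈ ball (0 : E) 3, ∀ u w,
    |g x u w - g y u w| ≤ dl * ‖x - y‖ * ‖u‖ * ‖w‖
  acc_le : ∀ x ∈ ball (0 : E) 3, ∀ u, ‖acc x u‖ ≤ dl * ‖u‖ ^ 2
  acc_neg : ∀ x u, acc x (-u) = acc x u
  v_self : ∀ O ∈ ball (0 : E) 3, v O O = 0
  v_near : ∀ O ∈ ball (0 : E) 3, ∀ x ∈ ball (0 : E) 3, ∀ y ∈ ball (0 : E) 3,
    ‖v O x - v O y - (x - y)‖ ≤ dl * ‖x - y‖
  Z_self : ∀ O ∈ ball (0 : E) 3, Z O O = 0
  Z_near : ∀ O ∈ ball (0 : E) 3, ∀ x ∈ ball (0 : E) 3, ∀ y ∈ ball (0 : E) 3,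
    ‖Z O x - Z O y - (x - y)‖ ≤ dl * ‖x - y‖
  norm_eq : ∀ O ∈ ball (0 : E) 3, ∀ x ∈ ball (0 : E) 3,
    g O (v O x) (v O x) = g x (Z O x) (Z O x)
  f_deriv : ∀ O ∈ ball (0 : E) 3, ∀ x ∈ ball (0 : E) 3,
    HasFDerivAt (fun y => g O (v O y) (v O y) / 2) (g x (Z O x)) x
  second : ∀ O ∈ ball (0 : E) 3, ∀ X X' : ℝ → E, ∀ a b : ℝ, IsGeo g acc X X' a b →
    ∀ s ∈ Icc a b, ∃ A : ℝ,
      HasDerivWithinAt (fun s => g (X s) (Z O (X s)) (X' s)) A (Icc a b) s ∧
      (1 + (g (X s) (Z O (X s)) (X' s) / √(g O (v O (X s)) (v O (X s)))) ^ 2) / 2 ≤ A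
  angular : ∀ O ∈ ball (0 : E) 3, ∀ X X' : ℝ → E, ∀ a b : ℝ, IsGeo g acc X X' a b →
    ∀ s ∈ Icc a b, X s ≠ O → ∃ D : E,
      HasDerivWithinAt
        (fun s => (√(g O (v O (X s)) (v O (X s))))⁻¹ • v O (X s)) D (Icc a b) s ∧
      ‖D‖ ≤ 2 * √(1 - (g (X s) (Z O (X s)) (X' s) / √(g O (v O (X s)) (v O (X s)))) ^ 2) /
        √(g O (v O (X s)) (v O (X s)))
  apex : ∀ x ∈ ball (0 : E) 1, ∀ τ : E, g x τ τ = 1 → ∀ T ∈ Ioc (0 : ℝ) 1,
    ∃ O ∈ ball (0 : E) 3, Z O x = T • τ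

open scoped Classical in
/-- A local net: finitely many unit speed geodesic arcs in the ball of radius 3, disjoint and
injective except possibly at their end points, such that each point of the ball of radius 2 is
balanced. -/
structure LNet (𝒢 : LocGeo E) where
  A : Type
  fin : Fintype A
  X : A → ℝ → E
  X' : A → ℝ → E
  h : A → ℝ
  h_pos : ∀ a, 0 < h a
  geo : ∀ a, IsGeo 𝒢.g 𝒢.acc (X a) (X' a) 0 (h a)
  bal : ∀ p ∈ ball (0 : E) 2,
    (∑ a, if X a 0 = p then X' a 0 else 0) - (∑ a, if X a (h a) = p then X' a (h a) else 0) = 0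
  emb : ∀ a b : A, ∀ s ∈ Icc 0 (h a), ∀ t ∈ Icc 0 (h b), X a s = X b t →
    (a = b ∧ s = t) ∨ ((s = 0 ∨ s = h a) ∧ (t = 0 ∨ t = h b))

attribute [instance] LNet.fin

namespace LNet

variable {𝒢 : LocGeo E} (𝒩 : LNet 𝒢)

/-- degree of a point: number of arc ends at this point -/
noncomputable def deg (p : E) : ℕ :=
  {a | 𝒩.X a 0 = p}.ncard + {a | 𝒩.X a (𝒩.h a) = p}.ncard

/-- total length -/
noncomputable def length : ℝ := ∑ a, 𝒩.h a

end LNet

end Pool.Agent.GeoNet
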