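import Pool.Agent.GeoNet.Thread

/-!
# Angular drift of thread systems
-/

namespace Pool.Agent.GeoNet

open Set Metric Filter
open scoped Topology RealInnerProductSpace

variable {E : Type*} [NormedAddCommGroup E] [InnerProductSpace ℝ E]

/-- direction of `x` seen from `O` -/
noncomputable def LocGeo.uu (𝒢 : LocGeo E) (O x : E) : E := (𝒢.rho O x)⁻¹ • 𝒢.v O x

/-- derivative of `-2 / √w` -/
lemma hasDerivAt_neg_two_div_sqrt {w₀ x : ℝ} (h : 0 < x + w₀) :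
    HasDerivAt (fun y => -(2 / √(y + w₀))) (1 / ((x + w₀) * √(x + w₀))) x := by
  have hs : 0 < √(x + w₀) := Real.sqrt_pos.2 h
  have h1 : HasDerivAt (fun y : ℝ => y + w₀) 1 x := (hasDerivAt_id x).add_const w₀
  have h2 := h1.sqrt h.ne'
  have h3 := ((hasDerivAt_const x (2:ℝ)).fun_div h2 hs.ne').neg
  have h5 : HasDerivAt (fun y => -(2 / √(y + w₀)))
    (-((0 * √(x + w₀) - 2 * (1 / (2 * √(x + w₀)))) / √(x + w₀) ^ 2)) x := h3
  refine h5.congr_deriv ?_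
  have h4 : √(x + w₀) ^ 2 = x + w₀ := Real.sq_sqrt h.le
  rw [h4]
  field_simp
  rw [h4]
  ring

namespace TBase

variable {𝒢 : LocGeo E} {ι : Type*} {I : Finset ι} {X τp τm : ι → ℝ → E} {a b : ℝ}

lemma Phi_nonneg (S : TBase 𝒢 I X τp τm a b) {O : E} (hO : O ∈ U E) {t : ℝ} (ht : t ∈ Ico a b) :
    0 ≤ Phi 𝒢 I X τp O t :=
  Finset.sum_nonneg fun _ hi => S.term_nonneg hO ht hi

lemma one_sub_cs_le (S : TBase 𝒢 I X τp τm a b) {O : E} (hO : O ∈ U E) {κ T P : ℝ} (hκ : 0 < κ)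
    (hT : 0 < T) (hρ : ∀ i ∈ I, ∀ t ∈ Icc a b, κ * (t - a + T) ≤ 𝒢.rho O (X i t))
    (hΦ : Phi 𝒢 I X τp O a ≤ P) {i : ι} (hi : i ∈ I) {t : ℝ} (ht : t ∈ Ico a b) :
    1 - 𝒢.cs O (X i t) (τp i t) ≤ P / (κ * (t - a + T)) := by
  have hne : ∀ t ∈ Ico a b, ∀ i ∈ I, X i t ≠ O := by
    intro t ht i hi h
    have h1 := hρ i hi t ⟨ht.1, ht.2.le⟩
    rw [h, LocGeo.rho_self hO] at h1
    have : 0 < κ * (t - a + T) := mul_pos hκ (by linarith [ht.1])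
    linarith
  have h1 := S.rho_mul_le hO ht hi
  have h2 := S.Phi_anti hO hne le_rfl ht.1 ht.2
  have h3 := hρ i hi t ⟨ht.1, ht.2.le⟩
  have hg := S.right i hi t ht
  have h4 := (abs_le.1 (LocGeo.cs_abs_le (𝒢 := 𝒢) hO hg.mem hg.unit)).2
  have hw : 0 < κ * (t - a + T) := mul_pos hκ (by linarith [ht.1])
  rw [le_div_iff₀ hw]
  nlinarith

lemma drift_deriv (S : TBase 𝒢 I X τp τm a b) {O : E} (hO : O ∈ U E) {κ T P : ℝ} (hκ : 0 < κ)
    (hT : 0 < T) (hρ : ∀ i ∈ I, ∀ t ∈ Icc a b, κ * (t - a + T) ≤ 𝒢.rho O (X i t))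
    (hΦ : Phi 𝒢 I X τp O a ≤ P) {i : ι} (hi : i ∈ I) {x : ℝ} (hx' : x ∈ Ico a b) :
    ∃ D : E, HasDerivWithinAt (fun x => 𝒢.uu O (X i x)) D (Ici x) x ∧
      ‖D‖ ≤ 6 * √P / (κ * √κ) * (1 / ((x - a + T) * √(x - a + T))) := by
  have hP : 0 ≤ P := (S.Phi_nonneg hO ⟨le_rfl, S.lt⟩).trans hΦ
  have hκs : 0 < √κ := Real.sqrt_pos.2 hκ
  have hwx : 0 < x - a + T := by linarith [hx'.1]
  have hne : X i x ≠ O := by
    intro h
    have h1 := hρ i hi x ⟨hx'.1, hx'.2.le⟩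
    rw [h, LocGeo.rho_self hO] at h1
    have : 0 < κ * (x - a + T) := mul_pos hκ hwx
    linarith
  have hg := S.right i hi x hx'
  obtain ⟨c, hc, hc', -, h5⟩ := hg.deriv
  obtain ⟨-, h6⟩ := h5 O hO
  obtain ⟨-, D, hD, hD'⟩ := h6 hne
  refine ⟨c • D, hD, ?_⟩
  have h7 := S.one_sub_cs_le hO hκ hT hρ hΦ hi hx'
  have h8 := hρ i hi x ⟨hx'.1, hx'.2.le⟩
  set w := x - a + T with hw
  have h9 := abs_le.1 (LocGeo.cs_abs_le (𝒢 := 𝒢) hO hg.mem hg.unit)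
  have hsw : 0 < √w := Real.sqrt_pos.2 hwx
  have h10 : √(1 - 𝒢.cs O (X i x) (τp i x) ^ 2) ≤ 3 / 2 * (√P / (√κ * √w)) := by
    apply Real.sqrt_le_iff.2
    refine ⟨by positivity, ?_⟩
    have h11 : (3 / 2 * (√P / (√κ * √w))) ^ 2 = 9 / 4 * (P / (κ * w)) := by
      rw [mul_pow, div_pow (√P), mul_pow (√κ), Real.sq_sqrt hP, Real.sq_sqrt hκ.le,
        Real.sq_sqrt hwx.le]
      norm_num
    rw [h11]
    have h12 : 1 - 𝒢.cs O (X i x) (τp i x) ^ 2 ≤ 2 * (1 - 𝒢.cs O (X i x) (τp i x)) := by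
      nlinarith [sq_nonneg (1 - 𝒢.cs O (X i x) (τp i x))]
    have h13 : 0 ≤ P / (κ * w) := by positivity
    linarith
  have hρpos : 0 < κ * w := mul_pos hκ hwx
  calc ‖c • D‖ = c * ‖D‖ := by rw [norm_smul, Real.norm_of_nonneg (by linarith)]
    _ ≤ 2 * (2 * √(1 - 𝒢.cs O (X i x) (τp i x) ^ 2) / 𝒢.rho O (X i x)) := by
        apply mul_le_mul hc' hD' (norm_nonneg _) (by norm_num)
    _ ≤ 2 * (2 * (3 / 2 * (√P / (√κ * √w))) / (κ * w)) := by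
        apply mul_le_mul_of_nonneg_left _ (by norm_num)
        apply div_le_div₀ (by positivity) _ hρpos h8
        linarith
    _ = 6 * √P / (κ * √κ) * (1 / (w * √w)) := by
        field_simp; ring

lemma drift_cont (S : TBase 𝒢 I X τp τm a b) {O : E} (hO : O ∈ U E) {κ T : ℝ} (hκ : 0 < κ)
    (hT : 0 < T) (hρ : ∀ i ∈ I, ∀ t ∈ Icc a b, κ * (t - a + T) ≤ 𝒢.rho O (X i t))
    {i : ι} (hi : i ∈ I) : ContinuousOn (fun x => 𝒢.uu O (X i x)) (Icc a b) := by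
  have hne : ∀ t ∈ Icc a b, X i t ≠ O := by
    intro t ht h
    have h1 := hρ i hi t ht
    rw [h, LocGeo.rho_self hO] at h1
    have : 0 < κ * (t - a + T) := mul_pos hκ (by linarith [ht.1])
    linarith
  unfold LocGeo.uu
  apply ContinuousOn.smul
  · apply ContinuousOn.inv₀ (S.cont_rho hO hi)
    intro x hx
    exact (LocGeo.rho_pos (𝒢 := 𝒢) hO (S.mem hi hx) (hne x hx)).ne'
  · exact S.cont_v hO hi

lemma drift (S : TBase 𝒢 I X τp τm a b) {O : E} (hO : O ∈ U E) {κ T P : ℝ} (hκ : 0 < κ)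
    (hT : 0 < T) (hρ : ∀ i ∈ I, ∀ t ∈ Icc a b, κ * (t - a + T) ≤ 𝒢.rho O (X i t))
    (hΦ : Phi 𝒢 I X τp O a ≤ P) {i : ι} (hi : i ∈ I) {t' t : ℝ} (h1 : a ≤ t') (h2 : t' ≤ t)
    (h3 : t ≤ b) :
    ‖𝒢.uu O (X i t) - 𝒢.uu O (X i t')‖ ≤ 16 * √P / (κ * √κ) / √(t' - a + T) := by
  have hκs : 0 < √κ := Real.sqrt_pos.2 hκ
  set C : ℝ := 6 * √P / (κ * √κ) with hC
  have hC0 : 0 ≤ C := by positivity
  set w₀ : ℝ := T - a with hw₀
  have hw : ∀ x : ℝ, x ∈ Icc t' t → 0 < x + w₀ := fun x hx => by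
    rw [hw₀]; linarith [hx.1]
  have hcont : ContinuousOn (fun x => 𝒢.uu O (X i x) - 𝒢.uu O (X i t')) (Icc t' t) :=
    ((S.drift_cont hO hκ hT hρ hi).mono (Icc_subset_Icc h1 h3)).sub continuousOn_const
  have hder : ∀ x : ℝ, ∃ D : E, x ∈ Ico t' t →
      HasDerivWithinAt (fun x => 𝒢.uu O (X i x) - 𝒢.uu O (X i t')) D (Ici x) x ∧
      ‖D‖ ≤ C * (1 / ((x + w₀) * √(x + w₀))) := by
    intro x
    by_cases hx : x ∈ Ico t' t
    · obtain ⟨D, hD, hD'⟩ := S.drift_deriv hO hκ hT hρ hΦ hi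
        (x := x) ⟨h1.trans hx.1, lt_of_lt_of_le hx.2 h3⟩
      refine ⟨D, fun _ => ⟨hD.sub_const _, ?_⟩⟩
      have e1 : x - a + T = x + w₀ := by rw [hw₀]; ring
      rw [e1] at hD'
      exact hD'
    · exact ⟨0, fun h => absurd h hx⟩
  choose D hD using hder
  have hB : ∀ x ∈ Icc t' t, HasDerivAt
      (fun x => C * (2 / √(t' + w₀)) + C * (-(2 / √(x + w₀)))) (C * (1 / ((x + w₀) * √(x + w₀)))) x := by
    intro x hx
    have := ((hasDerivAt_neg_two_div_sqrt (hw x hx)).const_mul C).const_add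
      (C * (2 / √(t' + w₀)))
    exact this
  have key := image_norm_le_of_norm_deriv_right_le_deriv_boundary' hcont
    (fun x hx => (hD x hx).1) (B := fun x => C * (2 / √(t' + w₀)) + C * (-(2 / √(x + w₀))))
    (B' := fun x => C * (1 / ((x + w₀) * √(x + w₀)))) (by simp)
    (fun x hx => (hB x hx).continuousAt.continuousWithinAt)
    (fun x hx => (hB x ⟨hx.1, hx.2.le⟩).hasDerivWithinAt) (fun x hx => (hD x hx).2)
    (x := t) ⟨h2, le_rfl⟩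
  have e1 : t' - a + T = t' + w₀ := by rw [hw₀]; ring
  rw [e1]
  refine key.trans ?_
  have hwt : 0 < t + w₀ := hw t ⟨h2, le_rfl⟩
  have hwt' : 0 < t' + w₀ := hw t' ⟨le_rfl, h2⟩
  have h4 : 0 ≤ C * (2 / √(t + w₀)) := by positivity
  have h5 : C * (2 / √(t' + w₀)) ≤ 16 * √P / (κ * √κ) / √(t' + w₀) := by
    rw [hC]
    have : 6 * √P / (κ * √κ) * (2 / √(t' + w₀)) = 12 * √P / (κ * √κ) / √(t' + w₀) := by
      field_simp; ring
    rw [this]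
    gcongr
    norm_num
  linarith

lemma drift_lin (S : TBase 𝒢 I X τp τm a b) {O : E} (hO : O ∈ U E) {κ T P : ℝ} (hκ : 0 < κ)
    (hT : 0 < T) (hρ : ∀ i ∈ I, ∀ t ∈ Icc a b, κ * (t - a + T) ≤ 𝒢.rho O (X i t))
    (hΦ : Phi 𝒢 I X τp O a ≤ P) {i : ι} (hi : i ∈ I) {t' t : ℝ} (h1 : a ≤ t') (h2 : t' ≤ t)
    (h3 : t ≤ b) :
    ‖𝒢.uu O (X i t) - 𝒢.uu O (X i t')‖
      ≤ 6 * √P / (κ * √κ) * (1 / ((t' - a + T) * √(t' - a + T))) * (t - t') := by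
  have hκs : 0 < √κ := Real.sqrt_pos.2 hκ
  have hw : 0 < t' - a + T := by linarith
  have hder : ∀ x : ℝ, ∃ D : E, x ∈ Ico t' t →
      HasDerivWithinAt (fun x => 𝒢.uu O (X i x)) D (Ici x) x ∧
      ‖D‖ ≤ 6 * √P / (κ * √κ) * (1 / ((t' - a + T) * √(t' - a + T))) := by
    intro x
    by_cases hx : x ∈ Ico t' t
    · obtain ⟨D, hD, hD'⟩ := S.drift_deriv hO hκ hT hρ hΦ hi
        (x := x) ⟨h1.trans hx.1, lt_of_lt_of_le hx.2 h3⟩
      refine ⟨D, fun _ => ⟨hD, hD'.trans ?_⟩⟩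
      have h4 : t' - a + T ≤ x - a + T := by linarith [hx.1]
      have h5 : 0 < √(t' - a + T) := Real.sqrt_pos.2 hw
      have h6 := Real.sqrt_le_sqrt h4
      have h7 : (t' - a + T) * √(t' - a + T) ≤ (x - a + T) * √(x - a + T) :=
        mul_le_mul h4 h6 h5.le (by linarith)
      exact mul_le_mul_of_nonneg_left (one_div_le_one_div_of_le (by positivity) h7)
        (by positivity)
    · exact ⟨0, fun h => absurd h hx⟩
  choose D hD using hder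
  exact norm_image_sub_le_of_norm_deriv_right_le_segment
    ((S.drift_cont hO hκ hT hρ hi).mono (Icc_subset_Icc h1 h3))
    (fun x hx => (hD x hx).1) (fun x hx => (hD x hx).2) t ⟨h2, le_rfl⟩

end TBase

end Pool.Agent.GeoNet
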