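import Pool.Agent.GeoNet.Drift

/-!
# The main estimate for thin thread systems
-/

namespace Pool.Agent.GeoNet

open Set Metric Filter
open scoped Topology RealInnerProductSpace

variable {E : Type*} [NormedAddCommGroup E] [InnerProductSpace ℝ E]

/-- A thread system whose common time is almost the linear function `ω`. -/
structure TSys (𝒢 : LocGeo E) {ι : Type*} (I : Finset ι) (X τp τm : ι → ℝ → E) (ω : E)
    (a b : ℝ) : Prop extends TBase 𝒢 I X τp τm a b where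
  len : b - a ≤ 1 / 2
  ω_norm : ‖ω‖ ≤ 11 / 10
  ball1 : ∀ i ∈ I, ∀ t ∈ Icc a b, X i t ∈ ball (0 : E) 1
  slice : ∀ i ∈ I, ∀ j ∈ I, ∀ t ∈ Icc a b, ∀ t' ∈ Icc a b,
    |(t - t') - ⟪ω, X i t - X j t'⟫| ≤ 1 / 100 * ‖X i t - X j t'‖

namespace LocGeo

variable {𝒢 : LocGeo E}

lemma norm_uu_le {O x : E} (hO : O ∈ U E) : ‖𝒢.uu O x‖ ≤ 1001 / 1000 := by
  unfold uu
  rcases eq_or_lt_of_le (rho_nonneg (𝒢 := 𝒢) O x) with h | h
  · rw [← h]; simp; norm_num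
  · rw [norm_smul, norm_inv, Real.norm_of_nonneg h.le]
    have := (norm_v_le_rho (𝒢 := 𝒢) (x := x) hO).1
    rw [inv_mul_le_iff₀ h]
    linarith

/-- comparison of radial directions at two points -/
lemma radial_sub_le {O x y : E} (hO : O ∈ U E) (hx : x ∈ U E) (hy : y ∈ U E)
    (hρx : 0 < 𝒢.rho O x) (hρy : 0 < 𝒢.rho O y) :
    ‖(𝒢.rho O x)⁻¹ • 𝒢.Z O x - (𝒢.rho O y)⁻¹ • 𝒢.Z O y‖ ≤ 201 / 100 * ‖x - y‖ / 𝒢.rho O x := by
  have h1 : (𝒢.rho O x)⁻¹ • 𝒢.Z O x - (𝒢.rho O y)⁻¹ • 𝒢.Z O y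
      = (𝒢.rho O x)⁻¹ • ((𝒢.Z O x - 𝒢.Z O y)
        + ((𝒢.rho O y - 𝒢.rho O x) * (𝒢.rho O y)⁻¹) • 𝒢.Z O y) := by
    rw [smul_add, smul_sub, smul_smul]
    have : (𝒢.rho O x)⁻¹ * ((𝒢.rho O y - 𝒢.rho O x) * (𝒢.rho O y)⁻¹)
        = (𝒢.rho O x)⁻¹ - (𝒢.rho O y)⁻¹ := by field_simp
    rw [this, sub_smul]; abel
  rw [h1, norm_smul, norm_inv, Real.norm_of_nonneg hρx.le, div_eq_inv_mul]
  apply mul_le_mul_of_nonneg_left _ (by positivity)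
  have h2 := (Z_sub_le (𝒢 := 𝒢) hO hx hy).1
  have h3 := rho_sub_le (𝒢 := 𝒢) hO hx hy
  have h4 := (norm_Z_le_rho (𝒢 := 𝒢) hO hy).1
  have h0 := norm_nonneg (x - y)
  norm_num [dl] at h2
  calc ‖(𝒢.Z O x - 𝒢.Z O y) + ((𝒢.rho O y - 𝒢.rho O x) * (𝒢.rho O y)⁻¹) • 𝒢.Z O y‖
      ≤ ‖𝒢.Z O x - 𝒢.Z O y‖ + ‖((𝒢.rho O y - 𝒢.rho O x) * (𝒢.rho O y)⁻¹) • 𝒢.Z O y‖ :=
        norm_add_le _ _
    _ = ‖𝒢.Z O x - 𝒢.Z O y‖ + |𝒢.rho O x - 𝒢.rho O y| * (‖𝒢.Z O y‖ / 𝒢.rho O y) := by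
        rw [norm_smul, norm_mul, norm_inv, Real.norm_of_nonneg hρy.le, Real.norm_eq_abs,
          abs_sub_comm]
        ring
    _ ≤ 1001 / 1000 * ‖x - y‖ + (1003 / 1000 * ‖x - y‖) * (1001 / 1000) := by
        refine add_le_add h2 (mul_le_mul h3 ?_ (by positivity) (by positivity))
        rw [div_le_iff₀ hρy]; linarith
    _ ≤ 201 / 100 * ‖x - y‖ := by nlinarith

lemma uu_sub_le {O x y : E} (hO : O ∈ U E) (hx : x ∈ U E) (hy : y ∈ U E)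
    (hρx : 0 < 𝒢.rho O x) (hρy : 0 < 𝒢.rho O y) :
    ‖𝒢.uu O x - 𝒢.uu O y‖ ≤ 201 / 100 * ‖x - y‖ / 𝒢.rho O x := by
  unfold uu
  have h1 : (𝒢.rho O x)⁻¹ • 𝒢.v O x - (𝒢.rho O y)⁻¹ • 𝒢.v O y
      = (𝒢.rho O x)⁻¹ • ((𝒢.v O x - 𝒢.v O y)
        + ((𝒢.rho O y - 𝒢.rho O x) * (𝒢.rho O y)⁻¹) • 𝒢.v O y) := by
    rw [smul_add, smul_sub, smul_smul]
    have : (𝒢.rho O x)⁻¹ * ((𝒢.rho O y - 𝒢.rho O x) * (𝒢.rho O y)⁻¹)
        = (𝒢.rho O x)⁻¹ - (𝒢.rho O y)⁻¹ := by field_simp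
    rw [this, sub_smul]; abel
  rw [h1, norm_smul, norm_inv, Real.norm_of_nonneg hρx.le, div_eq_inv_mul]
  apply mul_le_mul_of_nonneg_left _ (by positivity)
  have h2 := (v_sub_le (𝒢 := 𝒢) hO hx hy).1
  have h3 := rho_sub_le (𝒢 := 𝒢) hO hx hy
  have h4 := (norm_v_le_rho (𝒢 := 𝒢) (x := y) hO).1
  have h0 := norm_nonneg (x - y)
  norm_num [dl] at h2
  calc ‖(𝒢.v O x - 𝒢.v O y) + ((𝒢.rho O y - 𝒢.rho O x) * (𝒢.rho O y)⁻¹) • 𝒢.v O y‖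
      ≤ ‖𝒢.v O x - 𝒢.v O y‖ + ‖((𝒢.rho O y - 𝒢.rho O x) * (𝒢.rho O y)⁻¹) • 𝒢.v O y‖ :=
        norm_add_le _ _
    _ = ‖𝒢.v O x - 𝒢.v O y‖ + |𝒢.rho O x - 𝒢.rho O y| * (‖𝒢.v O y‖ / 𝒢.rho O y) := by
        rw [norm_smul, norm_mul, norm_inv, Real.norm_of_nonneg hρy.le, Real.norm_eq_abs,
          abs_sub_comm]
        ring
    _ ≤ 1001 / 1000 * ‖x - y‖ + (1003 / 1000 * ‖x - y‖) * (1001 / 1000) := by
        refine add_le_add h2 (mul_le_mul h3 ?_ (by positivity) (by positivity))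
        rw [div_le_iff₀ hρy]; linarith
    _ ≤ 201 / 100 * ‖x - y‖ := by nlinarith

/-- two points on the same slice are close if their directions from `O` are close -/
lemma dist_le_of_uu {O x y ω : E} (hO : O ∈ U E) (hx : x ∈ U E) (hy : y ∈ U E)
    (hω : ‖ω‖ ≤ 11 / 10) {w : ℝ} (hw : 0 < w) (h1 : |⟪ω, x - y⟫| ≤ 1 / 100 * ‖x - y‖)
    (h2 : 44 / 100 * w ≤ ⟪ω, x - O⟫) (h3 : ‖x - O‖ ≤ 401 / 100 * w)
    (h4 : 𝒢.rho O y ≤ 5 * w) (hρx : 0 < 𝒢.rho O x) (hρy : 0 < 𝒢.rho O y) :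
    ‖x - y‖ ≤ 100 * w * ‖𝒢.uu O x - 𝒢.uu O y‖ := by
  set Δ := x - y with hΔ
  have hv := 𝒢.v_near O hO x hx y hy
  rw [← hΔ] at hv
  have hv' := v_near' (𝒢 := 𝒢) hO hx
  have hdec : 𝒢.v O x - 𝒢.v O y = (𝒢.rho O x - 𝒢.rho O y) • 𝒢.uu O x
      + 𝒢.rho O y • (𝒢.uu O x - 𝒢.uu O y) := by
    have e1 : 𝒢.rho O x • 𝒢.uu O x = 𝒢.v O x := by
      unfold uu; rw [smul_smul, mul_inv_cancel₀ hρx.ne', one_smul]
    have e2 : 𝒢.rho O y • 𝒢.uu O y = 𝒢.v O y := by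
      unfold uu; rw [smul_smul, mul_inv_cancel₀ hρy.ne', one_smul]
    rw [sub_smul, smul_sub, e1, e2]; abel
  set D := ‖𝒢.uu O x - 𝒢.uu O y‖ with hD
  have hD0 : 0 ≤ D := norm_nonneg _
  have hΔ0 : 0 ≤ ‖Δ‖ := norm_nonneg _
  have hdl : dl = 1 / 1000 := rfl
  -- inner product with ω of the difference of the v's
  have i1 : |⟪ω, 𝒢.v O x - 𝒢.v O y⟫| ≤ 112 / 10000 * ‖Δ‖ := by
    have e : ⟪ω, 𝒢.v O x - 𝒢.v O y⟫ = ⟪ω, Δ⟫ + ⟪ω, 𝒢.v O x - 𝒢.v O y - Δ⟫ := by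
      rw [← inner_add_right]; congr 1; abel
    have e2 := abs_real_inner_le_norm ω (𝒢.v O x - 𝒢.v O y - Δ)
    have e3 : ‖ω‖ * ‖𝒢.v O x - 𝒢.v O y - Δ‖ ≤ 11 / 10 * (dl * ‖Δ‖) :=
      mul_le_mul hω hv (norm_nonneg _) (by norm_num)
    rw [e]
    calc |⟪ω, Δ⟫ + ⟪ω, 𝒢.v O x - 𝒢.v O y - Δ⟫| ≤ _ + _ := abs_add_le _ _
      _ ≤ 1 / 100 * ‖Δ‖ + 11 / 10 * (dl * ‖Δ‖) := add_le_add h1 (e2.trans e3)
      _ ≤ _ := by rw [hdl]; linarith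
  -- lower bound for ω·u_x
  have i2 : 86 / 1000 ≤ ⟪ω, 𝒢.uu O x⟫ := by
    have e1 : ⟪ω, 𝒢.uu O x⟫ = ⟪ω, 𝒢.v O x⟫ / 𝒢.rho O x := by
      unfold uu; rw [inner_smul_right]; field_simp
    rw [e1, le_div_iff₀ hρx]
    have e2 : ⟪ω, 𝒢.v O x⟫ = ⟪ω, x - O⟫ + ⟪ω, 𝒢.v O x - (x - O)⟫ := by
      rw [← inner_add_right]; congr 1; abel
    have e3 := (abs_le.1 (abs_real_inner_le_norm ω (𝒢.v O x - (x - O)))).1
    have e4 : ‖ω‖ * ‖𝒢.v O x - (x - O)‖ ≤ 11 / 10 * (dl * (401 / 100 * w)) := by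
      apply mul_le_mul hω _ (norm_nonneg _) (by norm_num)
      refine hv'.trans ?_
      rw [hdl]; linarith
    have e5 := (rho_le_dist (𝒢 := 𝒢) hO hx).1
    rw [hdl] at e4
    nlinarith
  have i3 : |𝒢.rho O x - 𝒢.rho O y| * (86 / 1000) ≤ 112 / 10000 * ‖Δ‖
      + 11 / 10 * (𝒢.rho O y * D) := by
    have e1 : (𝒢.rho O x - 𝒢.rho O y) * ⟪ω, 𝒢.uu O x⟫
        = ⟪ω, 𝒢.v O x - 𝒢.v O y⟫ - 𝒢.rho O y * ⟪ω, 𝒢.uu O x - 𝒢.uu O y⟫ := by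
      rw [hdec, inner_add_right, inner_smul_right, inner_smul_right]; ring
    have e2 : |⟪ω, 𝒢.uu O x - 𝒢.uu O y⟫| ≤ 11 / 10 * D :=
      (abs_real_inner_le_norm _ _).trans (mul_le_mul_of_nonneg_right hω hD0)
    calc |𝒢.rho O x - 𝒢.rho O y| * (86 / 1000)
        ≤ |𝒢.rho O x - 𝒢.rho O y| * ⟪ω, 𝒢.uu O x⟫ :=
          mul_le_mul_of_nonneg_left i2 (abs_nonneg _)
      _ = |(𝒢.rho O x - 𝒢.rho O y) * ⟪ω, 𝒢.uu O x⟫| := by
          rw [abs_mul, abs_of_nonneg (by linarith : (0:ℝ) ≤ ⟪ω, 𝒢.uu O x⟫)]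
      _ = |⟪ω, 𝒢.v O x - 𝒢.v O y⟫ - 𝒢.rho O y * ⟪ω, 𝒢.uu O x - 𝒢.uu O y⟫| := by rw [e1]
      _ ≤ |⟪ω, 𝒢.v O x - 𝒢.v O y⟫| + |𝒢.rho O y * ⟪ω, 𝒢.uu O x - 𝒢.uu O y⟫| := abs_sub _ _
      _ ≤ 112 / 10000 * ‖Δ‖ + 𝒢.rho O y * (11 / 10 * D) := by
          rw [abs_mul (𝒢.rho O y), abs_of_pos hρy]
          exact add_le_add i1 (mul_le_mul_of_nonneg_left e2 hρy.le)
      _ = _ := by ring
  have i4 : 999 / 1000 * ‖Δ‖ ≤ |𝒢.rho O x - 𝒢.rho O y| * (1001 / 1000) + 𝒢.rho O y * D := by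
    have e1 := (v_sub_le (𝒢 := 𝒢) hO hx hy).2
    rw [← hΔ, hdl] at e1
    have e2 : ‖𝒢.v O x - 𝒢.v O y‖ ≤ |𝒢.rho O x - 𝒢.rho O y| * (1001 / 1000)
        + 𝒢.rho O y * D := by
      rw [hdec]
      refine (norm_add_le _ _).trans ?_
      rw [norm_smul, norm_smul, Real.norm_eq_abs, Real.norm_of_nonneg hρy.le]
      have := norm_uu_le (𝒢 := 𝒢) (x := x) hO
      gcongr
    norm_num at e1
    linarith
  have i5 : 𝒢.rho O y * D ≤ 5 * w * D := mul_le_mul_of_nonneg_right h4 hD0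
  nlinarith

end LocGeo

namespace TBase

variable {𝒢 : LocGeo E} {ι : Type*} {I : Finset ι} {X τp τm : ι → ℝ → E} {a b : ℝ}

lemma lip (S : TBase 𝒢 I X τp τm a b) {i : ι} (hi : i ∈ I) {t : ℝ} (ht : t ∈ Icc a b) :
    ‖X i t - X i a‖ ≤ 2002 / 1000 * (t - a) := by
  have hd : ∀ x : ℝ, ∃ D : E, x ∈ Ico a b → HasDerivWithinAt (X i) D (Ici x) x ∧
      ‖D‖ ≤ 2002 / 1000 := by
    intro x
    by_cases hx : x ∈ Ico a b
    · have hg := S.right i hi x hx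
      obtain ⟨c, hc, hc', h1, -⟩ := hg.deriv
      refine ⟨c • τp i x, fun _ => ⟨h1, ?_⟩⟩
      rw [norm_smul, Real.norm_of_nonneg (by linarith)]
      have := (LocGeo.unit_norm (𝒢 := 𝒢) hg.mem hg.unit).1
      have h0 := norm_nonneg (τp i x)
      nlinarith
    · exact ⟨0, fun h => absurd h hx⟩
  choose D hD using hd
  exact norm_image_sub_le_of_norm_deriv_right_le_segment (S.cont hi)
    (fun x hx => (hD x hx).1) (fun x hx => (hD x hx).2) t ht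

lemma cont_uu (S : TBase 𝒢 I X τp τm a b) {O : E} (hO : O ∈ U E) {i : ι} (hi : i ∈ I)
    (hne : ∀ t ∈ Icc a b, X i t ≠ O) : ContinuousOn (fun t => 𝒢.uu O (X i t)) (Icc a b) := by
  unfold LocGeo.uu
  apply ContinuousOn.smul
  · apply ContinuousOn.inv₀ (S.cont_rho hO hi)
    intro x hx
    exact (LocGeo.rho_pos (𝒢 := 𝒢) hO (S.mem hi hx) (hne x hx)).ne'
  · exact S.cont_v hO hi

/-- passing to the left limit -/
lemma tau_limit (S : TBase 𝒢 I X τp τm a b) {i j : ι} (hi : i ∈ I) (hj : j ∈ I) {t : ℝ}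
    (ht : t ∈ Ioc a b) {F : ℝ → ℝ} (hF : ContinuousWithinAt F (Iic t) t)
    (h : ∀ t' ∈ Ico a t, ‖τp i t' - τp j t'‖ ≤ F t') : ‖τm i t - τm j t‖ ≤ F t := by
  have h1 : Tendsto (fun r => ‖τm i r - τm j r‖) (𝓝[<] t) (𝓝 ‖τm i t - τm j t‖) := by
    have hi' := ((S.left i hi t ht).cont_tau).mono (Iio_subset_Iic_self)
    have hj' := ((S.left j hj t ht).cont_tau).mono (Iio_subset_Iic_self)
    exact (hi'.sub hj').norm
  have h2 : Tendsto F (𝓝[<] t) (𝓝 (F t)) := hF.mono (Iio_subset_Iic_self)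
  refine le_of_tendsto_of_tendsto h1 h2 ?_
  have h3 : ∀ᶠ r in 𝓝[<] t, r ∈ Ico a t :=
    mem_of_superset (Ioo_mem_nhdsLT ht.1) (fun r hr => ⟨hr.1.le, hr.2⟩)
  filter_upwards [S.eqL i hi t ht, S.eqL j hj t ht, h3] with r hr hr' hr''
  rw [← hr, ← hr']
  exact h r hr''

end TBase

namespace TSys

variable {𝒢 : LocGeo E} {ι : Type*} {I : Finset ι} {X τp τm : ι → ℝ → E} {ω : E} {a b : ℝ}

/-- transversality of the tangents to the slices -/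
lemma inner_tau (S : TSys 𝒢 I X τp τm ω a b) {i : ι} (hi : i ∈ I) {t : ℝ} (ht : t ∈ Ico a b) :
    48 / 100 ≤ ⟪ω, τp i t⟫ := by
  have hg := S.right i hi t ht
  obtain ⟨c, hc, hc', h1, -⟩ := hg.deriv
  have h2 := (hasDerivWithinAt_iff_tendsto_slope' (by simp : t ∉ Ioi t)).1 (h1.mono Ioi_subset_Ici_self)
  have h3 : Tendsto (fun y => 1 - ⟪ω, slope (X i) t y⟫ - 1 / 100 * ‖slope (X i) t y‖) (𝓝[>] t)
      (𝓝 (1 - ⟪ω, c • τp i t⟫ - 1 / 100 * ‖c • τp i t‖)) := by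
    have e1 : Tendsto (fun y => ⟪ω, slope (X i) t y⟫) (𝓝[>] t) (𝓝 ⟪ω, c • τp i t⟫) :=
      (tendsto_const_nhds.inner h2)
    exact (tendsto_const_nhds.sub e1).sub (h2.norm.const_mul _)
  have h4 : 1 - ⟪ω, c • τp i t⟫ - 1 / 100 * ‖c • τp i t‖ ≤ 0 := by
    refine le_of_tendsto h3 ?_
    have h5 : ∀ᶠ r in 𝓝[>] t, r ∈ Ioo t b := Ioo_mem_nhdsGT ht.2
    filter_upwards [h5] with r hr
    have h6 := S.slice i hi i hi r ⟨ht.1.trans hr.1.le, hr.2.le⟩ t ⟨ht.1, ht.2.le⟩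
    have h7 := (abs_le.1 h6).2
    have hpos : 0 < r - t := by linarith [hr.1]
    rw [slope_def_module, inner_smul_right, norm_smul, norm_inv, Real.norm_of_nonneg hpos.le]
    have h8 : (r - t) * (1 - (r - t)⁻¹ * ⟪ω, X i r - X i t⟫
        - 1 / 100 * ((r - t)⁻¹ * ‖X i r - X i t‖)) ≤ 0 := by
      have : (r - t) * (1 - (r - t)⁻¹ * ⟪ω, X i r - X i t⟫
        - 1 / 100 * ((r - t)⁻¹ * ‖X i r - X i t‖))
        = (r - t) - ⟪ω, X i r - X i t⟫ - 1 / 100 * ‖X i r - X i t‖ := by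
        field_simp
      rw [this]; linarith
    by_contra hcon
    push Not at hcon
    have := mul_pos hpos hcon
    linarith
  rw [inner_smul_right, norm_smul, Real.norm_of_nonneg (by linarith)] at h4
  have h5 := (LocGeo.unit_norm (𝒢 := 𝒢) hg.mem hg.unit).1
  have h6 : 1 ≤ c * (⟪ω, τp i t⟫ + 1 / 100 * ‖τp i t‖) := by linarith
  have h7 : 1 / 2 ≤ ⟪ω, τp i t⟫ + 1 / 100 * ‖τp i t‖ := by
    by_contra hcon
    push Not at hcon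
    have : c * (⟪ω, τp i t⟫ + 1 / 100 * ‖τp i t‖) < c * (1 / 2) :=
      mul_lt_mul_of_pos_left hcon (by linarith)
    linarith
  linarith

/-- The main estimate. -/
theorem estimate (S : TSys 𝒢 I X τp τm ω a b) {i₀ : ι} (hi₀ : i₀ ∈ I) {q T : ℝ} (hT : 0 < T)
    (hT1 : T ≤ 1) (hq0 : 0 ≤ q) (hq : q ≤ 3) (hX : ∀ i ∈ I, ‖X i a - X i₀ a‖ ≤ q * T)
    (hτ : ∀ i ∈ I, ‖τp i a - τp i₀ a‖ ≤ q) :
    ∃ O ∈ U E,
      (∀ i ∈ I, ∀ t' t : ℝ, a ≤ t' → t' ≤ t → t ≤ b →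
        ‖𝒢.uu O (X i t) - 𝒢.uu O (X i t')‖ ≤ 3000 * I.card * q * (√T / √(t' - a + T))) ∧
      (∀ i ∈ I, ∀ t' t : ℝ, a ≤ t' → t' ≤ t → t ≤ b →
        ‖𝒢.uu O (X i t) - 𝒢.uu O (X i t')‖
          ≤ 1200 * I.card * q * (√T / ((t' - a + T) * √(t' - a + T))) * (t - t')) ∧
      (∀ i ∈ I, ∀ j ∈ I, ∀ t ∈ Icc a b,
        ‖X i t - X j t‖ ≤ 100 * (t - a + T) * ‖𝒢.uu O (X i t) - 𝒢.uu O (X j t)‖) ∧
      (∀ i ∈ I, ∀ j ∈ I, ∀ t ∈ Ico a b,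
        ‖τp i t - τp j t‖ ≤ 1000 * ‖𝒢.uu O (X i t) - 𝒢.uu O (X j t)‖
          + 140 * I.card * q * (√T / √(t - a + T))) ∧
      (∀ i ∈ I, ∀ j ∈ I, ∀ t ∈ Ioc a b,
        ‖τm i t - τm j t‖ ≤ 1000 * ‖𝒢.uu O (X i t) - 𝒢.uu O (X j t)‖
          + 140 * I.card * q * (√T / √(t - a + T))) ∧
      (∀ i ∈ I, ∀ j ∈ I, ‖𝒢.uu O (X i a) - 𝒢.uu O (X j a)‖ ≤ 20 * q) := by
  have hab := S.lt
  have haI : a ∈ Icc a b := ⟨le_rfl, hab.le⟩
  have haI' : a ∈ Ico a b := ⟨le_rfl, hab⟩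
  have hdl : dl = 1 / 1000 := rfl
  set x₁ := X i₀ a with hx₁
  set τ₁ := τp i₀ a with hτ₁
  have hg₁ := S.right i₀ hi₀ a haI'
  have hx₁U : x₁ ∈ U E := hg₁.mem
  obtain ⟨O, hO, hZ⟩ := 𝒢.apex x₁ (S.ball1 i₀ hi₀ a haI) τ₁ hg₁.unit T ⟨hT, hT1⟩
  have hτn := LocGeo.unit_norm (𝒢 := 𝒢) hx₁U hg₁.unit
  have hρ₁ : 𝒢.rho O x₁ = T := by
    have h1 := LocGeo.rho_sq' (𝒢 := 𝒢) hO hx₁U
    rw [hZ] at h1
    simp only [map_smul, smul_apply, smul_eq_mul] at h1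
    rw [hg₁.unit] at h1
    have h2 := LocGeo.rho_nonneg (𝒢 := 𝒢) O x₁
    nlinarith
  have hxO : ‖x₁ - O‖ ≤ 1003 / 1000 * T := by
    have h1 := (LocGeo.Z_sub_le (𝒢 := 𝒢) hO hx₁U hO).2
    rw [𝒢.Z_self O hO, sub_zero, hZ, norm_smul, Real.norm_of_nonneg hT.le, hdl] at h1
    have h0 := norm_nonneg (x₁ - O)
    nlinarith
  have hωx : 47 / 100 * T ≤ ⟪ω, x₁ - O⟫ := by
    have h1 := LocGeo.Z_near' (𝒢 := 𝒢) hO hx₁U
    rw [hZ] at h1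
    have e : ⟪ω, x₁ - O⟫ = T * ⟪ω, τ₁⟫ - ⟪ω, T • τ₁ - (x₁ - O)⟫ := by
      rw [← inner_smul_right, ← inner_sub_right]; congr 1; abel
    have e2 := (abs_le.1 (abs_real_inner_le_norm ω (T • τ₁ - (x₁ - O)))).2
    have e3 : ‖ω‖ * ‖T • τ₁ - (x₁ - O)‖ ≤ 11 / 10 * (dl * (1003 / 1000 * T)) :=
      mul_le_mul S.ω_norm (h1.trans (mul_le_mul_of_nonneg_left hxO dl_pos.le)) (norm_nonneg _)
        (by norm_num)
    have e4 := S.inner_tau hi₀ haI'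
    rw [hdl] at e3
    nlinarith
  -- position estimates
  have hpos : ∀ i ∈ I, ∀ t ∈ Icc a b, 44 / 100 * (t - a + T) ≤ ⟪ω, X i t - O⟫ ∧
      ‖X i t - O‖ ≤ 401 / 100 * (t - a + T) := by
    intro i hi t ht
    have h1 := S.lip hi ht
    have h2 := hX i hi
    have h3 : ‖X i t - x₁‖ ≤ 2002 / 1000 * (t - a) + 3 * T := by
      calc ‖X i t - x₁‖ = ‖(X i t - X i a) + (X i a - x₁)‖ := by congr 1; abel
        _ ≤ _ + _ := norm_add_le _ _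
        _ ≤ _ := by nlinarith
    have h4 := (abs_le.1 (S.slice i hi i₀ hi₀ t ht a haI)).2
    rw [← hx₁] at h4
    constructor
    · have e : ⟪ω, X i t - O⟫ = ⟪ω, X i t - x₁⟫ + ⟪ω, x₁ - O⟫ := by
        rw [← inner_add_right]; congr 1; abel
      rw [e]
      linarith [ht.1]
    · calc ‖X i t - O‖ = ‖(X i t - x₁) + (x₁ - O)‖ := by congr 1; abel
        _ ≤ _ + _ := norm_add_le _ _
        _ ≤ _ := by linarith [ht.1]
  have hρlow : ∀ i ∈ I, ∀ t ∈ Icc a b, 1 / 4 * (t - a + T) ≤ 𝒢.rho O (X i t) := by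
    intro i hi t ht
    obtain ⟨h1, h2⟩ := hpos i hi t ht
    have h3 := (abs_le.1 (abs_real_inner_le_norm ω (X i t - O))).2
    have h4 := mul_le_mul_of_nonneg_right S.ω_norm (norm_nonneg (X i t - O))
    have h5 := (LocGeo.rho_le_dist (𝒢 := 𝒢) hO (S.mem hi ht)).2
    have hw : 0 ≤ t - a + T := by linarith [ht.1]
    nlinarith
  have hρup : ∀ i ∈ I, ∀ t ∈ Icc a b, 𝒢.rho O (X i t) ≤ 5 * (t - a + T) := by
    intro i hi t ht
    obtain ⟨h1, h2⟩ := hpos i hi t ht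
    have h5 := (LocGeo.rho_le_dist (𝒢 := 𝒢) hO (S.mem hi ht)).1
    have hw : 0 ≤ t - a + T := by linarith [ht.1]
    nlinarith
  have hρpos : ∀ i ∈ I, ∀ t ∈ Icc a b, 0 < 𝒢.rho O (X i t) := by
    intro i hi t ht
    have h1 := hρlow i hi t ht
    have : 0 < 1 / 4 * (t - a + T) := by
      have : 0 < t - a + T := by linarith [ht.1]
      positivity
    linarith
  have hne : ∀ i ∈ I, ∀ t ∈ Icc a b, X i t ≠ O := by
    intro i hi t ht h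
    have := hρpos i hi t ht
    rw [h, LocGeo.rho_self hO] at this
    exact lt_irrefl _ this
  have hcard : (1:ℝ) ≤ I.card := by
    have : 0 < I.card := Finset.card_pos.2 ⟨i₀, hi₀⟩
    exact_mod_cast this
  -- the initial value of Phi
  set P : ℝ := 500 * I.card * (T * q ^ 2) with hP
  have hΦ : TBase.Phi 𝒢 I X τp O a ≤ P := by
    have h1 : ∀ i ∈ I, 𝒢.rho O (X i a) - 𝒢.g (X i a) (𝒢.Z O (X i a)) (τp i a)
        ≤ 500 * (T * q ^ 2) := by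
      intro i hi
      have hg := S.right i hi a haI'
      have h2 := hρpos i hi a haI
      have h3 := hρlow i hi a haI
      have h4 := hρup i hi a haI
      rw [sub_self, zero_add] at h3 h4
      have h5 := LocGeo.gap_le (𝒢 := 𝒢) hO hg.mem hg.unit h2
      have h6 : ‖(𝒢.rho O (X i a))⁻¹ • 𝒢.Z O (X i a) - τp i a‖ ≤ 10 * q := by
        have e1 := LocGeo.radial_sub_le (𝒢 := 𝒢) hO hg.mem hx₁U h2 (by rw [hρ₁]; exact hT)
        have e2 : (𝒢.rho O x₁)⁻¹ • 𝒢.Z O x₁ = τ₁ := by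
          rw [hρ₁, hZ, smul_smul, inv_mul_cancel₀ hT.ne', one_smul]
        rw [e2] at e1
        have e3 : 201 / 100 * ‖X i a - x₁‖ / 𝒢.rho O (X i a) ≤ 9 * q := by
          rw [div_le_iff₀ h2]
          have := hX i hi
          nlinarith
        have e4 := hτ i hi
        calc ‖(𝒢.rho O (X i a))⁻¹ • 𝒢.Z O (X i a) - τp i a‖
            = ‖((𝒢.rho O (X i a))⁻¹ • 𝒢.Z O (X i a) - τ₁) - (τp i a - τ₁)‖ := by
              congr 1; abel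
          _ ≤ _ + _ := norm_sub_le _ _
          _ ≤ _ := by linarith
      have h7 : ‖(𝒢.rho O (X i a))⁻¹ • 𝒢.Z O (X i a) - τp i a‖ ^ 2 ≤ 100 * q ^ 2 := by
        have := pow_le_pow_left₀ (norm_nonneg _) h6 2
        linarith [this, (by ring : (10 * q) ^ 2 = 100 * q ^ 2)]
      rw [LocGeo.g_Z_eq hO hg.mem]
      have h8 : 𝒢.rho O (X i a) * (1 - 𝒢.cs O (X i a) (τp i a)) ≤ 5 * T * (100 * q ^ 2) :=
        mul_le_mul h4 (h5.trans h7)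
          (by linarith [(abs_le.1 (LocGeo.cs_abs_le (𝒢 := 𝒢) hO hg.mem hg.unit)).2])
          (by positivity)
      linarith
    unfold TBase.Phi
    calc _ ≤ ∑ _i ∈ I, 500 * (T * q ^ 2) := Finset.sum_le_sum h1
      _ = P := by rw [Finset.sum_const, nsmul_eq_mul, hP]; ring
  have hsP : √P ≤ 23 * I.card * q * √T := by
    rw [hP]
    apply Real.sqrt_le_iff.2
    refine ⟨by positivity, ?_⟩
    have : (23 * (I.card:ℝ) * q * √T) ^ 2 = 529 * (I.card:ℝ) ^ 2 * q ^ 2 * T := by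
      rw [mul_pow, mul_pow, mul_pow, Real.sq_sqrt hT.le]; norm_num
    rw [this]
    have h1 : (I.card:ℝ) ≤ (I.card:ℝ) ^ 2 := by nlinarith
    have h2 : 0 ≤ T * q ^ 2 := by positivity
    nlinarith
  have hP0 : 0 ≤ P := by positivity
  have hc2 : ∀ i ∈ I, ∀ j ∈ I, ∀ t ∈ Icc a b,
      ‖X i t - X j t‖ ≤ 100 * (t - a + T) * ‖𝒢.uu O (X i t) - 𝒢.uu O (X j t)‖ := by
    intro i hi j hj t ht
    have hw : 0 < t - a + T := by linarith [ht.1]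
    obtain ⟨h1, h2⟩ := hpos i hi t ht
    have h3 := S.slice i hi j hj t ht t ht
    rw [sub_self, zero_sub, abs_neg] at h3
    exact LocGeo.dist_le_of_uu hO (S.mem hi ht) (S.mem hj ht) S.ω_norm hw h3 h1 h2
      (hρup j hj t ht) (hρpos i hi t ht) (hρpos j hj t ht)
  have hc3 : ∀ i ∈ I, ∀ j ∈ I, ∀ t ∈ Ico a b,
        ‖τp i t - τp j t‖ ≤ 1000 * ‖𝒢.uu O (X i t) - 𝒢.uu O (X j t)‖
          + 140 * I.card * q * (√T / √(t - a + T)) := by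
    intro i hi j hj t ht
    have ht' : t ∈ Icc a b := ⟨ht.1, ht.2.le⟩
    have hw : 0 < t - a + T := by linarith [ht.1]
    have hsw : 0 < √(t - a + T) := Real.sqrt_pos.2 hw
    have near : ∀ k ∈ I, ‖(𝒢.rho O (X k t))⁻¹ • 𝒢.Z O (X k t) - τp k t‖
        ≤ 70 * I.card * q * (√T / √(t - a + T)) := by
      intro k hk
      have hg := S.right k hk t ht
      have h1 := LocGeo.norm_sub_sq_le (𝒢 := 𝒢) hO hg.mem hg.unit (hρpos k hk t ht')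
      have h2 := S.one_sub_cs_le hO (by norm_num : (0:ℝ) < 1 / 4) hT hρlow hΦ hk ht
      have h3 : ‖(𝒢.rho O (X k t))⁻¹ • 𝒢.Z O (X k t) - τp k t‖ ≤ 3 * (√P / √(t - a + T)) := by
        apply le_of_sq_le_sq _ (by positivity)
        rw [mul_pow, div_pow, Real.sq_sqrt hP0, Real.sq_sqrt hw.le]
        have h4 : P / (1 / 4 * (t - a + T)) = 4 * (P / (t - a + T)) := by field_simp
        rw [h4] at h2
        have h5 : 0 ≤ P / (t - a + T) := by positivity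
        nlinarith
      refine h3.trans ?_
      rw [← mul_div_assoc, ← mul_div_assoc]
      apply div_le_div_of_nonneg_right _ hsw.le
      have : 0 ≤ (I.card : ℝ) * q * √T := by positivity
      linarith
    have h6 := LocGeo.radial_sub_le (𝒢 := 𝒢) hO (S.mem hi ht') (S.mem hj ht')
      (hρpos i hi t ht') (hρpos j hj t ht')
    have h7 : 201 / 100 * ‖X i t - X j t‖ / 𝒢.rho O (X i t)
        ≤ 1000 * ‖𝒢.uu O (X i t) - 𝒢.uu O (X j t)‖ := by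
      rw [div_le_iff₀ (hρpos i hi t ht')]
      have e1 := hc2 i hi j hj t ht'
      have e2 := hρlow i hi t ht'
      have e3 := norm_nonneg (𝒢.uu O (X i t) - 𝒢.uu O (X j t))
      calc 201 / 100 * ‖X i t - X j t‖
          ≤ 201 / 100 * (100 * (t - a + T) * ‖𝒢.uu O (X i t) - 𝒢.uu O (X j t)‖) := by gcongr
        _ ≤ 1000 * ‖𝒢.uu O (X i t) - 𝒢.uu O (X j t)‖ * (1 / 4 * (t - a + T)) := by
            nlinarith [mul_nonneg e3 hw.le]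
        _ ≤ _ := by gcongr
    calc ‖τp i t - τp j t‖
        = ‖((𝒢.rho O (X i t))⁻¹ • 𝒢.Z O (X i t) - (𝒢.rho O (X j t))⁻¹ • 𝒢.Z O (X j t))
          - ((𝒢.rho O (X i t))⁻¹ • 𝒢.Z O (X i t) - τp i t)
          + ((𝒢.rho O (X j t))⁻¹ • 𝒢.Z O (X j t) - τp j t)‖ := by congr 1; abel
      _ ≤ ‖(𝒢.rho O (X i t))⁻¹ • 𝒢.Z O (X i t) - (𝒢.rho O (X j t))⁻¹ • 𝒢.Z O (X j t)‖
          + ‖(𝒢.rho O (X i t))⁻¹ • 𝒢.Z O (X i t) - τp i t‖
          + ‖(𝒢.rho O (X j t))⁻¹ • 𝒢.Z O (X j t) - τp j t‖ :=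
          (norm_add_le _ _).trans (add_le_add_left (norm_sub_le _ _) _)
      _ ≤ _ := by linarith [near i hi, near j hj]
  refine ⟨O, hO, ?_, ?_, hc2, hc3, ?_, ?_⟩
  · intro i hi t' t h1 h2 h3
    have hw : 0 < t' - a + T := by linarith
    have hsw : 0 < √(t' - a + T) := Real.sqrt_pos.2 hw
    refine (S.drift hO (by norm_num : (0:ℝ) < 1 / 4) hT hρlow hΦ hi h1 h2 h3).trans ?_
    have e1 : √(1 / 4 : ℝ) = 1 / 2 := by
      rw [show (1 / 4 : ℝ) = (1 / 2) ^ 2 by norm_num]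
      exact Real.sqrt_sq (by norm_num)
    rw [e1, ← mul_div_assoc (3000 * (I.card : ℝ) * q)]
    apply div_le_div_of_nonneg_right _ hsw.le
    have e2 : 16 * √P / (1 / 4 * (1 / 2)) = 128 * √P := by ring
    rw [e2]
    have : 0 ≤ (I.card : ℝ) * q * √T := by positivity
    linarith
  · intro i hi t' t h1 h2 h3
    have hw : 0 < t' - a + T := by linarith
    have hsw : 0 < √(t' - a + T) := Real.sqrt_pos.2 hw
    refine (S.drift_lin hO (by norm_num : (0:ℝ) < 1 / 4) hT hρlow hΦ hi h1 h2 h3).trans ?_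
    apply mul_le_mul_of_nonneg_right _ (by linarith)
    have e1 : √(1 / 4 : ℝ) = 1 / 2 := by
      rw [show (1 / 4 : ℝ) = (1 / 2) ^ 2 by norm_num]
      exact Real.sqrt_sq (by norm_num)
    rw [e1, mul_one_div, ← mul_div_assoc (1200 * (I.card : ℝ) * q)]
    apply div_le_div_of_nonneg_right _ (by positivity)
    have e2 : 6 * √P / (1 / 4 * (1 / 2)) = 48 * √P := by ring
    rw [e2]
    have : 0 ≤ (I.card : ℝ) * q * √T := by positivity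
    linarith
  · intro i hi j hj t ht
    have ht' : t ∈ Icc a b := ⟨ht.1.le, ht.2⟩
    have hci := (S.cont_uu hO hi (hne i hi)) t ht'
    have hcj := (S.cont_uu hO hj (hne j hj)) t ht'
    have hmem : Icc a b ∈ 𝓝[≤] t :=
      mem_of_superset (Ioc_mem_nhdsLE ht.1) (fun r hr => ⟨hr.1.le, hr.2.trans ht.2⟩)
    have hcs : ContinuousWithinAt (fun t => √T / √(t - a + T)) (Iic t) t := by
      have hw : 0 < t - a + T := by linarith [ht.1]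
      apply ContinuousAt.continuousWithinAt
      have h1 : ContinuousAt (fun t : ℝ => √(t - a + T)) t := by fun_prop
      exact continuousAt_const.div h1 (Real.sqrt_pos.2 hw).ne'
    exact S.tau_limit hi hj ht (F := fun t => 1000 * ‖𝒢.uu O (X i t) - 𝒢.uu O (X j t)‖
          + 140 * I.card * q * (√T / √(t - a + T)))
      (((((hci.sub hcj).norm).const_mul 1000).mono_of_mem_nhdsWithin hmem).add
        (hcs.const_mul _))
      (fun t' ht'' => hc3 i hi j hj t' ⟨ht''.1, ht''.2.trans_le ht.2⟩)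
  · have h1 : ∀ i ∈ I, ‖𝒢.uu O (X i a) - 𝒢.uu O x₁‖ ≤ 9 * q := by
      intro i hi
      have e1 := LocGeo.uu_sub_le (𝒢 := 𝒢) hO (S.mem hi haI) hx₁U (hρpos i hi a haI)
        (by rw [hρ₁]; exact hT)
      refine e1.trans ?_
      rw [div_le_iff₀ (hρpos i hi a haI)]
      have h3 := hρlow i hi a haI
      rw [sub_self, zero_add] at h3
      have := hX i hi
      nlinarith
    intro i hi j hj
    have hi' := h1 i hi
    have hj' := h1 j hj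
    calc ‖𝒢.uu O (X i a) - 𝒢.uu O (X j a)‖
        = ‖(𝒢.uu O (X i a) - 𝒢.uu O x₁) - (𝒢.uu O (X j a) - 𝒢.uu O x₁)‖ := by congr 1; abel
      _ ≤ _ + _ := norm_sub_le _ _
      _ ≤ _ := by linarith

end TSys

end Pool.Agent.GeoNet
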