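import Pool.Agent.GeoNet.ExpInv

/-! A nearly Euclidean smooth metric on the ball of radius 10 gives a local geometry with exact
polar functions. -/

set_option maxSynthPendingDepth 3

namespace Pool.Agent.GeoNet

open Set Metric Filter
open scoped Topology RealInnerProductSpace ContDiff NNReal

variable {E : Type*} [NormedAddCommGroup E] [InnerProductSpace ℝ E] [FiniteDimensional ℝ E]
variable {g : E → E →L[ℝ] E →L[ℝ] ℝ} (hg : SmallMetric g kap)

include hg

lemma SmallMetric.energy_eq {O x : E} (hO : ‖O‖ ≤ 3) (hx : x ∈ ball (0 : E) 3) :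
    g O (vv (accOf g) O x) (vv (accOf g) O x) = g x (ZZ (accOf g) O x) (ZZ (accOf g) O x) := by
  have ha := hg.smallAcc
  have h1 := hg.energy (ha.isSol_flow hO (ha.vv_mem hO hx).le) 1 one_mem
  have h2 : (flow (accOf g) O (vv (accOf g) O x) 1).1 = x := ha.ex_vv hO hx
  rw [h2] at h1
  exact h1.symm

lemma SmallMetric.f_deriv {O x : E} (hO : ‖O‖ ≤ 3) (hx : x ∈ ball (0 : E) 3) :
    HasFDerivAt (fun y => g O (vv (accOf g) O y) (vv (accOf g) O y) / 2)
      (g x (ZZ (accOf g) O x)) x := by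
  have ha := hg.smallAcc
  obtain ⟨J, V, W, hJ, hV, hW, hJV, -, -⟩ := ha.exists_deriv hO hx
  have h1 : HasFDerivAt (fun y => g O (vv (accOf g) O y)) ((g O).comp V) x :=
    (g O).hasFDerivAt.comp x hV
  have h2 := (h1.clm_apply hV).const_mul (1 / 2 : ℝ)
  have h3 : (1 / 2 : ℝ) • ((g O (vv (accOf g) O x)).comp V + ((g O).comp V).flip
      (vv (accOf g) O x)) = g x (ZZ (accOf g) O x) := by
    ext ξ
    have h4 := hg.gauss hO (ha.vv_mem hO hx) hJ (V ξ)
    have h5 : (flow (accOf g) O (vv (accOf g) O x) 1).1 = x := ha.ex_vv hO hx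
    rw [hJV, h5] at h4
    have h6 : (flow (accOf g) O (vv (accOf g) O x) 1).2 = ZZ (accOf g) O x := rfl
    rw [h6] at h4
    rw [h4]
    simp only [ContinuousLinearMap.smul_apply, ContinuousLinearMap.add_apply,
      ContinuousLinearMap.comp_apply, ContinuousLinearMap.flip_apply, smul_eq_mul]
    rw [hg.symm O (V ξ)]
    ring
  rw [h3] at h2
  refine h2.congr_of_eventuallyEq (Eventually.of_forall fun y => ?_)
  show _ / 2 = (1 / 2 : ℝ) * _
  ring

/-- pairing of the derivative of `ZZ` with `ZZ` -/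
lemma SmallMetric.pairing {O x : E} (hO : ‖O‖ ≤ 3) (hx : x ∈ ball (0 : E) 3) {W : E →L[ℝ] E}
    (hW : HasFDerivAt (ZZ (accOf g) O) W x) (η : E) :
    g x (W η) (ZZ (accOf g) O x) = g x (ZZ (accOf g) O x) η -
      (1 / 2) * fderiv ℝ g x η (ZZ (accOf g) O x) (ZZ (accOf g) O x) := by
  have hx10 : x ∈ ball (0 : E) 10 := ball_subset_ball (by norm_num) hx
  have hx0 : x + (0 : ℝ) • η = x := by rw [zero_smul, add_zero]
  have hline : HasDerivAt (fun s : ℝ => x + s • η) η 0 := by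
    have h5 : HasDerivAt (fun s : ℝ => x + s • η) ((1 : ℝ) • η) 0 :=
      ((hasDerivAt_id (0 : ℝ)).smul_const η).const_add x
    rwa [one_smul] at h5
  have hZ : HasDerivAt (fun s : ℝ => ZZ (accOf g) O (x + s • η)) (W η) 0 := by
    have h7 : HasFDerivAt (ZZ (accOf g) O) W (x + (0 : ℝ) • η) := by
      rw [hx0]
      exact hW
    exact HasFDerivAt.comp_hasDerivAt (l := ZZ (accOf g) O) 0 h7 hline
  have hf : HasDerivAt (fun s : ℝ => g O (vv (accOf g) O (x + s • η))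
      (vv (accOf g) O (x + s • η)) / 2) (g x (ZZ (accOf g) O x) η) 0 := by
    have h7 : HasFDerivAt (fun y => g O (vv (accOf g) O y) (vv (accOf g) O y) / 2)
      (g x (ZZ (accOf g) O x)) (x + (0 : ℝ) • η) := by
      rw [hx0]
      exact hg.f_deriv hO hx
    exact HasFDerivAt.comp_hasDerivAt
      (l := fun y => g O (vv (accOf g) O y) (vv (accOf g) O y) / 2) 0 h7 hline
  have hx0' : x + (0 : ℝ) • η ∈ ball (0 : E) 10 := by rw [hx0]; exact hx10
  have h1 := hg.deriv_along (c := fun s : ℝ => x + s • η) hx0'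
    (hline.hasDerivWithinAt (s := univ)) (hZ.hasDerivWithinAt (s := univ))
    (hZ.hasDerivWithinAt (s := univ))
  have hev : ∀ᶠ s in 𝓝 (0 : ℝ), x + s • η ∈ ball (0 : E) 3 := by
    have hcont : ContinuousAt (fun s : ℝ => x + s • η) 0 := by fun_prop
    refine hcont.eventually_mem (isOpen_ball.mem_nhds ?_)
    show x + (0 : ℝ) • η ∈ ball (0 : E) 3
    rw [hx0]
    exact hx
  have h2 : (fun s : ℝ => 2 * (g O (vv (accOf g) O (x + s • η))
      (vv (accOf g) O (x + s • η)) / 2)) =ᶠ[𝓝 0] fun s => g (x + s • η)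
        (ZZ (accOf g) O (x + s • η)) (ZZ (accOf g) O (x + s • η)) := by
    filter_upwards [hev] with s hs
    rw [← hg.energy_eq hO hs]
    ring
  have h3 := ((hasDerivWithinAt_univ.1 h1).congr_of_eventuallyEq h2).unique (hf.const_mul 2)
  simp only [hx0] at h3
  rw [hg.symm x (ZZ (accOf g) O x) (W η)] at h3
  linarith

omit [FiniteDimensional ℝ E] in
lemma SmallMetric.abs_le {x : E} (hx : x ∈ ball (0 : E) 10) (u w : E) :
    |g x u w| ≤ 2 * ‖u‖ * ‖w‖ := by
  have h1 := hg.abs_sub_le hx u w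
  have h2 := abs_real_inner_le_norm u w
  have h3 : |g x u w| ≤ |g x u w - ⟪u, w⟫| + |⟪u, w⟫| := by
    have := abs_add_le (g x u w - ⟪u, w⟫) ⟪u, w⟫
    rwa [sub_add_cancel] at this
  have h4 : kap * ‖u‖ * ‖w‖ ≤ 1 * ‖u‖ * ‖w‖ := by
    gcongr
    norm_num [kap]
  linarith

omit [FiniteDimensional ℝ E] in
lemma SmallMetric.lower {x : E} (hx : x ∈ ball (0 : E) 10) (u : E) :
    (1 - kap) * ‖u‖ ^ 2 ≤ g x u u := by
  have h1 := (_root_.abs_le.1 (hg.abs_sub_le hx u u)).1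
  rw [real_inner_self_eq_norm_sq] at h1
  nlinarith

/-- the Hessian lower bound -/
lemma SmallMetric.hess {O x : E} (hO : ‖O‖ ≤ 3) (hx : x ∈ ball (0 : E) 3) {V W : E →L[ℝ] E}
    (hV : HasFDerivAt (vv (accOf g) O) V x) (hW : HasFDerivAt (ZZ (accOf g) O) W x)
    (hWn : ‖W - ContinuousLinearMap.id ℝ E‖ ≤ 16 * lam) (ξ : E) (hξ : g x ξ ξ = 1) :
    (1 + (g x (ZZ (accOf g) O x) ξ /
      √(g O (vv (accOf g) O x) (vv (accOf g) O x))) ^ 2) / 2 ≤
      g x (W ξ) ξ + (1 / 2) * fderiv ℝ g x (ZZ (accOf g) O x) ξ ξ := by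
  have ha := hg.smallAcc
  have hx10 : x ∈ ball (0 : E) 10 := ball_subset_ball (by norm_num) hx
  have hZn : ‖ZZ (accOf g) O x‖ ≤ 7 := by
    have h1 := (ha.isSol_flow hO (ha.vv_mem hO hx).le).mem 1 one_mem
    exact (mem_reg.1 h1).2
  rw [hg.energy_eq hO hx]
  have hWZ := (ha.radial_deriv hO hx hV hW).2
  have hpair := hg.pairing hO hx hW
  have hacc := hg.g_acc hx10 (ZZ (accOf g) O x)
  set Z := ZZ (accOf g) O x with hZdef
  set T := fderiv ℝ g x with hT
  have hTn : ‖T‖ ≤ kap := hg.near1 x hx10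
  have hTs := hg.fderiv_symm hx10
  rw [← hT] at hTs
  -- lower bound on the orthogonal part
  have hlow : ∀ ν : E, (1 / 2) * g x ν ν ≤ g x (W ν) ν + (1 / 2) * T Z ν ν := by
    intro ν
    have h1 : g x (W ν) ν = g x ν ν + g x ((W - ContinuousLinearMap.id ℝ E) ν) ν := by
      simp
    have h2 := hg.abs_le hx10 ((W - ContinuousLinearMap.id ℝ E) ν) ν
    have h3 := (W - ContinuousLinearMap.id ℝ E).le_opNorm ν
    have hl : (0 : ℝ) < lam := lam_pos
    have hk : (0 : ℝ) < kap := kap_pos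
    have h4 : 2 * ‖(W - ContinuousLinearMap.id ℝ E) ν‖ * ‖ν‖ ≤ 2 * (16 * lam * ‖ν‖) * ‖ν‖ := by
      gcongr
      exact h3.trans (by gcongr)
    have h5 : |T Z ν ν| ≤ kap * 7 * ‖ν‖ * ‖ν‖ := by
      calc |T Z ν ν| = ‖T Z ν ν‖ := rfl
        _ ≤ ‖T Z ν‖ * ‖ν‖ := (T Z ν).le_opNorm ν
        _ ≤ ‖T Z‖ * ‖ν‖ * ‖ν‖ := by gcongr; exact (T Z).le_opNorm ν
        _ ≤ ‖T‖ * ‖Z‖ * ‖ν‖ * ‖ν‖ := by gcongr; exact T.le_opNorm Z
        _ ≤ kap * 7 * ‖ν‖ * ‖ν‖ := by gcongr
    have h6 := hg.lower hx10 ν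
    have h7 := (_root_.abs_le.1 (h2.trans h4)).1
    have h8 := (_root_.abs_le.1 h5).1
    have h9 : (0 : ℝ) ≤ ‖ν‖ ^ 2 := sq_nonneg _
    have h10 : (32 * lam + 4 * kap) * ‖ν‖ ^ 2 ≤ (1 / 2) * ((1 - kap) * ‖ν‖ ^ 2) := by
      rw [← mul_assoc]
      exact mul_le_mul_of_nonneg_right (by norm_num [lam, kap]) h9
    rw [h1]
    nlinarith
  by_cases hρ : g x Z Z = 0
  · have hZ0 : Z = 0 := by
      have h1 := hg.lower hx10 Z
      rw [hρ] at h1
      have h2 : (0 : ℝ) < 1 - kap := by norm_num [kap]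
      have h3 : ‖Z‖ ^ 2 ≤ 0 := by
        by_contra h4
        push Not at h4
        have := mul_pos h2 h4
        linarith
      have h4 : ‖Z‖ = 0 := by
        have h5 : ‖Z‖ ^ 2 = 0 := le_antisymm h3 (sq_nonneg _)
        exact pow_eq_zero_iff (two_ne_zero) |>.1 h5
      exact norm_eq_zero.1 h4
    have h1 := hlow ξ
    rw [hξ] at h1
    rw [hρ, Real.sqrt_zero, div_zero]
    linarith
  · have hρpos : 0 < g x Z Z := by
      have h1 := hg.lower hx10 Z
      have h2 : (0 : ℝ) < 1 - kap := by norm_num [kap]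
      have h3 : 0 ≤ (1 - kap) * ‖Z‖ ^ 2 := by positivity
      exact lt_of_le_of_ne (h3.trans h1) (Ne.symm hρ)
    set ρ := g x Z Z with hρdef
    set k := g x Z ξ / ρ with hk
    set ν := ξ - k • Z with hν
    have hξν : ξ = ν + k • Z := by rw [hν]; abel
    have hkρ : k * ρ = g x Z ξ := by rw [hk]; field_simp
    have hZν : g x Z ν = 0 := by
      rw [hν, map_sub, map_smul, smul_eq_mul, ← hρdef, hkρ, sub_self]
    have hνZ : g x ν Z = 0 := by rw [hg.symm, hZν]
    have hsq : (g x Z ξ / √ρ) ^ 2 = k ^ 2 * ρ := by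
      rw [div_pow, Real.sq_sqrt hρpos.le, hk]
      field_simp
    have hνν : g x ν ν = 1 - k ^ 2 * ρ := by
      have h1 : g x ξ ξ = g x ν ν + k ^ 2 * ρ := by
        rw [hξν]
        simp only [map_add, map_smul, ContinuousLinearMap.add_apply,
          ContinuousLinearMap.smul_apply, smul_eq_mul]
        rw [hZν, hνZ, ← hρdef]
        ring
      linarith
    have f1 : ∀ η, g x (W Z) η = g x Z η + ((1 / 2) * T η Z Z - T Z Z η) := by
      intro η
      rw [hWZ, map_add, ContinuousLinearMap.add_apply, hacc]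
    have f2 : ∀ η, g x (W η) Z = g x Z η - (1 / 2) * T η Z Z := hpair
    have main : g x (W ξ) ξ + (1 / 2) * T Z ξ ξ =
        (g x (W ν) ν + (1 / 2) * T Z ν ν) + k ^ 2 * ρ := by
      rw [hξν]
      simp only [map_add, map_smul, ContinuousLinearMap.add_apply,
        ContinuousLinearMap.smul_apply, smul_eq_mul]
      rw [f1 ν, f1 Z, f2 ν, hZν, hTs Z ν Z, ← hρdef]
      ring
    rw [main, hsq]
    have h1 := hlow ν
    rw [hνν] at h1
    linarith

/-- second derivative along geodesics -/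
lemma SmallMetric.second {O : E} (hO : O ∈ ball (0 : E) 3) {X X' : ℝ → E} {a b : ℝ}
    (hX : IsGeo g (accOf g) X X' a b) {s : ℝ} (hs : s ∈ Icc a b) :
    ∃ A : ℝ, HasDerivWithinAt (fun s => g (X s) (ZZ (accOf g) O (X s)) (X' s)) A (Icc a b) s ∧
      (1 + (g (X s) (ZZ (accOf g) O (X s)) (X' s) /
        √(g O (vv (accOf g) O (X s)) (vv (accOf g) O (X s)))) ^ 2) / 2 ≤ A := by
  have ha := hg.smallAcc
  have hO' : ‖O‖ ≤ 3 := (mem_ball_zero_iff.1 hO).le
  have hx := hX.mem s hs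
  have hx10 : X s ∈ ball (0 : E) 10 := ball_subset_ball (by norm_num) hx
  obtain ⟨J, V, W, hJ, hV, hW, hJV, hVn, hWn⟩ := ha.exists_deriv hO' hx
  have hZ : HasDerivWithinAt (fun s => ZZ (accOf g) O (X s)) (W (X' s)) (Icc a b) s :=
    HasFDerivAt.comp_hasDerivWithinAt (l := ZZ (accOf g) O) s hW (hX.d1 s hs)
  have h1 := hg.deriv_along hx10 (hX.d1 s hs) hZ (hX.d2 s hs)
  refine ⟨_, h1, (hg.hess hO' hx hV hW hWn (X' s) (hX.unit s hs)).trans (le_of_eq ?_)⟩
  rw [hg.symm (X s) (ZZ (accOf g) O (X s)) (accOf g (X s) (X' s)), hg.g_acc hx10,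
    hg.fderiv_symm hx10 (X' s) (ZZ (accOf g) O (X s)) (X' s)]
  ring

omit [FiniteDimensional ℝ E] in
lemma SmallMetric.angular_bound {x : E} (hx : x ∈ ball (0 : E) 10) {V : E →L[ℝ] E}
    (hVn : ‖V - ContinuousLinearMap.id ℝ E‖ ≤ 8 * lam) {Z ξ v : E} (hξ : g x ξ ξ = 1)
    (hVZ : V Z = v) {r : ℝ} (hr : 0 < r) (hrr : r ^ 2 = g x Z Z) :
    ‖r⁻¹ • V ξ + (-(2 * g x Z ξ / (2 * r)) / r ^ 2) • v‖ ≤
      2 * √(1 - (g x Z ξ / r) ^ 2) / r := by
  have hl : (0 : ℝ) < lam := lam_pos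
  set p := g x Z ξ with hp
  set k := p / r ^ 2 with hk
  set ν := ξ - k • Z with hν
  have hr2 : r ^ 2 ≠ 0 := pow_ne_zero _ hr.ne'
  have hkr : k * r ^ 2 = p := by rw [hk]; field_simp
  have e1 : r⁻¹ • V ξ + (-(2 * p / (2 * r)) / r ^ 2) • v = r⁻¹ • V ν := by
    rw [hν, map_sub, map_smul, hVZ, smul_sub, smul_smul, sub_eq_add_neg, ← neg_smul]
    congr 2
    rw [hk]
    field_simp
  have hZν : g x Z ν = 0 := by
    rw [hν, map_sub, map_smul, smul_eq_mul, ← hrr, hkr, ← hp, sub_self]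
  have hνZ : g x ν Z = 0 := by rw [hg.symm, hZν]
  have hνν : g x ν ν = 1 - (p / r) ^ 2 := by
    have h1 : g x ξ ξ = g x ν ν + k ^ 2 * r ^ 2 := by
      have hξν : ξ = ν + k • Z := by rw [hν]; abel
      rw [hξν]
      simp only [map_add, map_smul, ContinuousLinearMap.add_apply,
        ContinuousLinearMap.smul_apply, smul_eq_mul]
      rw [hZν, hνZ, ← hrr]
      ring
    have h2 : k ^ 2 * r ^ 2 = (p / r) ^ 2 := by
      rw [hk]
      field_simp
    linarith
  have hnn : 0 ≤ 1 - (p / r) ^ 2 := by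
    rw [← hνν]
    have h1 := hg.lower hx ν
    have h2 : (0 : ℝ) ≤ 1 - kap := by norm_num [kap]
    have h3 : 0 ≤ (1 - kap) * ‖ν‖ ^ 2 := by positivity
    linarith
  have hV : ‖V ν‖ ≤ (11 / 10) * ‖ν‖ := by
    have h1 : V ν = (V - ContinuousLinearMap.id ℝ E) ν + ν := by simp
    rw [h1]
    refine (norm_add_le _ _).trans ?_
    have h2 : ‖(V - ContinuousLinearMap.id ℝ E) ν‖ ≤ (1 / 10) * ‖ν‖ := by
      refine (ContinuousLinearMap.le_opNorm _ _).trans ?_
      gcongr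
      exact hVn.trans (by norm_num [lam])
    linarith
  have hfin : ‖V ν‖ ≤ 2 * √(1 - (p / r) ^ 2) := by
    rw [← pow_le_pow_iff_left₀ (norm_nonneg _) (by positivity) two_ne_zero, mul_pow,
      Real.sq_sqrt hnn, ← hνν]
    have h1 := hg.lower hx ν
    have h2 : ‖V ν‖ ^ 2 ≤ ((11 / 10) * ‖ν‖) ^ 2 := by gcongr
    have h3 : ((11 / 10) * ‖ν‖) ^ 2 ≤ 2 ^ 2 * ((1 - kap) * ‖ν‖ ^ 2) := by
      have h4 : 2 ^ 2 * ((1 - kap) * ‖ν‖ ^ 2) - ((11 / 10) * ‖ν‖) ^ 2 =
          (2 ^ 2 * (1 - kap) - (11 / 10) ^ 2) * ‖ν‖ ^ 2 := by ring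
      have h5 : 0 ≤ (2 ^ 2 * (1 - kap) - (11 / 10) ^ 2) * ‖ν‖ ^ 2 :=
        mul_nonneg (by norm_num [kap]) (sq_nonneg _)
      linarith
    linarith
  rw [e1, norm_smul, norm_inv, Real.norm_eq_abs, abs_of_pos hr, inv_mul_eq_div]
  gcongr

/-- angular derivative along geodesics -/
lemma SmallMetric.angular {O : E} (hO : O ∈ ball (0 : E) 3) {X X' : ℝ → E} {a b : ℝ}
    (hX : IsGeo g (accOf g) X X' a b) {s : ℝ} (hs : s ∈ Icc a b) (hne : X s ≠ O) :
    ∃ D : E, HasDerivWithinAt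
        (fun s => (√(g O (vv (accOf g) O (X s)) (vv (accOf g) O (X s))))⁻¹ •
          vv (accOf g) O (X s)) D (Icc a b) s ∧
      ‖D‖ ≤ 2 * √(1 - (g (X s) (ZZ (accOf g) O (X s)) (X' s) /
        √(g O (vv (accOf g) O (X s)) (vv (accOf g) O (X s)))) ^ 2) /
        √(g O (vv (accOf g) O (X s)) (vv (accOf g) O (X s))) := by
  have ha := hg.smallAcc
  have hO' : ‖O‖ ≤ 3 := (mem_ball_zero_iff.1 hO).le
  have hO10 : O ∈ ball (0 : E) 10 := ball_subset_ball (by norm_num) hO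
  have hx := hX.mem s hs
  have hx10 : X s ∈ ball (0 : E) 10 := ball_subset_ball (by norm_num) hx
  obtain ⟨J, V, W, hJ, hV, hW, hJV, hVn, hWn⟩ := ha.exists_deriv hO' hx
  have hVZ := (ha.radial_deriv hO' hx hV hW).1
  have hen := hg.energy_eq hO' hx
  have hvpos : 0 < g O (vv (accOf g) O (X s)) (vv (accOf g) O (X s)) := by
    have h1 := hg.lower hO10 (vv (accOf g) O (X s))
    have h2 : vv (accOf g) O (X s) ≠ 0 := by
      intro h0
      have h3 := ha.ex_vv hO' hx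
      rw [h0, ha.ex_zero hO'] at h3
      exact hne h3.symm
    have h3 : 0 < ‖vv (accOf g) O (X s)‖ := norm_pos_iff.2 h2
    have h4 : (0 : ℝ) < 1 - kap := by norm_num [kap]
    have h5 : 0 < (1 - kap) * ‖vv (accOf g) O (X s)‖ ^ 2 := by positivity
    exact h5.trans_le h1
  have hv : HasDerivWithinAt (fun s => vv (accOf g) O (X s)) (V (X' s)) (Icc a b) s :=
    HasFDerivAt.comp_hasDerivWithinAt (l := vv (accOf g) O) s hV (hX.d1 s hs)
  have hf : HasDerivWithinAt (fun s => g O (vv (accOf g) O (X s)) (vv (accOf g) O (X s)) / 2)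
      (g (X s) (ZZ (accOf g) O (X s)) (X' s)) (Icc a b) s :=
    HasFDerivAt.comp_hasDerivWithinAt
      (l := fun y => g O (vv (accOf g) O y) (vv (accOf g) O y) / 2) s (hg.f_deriv hO' hx)
      (hX.d1 s hs)
  have hf2 : HasDerivWithinAt (fun s => g O (vv (accOf g) O (X s)) (vv (accOf g) O (X s)))
      (2 * g (X s) (ZZ (accOf g) O (X s)) (X' s)) (Icc a b) s := by
    have h1 := hf.const_mul 2
    refine h1.congr_of_eventuallyEq (Eventually.of_forall fun y => ?_) ?_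
    · show _ = 2 * (_ / 2)
      ring
    · ring
  have hr := hf2.sqrt hvpos.ne'
  have hrpos : 0 < √(g O (vv (accOf g) O (X s)) (vv (accOf g) O (X s))) := Real.sqrt_pos.2 hvpos
  have hri := hr.inv hrpos.ne'
  have hD := hri.smul hv
  refine ⟨_, hD, ?_⟩
  exact hg.angular_bound hx10 hVn (hX.unit s hs) hVZ hrpos
    (by rw [Real.sq_sqrt hvpos.le, hen])

/-- existence of apices -/
lemma SmallMetric.apex {x τ : E} (hx : x ∈ ball (0 : E) 1) (hτ : g x τ τ = 1) {T : ℝ}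
    (hT : T ∈ Ioc (0 : ℝ) 1) : ∃ O ∈ ball (0 : E) 3, ZZ (accOf g) O x = T • τ := by
  have ha := hg.smallAcc
  have hx10 : x ∈ ball (0 : E) 10 := ball_subset_ball (by norm_num) hx
  have hx1 : ‖x‖ < 1 := mem_ball_zero_iff.1 hx
  have hτn : ‖τ‖ ≤ 11 / 10 := by
    have h1 := hg.lower hx10 τ
    rw [hτ] at h1
    have h2 : (9 / 10 : ℝ) * ‖τ‖ ^ 2 ≤ 1 := by
      refine le_trans ?_ h1
      gcongr
      norm_num [kap]
    by_contra h3
    push Not at h3
    nlinarith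
  set w : E := -(T • τ) with hw
  have hwn : ‖w‖ ≤ 11 / 10 := by
    rw [hw, norm_neg, norm_smul, Real.norm_eq_abs, abs_of_pos hT.1]
    calc T * ‖τ‖ ≤ 1 * (11 / 10) := by
          have := hT.2
          gcongr
      _ = 11 / 10 := one_mul _
  have hsol := ha.isSol_flow (O := x) (w := w) (by linarith) (by linarith)
  obtain ⟨h1, h2⟩ := ha.near_line (by linarith) hsol 1 one_mem
  have hl : (0 : ℝ) < lam := lam_pos
  have h3 : 4 * lam * ‖w‖ ≤ 1 / 10 := by
    calc 4 * lam * ‖w‖ ≤ 4 * lam * (11 / 10) := by gcongr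
      _ ≤ 1 / 10 := by norm_num [lam]
  rw [one_smul] at h1
  set O := (flow (accOf g) x w 1).1 with hO
  set w' := -(flow (accOf g) x w 1).2 with hw'
  have hOn : ‖O‖ < 3 := by
    have h4 : O = (O - (x + w)) + x + w := by abel
    rw [h4]
    have := norm_add₃_le (a := O - (x + w)) (b := x) (c := w)
    linarith
  have hw'n : ‖w'‖ < 13 / 2 := by
    rw [hw', norm_neg]
    have h4 : (flow (accOf g) x w 1).2 = ((flow (accOf g) x w 1).2 - w) + w := by abel
    rw [h4]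
    have := norm_add_le ((flow (accOf g) x w 1).2 - w) w
    linarith
  have hrev := ha.reverse hsol
  have hfe := ha.flow_eq hOn.le hw'n.le hrev one_mem
  simp only [sub_self, hsol.zero] at hfe
  have hex : ex (accOf g) O w' = x := by
    rw [ex, hfe]
  have hve : ve (accOf g) O w' = T • τ := by
    rw [ve, hfe, hw, neg_neg]
  refine ⟨O, mem_ball_zero_iff.2 hOn, ?_⟩
  have h5 := ha.vv_ex hOn.le hw'n
  rw [hex] at h5
  rw [ZZ, h5, hve]

omit hg in
theorem exists_locGeo :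
    ∃ κ : ℝ, 0 < κ ∧ ∀ g : E → E →L[ℝ] E →L[ℝ] ℝ, SmallMetric g κ →
      ∃ 𝒢 : LocGeo E, (∀ x ∈ ball (0 : E) 3, 𝒢.g x = g x) ∧
        (∀ x ∈ ball (0 : E) 3, ∀ u w : E,
          g x (𝒢.acc x u) w = (1 / 2) * fderiv ℝ g x w u u - fderiv ℝ g x u u w) := by
  refine ⟨kap, kap_pos, fun g hg => ?_⟩
  have ha := hg.smallAcc
  have h3 : ∀ {x : E}, x ∈ ball (0 : E) 3 → ‖x‖ ≤ 3 := fun h => (mem_ball_zero_iff.1 h).le
  have h10 : ∀ {x : E}, x ∈ ball (0 : E) 3 → x ∈ ball (0 : E) 10 :=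
    fun h => ball_subset_ball (by norm_num) h
  have hkd : kap ≤ dl := by norm_num [kap, dl]
  refine ⟨{ g := g
            acc := accOf g
            v := vv (accOf g)
            Z := ZZ (accOf g)
            g_symm := hg.symm
            g_near := ?_
            g_lip := ?_
            acc_le := ?_
            acc_neg := ha.neg
            v_self := fun O hO => ha.vv_self (h3 hO)
            v_near := ?_
            Z_self := fun O hO => ha.ZZ_self (h3 hO)
            Z_near := ?_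
            norm_eq := fun O hO x hx => hg.energy_eq (h3 hO) hx
            f_deriv := fun O hO x hx => hg.f_deriv (h3 hO) hx
            second := fun O hO X X' a b hX s hs => hg.second hO hX hs
            angular := fun O hO X X' a b hX s hs hne => hg.angular hO hX hs hne
            apex := fun x hx τ hτ T hT => hg.apex hx hτ hT }, fun x _ => rfl,
    fun x hx u w => hg.g_acc (h10 hx) u w⟩
  · intro x hx u w
    refine (hg.abs_sub_le (h10 hx) u w).trans ?_
    gcongr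
  · intro x hx y hy u w
    have h1 : g x u w - g y u w = (g x - g y) u w := by simp
    rw [h1, ← Real.norm_eq_abs]
    calc ‖(g x - g y) u w‖ ≤ ‖(g x - g y) u‖ * ‖w‖ := ContinuousLinearMap.le_opNorm _ _
      _ ≤ ‖g x - g y‖ * ‖u‖ * ‖w‖ := by gcongr; exact ContinuousLinearMap.le_opNorm _ _
      _ ≤ dl * ‖x - y‖ * ‖u‖ * ‖w‖ := by
          gcongr
          refine (hg.sub_le (h10 hx) (h10 hy)).trans ?_
          gcongr
  · intro x hx u
    refine (ha.le x (h10 hx) u).trans ?_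
    gcongr
    norm_num [lam, dl]
  · intro O hO x hx y hy
    refine (ha.vv_near (h3 hO) hx hy).trans ?_
    gcongr
    norm_num [lam, dl]
  · intro O hO x hx y hy
    refine (ha.ZZ_near (h3 hO) hx hy).trans ?_
    gcongr
    norm_num [lam, dl]

end Pool.Agent.GeoNet
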