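import Mathlib

/-! Elementary facts on ordinary differential equations on `[0, 1]`: existence in a ball,
uniqueness, a Gronwall estimate. -/

namespace Pool.Agent.GeoNet

open Set Metric Filter
open scoped Topology NNReal

variable {V : Type*} [NormedAddCommGroup V] [NormedSpace ℝ V]

lemma hasDerivWithinAt_Ici {f : ℝ → V} {f' : V} {t : ℝ} (ht : t ∈ Ico (0 : ℝ) 1)
    (h : HasDerivWithinAt f f' (Icc 0 1) t) : HasDerivWithinAt f f' (Ici t) t := by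
  refine h.mono_of_mem_nhdsWithin ?_
  exact mem_of_superset (Icc_mem_nhdsGE ht.2) (Icc_subset_Icc_left ht.1)

/-- existence on `[0, 1]` in a ball -/
theorem exists_sol [CompleteSpace V] (f : ℝ → V → V) (x₀ : V) (a K : ℝ≥0)
    (hlip : ∀ t ∈ Icc (0 : ℝ) 1, LipschitzOnWith K (f t) (closedBall x₀ a))
    (hcont : ∀ x ∈ closedBall x₀ a, ContinuousOn (f · x) (Icc 0 1))
    (hnorm : ∀ t ∈ Icc (0 : ℝ) 1, ∀ x ∈ closedBall x₀ a, ‖f t x‖ ≤ a) :
    ∃ α : ℝ → V, α 0 = x₀ ∧ (∀ t ∈ Icc (0 : ℝ) 1, α t ∈ closedBall x₀ a) ∧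
      ∀ t ∈ Icc (0 : ℝ) 1, HasDerivWithinAt α (f t (α t)) (Icc 0 1) t := by
  have h0 : (0 : ℝ) ∈ Icc (0 : ℝ) 1 := ⟨le_rfl, zero_le_one⟩
  have hf : IsPicardLindelof f (⟨0, h0⟩ : Icc (0 : ℝ) 1) x₀ a 0 a K :=
    { lipschitzOnWith := hlip
      continuousOn := hcont
      norm_le := hnorm
      mul_max_le := by simp }
  obtain ⟨α, hα⟩ := ODE.FunSpace.exists_isFixedPt_next hf (mem_closedBall_self le_rfl)
  have hmem : ∀ t, α.compProj t ∈ closedBall x₀ (a : ℝ) := fun t =>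
    α.compProj_mem_closedBall hf.mul_max_le
  have hcont2 : ContinuousOn (Function.uncurry f) (Icc (0 : ℝ) 1 ×ˢ closedBall x₀ (a : ℝ)) :=
    continuousOn_prod_of_continuousOn_lipschitzOnWith' _ K hlip hcont
  have hfix : ∀ t ∈ Icc (0 : ℝ) 1, α.compProj t = ODE.picard f 0 x₀ α.compProj t := by
    intro t ht
    have h1 := (ODE.FunSpace.isFixedPt_next_iff hf (mem_closedBall_self le_rfl)).1 hα ⟨t, ht⟩
    rw [ODE.FunSpace.compProj_of_mem ht]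
    exact h1
  refine ⟨α.compProj, ?_, fun t _ => hmem t, ?_⟩
  · rw [hfix 0 h0, ODE.picard_apply₀]
  · intro t ht
    refine (ODE.hasDerivWithinAt_picard_Icc h0 hcont2 α.continuous_compProj.continuousOn
      (fun t _ => hmem t) x₀ ht).congr (fun s hs => hfix s hs) (hfix t ht)

/-- uniqueness on `[0, 1]` -/
theorem sol_unique {f : V → V} {s : Set V} {K : ℝ≥0} (hf : LipschitzOnWith K f s)
    {α β : ℝ → V} (hα : ∀ t ∈ Icc (0 : ℝ) 1, HasDerivWithinAt α (f (α t)) (Icc 0 1) t)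
    (hβ : ∀ t ∈ Icc (0 : ℝ) 1, HasDerivWithinAt β (f (β t)) (Icc 0 1) t)
    (hαs : ∀ t ∈ Icc (0 : ℝ) 1, α t ∈ s) (hβs : ∀ t ∈ Icc (0 : ℝ) 1, β t ∈ s)
    (h0 : α 0 = β 0) : ∀ t ∈ Icc (0 : ℝ) 1, α t = β t := by
  refine ODE_solution_unique_of_mem_Icc_right (v := fun _ => f) (s := fun _ => s) (K := K)
    (fun _ _ => hf) (fun t ht => (hα t ht).continuousWithinAt)
    (fun t ht => hasDerivWithinAt_Ici ht (hα t (Ico_subset_Icc_self ht)))
    (fun t ht => hαs t (Ico_subset_Icc_self ht)) (fun t ht => (hβ t ht).continuousWithinAt)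
    (fun t ht => hasDerivWithinAt_Ici ht (hβ t (Ico_subset_Icc_self ht)))
    (fun t ht => hβs t (Ico_subset_Icc_self ht)) h0

/-- Gronwall with constant at most `2` -/
theorem norm_le_of_deriv {f f' : ℝ → V} {δ ε : ℝ} (hδ : 0 ≤ δ) (hε : 0 ≤ ε)
    (hf : ∀ t ∈ Icc (0 : ℝ) 1, HasDerivWithinAt f (f' t) (Icc 0 1) t) (h0 : ‖f 0‖ ≤ δ)
    (hb : ∀ t ∈ Icc (0 : ℝ) 1, ‖f' t‖ ≤ 2 * ‖f t‖ + ε) :
    ∀ t ∈ Icc (0 : ℝ) 1, ‖f t‖ ≤ 8 * δ + 4 * ε := by
  intro t ht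
  have h1 := norm_le_gronwallBound_of_norm_deriv_right_le (K := 2) (ε := ε)
    (fun t ht => (hf t ht).continuousWithinAt)
    (fun t ht => hasDerivWithinAt_Ici ht (hf t (Ico_subset_Icc_self ht))) h0
    (fun t ht => hb t (Ico_subset_Icc_self ht)) t ht
  rw [gronwallBound_of_K_ne_0 (by norm_num : (2 : ℝ) ≠ 0)] at h1
  have h2 : Real.exp (2 * (t - 0)) ≤ 8 := by
    have h3 : Real.exp (2 * (t - 0)) ≤ Real.exp 2 := by
      apply Real.exp_le_exp.2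
      have := ht.2
      linarith
    have h4 : Real.exp 2 = Real.exp 1 * Real.exp 1 := by
      rw [← Real.exp_add]
      norm_num
    have h5 := Real.exp_one_lt_d9
    have h6 := Real.exp_pos 1
    nlinarith
  have h3 : 1 ≤ Real.exp (2 * (t - 0)) := Real.one_le_exp (by have := ht.1; linarith)
  calc ‖f t‖ ≤ δ * Real.exp (2 * (t - 0)) + ε / 2 * (Real.exp (2 * (t - 0)) - 1) := h1
    _ ≤ δ * 8 + ε / 2 * 8 := by
        gcongr
        linarith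
    _ = 8 * δ + 4 * ε := by ring

/-- mean value inequality on `[0, 1]` -/
theorem norm_sub_le_of_deriv {f f' : ℝ → V} {C : ℝ} (hC : 0 ≤ C)
    (hf : ∀ t ∈ Icc (0 : ℝ) 1, HasDerivWithinAt f (f' t) (Icc 0 1) t)
    (hb : ∀ t ∈ Icc (0 : ℝ) 1, ‖f' t‖ ≤ C) :
    ∀ t ∈ Icc (0 : ℝ) 1, ‖f t - f 0‖ ≤ C := by
  intro t ht
  have h1 := (convex_Icc (0 : ℝ) 1).norm_image_sub_le_of_norm_hasDerivWithin_le
    (fun t ht => hf t ht) (fun t ht => hb t ht) (left_mem_Icc.2 zero_le_one) ht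
  refine h1.trans ?_
  rw [sub_zero, Real.norm_eq_abs, abs_of_nonneg ht.1]
  exact mul_le_of_le_one_right hC ht.2

lemma uniqueDiff_Icc01 : UniqueDiffOn ℝ (Icc (0 : ℝ) 1) := uniqueDiffOn_Icc zero_lt_one

end Pool.Agent.GeoNet
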