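import Pool.Agent.GeoNet.Small
import Pool.Agent.GeoNet.ExpODE

/-! The geodesic acceleration of a nearly Euclidean metric. -/

set_option maxSynthPendingDepth 3

namespace Pool.Agent.GeoNet

open Set Metric Filter
open scoped Topology RealInnerProductSpace ContDiff

variable {E : Type*} [NormedAddCommGroup E] [InnerProductSpace ℝ E]

lemma two_le_infty : (2 : WithTop ℕ∞) ≤ ∞ := by
  have h : ((2 : ℕ∞) : WithTop ℕ∞) ≤ ((⊤ : ℕ∞) : WithTop ℕ∞) := WithTop.coe_le_coe.2 le_top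
  exact h

/-- small constant for the acceleration -/
noncomputable def lam : ℝ := 1 / 10 ^ 5

/-- small constant for the metric -/
noncomputable def kap : ℝ := 1 / 10 ^ 8

lemma lam_pos : 0 < lam := by norm_num [lam]
lemma kap_pos : 0 < kap := by norm_num [kap]

/-- the region of phase space in which everything happens -/
def reg (E : Type*) [NormedAddCommGroup E] : Set (E × E) :=
  closedBall 0 (99 / 10) ×ˢ closedBall 0 7

lemma mem_reg {p : E × E} : p ∈ reg E ↔ ‖p.1‖ ≤ 99 / 10 ∧ ‖p.2‖ ≤ 7 := by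
  rw [reg, mem_prod, mem_closedBall_zero_iff, mem_closedBall_zero_iff]

lemma convex_reg : Convex ℝ (reg E) := (convex_closedBall _ _).prod (convex_closedBall _ _)

lemma isCompact_reg [FiniteDimensional ℝ E] : IsCompact (reg E) :=
  (isCompact_closedBall _ _).prod (isCompact_closedBall _ _)

lemma fst_mem_ball_of_mem_reg {p : E × E} (h : p ∈ reg E) : p.1 ∈ ball (0 : E) 10 := by
  rw [mem_ball_zero_iff]
  have := (mem_reg.1 h).1
  linarith

/-- A small geodesic acceleration. -/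
structure SmallAcc (acc : E → E → E) : Prop where
  smooth : ContDiffOn ℝ 2 (fun p : E × E => acc p.1 p.2) (ball 0 10 ×ˢ univ)
  le : ∀ x ∈ ball (0 : E) 10, ∀ u, ‖acc x u‖ ≤ lam * ‖u‖ ^ 2
  lip : ∀ p ∈ reg E, ∀ q ∈ reg E, ‖acc p.1 p.2 - acc q.1 q.2‖ ≤ lam * ‖p - q‖
  smul : ∀ x u, ∀ c : ℝ, acc x (c • u) = c ^ 2 • acc x u

section phi

variable (g : E → E →L[ℝ] E →L[ℝ] ℝ)

/-- right-hand side of the geodesic equation -/
noncomputable def phi (x u : E) : E →L[ℝ] ℝ :=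
  (1 / 2 : ℝ) • ((fderiv ℝ g x).flip u).flip u - fderiv ℝ g x u u

lemma phi_apply (x u w : E) :
    phi g x u w = (1 / 2) * fderiv ℝ g x w u u - fderiv ℝ g x u u w := rfl

/-- the geodesic acceleration -/
noncomputable def accOf (x u : E) : E := ContinuousLinearMap.inverse (g x) (phi g x u)

variable {g}

lemma norm_phi_sub_le {x x' : E} {κ M : ℝ} (_hκ : 0 ≤ κ) (hM : 0 ≤ M)
    (h1 : ‖fderiv ℝ g x'‖ ≤ κ) (h2 : ‖fderiv ℝ g x - fderiv ℝ g x'‖ ≤ κ * ‖x - x'‖) {u u' : E}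
    (hu : ‖u‖ ≤ M) (hu' : ‖u'‖ ≤ M) :
    ‖phi g x u - phi g x' u'‖ ≤ (3 / 2) * κ * (M ^ 2 * ‖x - x'‖ + 2 * M * ‖u - u'‖) := by
  refine ContinuousLinearMap.opNorm_le_bound _ (by positivity) (fun w => ?_)
  set T := fderiv ℝ g x
  set T' := fderiv ℝ g x'
  have key : ∀ a b c a' b' c' : E, T a b c - T' a' b' c' =
      (T - T') a b c + T' (a - a') b c + T' a' (b - b') c + T' a' b' (c - c') := by
    intro a b c a' b' c'
    simp only [ContinuousLinearMap.sub_apply, map_sub]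
    ring
  have b3 : ∀ (S : E →L[ℝ] E →L[ℝ] E →L[ℝ] ℝ) (a b c : E), |S a b c| ≤ ‖S‖ * ‖a‖ * ‖b‖ * ‖c‖ := by
    intro S a b c
    calc |S a b c| = ‖S a b c‖ := rfl
      _ ≤ ‖S a b‖ * ‖c‖ := (S a b).le_opNorm c
      _ ≤ ‖S a‖ * ‖b‖ * ‖c‖ := by gcongr; exact (S a).le_opNorm b
      _ ≤ ‖S‖ * ‖a‖ * ‖b‖ * ‖c‖ := by gcongr; exact S.le_opNorm a
  have e1 : |T w u u - T' w u' u'| ≤ κ * (M ^ 2 * ‖x - x'‖ + 2 * M * ‖u - u'‖) * ‖w‖ := by
    rw [key w u u w u' u', sub_self, map_zero]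
    simp only [ContinuousLinearMap.zero_apply, add_zero]
    have c1 := b3 (T - T') w u u
    have c2 := b3 T' w (u - u') u
    have c3 := b3 T' w u' (u - u')
    have d1 : ‖T - T'‖ * ‖w‖ * ‖u‖ * ‖u‖ ≤ κ * ‖x - x'‖ * ‖w‖ * M * M := by gcongr
    have d2 : ‖T'‖ * ‖w‖ * ‖u - u'‖ * ‖u‖ ≤ κ * ‖w‖ * ‖u - u'‖ * M := by gcongr
    have d3 : ‖T'‖ * ‖w‖ * ‖u'‖ * ‖u - u'‖ ≤ κ * ‖w‖ * M * ‖u - u'‖ := by gcongr
    calc |(T - T') w u u + T' w (u - u') u + T' w u' (u - u')|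
        ≤ |(T - T') w u u| + |T' w (u - u') u| + |T' w u' (u - u')| := abs_add_three _ _ _
      _ ≤ κ * ‖x - x'‖ * ‖w‖ * M * M + κ * ‖w‖ * ‖u - u'‖ * M + κ * ‖w‖ * M * ‖u - u'‖ := by
          linarith
      _ = _ := by ring
  have e2 : |T u u w - T' u' u' w| ≤ κ * (M ^ 2 * ‖x - x'‖ + 2 * M * ‖u - u'‖) * ‖w‖ := by
    rw [key u u w u' u' w, sub_self, map_zero]
    simp only [add_zero]
    have c1 := b3 (T - T') u u w
    have c2 := b3 T' (u - u') u w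
    have c3 := b3 T' u' (u - u') w
    have d1 : ‖T - T'‖ * ‖u‖ * ‖u‖ * ‖w‖ ≤ κ * ‖x - x'‖ * M * M * ‖w‖ := by gcongr
    have d2 : ‖T'‖ * ‖u - u'‖ * ‖u‖ * ‖w‖ ≤ κ * ‖u - u'‖ * M * ‖w‖ := by gcongr
    have d3 : ‖T'‖ * ‖u'‖ * ‖u - u'‖ * ‖w‖ ≤ κ * M * ‖u - u'‖ * ‖w‖ := by gcongr
    calc |(T - T') u u w + T' (u - u') u w + T' u' (u - u') w|
        ≤ |(T - T') u u w| + |T' (u - u') u w| + |T' u' (u - u') w| := abs_add_three _ _ _
      _ ≤ κ * ‖x - x'‖ * M * M * ‖w‖ + κ * ‖u - u'‖ * M * ‖w‖ + κ * M * ‖u - u'‖ * ‖w‖ := by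
          linarith
      _ = _ := by ring
  rw [ContinuousLinearMap.sub_apply, phi_apply, phi_apply, Real.norm_eq_abs]
  calc |(1 / 2) * T w u u - T u u w - ((1 / 2) * T' w u' u' - T' u' u' w)|
      = |(1 / 2) * (T w u u - T' w u' u') - (T u u w - T' u' u' w)| := by ring_nf
    _ ≤ |(1 / 2) * (T w u u - T' w u' u')| + |T u u w - T' u' u' w| := abs_sub _ _
    _ = (1 / 2) * |T w u u - T' w u' u'| + |T u u w - T' u' u' w| := by
        rw [abs_mul, abs_of_pos (by norm_num : (0 : ℝ) < 1 / 2)]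
    _ ≤ _ := by nlinarith [e1, e2]

lemma norm_phi_le {x : E} {κ : ℝ} (h1 : ‖fderiv ℝ g x‖ ≤ κ) (u : E) :
    ‖phi g x u‖ ≤ (3 / 2) * κ * ‖u‖ ^ 2 := by
  have hκ : 0 ≤ κ := (norm_nonneg _).trans h1
  refine ContinuousLinearMap.opNorm_le_bound _ (by positivity) (fun w => ?_)
  set T := fderiv ℝ g x
  have b3 : ∀ (a b c : E), |T a b c| ≤ κ * ‖a‖ * ‖b‖ * ‖c‖ := by
    intro a b c
    calc |T a b c| = ‖T a b c‖ := rfl
      _ ≤ ‖T a b‖ * ‖c‖ := (T a b).le_opNorm c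
      _ ≤ ‖T a‖ * ‖b‖ * ‖c‖ := by gcongr; exact (T a).le_opNorm b
      _ ≤ ‖T‖ * ‖a‖ * ‖b‖ * ‖c‖ := by gcongr; exact T.le_opNorm a
      _ ≤ κ * ‖a‖ * ‖b‖ * ‖c‖ := by gcongr
  rw [phi_apply, Real.norm_eq_abs]
  calc |(1 / 2) * T w u u - T u u w| ≤ |(1 / 2) * T w u u| + |T u u w| := abs_sub _ _
    _ = (1 / 2) * |T w u u| + |T u u w| := by
        rw [abs_mul, abs_of_pos (by norm_num : (0 : ℝ) < 1 / 2)]
    _ ≤ (1 / 2) * (κ * ‖w‖ * ‖u‖ * ‖u‖) + κ * ‖u‖ * ‖u‖ * ‖w‖ := by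
        gcongr
        · exact b3 _ _ _
        · exact b3 _ _ _
    _ = _ := by ring

lemma phi_smul (x u : E) (c : ℝ) : phi g x (c • u) = c ^ 2 • phi g x u := by
  ext w
  rw [ContinuousLinearMap.smul_apply, phi_apply, phi_apply]
  simp only [map_smul, ContinuousLinearMap.smul_apply, smul_eq_mul]
  ring

lemma accOf_smul (x u : E) (c : ℝ) : accOf g x (c • u) = c ^ 2 • accOf g x u := by
  rw [accOf, phi_smul, map_smul, accOf]

end phi

section metric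

variable {g : E → E →L[ℝ] E →L[ℝ] ℝ} (hg : SmallMetric g kap)

include hg

lemma SmallMetric.abs_sub_le {x : E} (hx : x ∈ ball (0 : E) 10) (u w : E) :
    |g x u w - ⟪u, w⟫| ≤ kap * ‖u‖ * ‖w‖ := by
  have h1 : g x u w - ⟪u, w⟫ = (g x - inn E) u w := by
    rw [ContinuousLinearMap.sub_apply, ContinuousLinearMap.sub_apply, inn_apply]
  rw [h1, ← Real.norm_eq_abs]
  calc ‖(g x - inn E) u w‖ ≤ ‖(g x - inn E) u‖ * ‖w‖ := ContinuousLinearMap.le_opNorm _ _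
    _ ≤ ‖g x - inn E‖ * ‖u‖ * ‖w‖ := by gcongr; exact ContinuousLinearMap.le_opNorm _ _
    _ ≤ _ := by gcongr; exact hg.near x hx

lemma SmallMetric.norm_le {x : E} (hx : x ∈ ball (0 : E) 10) (a : E) : ‖a‖ ≤ 2 * ‖g x a‖ := by
  have h1 := hg.abs_sub_le hx a a
  have h2 : |g x a a| ≤ ‖g x a‖ * ‖a‖ := (g x a).le_opNorm a
  have h3 : ⟪a, a⟫ = ‖a‖ * ‖a‖ := real_inner_self_eq_norm_mul_norm a
  have h4 : ‖a‖ * ‖a‖ ≤ ‖g x a‖ * ‖a‖ + kap * ‖a‖ * ‖a‖ := by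
    rw [← h3]
    have := abs_le.1 h1
    have := (abs_le.1 h2)
    linarith
  by_cases ha : ‖a‖ = 0
  · rw [ha]
    positivity
  · have hpos : 0 < ‖a‖ := lt_of_le_of_ne (norm_nonneg _) (Ne.symm ha)
    have h5 : ‖a‖ ≤ ‖g x a‖ + kap * ‖a‖ := by
      have : ‖a‖ * ‖a‖ ≤ (‖g x a‖ + kap * ‖a‖) * ‖a‖ := by linarith
      exact le_of_mul_le_mul_right this hpos
    have h6 : kap ≤ 1 / 2 := by norm_num [kap]
    nlinarith

lemma SmallMetric.isInvertible [FiniteDimensional ℝ E] {x : E} (hx : x ∈ ball (0 : E) 10) :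
    (g x).IsInvertible := by
  have hinj : Function.Injective (g x).toLinearMap := by
    rw [← LinearMap.ker_eq_bot, LinearMap.ker_eq_bot']
    intro a ha
    have h1 := hg.norm_le hx a
    have h2 : g x a = 0 := ha
    rw [h2, norm_zero, mul_zero] at h1
    exact norm_le_zero_iff.1 h1
  have hrank : Module.finrank ℝ E = Module.finrank ℝ (E →L[ℝ] ℝ) := by
    rw [← (LinearMap.toContinuousLinearMap : (E →ₗ[ℝ] ℝ) ≃ₗ[ℝ] (E →L[ℝ] ℝ)).finrank_eq]
    exact (Subspace.dual_finrank_eq).symm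
  have e := LinearEquiv.ofInjectiveOfFinrankEq (g x).toLinearMap hinj hrank
  refine ⟨(LinearEquiv.ofInjectiveOfFinrankEq (g x).toLinearMap hinj hrank).toContinuousLinearEquiv,
    ?_⟩
  ext a w
  rfl

lemma SmallMetric.g_accOf [FiniteDimensional ℝ E] {x : E} (hx : x ∈ ball (0 : E) 10) (u : E) :
    g x (accOf g x u) = phi g x u := by
  obtain ⟨e, he⟩ := hg.isInvertible hx
  rw [accOf, ← he, ContinuousLinearMap.inverse_equiv]
  exact e.apply_symm_apply _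

lemma SmallMetric.fderiv_sub_le {x y : E} (hx : x ∈ ball (0 : E) 10) (hy : y ∈ ball (0 : E) 10) :
    ‖fderiv ℝ g x - fderiv ℝ g y‖ ≤ kap * ‖x - y‖ := by
  refine (convex_ball (0 : E) 10).norm_image_sub_le_of_norm_fderiv_le (𝕜 := ℝ)
    (f := fderiv ℝ g) ?_ hg.near2 hy hx
  intro z hz
  have h1 : ContDiffOn ℝ ∞ (fderiv ℝ g) (ball 0 10) :=
    hg.smooth.fderiv_of_isOpen isOpen_ball (by simp)
  exact (h1.contDiffAt (isOpen_ball.mem_nhds hz)).differentiableAt (by simp)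

lemma SmallMetric.sub_le {x y : E} (hx : x ∈ ball (0 : E) 10) (hy : y ∈ ball (0 : E) 10) :
    ‖g x - g y‖ ≤ kap * ‖x - y‖ := by
  refine (convex_ball (0 : E) 10).norm_image_sub_le_of_norm_fderiv_le (𝕜 := ℝ)
    (f := g) ?_ hg.near1 hy hx
  intro z hz
  exact (hg.smooth.contDiffAt (isOpen_ball.mem_nhds hz)).differentiableAt (by simp)

/-- a nearly Euclidean metric has a small geodesic acceleration -/
theorem SmallMetric.smallAcc [FiniteDimensional ℝ E] : SmallAcc (accOf g) where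
  smooth := by
    intro p hp
    have hx : p.1 ∈ ball (0 : E) 10 := hp.1
    apply ContDiffAt.contDiffWithinAt
    have hgs : ContDiffAt ℝ ∞ g p.1 := hg.smooth.contDiffAt (isOpen_ball.mem_nhds hx)
    have hdg : ContDiffAt ℝ ∞ (fderiv ℝ g) p.1 :=
      (hg.smooth.fderiv_of_isOpen isOpen_ball (by simp)).contDiffAt (isOpen_ball.mem_nhds hx)
    have h1 : ContDiffAt ℝ 2 (fun p : E × E => g p.1) p :=
      ContDiffAt.comp p (hgs.of_le two_le_infty) contDiffAt_fst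
    have h2 : ContDiffAt ℝ 2 (fun p : E × E => fderiv ℝ g p.1) p :=
      ContDiffAt.comp p (hdg.of_le two_le_infty) contDiffAt_fst
    have h3 : ContDiffAt ℝ 2 (fun p : E × E => ContinuousLinearMap.inverse (g p.1)) p := by
      obtain ⟨e, he⟩ := hg.isInvertible hx
      have h4 : ContDiffAt ℝ 2 ContinuousLinearMap.inverse (g p.1) := by
        rw [← he]
        have : CompleteSpace E := FiniteDimensional.complete ℝ E
        exact contDiffAt_map_inverse e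
      exact ContDiffAt.comp p h4 h1
    have h5 : ContDiffAt ℝ 2 (fun p : E × E => phi g p.1 p.2) p := by
      have hs : ContDiffAt ℝ 2 (fun p : E × E => p.2) p := contDiffAt_snd
      have h6 : ContDiffAt ℝ 2 (fun p : E × E => (fderiv ℝ g p.1).flip) p :=
        (ContinuousLinearMap.flipₗᵢ ℝ E E (E →L[ℝ] ℝ)).contDiff.contDiffAt.comp p h2
      have h7 := h6.clm_apply hs
      have h8 : ContDiffAt ℝ 2 (fun p : E × E => ((fderiv ℝ g p.1).flip p.2).flip) p :=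
        (ContinuousLinearMap.flipₗᵢ ℝ E E ℝ).contDiff.contDiffAt.comp p h7
      have h9 := h8.clm_apply hs
      have h10 := (h2.clm_apply hs).clm_apply hs
      exact (h9.const_smul (1 / 2 : ℝ)).sub h10
    exact h3.clm_apply h5
  le := by
    intro x hx u
    have h1 := hg.norm_le hx (accOf g x u)
    rw [hg.g_accOf hx] at h1
    have h2 := norm_phi_le (hg.near1 x hx) u
    have h3 : 3 * kap ≤ lam := by norm_num [kap, lam]
    nlinarith [sq_nonneg ‖u‖]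
  lip := by
    intro p hp q hq
    have hx := fst_mem_ball_of_mem_reg hp
    have hy := fst_mem_ball_of_mem_reg hq
    have hu := (mem_reg.1 hp).2
    have hv := (mem_reg.1 hq).2
    have h1 := hg.norm_le hx (accOf g p.1 p.2 - accOf g q.1 q.2)
    have h2 : g p.1 (accOf g p.1 p.2 - accOf g q.1 q.2) =
        (phi g p.1 p.2 - phi g q.1 q.2) + (g q.1 - g p.1) (accOf g q.1 q.2) := by
      rw [map_sub, hg.g_accOf hx, ContinuousLinearMap.sub_apply, hg.g_accOf hy]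
      abel
    have h3 := norm_phi_sub_le kap_pos.le (by norm_num : (0 : ℝ) ≤ 7) (hg.near1 _ hy)
      (hg.fderiv_sub_le hx hy) hu hv
    have h4 : ‖accOf g q.1 q.2‖ ≤ 1 := by
      have h5 := hg.norm_le hy (accOf g q.1 q.2)
      rw [hg.g_accOf hy] at h5
      have h6 := norm_phi_le (hg.near1 _ hy) q.2
      have h7 : ‖q.2‖ ^ 2 ≤ 7 ^ 2 := by gcongr
      have h8 : (3 / 2) * kap * ‖q.2‖ ^ 2 ≤ (3 / 2) * kap * 7 ^ 2 := by
        have := kap_pos
        gcongr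
      have h9 : (3 / 2) * kap * 7 ^ 2 ≤ 1 / 2 := by norm_num [kap]
      linarith
    have h5 : ‖(g q.1 - g p.1) (accOf g q.1 q.2)‖ ≤ kap * ‖p.1 - q.1‖ := by
      calc ‖(g q.1 - g p.1) (accOf g q.1 q.2)‖ ≤ ‖g q.1 - g p.1‖ * ‖accOf g q.1 q.2‖ :=
            ContinuousLinearMap.le_opNorm _ _
        _ ≤ kap * ‖q.1 - p.1‖ * 1 := by
            have hk := kap_pos
            exact mul_le_mul (hg.sub_le hy hx) h4 (norm_nonneg _) (by positivity)
        _ = kap * ‖p.1 - q.1‖ := by rw [mul_one, norm_sub_rev]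
    have h6 : ‖p.1 - q.1‖ ≤ ‖p - q‖ := norm_fst_le (p - q)
    have h7 : ‖p.2 - q.2‖ ≤ ‖p - q‖ := norm_snd_le (p - q)
    have h8 := norm_add_le (phi g p.1 p.2 - phi g q.1 q.2) ((g q.1 - g p.1) (accOf g q.1 q.2))
    rw [← h2] at h8
    have h9 : (0 : ℝ) < kap := kap_pos
    have h10 : (3 / 2) * kap * (7 ^ 2 * ‖p.1 - q.1‖ + 2 * 7 * ‖p.2 - q.2‖) ≤
        (3 / 2) * kap * (7 ^ 2 * ‖p - q‖ + 2 * 7 * ‖p - q‖) := by gcongr
    have h11 : kap * ‖p.1 - q.1‖ ≤ kap * ‖p - q‖ := by gcongr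
    have h12 : 2 * ((3 / 2) * kap * (7 ^ 2 * ‖p - q‖ + 2 * 7 * ‖p - q‖) + kap * ‖p - q‖) =
        (191 * kap) * ‖p - q‖ := by ring
    have h13 : 191 * kap ≤ lam := by norm_num [kap, lam]
    have h14 : (191 * kap) * ‖p - q‖ ≤ lam * ‖p - q‖ := by gcongr
    linarith
  smul := fun x u c => accOf_smul x u c

end metric

end Pool.Agent.GeoNet
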