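import Pool.Agent.GeoNet.ExpAcc

/-! The geodesic flow of a small acceleration on the unit time interval. -/

set_option maxSynthPendingDepth 3

namespace Pool.Agent.GeoNet

open Set Metric Filter
open scoped Topology RealInnerProductSpace ContDiff NNReal

variable {E : Type*} [NormedAddCommGroup E] [InnerProductSpace ℝ E]

/-- the geodesic vector field on phase space -/
def fld (acc : E → E → E) (p : E × E) : E × E := (p.2, acc p.1 p.2)

variable {acc : E → E → E}

lemma lam_le_one : lam ≤ 1 := by norm_num [lam]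

lemma SmallAcc.fld_lip (ha : SmallAcc acc) : LipschitzOnWith 1 (fld acc) (reg E) := by
  refine LipschitzOnWith.of_dist_le_mul (fun p hp q hq => ?_)
  rw [NNReal.coe_one, one_mul, dist_eq_norm, dist_eq_norm]
  have h1 := ha.lip p hp q hq
  have h2 : lam * ‖p - q‖ ≤ ‖p - q‖ := mul_le_of_le_one_left (norm_nonneg _) lam_le_one
  exact max_le (norm_snd_le (p - q)) (h1.trans h2)

lemma SmallAcc.zero (ha : SmallAcc acc) (x : E) : acc x 0 = 0 := by
  have h := ha.smul x 0 0
  rw [zero_smul] at h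
  rw [h]
  norm_num

lemma SmallAcc.neg (ha : SmallAcc acc) (x u : E) : acc x (-u) = acc x u := by
  have h := ha.smul x u (-1)
  rw [neg_one_smul] at h
  rw [h]
  norm_num

/-- integral curve of the geodesic field on `[0, 1]` which stays in the region -/
structure IsSol (acc : E → E → E) (O w : E) (Γ : ℝ → E × E) : Prop where
  zero : Γ 0 = (O, w)
  mem : ∀ t ∈ Icc (0 : ℝ) 1, Γ t ∈ reg E
  deriv : ∀ t ∈ Icc (0 : ℝ) 1, HasDerivWithinAt Γ (fld acc (Γ t)) (Icc 0 1) t

lemma IsSol.continuousOn {O w : E} {Γ : ℝ → E × E} (h : IsSol acc O w Γ) :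
    ContinuousOn Γ (Icc 0 1) := fun t ht => (h.deriv t ht).continuousWithinAt

lemma SmallAcc.continuousOn (ha : SmallAcc acc) :
    ContinuousOn (fun p : E × E => acc p.1 p.2) (reg E) :=
  ha.smooth.continuousOn.mono (fun _ hp => ⟨fst_mem_ball_of_mem_reg hp, mem_univ _⟩)

theorem SmallAcc.exists_isSol [FiniteDimensional ℝ E] (ha : SmallAcc acc) {O w : E}
    (hO : ‖O‖ ≤ 3) (hw : ‖w‖ ≤ 13 / 2) : ∃ Γ, IsSol acc O w Γ := by
  have hcomp : CompleteSpace E := FiniteDimensional.complete ℝ E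
  set c : ℝ → E × E → E × E := fun t p => (O + t • w + p.1, w + p.2) with hc
  set f : ℝ → E × E → E × E := fun t p => (p.2, acc (O + t • w + p.1) (w + p.2)) with hf
  have hmem : ∀ t ∈ Icc (0 : ℝ) 1, ∀ p ∈ closedBall (0 : E × E) (1 / 10 : ℝ≥0),
      c t p ∈ reg E := by
    intro t ht p hp
    rw [mem_closedBall_zero_iff] at hp
    have h1 : ‖p.1‖ ≤ 1 / 10 := (norm_fst_le p).trans (by simpa using hp)
    have h2 : ‖p.2‖ ≤ 1 / 10 := (norm_snd_le p).trans (by simpa using hp)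
    rw [mem_reg]
    constructor
    · calc ‖O + t • w + p.1‖ ≤ ‖O‖ + ‖t • w‖ + ‖p.1‖ := norm_add₃_le
        _ ≤ 3 + 1 * (13 / 2) + 1 / 10 := by
            rw [norm_smul, Real.norm_eq_abs, abs_of_nonneg ht.1]
            have := ht.2
            gcongr
        _ ≤ 99 / 10 := by norm_num
    · calc ‖w + p.2‖ ≤ ‖w‖ + ‖p.2‖ := norm_add_le _ _
        _ ≤ 13 / 2 + 1 / 10 := by gcongr
        _ ≤ 7 := by norm_num
  have hfc : ∀ t p, f t p = fld acc (c t p) - (w, 0) := by
    intro t p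
    simp [hf, hc, fld]
  have key := exists_sol f 0 (1 / 10) 1 ?_ ?_ ?_
  · obtain ⟨α, h0, h1, h2⟩ := key
    refine ⟨fun t => c t (α t), ⟨?_, fun t ht => hmem t ht _ (h1 t ht), fun t ht => ?_⟩⟩
    · simp [hc, h0]
    · have h3 := h2 t ht
      have h4 : HasDerivWithinAt (fun t : ℝ => (O + t • w, w)) (w, 0) (Icc 0 1) t := by
        have h5 : HasDerivWithinAt (fun t : ℝ => O + t • w) ((1 : ℝ) • w) (Icc 0 1) t :=
          ((hasDerivWithinAt_id t _).smul_const w).const_add O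
        rw [one_smul] at h5
        exact h5.prodMk (hasDerivWithinAt_const _ _ _)
      have h5 := h4.add h3
      have h6 : (w, (0 : E)) + f t (α t) = fld acc (c t (α t)) := by
        rw [hfc]
        abel
      rw [h6] at h5
      refine h5.congr (fun s _ => ?_) ?_
      · rfl
      · rfl
  · intro t ht
    refine LipschitzOnWith.of_dist_le_mul (fun p hp q hq => ?_)
    have h1 := ha.fld_lip.dist_le_mul _ (hmem t ht p hp) _ (hmem t ht q hq)
    rw [hfc, hfc, dist_sub_right]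
    refine h1.trans (le_of_eq ?_)
    congr 1
    rw [dist_eq_norm, dist_eq_norm]
    congr 1
    ext <;> simp [hc]
  · intro p hp
    refine continuousOn_const.prodMk ?_
    have hcc : ContinuousOn (fun t => c t p) (Icc 0 1) := by
      apply Continuous.continuousOn
      fun_prop
    exact ha.continuousOn.comp hcc (fun t ht => hmem t ht p hp)
  · intro t ht p hp
    have h3 := mem_reg.1 (hmem t ht p hp)
    have hp' := mem_closedBall_zero_iff.1 hp
    have hx : c t p ∈ reg E := hmem t ht p hp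
    refine max_le ((norm_snd_le p).trans hp') ?_
    have h4 := ha.le _ (fst_mem_ball_of_mem_reg hx) (c t p).2
    have h5 : ‖(c t p).2‖ ^ 2 ≤ 7 ^ 2 := by
      gcongr
      exact h3.2
    refine h4.trans ?_
    rw [lam]
    push_cast
    linarith

lemma SmallAcc.unique (ha : SmallAcc acc) {O w : E} {Γ Γ' : ℝ → E × E} (h : IsSol acc O w Γ)
    (h' : IsSol acc O w Γ') : ∀ t ∈ Icc (0 : ℝ) 1, Γ t = Γ' t :=
  sol_unique ha.fld_lip h.deriv h'.deriv h.mem h'.mem (by rw [h.zero, h'.zero])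

/-- rescaled solutions -/
lemma SmallAcc.scale (ha : SmallAcc acc) {O w : E} {Γ : ℝ → E × E} (h : IsSol acc O w Γ)
    {c : ℝ} (hc : c ∈ Icc (0 : ℝ) 1) :
    IsSol acc O (c • w) (fun s => ((Γ (c * s)).1, c • (Γ (c * s)).2)) := by
  have hmap : ∀ s ∈ Icc (0 : ℝ) 1, c * s ∈ Icc (0 : ℝ) 1 := fun s hs =>
    ⟨mul_nonneg hc.1 hs.1, mul_le_one₀ hc.2 hs.1 hs.2⟩
  refine ⟨?_, fun s hs => ?_, fun s hs => ?_⟩
  · simp [h.zero]
  · have h1 := mem_reg.1 (h.mem _ (hmap s hs))
    rw [mem_reg]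
    refine ⟨h1.1, ?_⟩
    rw [norm_smul, Real.norm_eq_abs, abs_of_nonneg hc.1]
    exact (mul_le_of_le_one_left (norm_nonneg _) hc.2).trans h1.2
  · have h1 := h.deriv _ (hmap s hs)
    have h2 : HasDerivWithinAt (fun s : ℝ => c * s) (c * 1) (Icc 0 1) s :=
      (hasDerivWithinAt_id s _).const_mul c
    have h3 : HasDerivWithinAt (fun s => Γ (c * s)) ((c * 1) • fld acc (Γ (c * s))) (Icc 0 1) s :=
      HasDerivWithinAt.scomp s h1 h2 hmap
    rw [mul_one] at h3
    have h4 : HasDerivWithinAt (fun s => (Γ (c * s)).1) (c • fld acc (Γ (c * s))).1 (Icc 0 1) s :=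
      h3.fst
    have h5 : HasDerivWithinAt (fun s => (Γ (c * s)).2) (c • fld acc (Γ (c * s))).2 (Icc 0 1) s :=
      h3.snd
    have h6 : HasDerivWithinAt (fun s => ((Γ (c * s)).1, c • (Γ (c * s)).2))
      ((c • fld acc (Γ (c * s))).1, c • (c • fld acc (Γ (c * s))).2) (Icc 0 1) s :=
      h4.prodMk (h5.const_smul c)
    have e : fld acc ((Γ (c * s)).1, c • (Γ (c * s)).2) =
        ((c • fld acc (Γ (c * s))).1, c • (c • fld acc (Γ (c * s))).2) := by
      refine Prod.ext rfl ?_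
      show acc _ (c • _) = c • c • acc _ _
      rw [ha.smul, smul_smul, pow_two]
    rw [e]
    exact h6

lemma SmallAcc.const (ha : SmallAcc acc) {O : E} (hO : ‖O‖ ≤ 3) :
    IsSol acc O 0 (fun _ => (O, 0)) := by
  refine ⟨rfl, fun t _ => ?_, fun t _ => ?_⟩
  · rw [mem_reg]
    constructor
    · exact hO.trans (by norm_num)
    · simp
  · have h : fld acc (O, 0) = 0 := by
      rw [fld]
      exact Prod.ext rfl (ha.zero O)
    rw [h]
    exact hasDerivWithinAt_const _ _ _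

/-- reversed solutions -/
lemma SmallAcc.reverse (ha : SmallAcc acc) {O w : E} {Γ : ℝ → E × E} (h : IsSol acc O w Γ) :
    IsSol acc (Γ 1).1 (-(Γ 1).2) (fun s => ((Γ (1 - s)).1, -(Γ (1 - s)).2)) := by
  have hmap : ∀ s ∈ Icc (0 : ℝ) 1, 1 - s ∈ Icc (0 : ℝ) 1 := fun s hs =>
    ⟨by linarith [hs.2], by linarith [hs.1]⟩
  refine ⟨?_, fun s hs => ?_, fun s hs => ?_⟩
  · simp
  · have h1 := mem_reg.1 (h.mem _ (hmap s hs))
    rw [mem_reg]
    refine ⟨h1.1, ?_⟩
    rw [norm_neg]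
    exact h1.2
  · have h1 := h.deriv _ (hmap s hs)
    have h2 : HasDerivWithinAt (fun s : ℝ => 1 - s) (-1) (Icc 0 1) s :=
      (hasDerivWithinAt_id s _).const_sub 1
    have h3 : HasDerivWithinAt (fun s => Γ (1 - s)) ((-1 : ℝ) • fld acc (Γ (1 - s))) (Icc 0 1) s :=
      HasDerivWithinAt.scomp s h1 h2 hmap
    have h4 : HasDerivWithinAt (fun s => (Γ (1 - s)).1) ((-1 : ℝ) • fld acc (Γ (1 - s))).1
      (Icc 0 1) s := h3.fst
    have h5 : HasDerivWithinAt (fun s => (Γ (1 - s)).2) ((-1 : ℝ) • fld acc (Γ (1 - s))).2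
      (Icc 0 1) s := h3.snd
    have h6 : HasDerivWithinAt (fun s => ((Γ (1 - s)).1, -(Γ (1 - s)).2))
      (((-1 : ℝ) • fld acc (Γ (1 - s))).1, -((-1 : ℝ) • fld acc (Γ (1 - s))).2) (Icc 0 1) s :=
      h4.prodMk h5.neg
    have e : fld acc ((Γ (1 - s)).1, -(Γ (1 - s)).2) =
        (((-1 : ℝ) • fld acc (Γ (1 - s))).1, -((-1 : ℝ) • fld acc (Γ (1 - s))).2) := by
      refine Prod.ext ?_ ?_
      · show -(Γ (1 - s)).2 = (-1 : ℝ) • (Γ (1 - s)).2
        rw [neg_one_smul]
      · show acc _ (-_) = -((-1 : ℝ) • acc _ _)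
        rw [ha.neg, neg_one_smul, neg_neg]
    rw [e]
    exact h6

/-- comparison of two solutions from the same point -/
lemma SmallAcc.diff_le (ha : SmallAcc acc) {O w w' : E} {Γ Γ' : ℝ → E × E}
    (h : IsSol acc O w Γ) (h' : IsSol acc O w' Γ') : ∀ t ∈ Icc (0 : ℝ) 1,
      ‖Γ t - Γ' t - (t • (w - w'), w - w')‖ ≤ 4 * lam * ‖w - w'‖ := by
  have hl : (0 : ℝ) < lam := lam_pos
  have key := norm_le_of_deriv (f := fun t => Γ t - Γ' t - (t • (w - w'), w - w'))
    (f' := fun t => fld acc (Γ t) - fld acc (Γ' t) - (w - w', 0)) (δ := 0)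
    (ε := lam * ‖w - w'‖) le_rfl (by positivity) ?_ ?_ ?_
  · intro t ht
    have := key t ht
    linarith
  · intro t ht
    have h4 : HasDerivWithinAt (fun t : ℝ => (t • (w - w'), w - w')) (w - w', 0) (Icc 0 1) t := by
      have h5 : HasDerivWithinAt (fun t : ℝ => t • (w - w')) ((1 : ℝ) • (w - w')) (Icc 0 1) t :=
        (hasDerivWithinAt_id t _).smul_const (w - w')
      rw [one_smul] at h5
      exact h5.prodMk (hasDerivWithinAt_const _ _ _)
    exact ((h.deriv t ht).sub (h'.deriv t ht)).sub h4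
  · simp [h.zero, h'.zero]
  · intro t ht
    set R := Γ t - Γ' t - (t • (w - w'), w - w') with hR
    have h1 : Γ t - Γ' t = R + (t • (w - w'), w - w') := by rw [hR]; abel
    have h2 : ‖(t • (w - w'), w - w')‖ ≤ ‖w - w'‖ := by
      refine max_le ?_ le_rfl
      rw [norm_smul, Real.norm_eq_abs, abs_of_nonneg ht.1]
      exact mul_le_of_le_one_left (norm_nonneg _) ht.2
    have h3 : ‖Γ t - Γ' t‖ ≤ ‖R‖ + ‖w - w'‖ := by
      rw [h1]
      exact (norm_add_le _ _).trans (by gcongr)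
    have h4 := ha.lip _ (h.mem t ht) _ (h'.mem t ht)
    have h5 : fld acc (Γ t) - fld acc (Γ' t) - (w - w', 0) =
        (R.2, acc (Γ t).1 (Γ t).2 - acc (Γ' t).1 (Γ' t).2) := by
      rw [hR, fld, fld]
      ext <;> simp
    rw [h5]
    have h6 : lam * ‖Γ t - Γ' t‖ ≤ lam * (‖R‖ + ‖w - w'‖) := by gcongr
    have h7 : lam * ‖R‖ ≤ 1 * ‖R‖ := by
      gcongr
      exact lam_le_one
    have h8 : 0 ≤ ‖R‖ := norm_nonneg _
    have h9 : 0 ≤ lam * ‖w - w'‖ := by positivity
    refine max_le ?_ ?_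
    · have := norm_snd_le R
      linarith
    · linarith

end Pool.Agent.GeoNet
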