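import Pool.Agent.GeoNet.ExpLin

/-! Conservation of energy and the Gauss lemma. -/

set_option maxSynthPendingDepth 3

namespace Pool.Agent.GeoNet

open Set Metric Filter
open scoped Topology RealInnerProductSpace ContDiff NNReal

variable {E : Type*} [NormedAddCommGroup E] [InnerProductSpace ℝ E]
variable {g : E → E →L[ℝ] E →L[ℝ] ℝ} (hg : SmallMetric g kap)

include hg

lemma SmallMetric.hasFDerivAt {x : E} (hx : x ∈ ball (0 : E) 10) :
    HasFDerivAt g (fderiv ℝ g x) x :=
  ((hg.smooth.contDiffAt (isOpen_ball.mem_nhds hx)).differentiableAt (by simp)).hasFDerivAt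

lemma SmallMetric.fderiv_symm {x : E} (hx : x ∈ ball (0 : E) 10) (a u w : E) :
    fderiv ℝ g x a u w = fderiv ℝ g x a w u := by
  have h1 : HasFDerivAt (fun y => g y u w)
      ((ContinuousLinearMap.apply ℝ ℝ w).comp
        ((ContinuousLinearMap.apply ℝ (E →L[ℝ] ℝ) u).comp (fderiv ℝ g x))) x :=
    (ContinuousLinearMap.apply ℝ ℝ w).hasFDerivAt.comp x
      ((ContinuousLinearMap.apply ℝ (E →L[ℝ] ℝ) u).hasFDerivAt.comp x (hg.hasFDerivAt hx))
  have h2 : HasFDerivAt (fun y => g y w u)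
      ((ContinuousLinearMap.apply ℝ ℝ u).comp
        ((ContinuousLinearMap.apply ℝ (E →L[ℝ] ℝ) w).comp (fderiv ℝ g x))) x :=
    (ContinuousLinearMap.apply ℝ ℝ u).hasFDerivAt.comp x
      ((ContinuousLinearMap.apply ℝ (E →L[ℝ] ℝ) w).hasFDerivAt.comp x (hg.hasFDerivAt hx))
  have h3 : (fun y => g y u w) = fun y => g y w u := by
    ext y
    exact hg.symm y u w
  rw [h3] at h1
  have h4 := h1.unique h2
  have h5 := congrArg (fun L : E →L[ℝ] ℝ => L a) h4
  exact h5

lemma SmallMetric.g_acc [FiniteDimensional ℝ E] {x : E} (hx : x ∈ ball (0 : E) 10) (u w : E) :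
    g x (accOf g x u) w = (1 / 2) * fderiv ℝ g x w u u - fderiv ℝ g x u u w := by
  rw [hg.g_accOf hx, phi_apply]

/-- derivative of `g` along a curve, evaluated on two vector fields -/
lemma SmallMetric.deriv_along {c a b : ℝ → E} {c' a' b' : E} {s : Set ℝ} {t : ℝ}
    (hx : c t ∈ ball (0 : E) 10) (hc : HasDerivWithinAt c c' s t)
    (ha : HasDerivWithinAt a a' s t) (hb : HasDerivWithinAt b b' s t) :
    HasDerivWithinAt (fun t => g (c t) (a t) (b t))
      (fderiv ℝ g (c t) c' (a t) (b t) + g (c t) a' (b t) + g (c t) (a t) b') s t := by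
  have h1 : HasDerivWithinAt (fun t => g (c t)) (fderiv ℝ g (c t) c') s t :=
    (hg.hasFDerivAt hx).comp_hasDerivWithinAt t hc
  have h2 := (h1.clm_apply ha).clm_apply hb
  simpa using h2

/-- conservation of energy -/
theorem SmallMetric.energy [FiniteDimensional ℝ E] {O w : E} {Γ : ℝ → E × E}
    (h : IsSol (accOf g) O w Γ) : ∀ t ∈ Icc (0 : ℝ) 1,
      g (Γ t).1 (Γ t).2 (Γ t).2 = g O w w := by
  have key := norm_sub_le_of_deriv (f := fun t => g (Γ t).1 (Γ t).2 (Γ t).2) (f' := fun _ => 0)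
    (C := 0) le_rfl ?_ ?_
  · intro t ht
    have h1 := norm_le_zero_iff.1 (key t ht)
    rw [sub_eq_zero, h.zero] at h1
    exact h1
  · intro t ht
    have hx := fst_mem_ball_of_mem_reg (h.mem t ht)
    have hd := h.deriv t ht
    have hd1 : HasDerivWithinAt (fun t => (Γ t).1) (Γ t).2 (Icc 0 1) t := hd.fst
    have hd2 : HasDerivWithinAt (fun t => (Γ t).2) (accOf g (Γ t).1 (Γ t).2) (Icc 0 1) t := hd.snd
    have h1 := hg.deriv_along (c := fun t => (Γ t).1) hx hd1 hd2 hd2
    refine h1.congr_deriv ?_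
    rw [hg.symm _ (Γ t).2 (accOf g _ _), hg.g_acc hx]
    ring
  · intro t _
    simp

/-- the Gauss lemma -/
theorem SmallMetric.gauss [FiniteDimensional ℝ E] {O w : E} (hO : ‖O‖ ≤ 3)
    (hw : ‖w‖ < 13 / 2) {J : ℝ → E →L[ℝ] E × E} (hJ : IsVar (accOf g) (flow (accOf g) O w) J)
    (η : E) : g (flow (accOf g) O w 1).1 (flow (accOf g) O w 1).2 (J 1 η).1 = g O w η := by
  have ha := hg.smallAcc
  set Γ := flow (accOf g) O w with hΓ
  have h : IsSol (accOf g) O w Γ := ha.isSol_flow hO hw.le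
  have hO10 : O ∈ ball (0 : E) 10 := by
    rw [mem_ball_zero_iff]
    linarith
  -- derivative of the energy with respect to the initial velocity
  have hen : ∀ t ∈ Icc (0 : ℝ) 1,
      (1 / 2) * fderiv ℝ g (Γ t).1 (J t η).1 (Γ t).2 (Γ t).2 + g (Γ t).1 (Γ t).2 (J t η).2 =
        g O w η := by
    intro t ht
    have hx := fst_mem_ball_of_mem_reg (h.mem t ht)
    have hline : HasDerivAt (fun s : ℝ => w + s • η) η 0 := by
      have h5 : HasDerivAt (fun s : ℝ => w + s • η) ((1 : ℝ) • η) 0 :=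
        ((hasDerivAt_id (0 : ℝ)).smul_const η).const_add w
      rwa [one_smul] at h5
    have hw0 : w + (0 : ℝ) • η = w := by rw [zero_smul, add_zero]
    have hfl : HasDerivAt (fun s : ℝ => flow (accOf g) O (w + s • η) t) (J t η) 0 := by
      have h6 := ha.hasFDerivAt_flow hO hw hJ ht
      have h7 : HasFDerivAt (fun w => flow (accOf g) O w t) (J t) (w + (0 : ℝ) • η) := by
        rw [hw0]
        exact h6
      exact h7.comp_hasDerivAt 0 hline
    have hfl1 : HasDerivAt (fun s : ℝ => (flow (accOf g) O (w + s • η) t).1) (J t η).1 0 :=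
      hfl.fst
    have hfl2 : HasDerivAt (fun s : ℝ => (flow (accOf g) O (w + s • η) t).2) (J t η).2 0 :=
      hfl.snd
    have hx0 : (flow (accOf g) O (w + (0 : ℝ) • η) t).1 ∈ ball (0 : E) 10 := by
      rw [hw0]
      exact hx
    have h1 := hg.deriv_along (c := fun s : ℝ => (flow (accOf g) O (w + s • η) t).1)
      (a := fun s : ℝ => (flow (accOf g) O (w + s • η) t).2)
      (b := fun s : ℝ => (flow (accOf g) O (w + s • η) t).2) hx0
      (hfl1.hasDerivWithinAt (s := univ)) (hfl2.hasDerivWithinAt (s := univ))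
      (hfl2.hasDerivWithinAt (s := univ))
    have h2 := hg.deriv_along (c := fun _ : ℝ => O) (t := (0 : ℝ))
      (a := fun s : ℝ => w + s • η) (b := fun s : ℝ => w + s • η) hO10
      (hasDerivWithinAt_const (0 : ℝ) univ O) (hline.hasDerivWithinAt (s := univ))
      (hline.hasDerivWithinAt (s := univ))
    have hev : ∀ᶠ s in 𝓝 (0 : ℝ), ‖w + s • η‖ < 13 / 2 := by
      have hcont : ContinuousAt (fun s : ℝ => ‖w + s • η‖) 0 := by fun_prop
      refine hcont.eventually_lt_const ?_
      show ‖w + (0 : ℝ) • η‖ < 13 / 2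
      rw [hw0]
      exact hw
    have h3 : (fun s : ℝ => g (flow (accOf g) O (w + s • η) t).1
        (flow (accOf g) O (w + s • η) t).2 (flow (accOf g) O (w + s • η) t).2) =ᶠ[𝓝 0]
        fun s => g O (w + s • η) (w + s • η) := by
      filter_upwards [hev] with s hs
      exact hg.energy (ha.isSol_flow hO hs.le) t ht
    have h4 := ((hasDerivWithinAt_univ.1 h1).congr_of_eventuallyEq h3.symm).unique
      (hasDerivWithinAt_univ.1 h2)
    simp only [hw0, map_zero, ContinuousLinearMap.zero_apply, zero_add] at h4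
    rw [← hΓ, hg.symm _ (J t η).2, hg.symm _ η w] at h4
    linarith
  -- the function
  have key := norm_sub_le_of_deriv
    (f := fun t => g (Γ t).1 (Γ t).2 (J t η).1 - t * g O w η) (f' := fun _ => 0)
    (C := 0) le_rfl ?_ ?_
  · have h1 := norm_le_zero_iff.1 (key 1 ⟨zero_le_one, le_rfl⟩)
    have hJ0 : (J 0 η).1 = 0 := by
      rw [hJ.zero]
      simp [lin0]
    rw [sub_eq_zero] at h1
    simp only [hJ0, map_zero] at h1
    linarith
  · intro t ht
    have hx := fst_mem_ball_of_mem_reg (h.mem t ht)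
    have hd := h.deriv t ht
    have hd1 : HasDerivWithinAt (fun t => (Γ t).1) (Γ t).2 (Icc 0 1) t := hd.fst
    have hd2 : HasDerivWithinAt (fun t => (Γ t).2) (accOf g (Γ t).1 (Γ t).2) (Icc 0 1) t := hd.snd
    have hJη : HasDerivWithinAt (fun t => J t η) (vfld (accOf g) (Γ t) (J t) η) (Icc 0 1) t := by
      have h2 := (hJ.deriv t ht).clm_apply (hasDerivWithinAt_const t (Icc 0 1) η)
      simpa using h2
    have hJ1 : HasDerivWithinAt (fun t => (J t η).1) (J t η).2 (Icc 0 1) t := hJη.fst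
    have h1 := hg.deriv_along (c := fun t => (Γ t).1) hx hd1 hd2 hJ1
    have h2 : HasDerivWithinAt (fun t : ℝ => t * g O w η) (1 * g O w η) (Icc 0 1) t :=
      (hasDerivWithinAt_id t _).mul_const _
    have h3 : HasDerivWithinAt (fun t => g (Γ t).1 (Γ t).2 (J t η).1 - t * g O w η) _
      (Icc 0 1) t := h1.sub h2
    refine h3.congr_deriv ?_
    rw [hg.g_acc hx, ← hen t ht]
    ring
  · intro t _
    simp

end Pool.Agent.GeoNet
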