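import Pool.Agent.GeoNet.ExpGauss

/-! The exponential map, its inverse `vv` and the terminal velocity `ZZ`. -/

set_option maxSynthPendingDepth 3

namespace Pool.Agent.GeoNet

open Set Metric Filter
open scoped Topology RealInnerProductSpace ContDiff NNReal

variable {E : Type*} [NormedAddCommGroup E] [InnerProductSpace ℝ E]

/-- the exponential map -/
noncomputable def ex (acc : E → E → E) (O w : E) : E := (flow acc O w 1).1

/-- the terminal velocity -/
noncomputable def ve (acc : E → E → E) (O w : E) : E := (flow acc O w 1).2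

/-- the inverse of the exponential map -/
noncomputable def vv (acc : E → E → E) (O x : E) : E :=
  Function.invFunOn (ex acc O) (ball 0 (13 / 2)) x

/-- the terminal velocity at a point -/
noncomputable def ZZ (acc : E → E → E) (O x : E) : E := ve acc O (vv acc O x)

variable {acc : E → E → E} [FiniteDimensional ℝ E] (ha : SmallAcc acc)

lemma one_mem : (1 : ℝ) ∈ Icc (0 : ℝ) 1 := ⟨zero_le_one, le_rfl⟩

include ha

lemma SmallAcc.ex_near {O w w' : E} (hO : ‖O‖ ≤ 3) (hw : ‖w‖ ≤ 13 / 2) (hw' : ‖w'‖ ≤ 13 / 2) :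
    ‖ex acc O w - ex acc O w' - (w - w')‖ ≤ 4 * lam * ‖w - w'‖ := by
  have h1 := ha.diff_le (ha.isSol_flow hO hw) (ha.isSol_flow hO hw') 1 one_mem
  rw [one_smul] at h1
  exact (norm_fst_le _).trans h1

lemma SmallAcc.ve_near {O w w' : E} (hO : ‖O‖ ≤ 3) (hw : ‖w‖ ≤ 13 / 2) (hw' : ‖w'‖ ≤ 13 / 2) :
    ‖ve acc O w - ve acc O w' - (w - w')‖ ≤ 4 * lam * ‖w - w'‖ := by
  have h1 := ha.diff_le (ha.isSol_flow hO hw) (ha.isSol_flow hO hw') 1 one_mem
  rw [one_smul] at h1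
  exact (norm_snd_le _).trans h1

lemma SmallAcc.flow_eq {O w : E} {Γ : ℝ → E × E} (hO : ‖O‖ ≤ 3) (hw : ‖w‖ ≤ 13 / 2)
    (h : IsSol acc O w Γ) {t : ℝ} (ht : t ∈ Icc (0 : ℝ) 1) : flow acc O w t = Γ t :=
  ha.unique (ha.isSol_flow hO hw) h t ht

lemma SmallAcc.ex_zero {O : E} (hO : ‖O‖ ≤ 3) : ex acc O 0 = O := by
  rw [ex, ha.flow_eq hO (by norm_num) (ha.const hO) one_mem]

lemma SmallAcc.ve_zero {O : E} (hO : ‖O‖ ≤ 3) : ve acc O 0 = 0 := by
  rw [ve, ha.flow_eq hO (by norm_num) (ha.const hO) one_mem]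

lemma SmallAcc.ex_lower {O w w' : E} (hO : ‖O‖ ≤ 3) (hw : ‖w‖ ≤ 13 / 2)
    (hw' : ‖w'‖ ≤ 13 / 2) : ‖w - w'‖ ≤ (1 + 8 * lam) * ‖ex acc O w - ex acc O w'‖ := by
  have h1 := ha.ex_near hO hw hw'
  have h2 : w - w' = (ex acc O w - ex acc O w') - (ex acc O w - ex acc O w' - (w - w')) := by
    abel
  have h3 : ‖w - w'‖ ≤ ‖ex acc O w - ex acc O w'‖ + 4 * lam * ‖w - w'‖ := by
    calc ‖w - w'‖ = ‖(ex acc O w - ex acc O w') - (ex acc O w - ex acc O w' - (w - w'))‖ :=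
          congrArg _ h2
      _ ≤ ‖ex acc O w - ex acc O w'‖ + ‖ex acc O w - ex acc O w' - (w - w')‖ := norm_sub_le _ _
      _ ≤ _ := by gcongr
  have h4 : 0 ≤ ‖w - w'‖ := norm_nonneg _
  have h5 : 0 ≤ ‖ex acc O w - ex acc O w'‖ := norm_nonneg _
  have h6 : (1 - 4 * lam) * ‖w - w'‖ ≤ ‖ex acc O w - ex acc O w'‖ := by linarith
  have h7 : (1 : ℝ) ≤ (1 + 8 * lam) * (1 - 4 * lam) := by norm_num [lam]
  have h8 : (0 : ℝ) < 1 + 8 * lam := by norm_num [lam]
  calc ‖w - w'‖ = 1 * ‖w - w'‖ := (one_mul _).symm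
    _ ≤ ((1 + 8 * lam) * (1 - 4 * lam)) * ‖w - w'‖ := by gcongr
    _ = (1 + 8 * lam) * ((1 - 4 * lam) * ‖w - w'‖) := by ring
    _ ≤ _ := by gcongr

lemma SmallAcc.ex_inj {O w w' : E} (hO : ‖O‖ ≤ 3) (hw : ‖w‖ ≤ 13 / 2)
    (hw' : ‖w'‖ ≤ 13 / 2) (h : ex acc O w = ex acc O w') : w = w' := by
  have h1 := ha.ex_lower hO hw hw'
  rw [h, sub_self, norm_zero, mul_zero] at h1
  exact sub_eq_zero.1 (norm_le_zero_iff.1 h1)

lemma SmallAcc.ex_surj {O x : E} (hO : ‖O‖ ≤ 3) (hx : ‖x‖ < 3) :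
    ∃ w ∈ ball (0 : E) (13 / 2), ex acc O w = x := by
  have hcomp : CompleteSpace E := FiniteDimensional.complete ℝ E
  set c : ℝ≥0 := 1 / 1000 with hc
  have happ : ApproximatesLinearOn (ex acc O) (ContinuousLinearMap.id ℝ E)
      (closedBall 0 (64 / 10)) c := by
    intro w hw w' hw'
    rw [mem_closedBall_zero_iff] at hw hw'
    refine (ha.ex_near hO (by linarith) (by linarith)).trans ?_
    rw [hc]
    push_cast
    gcongr
    norm_num [lam]
  let inv : (ContinuousLinearMap.id ℝ E).NonlinearRightInverse :=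
    { toFun := id
      nnnorm := 1
      bound' := fun y => by simp
      right_inv' := fun y => rfl }
  have h1 := happ.surjOn_closedBall_of_nonlinearRightInverse inv (ε := 64 / 10) (b := 0)
    (by norm_num) Subset.rfl
  have h2 : x ∈ closedBall (ex acc O 0) (((inv.nnnorm : ℝ)⁻¹ - c) * (64 / 10)) := by
    rw [ha.ex_zero hO, mem_closedBall, dist_eq_norm]
    show ‖x - O‖ ≤ (((1 : ℝ≥0) : ℝ)⁻¹ - ((1 / 1000 : ℝ≥0) : ℝ)) * (64 / 10)
    push_cast
    have := norm_sub_le x O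
    linarith
  obtain ⟨w, hw, hwx⟩ := h1 h2
  refine ⟨w, ?_, hwx⟩
  rw [mem_closedBall_zero_iff] at hw
  rw [mem_ball_zero_iff]
  linarith

lemma SmallAcc.vv_mem {O x : E} (hO : ‖O‖ ≤ 3) (hx : x ∈ ball (0 : E) 3) :
    ‖vv acc O x‖ < 13 / 2 := by
  have h := Function.invFunOn_mem (ha.ex_surj hO (mem_ball_zero_iff.1 hx))
  exact mem_ball_zero_iff.1 h

lemma SmallAcc.ex_vv {O x : E} (hO : ‖O‖ ≤ 3) (hx : x ∈ ball (0 : E) 3) :
    ex acc O (vv acc O x) = x :=
  Function.invFunOn_eq (ha.ex_surj hO (mem_ball_zero_iff.1 hx))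

lemma SmallAcc.vv_ex {O w : E} (hO : ‖O‖ ≤ 3) (hw : ‖w‖ < 13 / 2) :
    vv acc O (ex acc O w) = w := by
  have h : ∃ w' ∈ ball (0 : E) (13 / 2), ex acc O w' = ex acc O w :=
    ⟨w, mem_ball_zero_iff.2 hw, rfl⟩
  have h1 := mem_ball_zero_iff.1 (Function.invFunOn_mem h)
  have h2 := Function.invFunOn_eq h
  exact ha.ex_inj hO h1.le hw.le h2

lemma SmallAcc.vv_self {O : E} (hO : ‖O‖ ≤ 3) : vv acc O O = 0 := by
  have h := ha.vv_ex (w := 0) hO (by norm_num)
  rwa [ha.ex_zero hO] at h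

lemma SmallAcc.ZZ_self {O : E} (hO : ‖O‖ ≤ 3) : ZZ acc O O = 0 := by
  rw [ZZ, ha.vv_self hO, ha.ve_zero hO]

lemma SmallAcc.vv_near {O x y : E} (hO : ‖O‖ ≤ 3) (hx : x ∈ ball (0 : E) 3)
    (hy : y ∈ ball (0 : E) 3) :
    ‖vv acc O x - vv acc O y - (x - y)‖ ≤ 8 * lam * ‖x - y‖ := by
  have h1 := (ha.vv_mem hO hx).le
  have h2 := (ha.vv_mem hO hy).le
  have h3 := ha.ex_near hO h1 h2
  have h4 := ha.ex_lower hO h1 h2
  rw [ha.ex_vv hO hx, ha.ex_vv hO hy] at h3 h4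
  rw [← norm_neg, neg_sub]
  refine h3.trans ?_
  have h5 : 0 ≤ ‖x - y‖ := norm_nonneg _
  have hl : (0 : ℝ) < lam := lam_pos
  calc 4 * lam * ‖vv acc O x - vv acc O y‖ ≤ 4 * lam * ((1 + 8 * lam) * ‖x - y‖) := by gcongr
    _ = (4 * lam * (1 + 8 * lam)) * ‖x - y‖ := by ring
    _ ≤ 8 * lam * ‖x - y‖ := mul_le_mul_of_nonneg_right (by norm_num [lam]) h5

lemma SmallAcc.ZZ_near {O x y : E} (hO : ‖O‖ ≤ 3) (hx : x ∈ ball (0 : E) 3)
    (hy : y ∈ ball (0 : E) 3) :
    ‖ZZ acc O x - ZZ acc O y - (x - y)‖ ≤ 16 * lam * ‖x - y‖ := by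
  have h1 := (ha.vv_mem hO hx).le
  have h2 := (ha.vv_mem hO hy).le
  have h3 := ha.ve_near hO h1 h2
  have h4 := ha.ex_lower hO h1 h2
  have h6 := ha.vv_near hO hx hy
  rw [ha.ex_vv hO hx, ha.ex_vv hO hy] at h4
  have h5 : 0 ≤ ‖x - y‖ := norm_nonneg _
  have hl : (0 : ℝ) < lam := lam_pos
  have h7 : 4 * lam * ‖vv acc O x - vv acc O y‖ ≤ 8 * lam * ‖x - y‖ := by
    calc 4 * lam * ‖vv acc O x - vv acc O y‖ ≤ 4 * lam * ((1 + 8 * lam) * ‖x - y‖) := by gcongr
      _ = (4 * lam * (1 + 8 * lam)) * ‖x - y‖ := by ring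
      _ ≤ 8 * lam * ‖x - y‖ := mul_le_mul_of_nonneg_right (by norm_num [lam]) h5
  have h8 : ZZ acc O x - ZZ acc O y - (x - y) =
      (ve acc O (vv acc O x) - ve acc O (vv acc O y) - (vv acc O x - vv acc O y)) +
        (vv acc O x - vv acc O y - (x - y)) := by
    rw [ZZ, ZZ]
    abel
  rw [h8]
  refine (norm_add_le _ _).trans ?_
  linarith

/-- Differentiability of `vv` and `ZZ`, in terms of a solution of the variational equation. -/
lemma SmallAcc.exists_deriv {O x : E} (hO : ‖O‖ ≤ 3) (hx : x ∈ ball (0 : E) 3) :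
    ∃ (J : ℝ → E →L[ℝ] E × E) (V W : E →L[ℝ] E), IsVar acc (flow acc O (vv acc O x)) J ∧
      HasFDerivAt (vv acc O) V x ∧ HasFDerivAt (ZZ acc O) W x ∧ (∀ ξ, (J 1 (V ξ)).1 = ξ) ∧
      ‖V - ContinuousLinearMap.id ℝ E‖ ≤ 8 * lam ∧ ‖W - ContinuousLinearMap.id ℝ E‖ ≤ 16 * lam := by
  have hcomp : CompleteSpace E := FiniteDimensional.complete ℝ E
  have hl : (0 : ℝ) < lam := lam_pos
  set w := vv acc O x with hw
  have hwn : ‖w‖ < 13 / 2 := ha.vv_mem hO hx
  obtain ⟨J, hJ⟩ := ha.exists_isVar hO hwn.le (ha.isSol_flow hO hwn.le)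
  have hfl := ha.hasFDerivAt_flow hO hwn hJ one_mem
  have hex : HasFDerivAt (ex acc O) ((ContinuousLinearMap.fst ℝ E E).comp (J 1)) w := hfl.fst
  have hve : HasFDerivAt (ve acc O) ((ContinuousLinearMap.snd ℝ E E).comp (J 1)) w := hfl.snd
  set P := (ContinuousLinearMap.fst ℝ E E).comp (J 1) with hP
  have hPn : ‖P - ContinuousLinearMap.id ℝ E‖ ≤ 4 * lam := by
    have h1 : HasFDerivAt (fun w => ex acc O w - w) (P - ContinuousLinearMap.id ℝ E) w :=
      hex.sub (hasFDerivAt_id w)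
    refine h1.le_of_lip' (by positivity) ?_
    have hev : ∀ᶠ w' in 𝓝 w, ‖w'‖ < 13 / 2 :=
      (continuous_norm.tendsto w).eventually_lt_const hwn
    filter_upwards [hev] with w' hw'
    have h2 := ha.ex_near hO hw'.le hwn.le
    have h3 : ex acc O w' - w' - (ex acc O w - w) = ex acc O w' - ex acc O w - (w' - w) := by
      abel
    rw [h3]
    exact h2
  have hPinj : Function.Injective P.toLinearMap := by
    rw [← LinearMap.ker_eq_bot, LinearMap.ker_eq_bot']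
    intro a haP
    have h1 : P a = 0 := haP
    have h2 := (P - ContinuousLinearMap.id ℝ E).le_opNorm a
    have h3 : (P - ContinuousLinearMap.id ℝ E) a = -a := by
      simp [h1]
    rw [h3, norm_neg] at h2
    have h4 : ‖P - ContinuousLinearMap.id ℝ E‖ * ‖a‖ ≤ (1 / 2) * ‖a‖ := by
      gcongr
      exact hPn.trans (by norm_num [lam])
    have h5 : ‖a‖ ≤ 0 := by linarith
    exact norm_le_zero_iff.1 h5
  set e : E ≃L[ℝ] E := (LinearEquiv.ofInjectiveEndo P.toLinearMap hPinj).toContinuousLinearEquiv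
    with he
  have heP : (e : E →L[ℝ] E) = P := by
    ext a
    rfl
  have hball : ball (0 : E) 3 ∈ 𝓝 x := isOpen_ball.mem_nhds hx
  have hcont : ContinuousAt (vv acc O) x := by
    have h1 : ∀ᶠ y in 𝓝 x, ‖vv acc O y - vv acc O x‖ ≤ 2 * ‖y - x‖ := by
      filter_upwards [hball] with y hy
      have h2 := ha.vv_near hO hy hx
      have h3 : vv acc O y - vv acc O x = (vv acc O y - vv acc O x - (y - x)) + (y - x) := by abel
      have h4 : 8 * lam * ‖y - x‖ ≤ 1 * ‖y - x‖ := by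
        gcongr
        norm_num [lam]
      rw [h3]
      refine (norm_add_le _ _).trans ?_
      linarith
    rw [ContinuousAt, tendsto_iff_norm_sub_tendsto_zero]
    refine squeeze_zero' (Eventually.of_forall fun y => norm_nonneg _) h1 ?_
    have h5 : Tendsto (fun y => 2 * ‖y - x‖) (𝓝 x) (𝓝 (2 * ‖x - x‖)) := by
      have : Continuous (fun y => 2 * ‖y - x‖) := by fun_prop
      exact this.tendsto x
    simpa using h5
  have hV : HasFDerivAt (vv acc O) (e.symm : E →L[ℝ] E) x := by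
    refine HasFDerivAt.of_local_left_inverse hcont ?_ (f := ex acc O) ?_
    · rw [heP]
      exact hex
    · filter_upwards [hball] with y hy
      exact ha.ex_vv hO hy
  have hW : HasFDerivAt (ZZ acc O)
      (((ContinuousLinearMap.snd ℝ E E).comp (J 1)).comp (e.symm : E →L[ℝ] E)) x :=
    HasFDerivAt.comp x hve hV
  refine ⟨J, e.symm, _, hJ, hV, hW, fun ξ => ?_, ?_, ?_⟩
  · have h1 : (J 1 ((e.symm : E →L[ℝ] E) ξ)).1 = P (e.symm ξ) := rfl
    rw [h1, ← heP]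
    exact e.apply_symm_apply ξ
  · have h1 : HasFDerivAt (fun y => vv acc O y - y)
        ((e.symm : E →L[ℝ] E) - ContinuousLinearMap.id ℝ E) x := hV.sub (hasFDerivAt_id x)
    refine h1.le_of_lip' (by positivity) ?_
    filter_upwards [hball] with y hy
    have h2 := ha.vv_near hO hy hx
    have h3 : vv acc O y - y - (vv acc O x - x) = vv acc O y - vv acc O x - (y - x) := by abel
    rw [h3]
    exact h2
  · have h1 : HasFDerivAt (fun y => ZZ acc O y - y)
        (((ContinuousLinearMap.snd ℝ E E).comp (J 1)).comp (e.symm : E →L[ℝ] E) -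
          ContinuousLinearMap.id ℝ E) x := hW.sub (hasFDerivAt_id x)
    refine h1.le_of_lip' (by positivity) ?_
    filter_upwards [hball] with y hy
    have h2 := ha.ZZ_near hO hy hx
    have h3 : ZZ acc O y - y - (ZZ acc O x - x) = ZZ acc O y - ZZ acc O x - (y - x) := by abel
    rw [h3]
    exact h2

/-- values along the radial geodesic -/
lemma SmallAcc.radial {O w : E} (hO : ‖O‖ ≤ 3) (hw : ‖w‖ < 13 / 2) {t : ℝ}
    (ht : t ∈ Icc (0 : ℝ) 1) :
    vv acc O (flow acc O w t).1 = t • w ∧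
      ZZ acc O (flow acc O w t).1 = t • (flow acc O w t).2 := by
  have h1 := ha.scale (ha.isSol_flow hO hw.le) ht
  have htw : ‖t • w‖ < 13 / 2 := by
    rw [norm_smul, Real.norm_eq_abs, abs_of_nonneg ht.1]
    exact (mul_le_of_le_one_left (norm_nonneg _) ht.2).trans_lt hw
  have h2 := ha.flow_eq hO htw.le h1 one_mem
  have h3 : ex acc O (t • w) = (flow acc O w t).1 := by
    rw [ex, h2, mul_one]
  have h4 : ve acc O (t • w) = t • (flow acc O w t).2 := by
    rw [ve, h2, mul_one]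
  have h5 := ha.vv_ex hO htw
  rw [h3] at h5
  refine ⟨h5, ?_⟩
  rw [ZZ, h5, h4]

/-- the radial derivatives of `vv` and `ZZ` -/
lemma SmallAcc.radial_deriv {O x : E} (hO : ‖O‖ ≤ 3) (hx : x ∈ ball (0 : E) 3)
    {V W : E →L[ℝ] E} (hV : HasFDerivAt (vv acc O) V x) (hW : HasFDerivAt (ZZ acc O) W x) :
    V (ZZ acc O x) = vv acc O x ∧ W (ZZ acc O x) = ZZ acc O x + acc x (ZZ acc O x) := by
  set w := vv acc O x with hw
  have hwn : ‖w‖ < 13 / 2 := ha.vv_mem hO hx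
  have hsol := ha.isSol_flow hO hwn.le
  have hx1 : (flow acc O w 1).1 = x := ha.ex_vv hO hx
  have hz1 : (flow acc O w 1).2 = ZZ acc O x := rfl
  have hd := hsol.deriv 1 one_mem
  have hd1 : HasDerivWithinAt (fun t => (flow acc O w t).1) (flow acc O w 1).2 (Icc 0 1) 1 :=
    hd.fst
  have hd2 : HasDerivWithinAt (fun t => (flow acc O w t).2)
    (acc (flow acc O w 1).1 (flow acc O w 1).2) (Icc 0 1) 1 := hd.snd
  rw [hx1] at hd2
  rw [hz1] at hd1 hd2
  have hud := uniqueDiff_Icc01 1 one_mem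
  constructor
  · have hV' : HasFDerivAt (vv acc O) V (flow acc O w 1).1 := by rw [hx1]; exact hV
    have h1 : HasDerivWithinAt (fun t => vv acc O (flow acc O w t).1) (V (ZZ acc O x))
      (Icc 0 1) 1 := hV'.comp_hasDerivWithinAt 1 hd1
    have h2 : HasDerivWithinAt (fun t : ℝ => t • w) ((1 : ℝ) • w) (Icc 0 1) 1 :=
      (hasDerivWithinAt_id 1 _).smul_const w
    rw [one_smul] at h2
    have h3 := h2.congr (fun t ht => (ha.radial hO hwn ht).1) (ha.radial hO hwn one_mem).1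
    exact hud.eq_deriv _ h1 h3
  · have hW' : HasFDerivAt (ZZ acc O) W (flow acc O w 1).1 := by rw [hx1]; exact hW
    have h1 : HasDerivWithinAt (fun t => ZZ acc O (flow acc O w t).1) (W (ZZ acc O x))
      (Icc 0 1) 1 := HasFDerivAt.comp_hasDerivWithinAt (l := ZZ acc O) 1 hW' hd1
    have h2 : HasDerivWithinAt (fun t : ℝ => t • (flow acc O w t).2)
        ((1 : ℝ) • acc x (ZZ acc O x) + (1 : ℝ) • (flow acc O w 1).2) (Icc 0 1) 1 :=
      (hasDerivWithinAt_id 1 _).smul hd2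
    rw [one_smul, one_smul, hz1] at h2
    have h3 := h2.congr (fun t ht => (ha.radial hO hwn ht).2) (ha.radial hO hwn one_mem).2
    have h4 := hud.eq_deriv _ h1 h3
    rw [h4, add_comm]

end Pool.Agent.GeoNet
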