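import Pool.Agent.GeoNet.ExpFlow

/-! The linearised geodesic flow: differentiability with respect to the initial velocity. -/

set_option maxSynthPendingDepth 3

namespace Pool.Agent.GeoNet

open Set Metric Filter
open scoped Topology RealInnerProductSpace ContDiff NNReal

variable {E : Type*} [NormedAddCommGroup E] [InnerProductSpace ℝ E]

/-- the derivative of the acceleration -/
noncomputable def dacc (acc : E → E → E) (p : E × E) : E × E →L[ℝ] E :=
  fderiv ℝ (fun p : E × E => acc p.1 p.2) p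

variable {acc : E → E → E}

lemma isOpen_dom : IsOpen (ball (0 : E) 10 ×ˢ (univ : Set E)) := isOpen_ball.prod isOpen_univ

lemma reg_subset_dom : reg E ⊆ ball (0 : E) 10 ×ˢ (univ : Set E) :=
  fun _ hp => ⟨fst_mem_ball_of_mem_reg hp, mem_univ _⟩

lemma SmallAcc.hasFDerivAt (ha : SmallAcc acc) {p : E × E} (hp : p ∈ reg E) :
    HasFDerivAt (fun p : E × E => acc p.1 p.2) (dacc acc p) p := by
  have h1 := ha.smooth.contDiffAt (isOpen_dom.mem_nhds (reg_subset_dom hp))
  exact (h1.differentiableAt (by norm_num)).hasFDerivAt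

lemma SmallAcc.dacc_contDiffOn (ha : SmallAcc acc) :
    ContDiffOn ℝ 1 (dacc acc) (ball (0 : E) 10 ×ˢ (univ : Set E)) :=
  ha.smooth.fderiv_of_isOpen isOpen_dom (by norm_num)

lemma SmallAcc.dacc_continuousOn (ha : SmallAcc acc) : ContinuousOn (dacc acc) (reg E) :=
  ha.dacc_contDiffOn.continuousOn.mono reg_subset_dom

lemma SmallAcc.taylor [FiniteDimensional ℝ E] (ha : SmallAcc acc) :
    ∃ C : ℝ, 0 ≤ C ∧ ∀ p ∈ reg E, ∀ q ∈ reg E,
      ‖acc q.1 q.2 - acc p.1 p.2 - dacc acc p (q - p)‖ ≤ C * ‖q - p‖ ^ 2 := by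
  have h1 : ContinuousOn (fderiv ℝ (dacc acc)) (reg E) :=
    (ha.dacc_contDiffOn.continuousOn_fderiv_of_isOpen isOpen_dom (by norm_num)).mono
      reg_subset_dom
  obtain ⟨C, hC⟩ := isCompact_reg.exists_bound_of_continuousOn h1
  refine ⟨|C|, abs_nonneg _, fun p hp q hq => ?_⟩
  have h2 : ∀ z ∈ reg E, ‖dacc acc z - dacc acc p‖ ≤ |C| * ‖z - p‖ := by
    intro z hz
    refine convex_reg.norm_image_sub_le_of_norm_fderiv_le (𝕜 := ℝ) (f := dacc acc) ?_ ?_ hp hz
    · intro y hy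
      exact (ha.dacc_contDiffOn.contDiffAt
        (isOpen_dom.mem_nhds (reg_subset_dom hy))).differentiableAt (by norm_num)
    · intro y hy
      exact (hC y hy).trans (le_abs_self C)
  have hseg : segment ℝ p q ⊆ reg E := convex_reg.segment_subset hp hq
  have h3 := (convex_segment p q).norm_image_sub_le_of_norm_fderiv_le' (𝕜 := ℝ)
    (f := fun p : E × E => acc p.1 p.2) (φ := dacc acc p) (C := |C| * ‖q - p‖)
    (fun z hz => (ha.hasFDerivAt (hseg hz)).differentiableAt) ?_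
    (left_mem_segment ℝ p q) (right_mem_segment ℝ p q)
  · rw [pow_two, ← mul_assoc]
    exact h3
  · intro z hz
    refine (h2 z (hseg hz)).trans ?_
    have h4 : ‖z - p‖ ≤ ‖q - p‖ := norm_sub_le_of_mem_segment hz
    have := abs_nonneg C
    gcongr

/-- the interior of the region -/
def regi (E : Type*) [NormedAddCommGroup E] : Set (E × E) :=
  ball 0 (99 / 10) ×ˢ ball 0 7

lemma regi_subset : regi E ⊆ reg E :=
  prod_mono ball_subset_closedBall ball_subset_closedBall

lemma isOpen_regi : IsOpen (regi E) := isOpen_ball.prod isOpen_ball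

lemma SmallAcc.dacc_norm_le (ha : SmallAcc acc) {p : E × E} (hp : p ∈ regi E) :
    ‖dacc acc p‖ ≤ lam := by
  refine (ha.hasFDerivAt (regi_subset hp)).le_of_lip' lam_pos.le ?_
  filter_upwards [isOpen_regi.mem_nhds hp] with q hq
  exact ha.lip q (regi_subset hq) p (regi_subset hp)

lemma SmallAcc.near_line (ha : SmallAcc acc) {O w : E} {Γ : ℝ → E × E} (hO : ‖O‖ ≤ 3)
    (h : IsSol acc O w Γ) : ∀ t ∈ Icc (0 : ℝ) 1,
      ‖(Γ t).1 - (O + t • w)‖ ≤ 4 * lam * ‖w‖ ∧ ‖(Γ t).2 - w‖ ≤ 4 * lam * ‖w‖ := by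
  intro t ht
  have h1 := ha.diff_le h (ha.const hO) t ht
  rw [sub_zero] at h1
  have h2 : Γ t - (O, (0 : E)) - (t • w, w) = ((Γ t).1 - (O + t • w), (Γ t).2 - w) := by
    ext
    · simp [sub_sub]
    · simp
  rw [h2] at h1
  exact ⟨(norm_fst_le _).trans h1, (norm_snd_le _).trans h1⟩

lemma SmallAcc.mem_regi (ha : SmallAcc acc) {O w : E} {Γ : ℝ → E × E} (hO : ‖O‖ ≤ 3)
    (hw : ‖w‖ ≤ 13 / 2) (h : IsSol acc O w Γ) : ∀ t ∈ Icc (0 : ℝ) 1, Γ t ∈ regi E := by
  intro t ht
  obtain ⟨h1, h2⟩ := ha.near_line hO h t ht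
  have h3 : 4 * lam * ‖w‖ ≤ 1 / 10 := by
    have : (0 : ℝ) < lam := lam_pos
    calc 4 * lam * ‖w‖ ≤ 4 * lam * (13 / 2) := by gcongr
      _ ≤ 1 / 10 := by norm_num [lam]
  refine ⟨?_, ?_⟩
  · rw [mem_ball_zero_iff]
    have h4 : (Γ t).1 = ((Γ t).1 - (O + t • w)) + O + t • w := by abel
    rw [h4]
    have h5 : ‖t • w‖ ≤ 1 * (13 / 2) := by
      rw [norm_smul, Real.norm_eq_abs, abs_of_nonneg ht.1]
      have := ht.2
      gcongr
    have := norm_add₃_le (a := (Γ t).1 - (O + t • w)) (b := O) (c := t • w)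
    linarith
  · rw [mem_ball_zero_iff]
    have h4 : (Γ t).2 = ((Γ t).2 - w) + w := by abel
    rw [h4]
    have := norm_add_le ((Γ t).2 - w) w
    linarith

/-- right-hand side of the variational equation -/
noncomputable def vfld (acc : E → E → E) (p : E × E) (J : E →L[ℝ] E × E) : E →L[ℝ] E × E :=
  ((ContinuousLinearMap.snd ℝ E E).comp J).prod ((dacc acc p).comp J)

/-- the variation of straight lines -/
noncomputable def lin0 (E : Type*) [NormedAddCommGroup E] [NormedSpace ℝ E] (t : ℝ) :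
    E →L[ℝ] E × E :=
  (t • ContinuousLinearMap.id ℝ E).prod (ContinuousLinearMap.id ℝ E)

/-- solutions of the variational equation -/
structure IsVar (acc : E → E → E) (Γ : ℝ → E × E) (J : ℝ → E →L[ℝ] E × E) : Prop where
  zero : J 0 = lin0 E 0
  deriv : ∀ t ∈ Icc (0 : ℝ) 1, HasDerivWithinAt J (vfld acc (Γ t) (J t)) (Icc 0 1) t

lemma norm_prod_le {F : Type*} [NormedAddCommGroup F] [NormedSpace ℝ F]
    (f : F →L[ℝ] E) (h : F →L[ℝ] E) {C : ℝ} (h1 : ‖f‖ ≤ C) (h2 : ‖h‖ ≤ C) :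
    ‖f.prod h‖ ≤ C := by
  rw [ContinuousLinearMap.opNorm_prod]
  exact max_le h1 h2

lemma norm_lin0_le {t : ℝ} (ht : t ∈ Icc (0 : ℝ) 1) : ‖lin0 E t‖ ≤ 1 := by
  refine norm_prod_le _ _ ?_ ContinuousLinearMap.norm_id_le
  rw [norm_smul, Real.norm_eq_abs, abs_of_nonneg ht.1]
  exact mul_le_one₀ ht.2 (norm_nonneg _) ContinuousLinearMap.norm_id_le

lemma norm_snd_comp_le (k : E →L[ℝ] E × E) : ‖(ContinuousLinearMap.snd ℝ E E).comp k‖ ≤ ‖k‖ := by
  refine ContinuousLinearMap.opNorm_le_bound _ (norm_nonneg _) (fun w => ?_)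
  exact (norm_snd_le (k w)).trans (k.le_opNorm w)

theorem SmallAcc.exists_isVar [FiniteDimensional ℝ E] (ha : SmallAcc acc) {O w : E}
    {Γ : ℝ → E × E} (hO : ‖O‖ ≤ 3) (hw : ‖w‖ ≤ 13 / 2) (h : IsSol acc O w Γ) :
    ∃ J, IsVar acc Γ J := by
  have hcomp : CompleteSpace E := FiniteDimensional.complete ℝ E
  have hl : (0 : ℝ) < lam := lam_pos
  set f : ℝ → (E →L[ℝ] E × E) → (E →L[ℝ] E × E) := fun t k =>
    ((ContinuousLinearMap.snd ℝ E E).comp k).prod ((dacc acc (Γ t)).comp (lin0 E t + k)) with hf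
  have hreg := ha.mem_regi hO hw h
  have key := exists_sol f 0 1 1 ?_ ?_ ?_
  · obtain ⟨k, h0, -, h2⟩ := key
    refine ⟨fun t => lin0 E t + k t, ?_, fun t ht => ?_⟩
    · show lin0 E 0 + k 0 = _
      rw [h0, add_zero]
    · have h3 : HasDerivWithinAt (fun t => lin0 E t)
          ((ContinuousLinearMap.id ℝ E).prod (0 : E →L[ℝ] E)) (Icc 0 1) t := by
        have h4 : HasDerivWithinAt (fun t : ℝ => t • (ContinuousLinearMap.id ℝ E).prod
            (0 : E →L[ℝ] E)) ((1 : ℝ) • (ContinuousLinearMap.id ℝ E).prod (0 : E →L[ℝ] E))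
            (Icc 0 1) t := (hasDerivWithinAt_id t _).smul_const _
        rw [one_smul] at h4
        have h5 := h4.add_const ((0 : E →L[ℝ] E).prod (ContinuousLinearMap.id ℝ E))
        refine h5.congr_of_eventuallyEq (Eventually.of_forall fun s => ?_) ?_
        · ext v <;> simp [lin0]
        · ext v <;> simp [lin0]
      have h6 := h3.add (h2 t ht)
      have h7 : (ContinuousLinearMap.id ℝ E).prod (0 : E →L[ℝ] E) + f t (k t) =
          vfld acc (Γ t) (lin0 E t + k t) := by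
        ext v
        · simp [hf, vfld, lin0]
        · simp [hf, vfld]
      rw [h7] at h6
      exact h6
  · intro t ht
    refine LipschitzOnWith.of_dist_le_mul (fun p _ q _ => ?_)
    rw [NNReal.coe_one, one_mul, dist_eq_norm, dist_eq_norm]
    have h1 : f t p - f t q = ((ContinuousLinearMap.snd ℝ E E).comp (p - q)).prod
        ((dacc acc (Γ t)).comp (p - q)) := by
      ext v
      · simp [hf]
      · simp [hf]
    rw [h1]
    refine norm_prod_le _ _ (norm_snd_comp_le _) ?_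
    refine (ContinuousLinearMap.opNorm_comp_le _ _).trans ?_
    have h2 := ha.dacc_norm_le (hreg t ht)
    calc ‖dacc acc (Γ t)‖ * ‖p - q‖ ≤ 1 * ‖p - q‖ := by
          gcongr
          exact h2.trans lam_le_one
      _ = ‖p - q‖ := one_mul _
  · intro k _
    have h1 : ContinuousOn (fun t => dacc acc (Γ t)) (Icc 0 1) :=
      ha.dacc_continuousOn.comp h.continuousOn h.mem
    have h2 : Continuous (fun t : ℝ => lin0 E t + k) := by
      have h3 : ∀ t : ℝ, lin0 E t = t • (ContinuousLinearMap.id ℝ E).prod (0 : E →L[ℝ] E) +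
          (0 : E →L[ℝ] E).prod (ContinuousLinearMap.id ℝ E) := by
        intro t
        ext v <;> simp [lin0]
      simp only [h3]
      fun_prop
    have h3 : ContinuousOn (fun t => (dacc acc (Γ t)).comp (lin0 E t + k)) (Icc 0 1) :=
      h1.clm_comp h2.continuousOn
    have h4 : ∀ t, f t k = (ContinuousLinearMap.inl ℝ E E).comp
        ((ContinuousLinearMap.snd ℝ E E).comp k) + (ContinuousLinearMap.inr ℝ E E).comp
        ((dacc acc (Γ t)).comp (lin0 E t + k)) := by
      intro t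
      ext v <;> simp [hf]
    simp only [h4]
    exact continuousOn_const.add (continuousOn_const.clm_comp h3)
  · intro t ht k hk
    have hk' : ‖k‖ ≤ 1 := by simpa using mem_closedBall_zero_iff.1 hk
    rw [NNReal.coe_one]
    refine norm_prod_le _ _ ((norm_snd_comp_le _).trans hk') ?_
    refine (ContinuousLinearMap.opNorm_comp_le _ _).trans ?_
    have h2 := ha.dacc_norm_le (hreg t ht)
    have h3 := norm_add_le (lin0 E t) k
    have h4 := norm_lin0_le (E := E) ht
    calc ‖dacc acc (Γ t)‖ * ‖lin0 E t + k‖ ≤ lam * 2 := by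
          gcongr
          linarith
      _ ≤ 1 := by norm_num [lam]

/-- quadratic estimate of the error of the linearisation -/
theorem SmallAcc.lin_error [FiniteDimensional ℝ E] (ha : SmallAcc acc) :
    ∃ C : ℝ, 0 ≤ C ∧ ∀ O w w' : E, ‖O‖ ≤ 3 → ‖w‖ ≤ 13 / 2 → ∀ Γ Γ' J,
      IsSol acc O w Γ → IsSol acc O w' Γ' → IsVar acc Γ J → ∀ t ∈ Icc (0 : ℝ) 1,
        ‖Γ' t - Γ t - J t (w' - w)‖ ≤ C * ‖w' - w‖ ^ 2 := by
  obtain ⟨C, hC0, hC⟩ := ha.taylor
  refine ⟨16 * C, by positivity, ?_⟩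
  intro O w w' hO hw Γ Γ' J h h' hJ
  have hl : (0 : ℝ) < lam := lam_pos
  have hreg := ha.mem_regi hO hw h
  have key := norm_le_of_deriv (f := fun t => Γ' t - Γ t - J t (w' - w))
    (f' := fun t => fld acc (Γ' t) - fld acc (Γ t) - vfld acc (Γ t) (J t) (w' - w)) (δ := 0)
    (ε := 4 * C * ‖w' - w‖ ^ 2) le_rfl (by positivity) ?_ ?_ ?_
  · intro t ht
    have := key t ht
    linarith
  · intro t ht
    have h1 : HasDerivWithinAt (fun t => J t (w' - w)) (vfld acc (Γ t) (J t) (w' - w))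
        (Icc 0 1) t := by
      have h2 := (hJ.deriv t ht).clm_apply (hasDerivWithinAt_const t (Icc 0 1) (w' - w))
      simpa using h2
    exact ((h'.deriv t ht).sub (h.deriv t ht)).sub h1
  · simp [h.zero, h'.zero, hJ.zero, lin0]
  · intro t ht
    set R := Γ' t - Γ t - J t (w' - w) with hR
    have e1 : fld acc (Γ' t) - fld acc (Γ t) - vfld acc (Γ t) (J t) (w' - w) =
        (R.2, (acc (Γ' t).1 (Γ' t).2 - acc (Γ t).1 (Γ t).2 - dacc acc (Γ t) (Γ' t - Γ t)) +
          dacc acc (Γ t) R) := by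
      rw [hR, fld, fld, vfld]
      ext
      · simp
      · simp only [ContinuousLinearMap.prod_apply, ContinuousLinearMap.comp_apply, map_sub,
          Prod.snd_sub]
        abel
    rw [e1]
    have h1 := hC (Γ t) (h.mem t ht) (Γ' t) (h'.mem t ht)
    have h2 : ‖dacc acc (Γ t) R‖ ≤ lam * ‖R‖ :=
      (ContinuousLinearMap.le_opNorm _ _).trans (by
        gcongr
        exact ha.dacc_norm_le (hreg t ht))
    have h3 : ‖Γ' t - Γ t‖ ≤ 2 * ‖w' - w‖ := by
      have h4 := ha.diff_le h' h t ht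
      have h5 : ‖(t • (w' - w), w' - w)‖ ≤ ‖w' - w‖ := by
        refine max_le ?_ le_rfl
        rw [norm_smul, Real.norm_eq_abs, abs_of_nonneg ht.1]
        exact mul_le_of_le_one_left (norm_nonneg _) ht.2
      have h6 : Γ' t - Γ t = (Γ' t - Γ t - (t • (w' - w), w' - w)) + (t • (w' - w), w' - w) := by
        abel
      have h7 : 4 * lam * ‖w' - w‖ ≤ 1 * ‖w' - w‖ := by
        gcongr
        norm_num [lam]
      rw [h6]
      refine (norm_add_le _ _).trans ?_
      linarith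
    have h4 : ‖Γ' t - Γ t‖ ^ 2 ≤ (2 * ‖w' - w‖) ^ 2 := by gcongr
    have h5 : C * ‖Γ' t - Γ t‖ ^ 2 ≤ 4 * C * ‖w' - w‖ ^ 2 := by
      calc C * ‖Γ' t - Γ t‖ ^ 2 ≤ C * (2 * ‖w' - w‖) ^ 2 := by gcongr
        _ = _ := by ring
    have h6 : lam * ‖R‖ ≤ 1 * ‖R‖ := by
      gcongr
      exact lam_le_one
    have h7 : 0 ≤ ‖R‖ := norm_nonneg _
    have h8 : 0 ≤ 4 * C * ‖w' - w‖ ^ 2 := by positivity
    refine max_le ?_ ?_
    · have := norm_snd_le R
      linarith
    · refine (norm_add_le _ _).trans ?_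
      linarith

/-- the flow -/
noncomputable def flow (acc : E → E → E) (O w : E) : ℝ → E × E :=
  Classical.epsilon (fun Γ => IsSol acc O w Γ)

theorem SmallAcc.isSol_flow [FiniteDimensional ℝ E] (ha : SmallAcc acc) {O w : E}
    (hO : ‖O‖ ≤ 3) (hw : ‖w‖ ≤ 13 / 2) : IsSol acc O w (flow acc O w) :=
  Classical.epsilon_spec (ha.exists_isSol hO hw)

/-- the flow is differentiable with respect to the initial velocity -/
theorem SmallAcc.hasFDerivAt_flow [FiniteDimensional ℝ E] (ha : SmallAcc acc) {O w : E}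
    (hO : ‖O‖ ≤ 3) (hw : ‖w‖ < 13 / 2) {J : ℝ → E →L[ℝ] E × E}
    (hJ : IsVar acc (flow acc O w) J) {t : ℝ} (ht : t ∈ Icc (0 : ℝ) 1) :
    HasFDerivAt (fun w => flow acc O w t) (J t) w := by
  obtain ⟨C, hC0, hC⟩ := ha.lin_error
  refine HasFDerivAt.of_isLittleO ?_
  refine Asymptotics.IsBigO.trans_isLittleO ?_ (Asymptotics.isLittleO_pow_sub_sub w one_lt_two)
  refine Asymptotics.IsBigO.of_bound C ?_
  have hev : ∀ᶠ w' in 𝓝 w, ‖w'‖ < 13 / 2 :=
    (continuous_norm.tendsto w).eventually_lt_const hw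
  filter_upwards [hev] with w' hw'
  rw [Real.norm_eq_abs, abs_of_nonneg (by positivity)]
  exact hC O w w' hO hw.le _ _ J (ha.isSol_flow hO hw.le) (ha.isSol_flow hO hw'.le) hJ t ht

end Pool.Agent.GeoNet
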