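import Pool.Agent.GeoNet.Defs

/-!
# The flat local geometry (sanity check of the interface)
-/

namespace Pool.Agent.GeoNet

open Set Metric Filter
open scoped Topology RealInnerProductSpace

variable {E : Type*} [NormedAddCommGroup E] [InnerProductSpace ℝ E]

/-- Euclidean space as a local geometry -/
noncomputable def flat : LocGeo E where
  g := fun _ => inn E
  acc := fun _ _ => 0
  v := fun O x => x - O
  Z := fun O x => x - O
  g_symm := fun x u w => by simp [real_inner_comm]
  g_near := fun x _ u w => by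
    simp only [inn_apply, sub_self, abs_zero]
    have := dl_pos
    positivity
  g_lip := fun x _ y _ u w => by
    simp only [sub_self, abs_zero]
    have := dl_pos
    positivity
  acc_le := fun x _ u => by
    have := dl_pos
    simp only [norm_zero]; positivity
  acc_neg := fun x u => rfl
  v_self := fun O _ => by simp
  v_near := fun O _ x _ y _ => by
    have := dl_pos
    have h : x - O - (y - O) - (x - y) = 0 := by abel
    rw [h]; simp only [norm_zero]; positivity
  Z_self := fun O _ => by simp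
  Z_near := fun O _ x _ y _ => by
    have := dl_pos
    have h : x - O - (y - O) - (x - y) = 0 := by abel
    rw [h]; simp only [norm_zero]; positivity
  norm_eq := fun O _ x _ => rfl
  f_deriv := fun O _ x _ => by
    have h1 : HasFDerivAt (fun y : E => y - O) (ContinuousLinearMap.id ℝ E) x :=
      (hasFDerivAt_id x).sub_const O
    have h2 := (h1.inner ℝ h1).mul_const (1 / 2)
    refine (h2.congr_fderiv ?_).congr_of_eventuallyEq ?_
    · ext w
      simp only [smul_apply, ContinuousLinearMap.comp_apply,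
        ContinuousLinearMap.prod_apply, ContinuousLinearMap.id_apply, fderivInnerCLM_apply,
        inn_apply, smul_eq_mul]
      rw [real_inner_comm w (x - O)]
      ring
    · exact Eventually.of_forall fun y => by
        simp only [inn_apply]; ring
  second := by
    intro O _ X X' a b hX s hs
    refine ⟨1, ?_, ?_⟩
    · have h1 := (hX.d1 s hs).sub_const O
      have h2 := h1.inner ℝ (hX.d2 s hs)
      have h3 := hX.unit s hs
      simp only [inn_apply] at h3 ⊢
      rw [inner_zero_right, zero_add, h3] at h2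
      exact h2
    · have h3 := hX.unit s hs
      simp only [inn_apply] at h3 ⊢
      have h4 : |⟪X s - O, X' s⟫| ≤ √⟪X s - O, X s - O⟫ := by
        have h5 := abs_real_inner_le_norm (X s - O) (X' s)
        have h6 : ‖X' s‖ = 1 := by
          have : ‖X' s‖ ^ 2 = 1 := by rw [← real_inner_self_eq_norm_sq]; exact h3
          nlinarith [norm_nonneg (X' s)]
        rw [h6, mul_one] at h5
        rwa [real_inner_self_eq_norm_sq, Real.sqrt_sq (norm_nonneg _)]
      have h7 : (⟪X s - O, X' s⟫ / √⟪X s - O, X s - O⟫) ^ 2 ≤ 1 := by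
        rw [div_pow]
        apply div_le_one_of_le₀ _ (sq_nonneg _)
        rw [← sq_abs]
        exact pow_le_pow_left₀ (abs_nonneg _) h4 2
      linarith
  angular := by
    intro O _ X X' a b hX s hs hne
    have h3 := hX.unit s hs
    simp only [inn_apply] at h3 ⊢
    set V : E := X s - O with hV
    have hV0 : V ≠ 0 := sub_ne_zero.2 hne
    have hVn : 0 < ‖V‖ := norm_pos_iff.2 hV0
    have hsq : ∀ u : E, √⟪u, u⟫ = ‖u‖ := fun u => by
      rw [real_inner_self_eq_norm_sq, Real.sqrt_sq (norm_nonneg _)]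
    simp only [hsq]
    have h1 : HasDerivWithinAt (fun s => X s - O) (X' s) (Icc a b) s := (hX.d1 s hs).sub_const O
    have h2 : HasDerivWithinAt (fun s => ‖X s - O‖) (⟪V, X' s⟫ / ‖V‖) (Icc a b) s := by
      have h4 := h1.inner ℝ h1
      have h5 : HasDerivWithinAt (fun s => √⟪X s - O, X s - O⟫)
          ((⟪X s - O, X' s⟫ + ⟪X' s, X s - O⟫) / (2 * √⟪X s - O, X s - O⟫)) (Icc a b) s := by
        apply h4.sqrt
        rw [real_inner_self_eq_norm_sq]; positivity
      simp only [hsq] at h5
      convert h5 using 1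
      rw [real_inner_comm (X s - O) (X' s), ← hV]
      field_simp
      rw [real_inner_comm]; ring
    refine ⟨_, (h2.inv hVn.ne').smul h1, ?_⟩
    rw [← hV]
    set c : ℝ := ⟪V, X' s⟫ / ‖V‖ with hc
    have hunit : ‖X' s‖ ^ 2 = 1 := by rw [← real_inner_self_eq_norm_sq]; exact h3
    have key : ‖(‖V‖)⁻¹ • X' s + (-c / ‖V‖ ^ 2) • V‖ ^ 2 = (1 - c ^ 2) / ‖V‖ ^ 2 := by
      rw [norm_add_sq_real, norm_smul, norm_smul, inner_smul_left, inner_smul_right]
      simp only [norm_inv, norm_norm, RCLike.conj_to_real, norm_div, norm_neg, norm_pow]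
      rw [mul_pow, hunit, mul_pow, div_pow, Real.norm_eq_abs, sq_abs]
      have : ⟪X' s, V⟫ = c * ‖V‖ := by
        rw [hc, real_inner_comm]; field_simp
      rw [this]
      field_simp
      ring
    have h0 : 0 ≤ (1 - c ^ 2) := by
      have : 0 ≤ (1 - c ^ 2) / ‖V‖ ^ 2 := by rw [← key]; positivity
      by_contra hcon
      push Not at hcon
      have : (1 - c ^ 2) / ‖V‖ ^ 2 < 0 := div_neg_of_neg_of_pos hcon (by positivity)
      linarith
    have h6 : ‖(‖V‖)⁻¹ • X' s + (-c / ‖V‖ ^ 2) • V‖ = √(1 - c ^ 2) / ‖V‖ := by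
      rw [← Real.sqrt_sq (norm_nonneg ((‖V‖)⁻¹ • X' s + (-c / ‖V‖ ^ 2) • V)), key,
        Real.sqrt_div h0, Real.sqrt_sq hVn.le]
    have h7 : (fun s => ‖X s - O‖)⁻¹ s = (‖V‖)⁻¹ := rfl
    rw [h7, h6]
    apply div_le_div_of_nonneg_right _ hVn.le
    nlinarith [Real.sqrt_nonneg (1 - c ^ 2)]
  apex := by
    intro x hx τ hτ T hT
    simp only [inn_apply] at hτ
    have hn : ‖τ‖ = 1 := by
      have : ‖τ‖ ^ 2 = 1 := by rw [← real_inner_self_eq_norm_sq]; exact hτ
      nlinarith [norm_nonneg τ]
    refine ⟨x - T • τ, ?_, by abel⟩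
    rw [mem_ball_zero_iff] at hx ⊢
    calc ‖x - T • τ‖ ≤ ‖x‖ + ‖T • τ‖ := norm_sub_le _ _
      _ = ‖x‖ + T := by rw [norm_smul, hn, Real.norm_of_nonneg hT.1.le, mul_one]
      _ < 3 := by linarith [hT.2]

end Pool.Agent.GeoNet
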