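import Pool.Agent.GeoNet.ODeg

/-!
# The induction on the density
-/

namespace Pool.Agent.GeoNet

open Set Metric Filter
open scoped Topology RealInnerProductSpace

variable {E : Type*} [NormedAddCommGroup E] [InnerProductSpace ℝ E]

/-- the annulus bound -/
def AnnulusBound (E : Type*) [NormedAddCommGroup E] [InnerProductSpace ℝ E] : Prop :=
  ∀ k : ℕ, 3 ≤ k → ∃ ε > 0, ∃ M : ℕ, ∀ (𝒢 : LocGeo E) (O : E) (R : ℝ) (N : ONet 𝒢 O R) (R₁ R₂ : ℝ),
    O ∈ ball (0 : E) (1 / 2) → R ≤ 1 / 2 → 0 < R₁ → R₂ ≤ R →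
    (∀ r ∈ Ioo R₁ R₂, |N.dens r - k| ≤ ε) →
    {p | p ∈ U E ∧ 3 ≤ N.deg p ∧ 2 * R₁ ≤ 𝒢.rho O p ∧ 𝒢.rho O p ≤ R₂ / 2}.ncard ≤ M

open scoped Classical in
/-- the data which are used in the induction: a finite set of points, each with a density
function -/
structure Sys (E : Type*) [NormedAddCommGroup E] (ε₁ : ℕ → ℝ) (M : ℕ → ℕ) where
  V : Finset E
  D : E → ℝ → ℝ
  mono : ∀ q ∈ V, ∀ r r' : ℝ, 0 < r → r ≤ r' → r' < 1 / 2 → D q r ≤ D q r'
  near : ∀ q ∈ V, ∃ m : ℕ, 3 ≤ m ∧ ∃ r₁ > 0, ∀ r ∈ Ioo 0 r₁, D q r = m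
  quant : ∀ q ∈ V, ∀ ε > 0, ∀ r₀ > 0, 4 * r₀ < 1 / 2 → D q (4 * r₀) - D q r₀ ≤ ε →
    ∃ r ∈ Ioo r₀ (4 * r₀), ∃ c : ℕ, D q r ≤ c ∧ c ≤ D q r + ε
  ann : ∀ q ∈ V, ∀ k : ℕ, 3 ≤ k → ∀ R₁ R₂ : ℝ, 0 < R₁ → R₂ ≤ 1 / 2 →
    (∀ r ∈ Ioo R₁ R₂, |D q r - k| ≤ ε₁ k) →
    (V.filter (fun x => 201 / 100 * R₁ ≤ ‖x - q‖ ∧ ‖x - q‖ ≤ 49 / 100 * R₂)).card ≤ M k

open scoped Classical in
omit [InnerProductSpace ℝ E] in
/-- covering lemma -/
lemma exists_cover [NormedSpace ℝ E] [FiniteDimensional ℝ E] (K : ℝ) :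
    ∃ m : ℕ, ∀ (c : E) (s : ℝ), 0 < s → ∀ W : Finset E,
      (∀ x ∈ W, ‖x - c‖ ≤ K * s) → ∀ n : ℕ,
      (∀ p ∈ W, (W.filter (fun x => x ∈ ball p s)).card ≤ n) → W.card ≤ m * n := by
  have hprop : ProperSpace E := FiniteDimensional.proper ℝ E
  obtain ⟨t, -, htf, ht⟩ := (isCompact_closedBall (0 : E) K).finite_cover_balls
    (show (0 : ℝ) < 1 / 2 by norm_num)
  refine ⟨htf.toFinset.card, fun c s hs W hW n hn => ?_⟩
  have hsub : W ⊆ htf.toFinset.biUnion (fun y => W.filter (fun x => ‖x - c - s • y‖ < s / 2)) := by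
    intro x hx
    rw [Finset.mem_biUnion]
    have h1 : s⁻¹ • (x - c) ∈ closedBall (0 : E) K := by
      rw [mem_closedBall_zero_iff, norm_smul, norm_inv, Real.norm_eq_abs, abs_of_pos hs,
        inv_mul_le_iff₀ hs, mul_comm]
      exact hW x hx
    have h2 := ht h1
    rw [mem_iUnion₂] at h2
    obtain ⟨y, hy, hxy⟩ := h2
    refine ⟨y, htf.mem_toFinset.2 hy, ?_⟩
    rw [Finset.mem_filter]
    refine ⟨hx, ?_⟩
    rw [mem_ball, dist_eq_norm] at hxy
    have h3 : x - c - s • y = s • (s⁻¹ • (x - c) - y) := by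
      rw [smul_sub, smul_smul, mul_inv_cancel₀ hs.ne', one_smul]
    rw [h3, norm_smul, Real.norm_eq_abs, abs_of_pos hs]
    have h4 : s * ‖s⁻¹ • (x - c) - y‖ < s * (1 / 2) := mul_lt_mul_of_pos_left hxy hs
    linarith
  refine (Finset.card_le_card hsub).trans ?_
  refine Finset.card_biUnion_le_card_mul _ _ _ fun y _ => ?_
  by_cases hne : (W.filter (fun x => ‖x - c - s • y‖ < s / 2)).Nonempty
  · obtain ⟨p, hp⟩ := hne
    rw [Finset.mem_filter] at hp
    refine le_trans (Finset.card_le_card ?_) (hn p hp.1)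
    intro x hx
    rw [Finset.mem_filter] at hx ⊢
    refine ⟨hx.1, ?_⟩
    rw [mem_ball, dist_eq_norm]
    have h1 : x - p = (x - c - s • y) - (p - c - s • y) := by abel
    rw [h1]
    have := norm_sub_le (x - c - s • y) (p - c - s • y)
    linarith [hx.2, hp.2]
  · rw [Finset.not_nonempty_iff_eq_empty.1 hne]
    simp

open scoped Classical in
/-- the induction statement -/
def PP (E : Type*) [NormedAddCommGroup E] (ε₁ : ℕ → ℝ) (M : ℕ → ℕ) (k : ℕ) : Prop :=
  ∃ ε > 0, ∃ n : ℕ, ∀ (S : Sys E ε₁ M) (p : E) (R : ℝ), 0 < R → R ≤ 1 / 2 →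
    (∀ q ∈ S.V, ‖q - p‖ < R / 2 → S.D q (R / 2) ≤ k + ε) →
    (S.V.filter (fun x => ‖x - p‖ < R / 16)).card ≤ n

variable {ε₁ : ℕ → ℝ} {M : ℕ → ℕ}

omit [InnerProductSpace ℝ E] in
lemma PP_two : PP E ε₁ M 2 := by
  classical
  refine ⟨1 / 2, by norm_num, 0, fun S p R hR hR1 h => ?_⟩
  rw [Nat.le_zero, Finset.card_eq_zero, Finset.filter_eq_empty_iff]
  intro q hq hlt
  have h1 := h q hq (by linarith)
  obtain ⟨m, hm, r₁, hr₁, hnear⟩ := S.near q hq
  have h2 := S.mono q hq (min (r₁ / 2) (R / 2)) (R / 2) (by positivity) (min_le_right _ _)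
    (by linarith)
  have h3 : min (r₁ / 2) (R / 2) < r₁ := (min_le_left _ _).trans_lt (by linarith)
  rw [hnear _ ⟨by positivity, h3⟩] at h2
  have h4 : (3 : ℝ) ≤ m := by exact_mod_cast hm
  push_cast at h1
  linarith

omit [InnerProductSpace ℝ E] in
lemma PP_succ [NormedSpace ℝ E] [FiniteDimensional ℝ E] (hε₁ : ∀ k, 0 < ε₁ k) {k : ℕ}
    (hk : 2 ≤ k) (hP : PP E ε₁ M k) : PP E ε₁ M (k + 1) := by
  classical
  obtain ⟨ε', hε', n', hP⟩ := hP
  set ε : ℝ := min (ε₁ (k + 1)) (min (ε' / 8) (1 / 8)) with hε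
  have hε0 : 0 < ε := lt_min (hε₁ _) (lt_min (by positivity) (by norm_num))
  have hεa : ε ≤ ε₁ (k + 1) := min_le_left _ _
  have hεb : ε ≤ ε' / 8 := (min_le_right _ _).trans (min_le_left _ _)
  have hεc : ε ≤ 1 / 8 := (min_le_right _ _).trans (min_le_right _ _)
  obtain ⟨J, hJ⟩ := exists_nat_gt (1 / ε)
  have hJε : 1 < J * ε := by
    rwa [div_lt_iff₀ hε0] at hJ
  obtain ⟨m₁, hm₁⟩ := exists_cover (E := E) (4 ^ (J + 2))
  obtain ⟨m₂, hm₂⟩ := exists_cover (E := E) (17 * 4 ^ (J + 1))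
  refine ⟨ε, hε0, m₁ * n' + (M (k + 1) + m₂ * n') + (M (k + 1) + 1),
    fun S p R hR hR1 h => ?_⟩
  set W := S.V.filter (fun x => ‖x - p‖ < R / 16) with hW
  set B := S.V.filter (fun x => ‖x - p‖ < R / 8) with hB
  set s : ℕ → ℝ := fun j => R / 2 * (1 / 4) ^ j with hs
  have hs0 : ∀ j, 0 < s j := fun j => by positivity
  have hsanti : ∀ i j, i ≤ j → s j ≤ s i := by
    intro i j hij
    exact mul_le_mul_of_nonneg_left (pow_le_pow_of_le_one (by norm_num) (by norm_num) hij)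
      (by positivity)
  have hsR : ∀ j, s j ≤ R / 2 := by
    intro j
    have := hsanti 0 j (Nat.zero_le _)
    simpa [hs] using this
  have hWB : W ⊆ B := by
    intro x hx
    rw [hW, Finset.mem_filter] at hx
    rw [hB, Finset.mem_filter]
    exact ⟨hx.1, by linarith [hx.2]⟩
  have hBV : ∀ q ∈ B, q ∈ S.V ∧ ‖q - p‖ < R / 8 := fun q hq => Finset.mem_filter.1 hq
  have hWV : ∀ q ∈ W, q ∈ S.V ∧ ‖q - p‖ < R / 16 := fun q hq => Finset.mem_filter.1 hq
  have hmono : ∀ q ∈ B, ∀ r r' : ℝ, 0 < r → r ≤ r' → r' ≤ R / 2 → S.D q r ≤ S.D q r' :=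
    fun q hq r r' h0 h1 h2 => S.mono q (hBV q hq).1 r r' h0 h1 (by linarith)
  have hup : ∀ q ∈ B, S.D q (R / 2) ≤ k + 1 + ε := by
    intro q hq
    have h1 := h q (hBV q hq).1 (by linarith [(hBV q hq).2])
    push_cast at h1
    linarith
  by_cases hQ : ∀ q ∈ B, ∃ j, S.D q (s j) ≤ k + ε'
  · -- uniform scale
    have hex : ∃ j, ∀ q ∈ B, S.D q (s j) ≤ k + ε' := by
      choose! f hf using hQ
      refine ⟨B.sup f, fun q hq => ?_⟩
      refine le_trans ?_ (hf q hq)
      exact hmono q hq _ _ (hs0 _) (hsanti _ _ (Finset.le_sup (f := f) hq)) (hsR _)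
    have hup2 : ∀ i j, i ≤ j → (∀ q ∈ B, S.D q (s i) ≤ k + ε') →
        (∀ q ∈ B, S.D q (s j) ≤ k + ε') := by
      intro i j hij hi q hq
      exact (hmono q hq _ _ (hs0 _) (hsanti _ _ hij) (hsR _)).trans (hi q hq)
    have hcount : ∀ j, 2 ≤ j → (∀ q ∈ B, S.D q (s j) ≤ k + ε') → ∀ p' ∈ W,
        (S.V.filter (fun x => ‖x - p'‖ < R * (1 / 4) ^ j / 16)).card ≤ n' := by
      intro j hj hQj p' hp'
      have h16 : (1 / 4 : ℝ) ^ j ≤ 1 / 16 := by
        calc (1 / 4 : ℝ) ^ j ≤ (1 / 4) ^ 2 := pow_le_pow_of_le_one (by norm_num) (by norm_num) hj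
          _ = 1 / 16 := by norm_num
      have hpos : (0 : ℝ) < (1 / 4) ^ j := by positivity
      have hle : R * (1 / 4) ^ j ≤ R / 16 := by
        calc R * (1 / 4) ^ j ≤ R * (1 / 16) := by gcongr
          _ = R / 16 := by ring
      refine hP S p' (R * (1 / 4) ^ j) (by positivity) (by linarith) fun q hq hqp => ?_
      have hqB : q ∈ B := by
        rw [hB, Finset.mem_filter]
        refine ⟨hq, ?_⟩
        have h1 : q - p = (q - p') + (p' - p) := by abel
        rw [h1]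
        have := norm_add_le (q - p') (p' - p)
        linarith [(hWV p' hp').2]
      have h2 := hQj q hqB
      have h3 : s j = R * (1 / 4) ^ j / 2 := by simp only [hs]; ring
      rw [h3] at h2
      exact h2
    have hsubW : ∀ (p' : E) (r : ℝ), (W.filter (fun x => x ∈ ball p' r)).card ≤
        (S.V.filter (fun x => ‖x - p'‖ < r)).card := by
      intro p' r
      refine Finset.card_le_card ?_
      intro x hx
      rw [Finset.mem_filter, mem_ball, dist_eq_norm] at hx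
      rw [Finset.mem_filter]
      exact ⟨(hWV x hx.1).1, hx.2⟩
    set j₀ := Nat.find hex with hj₀
    have hj₀spec : ∀ q ∈ B, S.D q (s j₀) ≤ k + ε' := Nat.find_spec hex
    by_cases hcase : j₀ ≤ J + 2
    · -- (a)
      have hQJ := hup2 j₀ (J + 2) hcase hj₀spec
      have h1 := hm₁ p (R * (1 / 4) ^ (J + 2) / 16) (by positivity) W ?_ n' ?_
      · omega
      · intro x hx
        have h2 : (4 : ℝ) ^ (J + 2) * (R * (1 / 4) ^ (J + 2) / 16) = R / 16 := by
          rw [one_div, inv_pow]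
          field_simp
        rw [h2]
        exact (hWV x hx).2.le
      · intro p' hp'
        exact (hsubW _ _).trans (hcount (J + 2) (by omega) hQJ p' hp')
    · -- (b)
      push Not at hcase
      have hnot : ¬ ∀ q ∈ B, S.D q (s (j₀ - 1)) ≤ k + ε' := Nat.find_min hex (by omega)
      push Not at hnot
      obtain ⟨q₀, hq₀, hq₀'⟩ := hnot
      have hpig : ∃ i < J, S.D q₀ (s (j₀ - 1 - (i + 1))) - S.D q₀ (s (j₀ - 1 - i)) ≤ ε := by
        by_contra hcon
        push Not at hcon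
        have hind : ∀ i ≤ J, S.D q₀ (s (j₀ - 1)) + i * ε ≤ S.D q₀ (s (j₀ - 1 - i)) := by
          intro i
          induction i with
          | zero => intro _; simp
          | succ i ih =>
            intro hi
            have h1 := ih (by omega)
            have h2 := hcon i (by omega)
            push_cast
            linarith
        have h1 := hind J le_rfl
        have h2 := hmono q₀ hq₀ (s (j₀ - 1 - J)) (R / 2) (hs0 _) (hsR _) le_rfl
        have h3 := hup q₀ hq₀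
        linarith
      obtain ⟨i, hi, hstep⟩ := hpig
      set j := j₀ - 1 - i with hj
      have hj1 : j₀ - 1 - (i + 1) = j - 1 := by omega
      rw [hj1] at hstep
      have hj3 : 3 ≤ j := by omega
      have h4s : 4 * s j = s (j - 1) := by
        obtain ⟨j', hj'⟩ : ∃ j', j = j' + 1 := ⟨j - 1, by omega⟩
        rw [hj']
        simp only [hs, Nat.add_sub_cancel, pow_succ]
        ring
      have hq₀V := (hBV q₀ hq₀).1
      rw [← h4s] at hstep
      have h4le : 4 * s j ≤ R / 2 := by rw [h4s]; exact hsR _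
      obtain ⟨r, hr, c, hc1, hc2⟩ := S.quant q₀ hq₀V ε hε0 (s j) (hs0 j) (by linarith) hstep
      have hr0 : 0 < r := (hs0 j).trans hr.1
      have hrR : r ≤ R / 2 := hr.2.le.trans h4le
      have hDr : (k : ℝ) + ε' < S.D q₀ r := by
        refine hq₀'.trans_le ?_
        refine hmono q₀ hq₀ _ _ (hs0 _) ?_ hrR
        exact (hsanti j (j₀ - 1) (by omega)).trans hr.1.le
      have hDr2 : S.D q₀ r ≤ k + 1 + ε := (hmono q₀ hq₀ r (R / 2) hr0 hrR le_rfl).trans
        (hup q₀ hq₀)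
      have hck : c = k + 1 := by
        have h1 : (k : ℝ) < c := by linarith
        have h2 : (c : ℝ) < (k + 2 : ℕ) := by push_cast; linarith
        have h3 : k < c := by exact_mod_cast h1
        have h4 : c < k + 2 := by exact_mod_cast h2
        omega
      rw [hck] at hc2
      push_cast at hc2
      have hann := S.ann q₀ hq₀V (k + 1) (by omega) (s (j - 1)) (R / 2) (hs0 _) (by linarith) ?_
      · -- count
        set A := S.V.filter (fun x => 201 / 100 * s (j - 1) ≤ ‖x - q₀‖ ∧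
          ‖x - q₀‖ ≤ 49 / 100 * (R / 2)) with hA
        set W' := W.filter (fun x => ‖x - q₀‖ < 201 / 100 * s (j - 1)) with hW'
        have hsplit : W ⊆ A ∪ W' := by
          intro x hx
          rw [Finset.mem_union]
          by_cases hx2 : ‖x - q₀‖ < 201 / 100 * s (j - 1)
          · right
            rw [hW', Finset.mem_filter]
            exact ⟨hx, hx2⟩
          · left
            rw [hA, Finset.mem_filter]
            push Not at hx2
            refine ⟨(hWV x hx).1, hx2, ?_⟩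
            have h1 : x - q₀ = (x - p) - (q₀ - p) := by abel
            rw [h1]
            have := norm_sub_le (x - p) (q₀ - p)
            linarith [(hWV x hx).2, (hBV q₀ hq₀).2]
        have hW'c : W'.card ≤ m₂ * n' := by
          refine hm₂ q₀ (R * (1 / 4) ^ j₀ / 16) (by positivity) W' ?_ n' ?_
          · intro x hx
            rw [hW', Finset.mem_filter] at hx
            refine hx.2.le.trans ?_
            have h1 : (1 / 4 : ℝ) ^ (j - 1) ≤ 4 ^ (J + 1) * (1 / 4) ^ j₀ := by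
              have h2 : (1 / 4 : ℝ) ^ (j - 1 + (J + 1)) ≤ (1 / 4) ^ j₀ :=
                pow_le_pow_of_le_one (by norm_num) (by norm_num) (by omega)
              have h3 : (1 / 4 : ℝ) ^ (j - 1) = 4 ^ (J + 1) * (1 / 4) ^ (j - 1 + (J + 1)) := by
                have h4 : (4 : ℝ) ^ (J + 1) * (1 / 4) ^ (J + 1) = 1 := by
                  rw [← mul_pow]
                  norm_num
                rw [pow_add (1 / 4 : ℝ) (j - 1) (J + 1), mul_left_comm, h4, mul_one]
              rw [h3]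
              gcongr
            simp only [hs]
            calc 201 / 100 * (R / 2 * (1 / 4) ^ (j - 1))
                ≤ 201 / 100 * (R / 2 * (4 ^ (J + 1) * (1 / 4) ^ j₀)) := by gcongr
              _ = (201 / 200) * (R * (4 ^ (J + 1) * (1 / 4) ^ j₀)) := by ring
              _ ≤ (17 / 16) * (R * (4 ^ (J + 1) * (1 / 4) ^ j₀)) := by
                  have : 0 ≤ R * (4 ^ (J + 1) * (1 / 4) ^ j₀) := by positivity
                  nlinarith
              _ = 17 * 4 ^ (J + 1) * (R * (1 / 4) ^ j₀ / 16) := by ring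
          · intro p' hp'
            rw [hW', Finset.mem_filter] at hp'
            refine le_trans (Finset.card_le_card ?_)
              ((hsubW _ _).trans (hcount j₀ (by omega) hj₀spec p' hp'.1))
            exact Finset.filter_subset_filter _ (Finset.filter_subset _ _)
        have h1 := Finset.card_le_card hsplit
        have h2 := Finset.card_union_le A W'
        have h3 : A.card ≤ M (k + 1) := hann
        omega
      · intro r' hr'
        have h1 := hmono q₀ hq₀ r r' hr0 (by rw [← h4s] at hr'; exact (hr.2.trans hr'.1).le)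
          hr'.2.le
        have h2 := hmono q₀ hq₀ r' (R / 2) ((hs0 _).trans hr'.1) hr'.2.le le_rfl
        have h3 := hup q₀ hq₀
        rw [abs_le]
        push_cast
        constructor <;> linarith
  · -- a point with high density at all scales
    push Not at hQ
    obtain ⟨q₀, hq₀, hhigh⟩ := hQ
    have hq₀V := (hBV q₀ hq₀).1
    obtain ⟨m, hm, r₁, hr₁, hnear⟩ := S.near q₀ hq₀V
    obtain ⟨j, hj⟩ : ∃ j, s j < r₁ := by
      have h1 : Tendsto s atTop (𝓝 (R / 2 * 0)) :=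
        (tendsto_pow_atTop_nhds_zero_of_lt_one (by norm_num) (by norm_num)).const_mul _
      rw [mul_zero] at h1
      exact (h1.eventually_lt_const hr₁).exists
    have hmk : k + 1 ≤ m := by
      have h1 := hhigh j
      rw [hnear _ ⟨hs0 j, hj⟩] at h1
      have h2 : (k : ℝ) < m := by linarith
      have h3 : k < m := by exact_mod_cast h2
      omega
    have hmk' : (k : ℝ) + 1 ≤ m := by exact_mod_cast hmk
    obtain ⟨δ, hδ, hδ'⟩ : ∃ δ > 0, ∀ x ∈ S.V, x ≠ q₀ → δ ≤ ‖x - q₀‖ := by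
      by_cases hne : (S.V.erase q₀).Nonempty
      · obtain ⟨x₀, hx₀, hmin⟩ := Finset.exists_min_image _ (fun x => ‖x - q₀‖) hne
        refine ⟨‖x₀ - q₀‖, ?_, fun x hx hxq => hmin x (Finset.mem_erase.2 ⟨hxq, hx⟩)⟩
        exact norm_pos_iff.2 (sub_ne_zero.2 (Finset.mem_erase.1 hx₀).1)
      · refine ⟨1, one_pos, fun x hx hxq => ?_⟩
        exact absurd ⟨x, Finset.mem_erase.2 ⟨hxq, hx⟩⟩ hne
    have hann := S.ann q₀ hq₀V (k + 1) (by omega) (δ / 3) (R / 2) (by positivity)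
      (by linarith) ?_
    · set A := S.V.filter (fun x => 201 / 100 * (δ / 3) ≤ ‖x - q₀‖ ∧
          ‖x - q₀‖ ≤ 49 / 100 * (R / 2)) with hA
      have hsplit : W ⊆ insert q₀ A := by
        intro x hx
        rw [Finset.mem_insert]
        by_cases hxq : x = q₀
        · left; exact hxq
        · right
          rw [hA, Finset.mem_filter]
          refine ⟨(hWV x hx).1, ?_, ?_⟩
          · have := hδ' x (hWV x hx).1 hxq
            linarith
          · have h1 : x - q₀ = (x - p) - (q₀ - p) := by abel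
            rw [h1]
            have := norm_sub_le (x - p) (q₀ - p)
            linarith [(hWV x hx).2, (hBV q₀ hq₀).2]
      have h1 := Finset.card_le_card hsplit
      have h2 := Finset.card_insert_le q₀ A
      have h3 : A.card ≤ M (k + 1) := hann
      omega
    · intro r' hr'
      have hr'0 : 0 < r' := lt_trans (by positivity) hr'.1
      have h1 := hmono q₀ hq₀ (min r' (r₁ / 2)) r' (by positivity) (min_le_left _ _) hr'.2.le
      have h2 : min r' (r₁ / 2) < r₁ := (min_le_right _ _).trans_lt (by linarith)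
      rw [hnear _ ⟨by positivity, h2⟩] at h1
      have h3 := hmono q₀ hq₀ r' (R / 2) hr'0 hr'.2.le le_rfl
      have h4 := hup q₀ hq₀
      rw [abs_le]
      push_cast
      constructor <;> linarith

namespace ONet

variable {𝒢 : LocGeo E} {O : E} {R : ℝ} {N : ONet 𝒢 O R}

/-- quantisation of the density -/
lemma quant (hO : O ∈ U E) {ε r₀ : ℝ} (hε : 0 < ε) (h0 : 0 < r₀) (h4 : 4 * r₀ < R)
    (hinc : N.dens (4 * r₀) - N.dens r₀ ≤ ε) :
    ∃ r ∈ Ioo r₀ (4 * r₀), ∃ c : ℕ, N.dens r ≤ c ∧ c ≤ N.dens r + ε := by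
  by_contra hcon
  push Not at hcon
  have key := le_of_deriv_off_finite (F := fun r => N.dens r - ε * Real.log r) N.crit
    (a := r₀) (b := 4 * r₀) (by linarith) ?_ ?_
  · have h1 : Real.log (4 * r₀) = Real.log 4 + Real.log r₀ :=
      Real.log_mul (by norm_num) h0.ne'
    have h2 : 1 < Real.log 4 := by
      have h3 : (4 : ℝ) = 2 ^ 2 := by norm_num
      rw [h3, Real.log_pow]
      have := Real.log_two_gt_d9
      push_cast
      linarith
    rw [h1] at key
    nlinarith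
  · refine ((dens_cont hO).mono fun x hx => ⟨h0.trans_le hx.1, hx.2.trans_lt h4⟩).sub ?_
    refine continuousOn_const.mul ?_
    refine Real.continuousOn_log.mono fun x hx => ?_
    exact (h0.trans_le hx.1).ne'
  · intro r hr hrc
    have hr0 : 0 < r := h0.trans hr.1
    obtain ⟨D, hD, hD1, -⟩ := dens_deriv hO hrc hr0
    have h1 := hcon r hr (N.actR r).card (dens_le_card hO r)
    refine ⟨_, ?_, hD.sub ((Real.hasDerivAt_log hr0.ne').const_mul ε)⟩
    have h2 : ε * r⁻¹ ≤ (((N.actR r).card : ℝ) - N.dens r) / r := by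
      rw [← div_eq_mul_inv]
      gcongr
      linarith
    linarith

lemma finite_deg (N : ONet 𝒢 O R) : {p | 3 ≤ N.deg p}.Finite := by
  refine ((Set.finite_range (fun a => N.Y a 0)).union
    (Set.finite_range (fun a => N.Y a (N.h a)))).subset ?_
  intro p hp
  by_contra hcon
  rw [mem_union, not_or] at hcon
  have e1 : {a | N.Y a 0 = p} = ∅ := by
    ext a
    simp only [mem_setOf_eq, mem_empty_iff_false, iff_false]
    exact fun h => hcon.1 ⟨a, h⟩
  have e2 : {a | N.Y a (N.h a) = p} = ∅ := by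
    ext a
    simp only [mem_setOf_eq, mem_empty_iff_false, iff_false]
    exact fun h => hcon.2 ⟨a, h⟩
  have h3 : 3 ≤ N.deg p := hp
  unfold deg outD inD at h3
  rw [e1, e2] at h3
  simp at h3

end ONet

lemma LNet.finite_deg {𝒢 : LocGeo E} (𝒩 : LNet 𝒢) : {p | 3 ≤ 𝒩.deg p}.Finite := by
  refine ((Set.finite_range (fun a => 𝒩.X a 0)).union
    (Set.finite_range (fun a => 𝒩.X a (𝒩.h a)))).subset ?_
  intro p hp
  by_contra hcon
  rw [mem_union, not_or] at hcon
  have e1 : {a | 𝒩.X a 0 = p} = ∅ := by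
    ext a
    simp only [mem_setOf_eq, mem_empty_iff_false, iff_false]
    exact fun h => hcon.1 ⟨a, h⟩
  have e2 : {a | 𝒩.X a (𝒩.h a) = p} = ∅ := by
    ext a
    simp only [mem_setOf_eq, mem_empty_iff_false, iff_false]
    exact fun h => hcon.2 ⟨a, h⟩
  have h3 : 3 ≤ 𝒩.deg p := hp
  unfold LNet.deg at h3
  rw [e1, e2] at h3
  simp at h3

theorem local_bound_of [FiniteDimensional ℝ E] (hann : AnnulusBound E)
    (hconv : ∀ (𝒢 : LocGeo E) (𝒩 : LNet 𝒢) (O : E), O ∈ ball (0 : E) 1 →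
      ∃ N : ONet 𝒢 O (1 / 2),
        (∀ p, 3 ≤ 𝒩.deg p ↔ 3 ≤ N.deg p) ∧
        (3 ≤ 𝒩.deg O → ∃ r₁ > 0, ∀ r ∈ Ioo 0 r₁, N.dens r = 𝒩.deg O) ∧
        N.dens (1 / 4) ≤ 4 * 𝒩.length) (L : ℝ) :
    ∃ N : ℕ, ∀ (𝒢 : LocGeo E) (𝒩 : LNet 𝒢), 𝒩.length ≤ L →
      {p | p ∈ ball (0 : E) (1 / 32) ∧ 3 ≤ 𝒩.deg p}.ncard ≤ N := by
  classical
  have hann' : ∀ k : ℕ, ∃ ε > 0, ∃ M : ℕ, 3 ≤ k → ∀ (𝒢 : LocGeo E) (O : E) (R : ℝ)
      (N : ONet 𝒢 O R) (R₁ R₂ : ℝ),
      O ∈ ball (0 : E) (1 / 2) → R ≤ 1 / 2 → 0 < R₁ → R₂ ≤ R →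
      (∀ r ∈ Ioo R₁ R₂, |N.dens r - k| ≤ ε) →
      {p | p ∈ U E ∧ 3 ≤ N.deg p ∧ 2 * R₁ ≤ 𝒢.rho O p ∧ 𝒢.rho O p ≤ R₂ / 2}.ncard ≤ M := by
    intro k
    by_cases hk : 3 ≤ k
    · obtain ⟨ε, hε, M, hM⟩ := hann k hk
      exact ⟨ε, hε, M, fun _ => hM⟩
    · exact ⟨1, one_pos, 0, fun h => absurd h hk⟩
  choose ε₁ hε₁ M hM using hann'
  have hPP : ∀ k, 2 ≤ k → PP E ε₁ M k := by
    intro k hk
    induction k, hk using Nat.le_induction with
    | base => exact PP_two
    | succ k hk ih => exact PP_succ hε₁ hk ih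
  obtain ⟨k, hk⟩ := exists_nat_ge (4 * L)
  obtain ⟨ε, hε, n, hn⟩ := hPP (k + 2) (by omega)
  refine ⟨n, fun 𝒢 𝒩 hL => ?_⟩
  have hVfin : {p | p ∈ ball (0 : E) (1 / 2) ∧ 3 ≤ 𝒩.deg p}.Finite :=
    𝒩.finite_deg.subset fun p hp => hp.2
  choose N hN1 hN2 hN3 using hconv 𝒢 𝒩
  have hO3 : ∀ {q : E}, q ∈ ball (0 : E) 1 → q ∈ U E := fun h =>
    ball_subset_ball (by norm_num) h
  have hV' : ∀ {q}, q ∈ hVfin.toFinset → q ∈ ball (0 : E) (1 / 2) := fun h =>
    (hVfin.mem_toFinset.1 h).1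
  have hV : ∀ {q}, q ∈ hVfin.toFinset → q ∈ ball (0 : E) 1 ∧ 3 ≤ 𝒩.deg q := fun h =>
    ⟨ball_subset_ball (by norm_num) (hVfin.mem_toFinset.1 h).1, (hVfin.mem_toFinset.1 h).2⟩
  let S : Sys E ε₁ M :=
    { V := hVfin.toFinset
      D := fun q r => if h : q ∈ ball (0 : E) 1 then (N q h).dens r else 0
      mono := by
        intro q hq r r' h0 h1 h2
        simp only [dif_pos (hV hq).1]
        exact ONet.dens_mono (hO3 (hV hq).1) h0 h1 h2
      near := by
        intro q hq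
        obtain ⟨r₁, hr₁, hr⟩ := hN2 q (hV hq).1 (hV hq).2
        refine ⟨𝒩.deg q, (hV hq).2, r₁, hr₁, fun r hr' => ?_⟩
        simp only [dif_pos (hV hq).1]
        exact hr r hr'
      quant := by
        intro q hq ε hε r₀ h0 h4 hinc
        simp only [dif_pos (hV hq).1] at hinc ⊢
        exact ONet.quant (hO3 (hV hq).1) hε h0 h4 hinc
      ann := by
        intro q hq k hk R₁ R₂ h1 h2 h3
        simp only [dif_pos (hV hq).1] at h3
        have h4 := hM k hk 𝒢 q (1 / 2) (N q (hV hq).1) R₁ R₂ (hV' hq) le_rfl h1 h2 h3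
        refine le_trans ?_ h4
        rw [← Set.ncard_coe_finset]
        refine Set.ncard_le_ncard ?_ ((N q (hV hq).1).finite_deg.subset fun p hp => hp.2.1)
        intro x hx
        rw [Finset.mem_coe, Finset.mem_filter] at hx
        have hxV := hV hx.1
        have hqU := hO3 (hV hq).1
        have hxU := hO3 hxV.1
        have h5 := LocGeo.rho_le_dist (𝒢 := 𝒢) hqU hxU
        have h6 := norm_nonneg (x - q)
        refine ⟨hxU, (hN1 q (hV hq).1 x).1 hxV.2, ?_, ?_⟩
        · linarith [hx.2.1, h5.2]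
        · linarith [hx.2.2, h5.1] }
  have h1 := hn S 0 (1 / 2) (by norm_num) le_rfl ?_
  · refine le_trans ?_ h1
    rw [← Set.ncard_coe_finset]
    refine Set.ncard_le_ncard ?_ (Finset.finite_toSet _)
    intro x hx
    rw [Finset.mem_coe, Finset.mem_filter]
    have hx1 : x ∈ ball (0 : E) (1 / 2) := ball_subset_ball (by norm_num) hx.1
    refine ⟨hVfin.mem_toFinset.2 ⟨hx1, hx.2⟩, ?_⟩
    have h2 := mem_ball_zero_iff.1 hx.1
    rw [sub_zero]
    linarith
  · intro q hq _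
    show (if h : q ∈ ball (0 : E) 1 then (N q h).dens (1 / 2 / 2) else 0) ≤ _
    rw [dif_pos (hV hq).1]
    have h2 := hN3 q (hV hq).1
    have h3 : (1 / 2 / 2 : ℝ) = 1 / 4 := by norm_num
    rw [h3]
    push_cast
    linarith

end Pool.Agent.GeoNet
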