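import Pool.Agent.GeoNet.Tools

/-!
# Lengths of closed sets of arcs in a shell, and first variation
-/

namespace Pool.Agent.GeoNet

open Set Metric Filter
open scoped Topology RealInnerProductSpace

variable {E : Type*} [NormedAddCommGroup E] [InnerProductSpace ℝ E]

namespace ONet

variable {𝒢 : LocGeo E} {O : E} {R : ℝ} (N : ONet 𝒢 O R)

/-- the radius `r` clamped to the range of radii of the arc `a` -/
noncomputable def cl (a : N.A) (r : ℝ) : ℝ := max (N.al a) (min r (N.be a))

/-- the length of the arcs of `K` inside the ball of radius `r` around the centre -/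
noncomputable def len (K : Finset N.A) (r : ℝ) : ℝ := ∑ a ∈ K, N.sg a (N.cl a r)

variable {N}

lemma cl_mem (a : N.A) (r : ℝ) : N.cl a r ∈ Icc (N.al a) (N.be a) :=
  ⟨le_max_left _ _, max_le (al_lt_be a).le (min_le_right _ _)⟩

lemma cl_cont (a : N.A) : Continuous (N.cl a) :=
  continuous_const.max (continuous_id.min continuous_const)

lemma cl_mono (a : N.A) : Monotone (N.cl a) := fun _ _ h =>
  max_le_max le_rfl (min_le_min h le_rfl)

lemma cl_eq {a : N.A} {r : ℝ} (hr : r ∈ Icc (N.al a) (N.be a)) : N.cl a r = r := by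
  unfold cl; rw [min_eq_left hr.2, max_eq_right hr.1]

lemma cl_of_le {a : N.A} {r : ℝ} (hr : r ≤ N.al a) : N.cl a r = N.al a := by
  unfold cl; rw [max_eq_left ((min_le_left _ _).trans hr)]

lemma cl_of_ge {a : N.A} {r : ℝ} (hr : N.be a ≤ r) : N.cl a r = N.be a := by
  unfold cl; rw [min_eq_right hr, max_eq_right (al_lt_be a).le]

lemma len_cont (hO : O ∈ U E) (K : Finset N.A) : Continuous (N.len K) := by
  unfold len
  apply continuous_finsetSum
  intro a _
  exact (sg_cont hO a).comp_continuous (cl_cont a) (cl_mem a)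

lemma sgcl_mono (hO : O ∈ U E) (a : N.A) : Monotone (fun r => N.sg a (N.cl a r)) := by
  intro r r' h
  exact (sg_strictMono hO a).monotoneOn (cl_mem a r) (cl_mem a r') (cl_mono a h)

lemma len_mono (hO : O ∈ U E) (K : Finset N.A) : Monotone (N.len K) := by
  intro r r' h
  exact Finset.sum_le_sum fun a _ => sgcl_mono hO a h

lemma len_deriv (hO : O ∈ U E) {K : Finset N.A} {r : ℝ} (hr : r ∉ N.crit) :
    HasDerivAt (N.len K) (N.sR K (fun a r => (N.co a r)⁻¹) r) r := by
  classical
  have hr' : ∀ a, N.al a ≠ r ∧ N.be a ≠ r := by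
    rw [mem_crit] at hr
    push Not at hr
    exact fun a => ⟨hr.1 a, hr.2 a⟩
  have h1 : HasDerivAt (N.len K)
      (∑ a ∈ K, if N.al a ≤ r ∧ r < N.be a then (N.co a r)⁻¹ else 0) r := by
    apply HasDerivAt.fun_sum
    intro a _
    split_ifs with h
    · have h2 : r ∈ Ioo (N.al a) (N.be a) := ⟨lt_of_le_of_ne h.1 (hr' a).1, h.2⟩
      have h0 : 0 < r := lt_of_le_of_lt (al_nonneg a) h2.1
      have h3 := (sg_deriv hO ⟨h2.1.le, h2.2.le⟩ h0 (co_pos hO ⟨h2.1, h2.2.le⟩)).hasDerivAt
        (Icc_mem_nhds h2.1 h2.2)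
      refine h3.congr_of_eventuallyEq ?_
      filter_upwards [Icc_mem_nhds h2.1 h2.2] with x hx
      rw [cl_eq hx]
    · rcases lt_or_gt_of_ne (hr' a).1 with h1 | h1
      · have h2 : N.be a < r := by
          by_contra hcon
          push Not at hcon
          exact h ⟨h1.le, lt_of_le_of_ne hcon (hr' a).2.symm⟩
        refine (hasDerivAt_const r (N.sg a (N.be a))).congr_of_eventuallyEq ?_
        filter_upwards [Ioi_mem_nhds h2] with x hx
        rw [cl_of_ge (le_of_lt hx)]
      · refine (hasDerivAt_const r (N.sg a (N.al a))).congr_of_eventuallyEq ?_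
        filter_upwards [Iio_mem_nhds h1] with x hx
        rw [cl_of_le (le_of_lt hx)]
  convert h1 using 1
  unfold sR
  rw [Finset.sum_filter]

lemma sR_right {K : Finset N.A} {φ : N.A → ℝ → ℝ}
    (hφ : ∀ a ∈ K, ContinuousOn (φ a) (Icc (N.al a) (N.be a))) (r : ℝ) :
    ContinuousWithinAt (N.sR K φ) (Ici r) r := by
  classical
  have h1 : ContinuousWithinAt (fun r' => ∑ a ∈ K with N.al a ≤ r ∧ r < N.be a, φ a r')
      (Ici r) r := by
    apply tendsto_finsetSum
    intro a ha
    rw [Finset.mem_filter] at ha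
    have h2 := hφ a ha.1 r ⟨ha.2.1, ha.2.2.le⟩
    refine h2.mono_of_mem_nhdsWithin ?_
    exact mem_of_superset (Ico_mem_nhdsGE ha.2.2) (fun x hx => ⟨ha.2.1.trans hx.1, hx.2.le⟩)
  refine h1.congr_of_eventuallyEq ?_ rfl
  filter_upwards [ev_actR_right (N := N) r] with r' hr'
  unfold sR
  apply Finset.sum_congr _ (fun _ _ => rfl)
  ext a
  simp only [Finset.mem_filter, hr' a]

lemma sR_left {K : Finset N.A} {φ : N.A → ℝ → ℝ}
    (hφ : ∀ a ∈ K, ContinuousOn (φ a) (Icc (N.al a) (N.be a))) {r : ℝ}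
    (hbal : N.sR K φ r = N.sL K φ r) :
    ContinuousWithinAt (N.sR K φ) (Iio r) r := by
  classical
  have h1 : ContinuousWithinAt (fun r' => ∑ a ∈ K with N.al a < r ∧ r ≤ N.be a, φ a r')
      (Iio r) r := by
    apply tendsto_finsetSum
    intro a ha
    rw [Finset.mem_filter] at ha
    have h2 := hφ a ha.1 r ⟨ha.2.1.le, ha.2.2⟩
    refine h2.mono_of_mem_nhdsWithin ?_
    exact mem_of_superset (Ioo_mem_nhdsLT ha.2.1)
      (fun x hx => ⟨hx.1.le, hx.2.le.trans ha.2.2⟩)
  have h2 : ContinuousWithinAt (N.sR K φ) (Iio r) r ↔ Tendsto (N.sR K φ) (𝓝[<] r)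
    (𝓝 (N.sR K φ r)) := Iff.rfl
  rw [h2, hbal]
  refine Tendsto.congr' ?_ h1
  filter_upwards [ev_actR_left (N := N) r] with r' hr'
  unfold sR
  apply Finset.sum_congr _ (fun _ _ => rfl)
  ext a
  simp only [Finset.mem_filter, hr' a]

lemma sR_contIcc {K : Finset N.A} {φ : N.A → ℝ → ℝ} {a b : ℝ}
    (hφ : ∀ a ∈ K, ContinuousOn (φ a) (Icc (N.al a) (N.be a)))
    (hbal : ∀ r ∈ Ioc a b, N.sR K φ r = N.sL K φ r) :
    ContinuousOn (N.sR K φ) (Icc a b) := by
  intro r hr
  have h1 := sR_right hφ r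
  rcases eq_or_lt_of_le hr.1 with h | h
  · subst h
    exact h1.mono (fun x hx => hx.1)
  · have h2 := sR_left hφ (hbal r ⟨h, hr.2⟩)
    have : ContinuousAt (N.sR K φ) r := by
      rw [ContinuousAt, ← nhdsLT_sup_nhdsGE, tendsto_sup]
      exact ⟨h2, h1⟩
    exact this.continuousWithinAt

/-- the balance at radius `r` of the radial components of a closed set of arcs -/
lemma co_bal (hO : O ∈ U E) {K : Finset N.A} {r : ℝ} (h0 : 0 < r) (hR : r < R)
    (hK : N.ClosedAt K r) : N.sR K N.co r = N.sL K N.co r := by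
  have h1 := closed_bal (N := N) hO h0 hR hK (φ := fun a r => r * N.co a r)
    (L := fun x => 𝒢.g x (𝒢.Z O x)) (fun a _ r hr => (gZ_eq hO hr).symm)
  have e1 : N.sR K (fun a r => r * N.co a r) r = r * N.sR K N.co r := by
    unfold sR; rw [Finset.mul_sum]
  have e2 : N.sL K (fun a r => r * N.co a r) r = r * N.sL K N.co r := by
    unfold sL; rw [Finset.mul_sum]
  rw [e1, e2] at h1
  exact mul_left_cancel₀ h0.ne' h1

lemma sR_co_cont (hO : O ∈ U E) {K : Finset N.A} {a b : ℝ} (h0 : 0 < a) (hR : b < R)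
    (hK : ∀ r ∈ Icc a b, N.ClosedAt K r) : ContinuousOn (N.sR K N.co) (Icc a b) := by
  have h1 : ContinuousOn (N.sR K (fun a r => r * N.co a r)) (Icc a b) := by
    apply sR_contIcc (fun a _ => co_cont hO a)
    intro r hr
    exact closed_bal (N := N) hO (h0.trans hr.1) (hr.2.trans_lt hR) (hK r ⟨hr.1.le, hr.2⟩)
      (L := fun x => 𝒢.g x (𝒢.Z O x)) (fun a _ r hr => (gZ_eq hO hr).symm)
  have h2 : ContinuousOn (fun r => N.sR K (fun a r => r * N.co a r) r / r)
      (Icc a b) := h1.div continuousOn_id (fun r hr => (h0.trans_le hr.1).ne')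
  refine h2.congr ?_
  intro r hr
  have h3 : r ≠ 0 := (h0.trans_le hr.1).ne'
  have e1 : N.sR K (fun a r => r * N.co a r) r = r * N.sR K N.co r := by
    unfold sR; rw [Finset.mul_sum]
  simp only
  rw [e1]
  field_simp

/-- the partial densities are monotone -/
lemma sR_co_mono (hO : O ∈ U E) {K : Finset N.A} {a b : ℝ} (h0 : 0 < a) (hab : a ≤ b)
    (hR : b < R) (hK : ∀ r ∈ Icc a b, N.ClosedAt K r) : N.sR K N.co a ≤ N.sR K N.co b := by
  classical
  apply le_of_deriv_off_finite N.crit hab (sR_co_cont hO h0 hR hK)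
  intro r hr hrc
  have hr0 : 0 < r := h0.trans hr.1
  have h1 : ∀ a : N.A, ∃ D : ℝ, r ∈ Ioo (N.al a) (N.be a) → HasDerivAt (N.co a) D r ∧ 0 ≤ D := by
    intro a
    by_cases ha : r ∈ Ioo (N.al a) (N.be a)
    · obtain ⟨D, hD, hD1, -⟩ := co_deriv hO ha
      refine ⟨D, fun _ => ⟨hD, le_trans ?_ hD1⟩⟩
      have := co_le_one hO (a := a) (r := r) ⟨ha.1.le, ha.2.le⟩
      exact div_nonneg (by linarith) hr0.le
    · exact ⟨0, fun h => absurd h ha⟩
  choose D hD using h1
  refine ⟨_, ?_, sR_deriv hrc (fun a _ ha => (hD a ha).1)⟩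
  have hr' : ∀ a, N.al a ≠ r ∧ N.be a ≠ r := by
    rw [mem_crit] at hrc
    push Not at hrc
    exact fun a => ⟨hrc.1 a, hrc.2 a⟩
  unfold sR
  apply Finset.sum_nonneg
  intro a ha
  rw [Finset.mem_filter] at ha
  exact (hD a ⟨lt_of_le_of_ne ha.2.1 (hr' a).1, ha.2.2⟩).2

/-- first variation of the length of a closed set of arcs in the shell `a ≤ rho ≤ b` -/
lemma first_var (hO : O ∈ U E) {K : Finset N.A} {a b s : ℝ} {x₀ : E} (hx₀ : x₀ ∈ U E)
    (h0 : 0 < a) (hab : a ≤ b) (hR : b < R) (hK : ∀ r ∈ Icc a b, N.ClosedAt K r)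
    (hs : ∀ c ∈ K, ∀ r ∈ Icc a b, r ∈ Icc (N.al c) (N.be c) → ‖N.pos c r - x₀‖ ≤ s) :
    (1 - 3 / 1000 * s) * (N.len K b - N.len K a) ≤
      N.sR K (fun c r => 𝒢.g x₀ (N.tan c r) (N.pos c r - x₀)) b
        - N.sL K (fun c r => 𝒢.g x₀ (N.tan c r) (N.pos c r - x₀)) a := by
  classical
  set φ : N.A → ℝ → ℝ := fun c r => 𝒢.g x₀ (N.tan c r) (N.pos c r - x₀) with hφ
  have hbal : ∀ r ∈ Icc a b, N.sR K φ r = N.sL K φ r := by
    intro r hr
    apply closed_bal (N := N) hO (h0.trans_le hr.1) (hr.2.trans_lt hR) (hK r hr)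
      (L := fun x => (𝒢.g x₀).flip (x - x₀))
    intro c _ r' _
    simp only [hφ, ContinuousLinearMap.flip_apply]
  have hcont : ∀ c ∈ K, ContinuousOn (φ c) (Icc (N.al c) (N.be c)) := by
    intro c _
    have h1 : ContinuousOn (fun r => 𝒢.g x₀ (N.tan c r)) (Icc (N.al c) (N.be c)) :=
      (𝒢.g x₀).continuous.comp_continuousOn (tan_cont hO c)
    exact h1.clm_apply ((pos_cont hO c).sub continuousOn_const)
  have key : N.sR K φ a - (1 - 3 / 1000 * s) * N.len K a ≤
      N.sR K φ b - (1 - 3 / 1000 * s) * N.len K b := by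
    apply le_of_deriv_off_finite (F := fun r => N.sR K φ r - (1 - 3 / 1000 * s) * N.len K r)
      N.crit hab
    · exact (sR_contIcc hcont (fun r hr => hbal r ⟨hr.1.le, hr.2⟩)).sub
        (continuous_const.mul (len_cont hO K)).continuousOn
    · intro r hr hrc
      have h1 : ∀ c : N.A, ∃ D : ℝ, c ∈ K → r ∈ Ioo (N.al c) (N.be c) → HasDerivAt (φ c) D r ∧
          (1 - 3 / 1000 * s) * (N.co c r)⁻¹ ≤ D := by
        intro c
        by_cases hcK : c ∈ K
        · by_cases hc : r ∈ Ioo (N.al c) (N.be c)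
          · have hc' : r ∈ Icc (N.al c) (N.be c) := ⟨hc.1.le, hc.2.le⟩
            obtain ⟨D, hD, hD1⟩ := (N.geo c).first hx₀ (sg_mem hO hc')
            have h2 := comp_sg_deriv hO hc hD
            refine ⟨_, fun _ _ => ⟨h2, ?_⟩⟩
            have h3 := co_pos hO (a := c) (r := r) ⟨hc.1, hc.2.le⟩
            apply mul_le_mul_of_nonneg_right _ (by positivity)
            have h4 := hs c hcK r ⟨hr.1.le, hr.2.le⟩ hc'
            have h5 : N.pos c r = N.Y c (N.sg c r) := rfl
            rw [h5] at h4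
            linarith
          · exact ⟨0, fun _ h => absurd h hc⟩
        · exact ⟨0, fun h => absurd h hcK⟩
      choose D hD using h1
      refine ⟨_, ?_, (sR_deriv hrc (fun c hc hrr => (hD c hc hrr).1)).sub
        ((len_deriv hO hrc).const_mul _)⟩
      have hr' : ∀ a, N.al a ≠ r ∧ N.be a ≠ r := by
        rw [mem_crit] at hrc
        push Not at hrc
        exact fun a => ⟨hrc.1 a, hrc.2 a⟩
      rw [sub_nonneg]
      unfold sR
      rw [Finset.mul_sum]
      apply Finset.sum_le_sum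
      intro c hc
      rw [Finset.mem_filter] at hc
      exact (hD c hc.1 ⟨lt_of_le_of_ne hc.2.1 (hr' c).1, hc.2.2⟩).2
  rw [← hbal a ⟨le_rfl, hab⟩]
  linarith

/-- lower bound for the length -/
lemma len_ge (hO : O ∈ U E) {k : ℝ} {a b : ℝ} (hab : a ≤ b)
    (hk : ∀ r ∈ Ioo a b, k ≤ (N.actR r).card) :
    k * (b - a) ≤ N.len Finset.univ b - N.len Finset.univ a := by
  classical
  have key : N.len Finset.univ a - k * a ≤ N.len Finset.univ b - k * b := by
    apply le_of_deriv_off_finite (F := fun r => N.len Finset.univ r - k * r) N.crit hab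
    · exact ((len_cont hO _).sub (continuous_const.mul continuous_id)).continuousOn
    · intro r hr hrc
      refine ⟨_, ?_, (len_deriv hO hrc).sub ((hasDerivAt_id r).const_mul k)⟩
      rw [sR_eq, mul_one, sub_nonneg]
      refine (hk r hr).trans ?_
      have hr' : ∀ a, N.al a ≠ r ∧ N.be a ≠ r := by
        rw [mem_crit] at hrc
        push Not at hrc
        exact fun a => ⟨hrc.1 a, hrc.2 a⟩
      calc ((N.actR r).card : ℝ) = ∑ _c ∈ N.actR r, (1 : ℝ) := by simp
        _ ≤ ∑ c ∈ N.actR r, (N.co c r)⁻¹ := by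
            apply Finset.sum_le_sum
            intro c hc
            rw [mem_actR] at hc
            have h1 : r ∈ Ioc (N.al c) (N.be c) := ⟨lt_of_le_of_ne hc.1 (hr' c).1, hc.2.le⟩
            exact (one_le_inv₀ (co_pos hO h1)).2 (co_le_one hO ⟨h1.1.le, h1.2⟩)
  linarith

/-- upper bound for the length -/
lemma len_le (hO : O ∈ U E) {k : ℝ} {a b : ℝ} (h0 : 0 < a) (hab : a ≤ b) (hR : b < R)
    (hk : ∀ r ∈ Icc a b, N.dens r ≤ k) :
    N.len Finset.univ b - N.len Finset.univ a ≤
      2 * b * (N.dens b - N.dens a) + k * (b - a) := by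
  classical
  have hb : 0 < b := h0.trans_le hab
  have key : 2 * b * N.dens a + k * a - N.len Finset.univ a ≤
      2 * b * N.dens b + k * b - N.len Finset.univ b := by
    apply le_of_deriv_off_finite (F := fun r => 2 * b * N.dens r + k * r - N.len Finset.univ r)
      N.crit hab
    · have h1 : ContinuousOn N.dens (Icc a b) := (dens_cont hO).mono
        (fun x hx => ⟨h0.trans_le hx.1, hx.2.trans_lt hR⟩)
      exact ((continuousOn_const.mul h1).add (continuousOn_const.mul continuousOn_id)).sub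
        (len_cont hO _).continuousOn
    · intro r hr hrc
      have hr0 : 0 < r := h0.trans hr.1
      obtain ⟨D, hD, hD1, hD2⟩ := dens_deriv hO hrc hr0
      refine ⟨_, ?_, ((hD.const_mul (2 * b)).add ((hasDerivAt_id r).const_mul k)).sub
        (len_deriv hO hrc)⟩
      rw [sR_eq, mul_one, sub_nonneg]
      have h2 := dens_le_card (N := N) hO r
      have hD0 : 0 ≤ D := le_trans (div_nonneg (by linarith) hr0.le) hD1
      rw [div_le_iff₀ (by positivity)] at hD2
      have h3 := hk r ⟨hr.1.le, hr.2.le⟩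
      have h4 : D * (2 * r) ≤ D * (2 * b) := by
        apply mul_le_mul_of_nonneg_left _ hD0
        linarith [hr.2]
      linarith
  linarith

/-- bad intervals are short -/
lemma bad_short (hO : O ∈ U E) {k : ℝ} {ε a b : ℝ} (h0 : 0 < a) (hab : a ≤ b) (hR : b < R)
    (hε : ε ≤ 1) (hcard : ∀ r ∈ Ioo a b, k + 1 ≤ (N.actR r).card)
    (hk : ∀ r ∈ Icc a b, N.dens r ≤ k + ε) :
    (1 - ε) * (b - a) ≤ b * (N.dens b - N.dens a) := by
  have hb : 0 < b := h0.trans_le hab
  have key : b * N.dens a - (1 - ε) * a ≤ b * N.dens b - (1 - ε) * b := by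
    apply le_of_deriv_off_finite (F := fun r => b * N.dens r - (1 - ε) * r) N.crit hab
    · have h1 : ContinuousOn N.dens (Icc a b) := (dens_cont hO).mono
        (fun x hx => ⟨h0.trans_le hx.1, hx.2.trans_lt hR⟩)
      exact (continuousOn_const.mul h1).sub (continuousOn_const.mul continuousOn_id)
    · intro r hr hrc
      have hr0 : 0 < r := h0.trans hr.1
      obtain ⟨D, hD, hD1, -⟩ := dens_deriv hO hrc hr0
      refine ⟨_, ?_, (hD.const_mul b).sub ((hasDerivAt_id r).const_mul (1 - ε))⟩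
      rw [mul_one, sub_nonneg]
      have h2 := hcard r hr
      have h3 := hk r ⟨hr.1.le, hr.2.le⟩
      rw [div_le_iff₀ hr0] at hD1
      have h4 : 1 - ε ≤ D * r := by linarith
      have hD0 : 0 ≤ D := by
        by_contra hcon
        push Not at hcon
        nlinarith
      have h5 : D * r ≤ D * b := mul_le_mul_of_nonneg_left hr.2.le hD0
      linarith
  linarith

end ONet

end Pool.Agent.GeoNet
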