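import Pool.Agent.GeoNet.MfdMetric

/-! # Charts of a Riemannian manifold in which the metric is nearly Euclidean -/


set_option maxSynthPendingDepth 3

namespace Pool.Agent.GeoNet

open Set Metric Filter Bundle
open scoped Topology RealInnerProductSpace ContDiff Manifold Bundle

lemma scaled_small' {E F F' : Type*} [NormedAddCommGroup E] [NormedSpace ℝ E]
    [NormedAddCommGroup F] [NormedSpace ℝ F] [NormedAddCommGroup F'] [NormedSpace ℝ F']
    (B : E → F) (T : Set E) (ho : IsOpen T) (hB : ContDiffOn ℝ ∞ B T) (y0 : E) (hy0 : y0 ∈ T)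
    (Φ : F →L[ℝ] F') (Ai : E →L[ℝ] E) (κ : ℝ) (hκ : 0 < κ) (g : ℝ → E → F')
    (hg : ∀ r z, g r z = Φ (B (y0 + r • Ai z))) :
    ∃ r : ℝ, 0 < r ∧ (∀ z ∈ ball (0 : E) 10, y0 + r • Ai z ∈ T) ∧
      ContDiffOn ℝ ∞ (g r) (ball 0 10) ∧
      (∀ z ∈ ball (0 : E) 10, ‖g r z - Φ (B y0)‖ ≤ κ) ∧
      (∀ z ∈ ball (0 : E) 10, ∀ ζ, fderiv ℝ (g r) z ζ
        = r • Φ (fderiv ℝ B (y0 + r • Ai z) (Ai ζ))) ∧
      (∀ z ∈ ball (0 : E) 10, ‖fderiv ℝ (g r) z‖ ≤ κ) ∧
      (∀ z ∈ ball (0 : E) 10, ‖fderiv ℝ (fderiv ℝ (g r)) z‖ ≤ κ) := by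
  let h : E → F' := fun z => Φ (B (y0 + Ai z))
  have hcont : Continuous (fun z : E => y0 + Ai z) := by fun_prop
  obtain ⟨ρ, hρ, hρt⟩ : ∃ ρ > 0, ∀ z ∈ ball (0 : E) ρ, y0 + Ai z ∈ T := by
    have h1 : ((fun z : E => y0 + Ai z) ⁻¹' T) ∈ 𝓝 (0 : E) :=
      (ho.preimage hcont).mem_nhds (by simpa using hy0)
    obtain ⟨ρ, hρ, h2⟩ := Metric.mem_nhds_iff.1 h1
    exact ⟨ρ, hρ, fun z hz => h2 hz⟩
  have hsm : ContDiffOn ℝ ∞ h (ball 0 ρ) := by
    refine Φ.contDiff.comp_contDiffOn ?_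
    refine hB.comp ?_ hρt
    exact (contDiff_const.add Ai.contDiff).contDiffOn
  obtain ⟨r, hr, -, k1, k2, k3, k4, k5, k6⟩ := scaled_small h ρ hρ hsm κ hκ 1 one_pos
  have hgr : g r = fun z => h (r • z) := by
    funext z
    rw [hg]
    simp only [h, map_smul]
  have h0 : h 0 = Φ (B y0) := by simp only [h, map_zero, add_zero]
  refine ⟨r, hr, ?_, ?_, ?_, ?_, ?_, ?_⟩
  · intro z hz
    have := hρt _ (k1 z hz)
    rwa [map_smul] at this
  · rw [hgr]; exact k2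
  · intro z hz
    rw [hgr, ← h0]; exact k3 z hz
  · intro z hz ζ
    rw [hgr, k4 z hz]
    have h1 : HasFDerivAt (fun z : E => y0 + Ai z) Ai (r • z) := Ai.hasFDerivAt.const_add y0
    have h2 : HasFDerivAt B (fderiv ℝ B (y0 + Ai (r • z))) (y0 + Ai (r • z)) :=
      ((hB.contDiffAt (ho.mem_nhds (hρt _ (k1 z hz)))).differentiableAt (by simp)).hasFDerivAt
    have h3 := Φ.hasFDerivAt.comp (r • z) (h2.comp (r • z) h1)
    have h4 : fderiv ℝ h (r • z) = _ := h3.fderiv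
    rw [h4, map_smul]
    rfl
  · intro z hz
    rw [hgr]; exact k5 z hz
  · intro z hz
    rw [hgr]; exact k6 z hz

variable {n : ℕ} {M : Type*} [TopologicalSpace M] [ChartedSpace (EuclideanSpace ℝ (Fin n)) M]
  [IsManifold (𝓡 n) ∞ M]

lemma chartMetric_pos (G : RMetric n M) (p : M) {y : EuclideanSpace ℝ (Fin n)}
    (hy : y ∈ (extChartAt (𝓡 n) p).target) (u : EuclideanSpace ℝ (Fin n)) (hu : u ≠ 0) :
    0 < chartMetric G p y u u := by
  have : IsManifold (𝓡 n) 1 M := IsManifold.of_le (n := ∞) (by simp)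
  have h1 := isInvertible_mfderivWithin_extChartAt_symm (I := 𝓡 n) hy
  have hr : range (𝓡 n) = univ := by simp
  rw [hr, mfderivWithin_univ] at h1
  obtain ⟨e, he⟩ := h1
  refine G.pos _ _ ?_
  intro h0
  rw [← he] at h0
  have h2 : e u = e 0 := by
    rw [map_zero]
    exact h0
  exact hu (e.injective h2)

/-- rescaled chart -/
noncomputable def zc (p : M) (A : EuclideanSpace ℝ (Fin n) ≃L[ℝ] EuclideanSpace ℝ (Fin n)) (r : ℝ)
    (x : M) : EuclideanSpace ℝ (Fin n) :=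
  r⁻¹ • A (extChartAt (𝓡 n) p x - extChartAt (𝓡 n) p p)

/-- inverse of the rescaled chart -/
noncomputable def zinv (p : M) (A : EuclideanSpace ℝ (Fin n) ≃L[ℝ] EuclideanSpace ℝ (Fin n))
    (r : ℝ) (z : EuclideanSpace ℝ (Fin n)) : M :=
  (extChartAt (𝓡 n) p).symm (extChartAt (𝓡 n) p p + r • A.symm z)

/-- the metric in the rescaled chart -/
noncomputable def gc (G : RMetric n M) (p : M)
    (A : EuclideanSpace ℝ (Fin n) ≃L[ℝ] EuclideanSpace ℝ (Fin n)) (r : ℝ)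
    (z : EuclideanSpace ℝ (Fin n)) :
    EuclideanSpace ℝ (Fin n) →L[ℝ] EuclideanSpace ℝ (Fin n) →L[ℝ] ℝ :=
  (chartMetric G p (extChartAt (𝓡 n) p p + r • A.symm z)).bilinearComp
    (A.symm : EuclideanSpace ℝ (Fin n) →L[ℝ] EuclideanSpace ℝ (Fin n))
    (A.symm : EuclideanSpace ℝ (Fin n) →L[ℝ] EuclideanSpace ℝ (Fin n))

lemma gc_apply (G : RMetric n M) (p : M)
    (A : EuclideanSpace ℝ (Fin n) ≃L[ℝ] EuclideanSpace ℝ (Fin n)) (r : ℝ)
    (z u w : EuclideanSpace ℝ (Fin n)) :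
    gc G p A r z u w = chartMetric G p (extChartAt (𝓡 n) p p + r • A.symm z)
      (A.symm u) (A.symm w) := by
  unfold gc
  rw [ContinuousLinearMap.bilinearComp_apply]
  rfl

/-- a chart in which the metric is close to the Euclidean one -/
structure GoodChart (G : RMetric n M) (p : M)
    (A : EuclideanSpace ℝ (Fin n) ≃L[ℝ] EuclideanSpace ℝ (Fin n)) (r κ : ℝ) : Prop where
  r_pos : 0 < r
  target : ∀ z ∈ ball (0 : EuclideanSpace ℝ (Fin n)) 10,
    extChartAt (𝓡 n) p p + r • A.symm z ∈ (extChartAt (𝓡 n) p).target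
  small : SmallMetric (gc G p A r) κ
  fd : ∀ z ∈ ball (0 : EuclideanSpace ℝ (Fin n)) 10, ∀ ζ u w,
    fderiv ℝ (gc G p A r) z ζ u w = r * fderiv ℝ (chartMetric G p)
      (extChartAt (𝓡 n) p p + r • A.symm z) (A.symm ζ) (A.symm u) (A.symm w)

/-- composition of bilinear forms with a linear map, as a linear map -/
noncomputable def pullB (n : ℕ)
    (Ai : EuclideanSpace ℝ (Fin n) →L[ℝ] EuclideanSpace ℝ (Fin n)) :
    (EuclideanSpace ℝ (Fin n) →L[ℝ] EuclideanSpace ℝ (Fin n) →L[ℝ] ℝ) →L[ℝ]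
      (EuclideanSpace ℝ (Fin n) →L[ℝ] EuclideanSpace ℝ (Fin n) →L[ℝ] ℝ) :=
  LinearMap.toContinuousLinearMap
    { toFun := fun B => B.bilinearComp Ai Ai
      map_add' := fun B B' => by ext u w; simp
      map_smul' := fun c B => by ext u w; simp }

lemma pullB_apply (n : ℕ)
    (Ai : EuclideanSpace ℝ (Fin n) →L[ℝ] EuclideanSpace ℝ (Fin n)) (B) (u w) :
    pullB n Ai B u w = B (Ai u) (Ai w) := rfl

lemma exists_goodChart (G : RMetric n M) (p : M) (κ : ℝ) (hκ : 0 < κ) :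
    ∃ (A : EuclideanSpace ℝ (Fin n) ≃L[ℝ] EuclideanSpace ℝ (Fin n)) (r : ℝ),
      GoodChart G p A r κ := by
  set y0 := extChartAt (𝓡 n) p p with hy0
  have hy0t : y0 ∈ (extChartAt (𝓡 n) p).target := mem_extChartAt_target p
  have ho : IsOpen (extChartAt (𝓡 n) p).target := isOpen_extChartAt_target p
  -- the linear isomorphism
  let B0 : EuclideanSpace ℝ (Fin n) →ₗ[ℝ] EuclideanSpace ℝ (Fin n) →ₗ[ℝ] ℝ :=
    LinearMap.mk₂ ℝ (fun u w => chartMetric G p y0 u w) (by simp) (by simp) (by simp) (by simp)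
  obtain ⟨A₀, hA₀⟩ := exists_isometry n (by simp) B0 (fun u w => chartMetric_symm G p y0 u w)
    (fun u hu => chartMetric_pos G p hy0t u hu)
  let A : EuclideanSpace ℝ (Fin n) ≃L[ℝ] EuclideanSpace ℝ (Fin n) :=
    A₀.toContinuousLinearEquiv
  have hA : ∀ u w, ⟪A u, A w⟫ = chartMetric G p y0 u w := hA₀
  obtain ⟨r, hr, k1, k2, k3, k4, k5, k6⟩ := scaled_small' (chartMetric G p)
    (extChartAt (𝓡 n) p).target ho (contDiffOn_chartMetric G p) y0 hy0t
    (pullB n (A.symm : EuclideanSpace ℝ (Fin n) →L[ℝ] EuclideanSpace ℝ (Fin n)))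
    (A.symm : EuclideanSpace ℝ (Fin n) →L[ℝ] EuclideanSpace ℝ (Fin n)) κ hκ
    (fun r => gc G p A r) (fun r z => rfl)
  have h0 : pullB n (A.symm : EuclideanSpace ℝ (Fin n) →L[ℝ] EuclideanSpace ℝ (Fin n))
      (chartMetric G p y0) = inn (EuclideanSpace ℝ (Fin n)) := by
    ext u w
    rw [pullB_apply, inn_apply, ← hA]
    simp
  refine ⟨A, r, hr, k1, ⟨?_, k2, ?_, k5, k6⟩, ?_⟩
  · intro x u w
    rw [gc_apply, gc_apply]
    exact chartMetric_symm G p _ _ _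
  · intro x hx
    rw [← h0]; exact k3 x hx
  · intro z hz ζ u w
    have h1 := k4 z hz ζ
    have h2 := congrArg (fun T => T u w) h1
    simp only [smul_apply, smul_eq_mul, pullB_apply] at h2
    exact h2

end Pool.Agent.GeoNet
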