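import Pool.Agent.GeoNet.Defs

/-! # Closed geodesic nets on Riemannian manifolds: definitions -/

namespace Pool.Agent.GeoNet

open Set Metric Filter
open scoped Topology RealInnerProductSpace ContDiff Manifold Bundle

/-- A smooth Riemannian metric on the manifold `M` (Mathlib's notion). -/
abbrev RMetric (n : ℕ) (M : Type*) [TopologicalSpace M]
    [ChartedSpace (EuclideanSpace ℝ (Fin n)) M] [IsManifold (𝓡 n) ∞ M] :=
  Bundle.ContMDiffRiemannianMetric (𝓡 n) ∞ (EuclideanSpace ℝ (Fin n))
    (fun x : M => TangentSpace (𝓡 n) x)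

variable {n : ℕ} {M : Type*} [TopologicalSpace M] [ChartedSpace (EuclideanSpace ℝ (Fin n)) M]
  [IsManifold (𝓡 n) ∞ M]

/-- The metric in the chart at `p`: the pull back of the metric under the inverse of the chart,
a bilinear form on the model space for each point `y` of the target of the chart. -/
noncomputable def chartMetric (G : RMetric n M) (p : M) (y : EuclideanSpace ℝ (Fin n)) :
    EuclideanSpace ℝ (Fin n) →L[ℝ] EuclideanSpace ℝ (Fin n) →L[ℝ] ℝ :=
  let D : EuclideanSpace ℝ (Fin n) →L[ℝ] EuclideanSpace ℝ (Fin n) :=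
    mfderiv 𝓘(ℝ, EuclideanSpace ℝ (Fin n)) (𝓡 n) (extChartAt (𝓡 n) p).symm y
  let B : EuclideanSpace ℝ (Fin n) →L[ℝ] EuclideanSpace ℝ (Fin n) →L[ℝ] ℝ :=
    G.inner ((extChartAt (𝓡 n) p).symm y)
  B.bilinearComp D D

/-- coordinates of a curve in the chart at `p` -/
noncomputable def coord (n : ℕ) {M : Type*} [TopologicalSpace M]
    [ChartedSpace (EuclideanSpace ℝ (Fin n)) M] (p : M) (c : ℝ → M) (s : ℝ) :
    EuclideanSpace ℝ (Fin n) := extChartAt (𝓡 n) p (c s)

/-- coordinate velocity in the chart at `p` of a curve defined on `[0, ℓ]` -/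
noncomputable def vel (n : ℕ) {M : Type*} [TopologicalSpace M]
    [ChartedSpace (EuclideanSpace ℝ (Fin n)) M] (p : M) (c : ℝ → M) (ℓ s : ℝ) :
    EuclideanSpace ℝ (Fin n) := derivWithin (coord n p c) (Icc 0 ℓ) s

/-- Christoffel symbols of the first kind of the metric in the chart at `p`:
`Γ(u, v, w) = (D_u g (v, w) + D_v g (u, w) - D_w g (u, v)) / 2`. -/
noncomputable def christoffel (G : RMetric n M) (p : M) (y u v w : EuclideanSpace ℝ (Fin n)) : ℝ :=
  (fderiv ℝ (chartMetric G p) y u v w + fderiv ℝ (chartMetric G p) y v u w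
    - fderiv ℝ (chartMetric G p) y w u v) / 2

/-- Unit speed geodesic segments `c : [0, ℓ] → M`: in each chart, the coordinates satisfy the
geodesic equation `g(x'', w) + Γ(x', x', w) = 0` for all `w`, and `g(x', x') = 1`. -/
structure IsGeodesicSegment (G : RMetric n M) (c : ℝ → M) (ℓ : ℝ) : Prop where
  pos : 0 < ℓ
  cont : ContinuousOn c (Icc 0 ℓ)
  diff : ∀ p : M, ∀ s ∈ Icc 0 ℓ, c s ∈ (extChartAt (𝓡 n) p).source →
    DifferentiableWithinAt ℝ (coord n p c) (Icc 0 ℓ) s
  diff2 : ∀ p : M, ∀ s ∈ Icc 0 ℓ, c s ∈ (extChartAt (𝓡 n) p).source →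
    DifferentiableWithinAt ℝ (vel n p c ℓ) (Icc 0 ℓ) s
  unit : ∀ p : M, ∀ s ∈ Icc 0 ℓ, c s ∈ (extChartAt (𝓡 n) p).source →
    chartMetric G p (coord n p c s) (vel n p c ℓ s) (vel n p c ℓ s) = 1
  eqn : ∀ p : M, ∀ s ∈ Icc 0 ℓ, c s ∈ (extChartAt (𝓡 n) p).source →
    ∀ w : EuclideanSpace ℝ (Fin n),
      chartMetric G p (coord n p c s) (derivWithin (vel n p c ℓ) (Icc 0 ℓ) s) w
        + christoffel G p (coord n p c s) (vel n p c ℓ s) (vel n p c ℓ s) w = 0

open scoped Classical in
/-- Closed geodesic nets on `(M, G)` (vertices of degree at least 3; loops and multiple edges are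
allowed, connectedness is not required). -/
structure ClosedGeodesicNet (G : RMetric n M) where
  /-- vertices -/
  V : Finset M
  /-- edges -/
  Edge : Type
  [fin : Fintype Edge]
  /-- the geodesic segments -/
  c : Edge → ℝ → M
  /-- their lengths -/
  ℓ : Edge → ℝ
  geodesic : ∀ e, IsGeodesicSegment G (c e) (ℓ e)
  /-- edges join two vertices -/
  left_mem : ∀ e, c e 0 ∈ V
  right_mem : ∀ e, c e (ℓ e) ∈ V
  /-- interiors of edges contain no vertices -/
  interior_not_mem : ∀ e, ∀ s ∈ Ioo 0 (ℓ e), c e s ∉ V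
  /-- interiors of edges do not self intersect and distinct edges have disjoint interiors -/
  embedded : ∀ e e' : Edge, ∀ s ∈ Ioo 0 (ℓ e), ∀ t ∈ Ioo 0 (ℓ e'), c e s = c e' t → e = e' ∧ s = t
  /-- balancing condition at each vertex: the sum of the unit tangent vectors pointing into the
  edges is zero in the tangent space at `v` (written in the chart at `v`, which is how Mathlib
  identifies the tangent space at `v` with the model space) -/
  balanced : ∀ v ∈ V, (∑ e, if c e 0 = v then vel n v (c e) (ℓ e) 0 else 0)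
    + (∑ e, if c e (ℓ e) = v then - vel n v (c e) (ℓ e) (ℓ e) else 0) = 0
  /-- all vertices have degree at least three -/
  degree : ∀ v ∈ V, 3 ≤ {e | c e 0 = v}.ncard + {e | c e (ℓ e) = v}.ncard

attribute [instance] ClosedGeodesicNet.fin

/-- length of the net -/
noncomputable def ClosedGeodesicNet.length {G : RMetric n M} (𝒩 : ClosedGeodesicNet G) : ℝ :=
  ∑ e, 𝒩.ℓ e

end Pool.Agent.GeoNet
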