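import Pool.Agent.GeoNet.MfdNet

/-! # Reduction of the global bound to the local bound -/

set_option maxSynthPendingDepth 3

namespace Pool.Agent.GeoNet

open Set Metric Filter Bundle
open scoped Topology RealInnerProductSpace ContDiff Manifold Bundle

variable {n : ℕ} {M : Type*} [TopologicalSpace M] [ChartedSpace (EuclideanSpace ℝ (Fin n)) M]
  [IsManifold (𝓡 n) ∞ M]

section
set_option linter.unusedSectionVars false
variable {G : RMetric n M} {p : M}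
  {A : EuclideanSpace ℝ (Fin n) ≃L[ℝ] EuclideanSpace ℝ (Fin n)} {r κ : ℝ}

lemma mkNet_end (𝒩 : ClosedGeodesicNet G) (k : 𝒩.Edge → ℕ) (hr : 0 < r)
    (q : Σ e : 𝒩.Edge, Fin (k e)) :
    pst 𝒩 k q.1 q.2 + r * ((pst 𝒩 k q.1 (q.2 + 1) - pst 𝒩 k q.1 q.2) / r)
      = pst 𝒩 k q.1 (q.2 + 1) := by
  field_simp
  ring

lemma mkNet_deg [T2Space M] (hC : GoodChart G p A r κ) (hκ : κ ≤ 1 / 10)
    {𝒢 : LocGeo (EuclideanSpace ℝ (Fin n))} (h𝒢 : Agrees G p A r 𝒢)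
    (𝒩 : ClosedGeodesicNet G) (k : 𝒩.Edge → ℕ) (hk : ∀ e, 0 < k e)
    (hk' : ∀ e, 𝒩.ℓ e / k e ≤ r / 4) {v : M} (hv : v ∈ 𝒩.V)
    (hvs : v ∈ (extChartAt (𝓡 n) p).source) (hv2 : ‖zc p A r v‖ < 2) :
    3 ≤ (mkNet hC hκ h𝒢 𝒩 k hk hk').deg (zc p A r v) := by
  classical
  have hr := hC.r_pos
  set 𝓁 := mkNet hC hκ h𝒢 𝒩 k hk hk' with h𝓁
  have hfin : Finite 𝓁.A := Fintype.finite 𝓁.fin
  have hfinE : Finite 𝒩.Edge := Fintype.finite 𝒩.fin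
  have hmono : ∀ q : Σ e : 𝒩.Edge, Fin (k e), pst 𝒩 k q.1 q.2 ≤ pst 𝒩 k q.1 (q.2 + 1) :=
    fun q => (pst_mono 𝒩 k hk q.1).monotone (Nat.le_succ _)
  have h1 : {e | 𝒩.c e 0 = v}.ncard ≤ {a | 𝓁.X a 0 = zc p A r v}.ncard := by
    have hsub : {e | 𝒩.c e 0 = v} ⊆
        (fun a : {q : Σ e : 𝒩.Edge, Fin (k e) // GoodPiece 𝒩 k p A r q} => a.1.1) ''
          {a | 𝓁.X a 0 = zc p A r v} := by
      intro e he
      have he' : 𝒩.c e 0 = v := he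
      let q : Σ e : 𝒩.Edge, Fin (k e) := ⟨e, ⟨0, hk e⟩⟩
      have hq0 : pst 𝒩 k q.1 q.2 = 0 := pst_zero 𝒩 k e
      have hq : GoodPiece 𝒩 k p A r q := by
        refine goodPiece_of hC hκ 𝒩 k hk hk' q (left_mem_Icc.2 (hmono q)) ?_
        rw [hq0]
        exact ⟨by rw [he']; exact hvs, by rw [he']; exact hv2⟩
      refine ⟨⟨q, hq⟩, ?_, rfl⟩
      show zc p A r (𝒩.c e (pst 𝒩 k q.1 q.2 + r * 0)) = zc p A r v
      rw [hq0, mul_zero, add_zero, he']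
    exact (Set.ncard_le_ncard hsub (Set.toFinite _)).trans (Set.ncard_image_le (Set.toFinite _))
  have h2 : {e | 𝒩.c e (𝒩.ℓ e) = v}.ncard ≤ {a | 𝓁.X a (𝓁.h a) = zc p A r v}.ncard := by
    have hsub : {e | 𝒩.c e (𝒩.ℓ e) = v} ⊆
        (fun a : {q : Σ e : 𝒩.Edge, Fin (k e) // GoodPiece 𝒩 k p A r q} => a.1.1) ''
          {a | 𝓁.X a (𝓁.h a) = zc p A r v} := by
      intro e he
      have he' : 𝒩.c e (𝒩.ℓ e) = v := he
      let q : Σ e : 𝒩.Edge, Fin (k e) := ⟨e, ⟨k e - 1, Nat.sub_lt (hk e) one_pos⟩⟩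
      have hq1 : ((q.2 : ℕ) + 1) = k e := Nat.sub_add_cancel (hk e)
      have hq0 : pst 𝒩 k q.1 (q.2 + 1) = 𝒩.ℓ e := by
        rw [hq1]; exact pst_last 𝒩 k hk e
      have hq : GoodPiece 𝒩 k p A r q := by
        refine goodPiece_of hC hκ 𝒩 k hk hk' q (right_mem_Icc.2 (hmono q)) ?_
        rw [hq0]
        exact ⟨by rw [he']; exact hvs, by rw [he']; exact hv2⟩
      refine ⟨⟨q, hq⟩, ?_, rfl⟩
      show zc p A r (𝒩.c e (pst 𝒩 k q.1 q.2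
        + r * ((pst 𝒩 k q.1 (q.2 + 1) - pst 𝒩 k q.1 q.2) / r))) = zc p A r v
      rw [mkNet_end 𝒩 k hr q, hq0, he']
    exact (Set.ncard_le_ncard hsub (Set.toFinite _)).trans (Set.ncard_image_le (Set.toFinite _))
  have h3 := 𝒩.degree v hv
  unfold LNet.deg
  omega

lemma mkNet_length [T2Space M] (hC : GoodChart G p A r κ) (hκ : κ ≤ 1 / 10)
    {𝒢 : LocGeo (EuclideanSpace ℝ (Fin n))} (h𝒢 : Agrees G p A r 𝒢)
    (𝒩 : ClosedGeodesicNet G) (k : 𝒩.Edge → ℕ) (hk : ∀ e, 0 < k e)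
    (hk' : ∀ e, 𝒩.ℓ e / k e ≤ r / 4) :
    (mkNet hC hκ h𝒢 𝒩 k hk hk').length ≤ 𝒩.length / r := by
  classical
  have hr := hC.r_pos
  have hpos : ∀ q : Σ e : 𝒩.Edge, Fin (k e),
      0 ≤ (pst 𝒩 k q.1 (q.2 + 1) - pst 𝒩 k q.1 q.2) / r := by
    intro q
    have := (pst_mono 𝒩 k hk q.1).monotone (Nat.le_succ (q.2 : ℕ))
    exact div_nonneg (sub_nonneg.2 this) hr.le
  have h1 : (mkNet hC hκ h𝒢 𝒩 k hk hk').length
      = ∑ a : {q : Σ e : 𝒩.Edge, Fin (k e) // GoodPiece 𝒩 k p A r q},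
        (pst 𝒩 k a.1.1 (a.1.2 + 1) - pst 𝒩 k a.1.1 a.1.2) / r := by
    unfold LNet.length mkNet
    rfl
  have h2 : ∑ a : {q : Σ e : 𝒩.Edge, Fin (k e) // GoodPiece 𝒩 k p A r q},
        (pst 𝒩 k a.1.1 (a.1.2 + 1) - pst 𝒩 k a.1.1 a.1.2) / r
      = ∑ q ∈ Finset.univ.filter (GoodPiece 𝒩 k p A r),
        (pst 𝒩 k q.1 (q.2 + 1) - pst 𝒩 k q.1 q.2) / r :=
    (Finset.sum_subtype _ (by simp)
      (fun q : Σ e : 𝒩.Edge, Fin (k e) => (pst 𝒩 k q.1 (q.2 + 1) - pst 𝒩 k q.1 q.2) / r)).symm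
  have h3 : ∑ q ∈ Finset.univ.filter (GoodPiece 𝒩 k p A r),
        (pst 𝒩 k q.1 (q.2 + 1) - pst 𝒩 k q.1 q.2) / r
      ≤ ∑ q : Σ e : 𝒩.Edge, Fin (k e), (pst 𝒩 k q.1 (q.2 + 1) - pst 𝒩 k q.1 q.2) / r :=
    Finset.sum_le_sum_of_subset_of_nonneg (Finset.filter_subset _ _) fun q _ _ => hpos q
  have h4 : ∑ q : Σ e : 𝒩.Edge, Fin (k e), (pst 𝒩 k q.1 (q.2 + 1) - pst 𝒩 k q.1 q.2) / r
      = 𝒩.length / r := by
    rw [← Finset.sum_div, Fintype.sum_sigma]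
    congr 1
    unfold ClosedGeodesicNet.length
    refine Finset.sum_congr rfl fun e _ => ?_
    have h5 := sum_pieces (k := k e) (fun i => pst 𝒩 k e i)
    rw [pst_zero, pst_last 𝒩 k hk] at h5
    rw [Finset.sum_sub_distrib]
    linarith
  rw [h1, h2]
  exact h3.trans h4.le

lemma card_local_le [T2Space M] (hC : GoodChart G p A r κ) (hκ : κ ≤ 1 / 10)
    {𝒢 : LocGeo (EuclideanSpace ℝ (Fin n))} (h𝒢 : Agrees G p A r 𝒢) (L : ℝ) (N : ℕ)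
    (hN : ∀ 𝓁 : LNet 𝒢, 𝓁.length ≤ L / r →
      {z | z ∈ ball (0 : EuclideanSpace ℝ (Fin n)) (1 / 32) ∧ 3 ≤ 𝓁.deg z}.ncard ≤ N)
    (𝒩 : ClosedGeodesicNet G) (hL : 𝒩.length = L) :
    {v | v ∈ 𝒩.V ∧ v ∈ (extChartAt (𝓡 n) p).source ∧ ‖zc p A r v‖ < 1 / 32}.ncard ≤ N := by
  classical
  have hr := hC.r_pos
  -- the number of pieces
  have hex : ∀ e, ∃ k : ℕ, 0 < k ∧ 𝒩.ℓ e / k ≤ r / 4 := by
    intro e
    obtain ⟨k, hk⟩ := exists_nat_gt (𝒩.ℓ e / (r / 4))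
    have hpos : 0 < 𝒩.ℓ e / (r / 4) := div_pos (𝒩.geodesic e).pos (by positivity)
    have hk0 : (0 : ℝ) < k := hpos.trans hk
    refine ⟨k, by exact_mod_cast hk0, ?_⟩
    rw [div_lt_iff₀ (by positivity)] at hk
    rw [div_le_iff₀ hk0]
    linarith
  choose k hk hk' using hex
  set 𝓁 := mkNet hC hκ h𝒢 𝒩 k hk hk' with h𝓁
  have h1 : 𝓁.length ≤ L / r := by
    rw [← hL]
    exact mkNet_length hC hκ h𝒢 𝒩 k hk hk'
  refine le_trans ?_ (hN 𝓁 h1)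
  have hfin : {z | z ∈ ball (0 : EuclideanSpace ℝ (Fin n)) (1 / 32) ∧ 3 ≤ 𝓁.deg z}.Finite := by
    have hfA : Finite 𝓁.A := Fintype.finite 𝓁.fin
    refine ((Set.finite_range fun a => 𝓁.X a 0).union
      (Set.finite_range fun a => 𝓁.X a (𝓁.h a))).subset ?_
    rintro z ⟨-, hz⟩
    by_contra hcon
    rw [mem_union, not_or, mem_range, mem_range] at hcon
    have e1 : {a | 𝓁.X a 0 = z} = ∅ := by
      ext a
      simp only [mem_ofPred_eq, mem_empty_iff_false, iff_false]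
      exact fun h => hcon.1 ⟨a, h⟩
    have e2 : {a | 𝓁.X a (𝓁.h a) = z} = ∅ := by
      ext a
      simp only [mem_ofPred_eq, mem_empty_iff_false, iff_false]
      exact fun h => hcon.2 ⟨a, h⟩
    unfold LNet.deg at hz
    rw [e1, e2] at hz
    simp at hz
  refine Set.ncard_le_ncard_of_injOn (zc p A r) ?_ ?_ hfin
  · rintro v ⟨hv, hvs, hv2⟩
    refine ⟨by simpa using hv2, ?_⟩
    exact mkNet_deg hC hκ h𝒢 𝒩 k hk hk' hv hvs (hv2.trans (by norm_num))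
  · intro v hv w hw h
    exact zc_injOn hC hv.2.1 hw.2.1 h

end

/-- The global statement follows from the local one. -/
theorem main_of_local
    (hA : ∃ κ : ℝ, 0 < κ ∧ ∀ g : EuclideanSpace ℝ (Fin n) →
        EuclideanSpace ℝ (Fin n) →L[ℝ] EuclideanSpace ℝ (Fin n) →L[ℝ] ℝ, SmallMetric g κ →
      ∃ 𝒢 : LocGeo (EuclideanSpace ℝ (Fin n)),
        (∀ x ∈ ball (0 : EuclideanSpace ℝ (Fin n)) 3, 𝒢.g x = g x) ∧
        (∀ x ∈ ball (0 : EuclideanSpace ℝ (Fin n)) 3, ∀ u w : EuclideanSpace ℝ (Fin n),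
          g x (𝒢.acc x u) w = (1 / 2) * fderiv ℝ g x w u u - fderiv ℝ g x u u w))
    (hB : ∀ L : ℝ, ∃ N : ℕ, ∀ (𝒢 : LocGeo (EuclideanSpace ℝ (Fin n))) (𝓁 : LNet 𝒢),
      𝓁.length ≤ L →
        {z | z ∈ ball (0 : EuclideanSpace ℝ (Fin n)) (1 / 32) ∧ 3 ≤ 𝓁.deg z}.ncard ≤ N)
    [CompactSpace M] [T2Space M] (G : RMetric n M) :
    ∃ f : ℝ → ℕ, ∀ 𝒩 : ClosedGeodesicNet G, 𝒩.V.card ≤ f 𝒩.length := by
  classical
  obtain ⟨κ₀, hκ₀, hA⟩ := hA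
  set κ := min κ₀ (1 / 10) with hκdef
  have hκ : 0 < κ := by positivity
  have hκ10 : κ ≤ 1 / 10 := min_le_right _ _
  choose Nf hNf using hB
  -- charts
  have hch : ∀ p : M, ∃ (A : EuclideanSpace ℝ (Fin n) ≃L[ℝ] EuclideanSpace ℝ (Fin n)) (r : ℝ)
      (𝒢 : LocGeo (EuclideanSpace ℝ (Fin n))), GoodChart G p A r κ ∧ Agrees G p A r 𝒢 := by
    intro p
    obtain ⟨A, r, hC⟩ := exists_goodChart G p κ hκ
    have hs : SmallMetric (gc G p A r) κ₀ :=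
      ⟨hC.small.symm, hC.small.smooth, fun x hx => (hC.small.near x hx).trans (min_le_left _ _),
        fun x hx => (hC.small.near1 x hx).trans (min_le_left _ _),
        fun x hx => (hC.small.near2 x hx).trans (min_le_left _ _)⟩
    obtain ⟨𝒢, h1, h2⟩ := hA _ hs
    exact ⟨A, r, 𝒢, hC, ⟨h1, h2⟩⟩
  choose A r 𝒢 hC h𝒢 using hch
  let W : M → Set M := fun p =>
    {x | x ∈ (extChartAt (𝓡 n) p).source ∧ ‖zc p (A p) (r p) x‖ < 1 / 32}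
  have hW : ∀ p ∈ (univ : Set M), W p ∈ 𝓝 p := by
    intro p _
    refine (isOpen_zball p (A p) (r p) (1 / 32)).mem_nhds ⟨mem_extChartAt_source p, ?_⟩
    rw [zc_self]
    simp
  obtain ⟨t, -, ht⟩ := isCompact_univ.elim_nhds_subcover W hW
  refine ⟨fun L => ∑ p ∈ t, Nf (L / r p), ?_⟩
  intro 𝒩
  have h1 : (𝒩.V : Set M) ⊆ ⋃ p ∈ t, {v | v ∈ 𝒩.V ∧ v ∈ (extChartAt (𝓡 n) p).source ∧
      ‖zc p (A p) (r p) v‖ < 1 / 32} := by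
    intro v hv
    have h2 := ht (mem_univ v)
    simp only [mem_iUnion] at h2 ⊢
    obtain ⟨p, hp, hv2⟩ := h2
    exact ⟨p, hp, hv, hv2.1, hv2.2⟩
  have hfin : ∀ p ∈ t, {v | v ∈ 𝒩.V ∧ v ∈ (extChartAt (𝓡 n) p).source ∧
      ‖zc p (A p) (r p) v‖ < 1 / 32}.Finite := fun p _ =>
    𝒩.V.finite_toSet.subset fun v hv => hv.1
  have h3 : 𝒩.V.card ≤ (⋃ p ∈ t, {v | v ∈ 𝒩.V ∧ v ∈ (extChartAt (𝓡 n) p).source ∧
      ‖zc p (A p) (r p) v‖ < 1 / 32}).ncard := by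
    rw [← Set.ncard_coe_finset 𝒩.V]
    exact Set.ncard_le_ncard h1 (t.finite_toSet.biUnion hfin)
  have h4 : (⋃ p ∈ t, {v | v ∈ 𝒩.V ∧ v ∈ (extChartAt (𝓡 n) p).source ∧
      ‖zc p (A p) (r p) v‖ < 1 / 32}).ncard ≤ ∑ p ∈ t, {v | v ∈ 𝒩.V ∧
        v ∈ (extChartAt (𝓡 n) p).source ∧ ‖zc p (A p) (r p) v‖ < 1 / 32}.ncard :=
    Finset.set_ncard_biUnion_le t _
  refine h3.trans (h4.trans (Finset.sum_le_sum fun p _ => ?_))
  exact card_local_le (hC p) hκ10 (h𝒢 p) 𝒩.length (Nf (𝒩.length / r p))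
    (fun 𝓁 h => hNf _ (𝒢 p) 𝓁 h) 𝒩 rfl

end Pool.Agent.GeoNet
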