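import Pool.Agent.GeoNet.Defs

/-! # Metrics which are close to the Euclidean one on the ball of radius 10 -/

set_option maxSynthPendingDepth 3

namespace Pool.Agent.GeoNet

open Set Metric Filter
open scoped Topology RealInnerProductSpace ContDiff

variable {E : Type*} [NormedAddCommGroup E] [InnerProductSpace ℝ E]

/-- A smooth metric on the ball of radius 10, `κ`-close to the Euclidean one in `C²`. -/
structure SmallMetric (g : E → E →L[ℝ] E →L[ℝ] ℝ) (κ : ℝ) : Prop where
  symm : ∀ x u w, g x u w = g x w u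
  smooth : ContDiffOn ℝ ∞ g (ball 0 10)
  near : ∀ x ∈ ball (0 : E) 10, ‖g x - inn E‖ ≤ κ
  near1 : ∀ x ∈ ball (0 : E) 10, ‖fderiv ℝ g x‖ ≤ κ
  near2 : ∀ x ∈ ball (0 : E) 10, ‖fderiv ℝ (fderiv ℝ g) x‖ ≤ κ

end Pool.Agent.GeoNet
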