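import Pool.Agent.GeoNet.MfdDefs
import Pool.Agent.GeoNet.Small

/-! # The metric of a Riemannian manifold in charts -/

set_option maxSynthPendingDepth 3

namespace Pool.Agent.GeoNet

open Set Metric Filter Bundle
open scoped Topology RealInnerProductSpace ContDiff Manifold Bundle

/-- a positive definite symmetric bilinear form is isometric to the Euclidean one -/
lemma exists_isometry {V : Type*} [AddCommGroup V] [Module ℝ V] [FiniteDimensional ℝ V] (n : ℕ)
    (hn : Module.finrank ℝ V = n) (B : V →ₗ[ℝ] V →ₗ[ℝ] ℝ) (symm : ∀ u w, B u w = B w u)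
    (pos : ∀ u, u ≠ 0 → 0 < B u u) :
    ∃ A : V ≃ₗ[ℝ] EuclideanSpace ℝ (Fin n), ∀ u w, ⟪A u, A w⟫ = B u w := by
  subst hn
  let core : InnerProductSpace.Core ℝ V :=
    { inner := fun u w => B u w
      conj_inner_symm := fun x y => by simp [symm x y]
      re_inner_nonneg := fun x => by
        rcases eq_or_ne x 0 with h | h
        · simp [h]
        · exact (pos x h).le
      add_left := fun x y z => by simp
      smul_left := fun x y r => by simp
      definite := fun x hx => by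
        by_contra h
        exact (pos x h).ne' hx }
  let _ : NormedAddCommGroup V := core.toNormedAddCommGroup
  let _ : InnerProductSpace ℝ V := InnerProductSpace.ofCore core.toCore
  refine ⟨(stdOrthonormalBasis ℝ V).repr.toLinearEquiv, ?_⟩
  intro u w
  exact (stdOrthonormalBasis ℝ V).repr.inner_map_map u w

/-- rescaling of a smooth map -/
lemma scaled_small {E F : Type*} [NormedAddCommGroup E] [NormedSpace ℝ E] [NormedAddCommGroup F]
    [NormedSpace ℝ F] (h : E → F) (ρ : ℝ) (hρ : 0 < ρ) (hh : ContDiffOn ℝ ∞ h (ball 0 ρ))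
    (κ : ℝ) (hκ : 0 < κ) (r₁ : ℝ) (hr₁ : 0 < r₁) :
    ∃ r : ℝ, 0 < r ∧ r ≤ r₁ ∧ (∀ z ∈ ball (0 : E) 10, r • z ∈ ball (0 : E) ρ) ∧
      ContDiffOn ℝ ∞ (fun z => h (r • z)) (ball 0 10) ∧
      (∀ z ∈ ball (0 : E) 10, ‖h (r • z) - h 0‖ ≤ κ) ∧
      (∀ z ∈ ball (0 : E) 10, fderiv ℝ (fun z => h (r • z)) z = r • fderiv ℝ h (r • z)) ∧
      (∀ z ∈ ball (0 : E) 10, ‖fderiv ℝ (fun z => h (r • z)) z‖ ≤ κ) ∧
      (∀ z ∈ ball (0 : E) 10, ‖fderiv ℝ (fderiv ℝ (fun z => h (r • z))) z‖ ≤ κ) := by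
  have ho : IsOpen (ball (0 : E) ρ) := isOpen_ball
  have hc : ContDiffAt ℝ ∞ h 0 := hh.contDiffAt (ho.mem_nhds (mem_ball_self hρ))
  have hh1 : ContDiffOn ℝ ∞ (fderiv ℝ h) (ball 0 ρ) := hh.fderiv_of_isOpen ho (by simp)
  have hh2 : ContDiffOn ℝ ∞ (fderiv ℝ (fderiv ℝ h)) (ball 0 ρ) :=
    hh1.fderiv_of_isOpen ho (by simp)
  have c0 : ContinuousAt h 0 := (hh.continuousOn).continuousAt (ho.mem_nhds (mem_ball_self hρ))
  have c1 : ContinuousAt (fderiv ℝ h) 0 :=
    (hh1.continuousOn).continuousAt (ho.mem_nhds (mem_ball_self hρ))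
  have c2 : ContinuousAt (fderiv ℝ (fderiv ℝ h)) 0 :=
    (hh2.continuousOn).continuousAt (ho.mem_nhds (mem_ball_self hρ))
  obtain ⟨d0, hd0, e0⟩ := Metric.continuousAt_iff.1 c0 κ hκ
  obtain ⟨d1, hd1, e1⟩ := Metric.continuousAt_iff.1 c1 1 one_pos
  obtain ⟨d2, hd2, e2⟩ := Metric.continuousAt_iff.1 c2 1 one_pos
  set C : ℝ := ‖fderiv ℝ h 0‖ + ‖fderiv ℝ (fderiv ℝ h) 0‖ + 1 with hC
  have hCpos : 0 < C := by positivity
  obtain ⟨d, hd, hdd⟩ : ∃ d, 0 < d ∧ d ≤ d0 ∧ d ≤ d1 ∧ d ≤ d2 ∧ d ≤ ρ :=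
    ⟨min (min d0 d1) (min d2 ρ), by positivity, (min_le_left _ _).trans (min_le_left _ _),
      (min_le_left _ _).trans (min_le_right _ _), (min_le_right _ _).trans (min_le_left _ _),
      (min_le_right _ _).trans (min_le_right _ _)⟩
  obtain ⟨r, hr, hrr⟩ : ∃ r : ℝ, 0 < r ∧ r ≤ r₁ ∧ r ≤ 1 ∧ r * 10 ≤ d ∧ r * C ≤ κ := by
    refine ⟨min (min r₁ 1) (min (d / 10) (κ / C)), by positivity,
      (min_le_left _ _).trans (min_le_left _ _), (min_le_left _ _).trans (min_le_right _ _), ?_, ?_⟩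
    · have : min (min r₁ 1) (min (d / 10) (κ / C)) ≤ d / 10 :=
        (min_le_right _ _).trans (min_le_left _ _)
      linarith
    · have : min (min r₁ 1) (min (d / 10) (κ / C)) ≤ κ / C :=
        (min_le_right _ _).trans (min_le_right _ _)
      calc _ ≤ κ / C * C := by gcongr
        _ = κ := by field_simp
  obtain ⟨hr1, hr2, hr3, hr4⟩ := hrr
  have key : ∀ z ∈ ball (0 : E) 10, dist (r • z) 0 < d := by
    intro z hz
    rw [mem_ball_zero_iff] at hz
    rw [dist_zero_right, norm_smul, Real.norm_of_nonneg hr.le]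
    calc r * ‖z‖ < r * 10 := by gcongr
      _ ≤ d := hr3
  have keyρ : ∀ z ∈ ball (0 : E) 10, r • z ∈ ball (0 : E) ρ := fun z hz =>
    mem_ball.2 ((key z hz).trans_le hdd.2.2.2)
  have hsm : ContDiff ℝ ∞ (fun z : E => r • z) := contDiff_const_smul r
  have hd1' : ∀ z ∈ ball (0 : E) 10, fderiv ℝ (fun z => h (r • z)) z = r • fderiv ℝ h (r • z) := by
    intro z hz
    have h1 : HasFDerivAt h (fderiv ℝ h (r • z)) (r • z) :=
      ((hh.contDiffAt (ho.mem_nhds (keyρ z hz))).differentiableAt (by simp)).hasFDerivAt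
    have h2 : HasFDerivAt (fun z : E => r • z) (r • ContinuousLinearMap.id ℝ E) z :=
      (hasFDerivAt_id z).const_smul r
    have h3 := h1.comp z h2
    rw [show (fun z => h (r • z)) = h ∘ (fun z : E => r • z) from rfl, h3.fderiv]
    ext w
    simp
  refine ⟨r, hr, hr1, keyρ, ?_, ?_, hd1', ?_, ?_⟩
  · exact hh.comp hsm.contDiffOn keyρ
  · intro z hz
    rw [← dist_eq_norm]
    exact (e0 ((key z hz).trans_le hdd.1)).le
  · intro z hz
    rw [hd1' z hz, norm_smul, Real.norm_of_nonneg hr.le]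
    have h1 := e1 ((key z hz).trans_le hdd.2.1)
    rw [dist_eq_norm] at h1
    have h2 : ‖fderiv ℝ h (r • z)‖ ≤ C := by
      have := norm_le_norm_add_norm_sub' (fderiv ℝ h (r • z)) (fderiv ℝ h 0)
      have h0 := norm_nonneg (fderiv ℝ (fderiv ℝ h) 0)
      linarith
    calc r * ‖fderiv ℝ h (r • z)‖ ≤ r * C := by gcongr
      _ ≤ κ := hr4
  · intro z hz
    have heq : fderiv ℝ (fun z => h (r • z)) =ᶠ[𝓝 z] fun z => r • fderiv ℝ h (r • z) := by
      filter_upwards [isOpen_ball.mem_nhds hz] with y hy using hd1' y hy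
    rw [heq.fderiv_eq]
    have h1 : HasFDerivAt (fderiv ℝ h) (fderiv ℝ (fderiv ℝ h) (r • z)) (r • z) :=
      ((hh1.contDiffAt (ho.mem_nhds (keyρ z hz))).differentiableAt (by simp)).hasFDerivAt
    have h2 : HasFDerivAt (fun z : E => r • z) (r • ContinuousLinearMap.id ℝ E) z :=
      (hasFDerivAt_id z).const_smul r
    have h3 := (h1.comp z h2).const_smul r
    have h4 : (fun z => r • fderiv ℝ h (r • z)) = r • (fderiv ℝ h ∘ fun z => r • z) := rfl
    rw [h4, h3.fderiv]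
    have h5 : r • (fderiv ℝ (fderiv ℝ h) (r • z)).comp (r • ContinuousLinearMap.id ℝ E)
        = (r * r) • fderiv ℝ (fderiv ℝ h) (r • z) := by
      ext w
      simp [mul_smul]
    rw [h5, norm_smul, Real.norm_of_nonneg (by positivity)]
    have h6 := e2 ((key z hz).trans_le hdd.2.2.1)
    rw [dist_eq_norm] at h6
    have h7 : ‖fderiv ℝ (fderiv ℝ h) (r • z)‖ ≤ C := by
      have := norm_le_norm_add_norm_sub' (fderiv ℝ (fderiv ℝ h) (r • z)) (fderiv ℝ (fderiv ℝ h) 0)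
      have h0 := norm_nonneg (fderiv ℝ h 0)
      linarith
    calc r * r * ‖fderiv ℝ (fderiv ℝ h) (r • z)‖ ≤ 1 * r * C := by gcongr
      _ = r * C := by ring
      _ ≤ κ := hr4

variable {n : ℕ} {M : Type*} [TopologicalSpace M] [ChartedSpace (EuclideanSpace ℝ (Fin n)) M]
  [IsManifold (𝓡 n) ∞ M]

/-- coordinate vector fields are smooth -/
lemma contMDiffOn_coordField (p : M) (u : EuclideanSpace ℝ (Fin n)) :
    ContMDiffOn 𝓘(ℝ, EuclideanSpace ℝ (Fin n)) (𝓡 n).tangent ∞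
      (fun y => (⟨(extChartAt (𝓡 n) p).symm y,
        mfderiv 𝓘(ℝ, EuclideanSpace ℝ (Fin n)) (𝓡 n) (extChartAt (𝓡 n) p).symm y u⟩ :
          TangentBundle (𝓡 n) M)) (extChartAt (𝓡 n) p).target := by
  have h1 := contMDiffOn_extChartAt_symm (I := 𝓡 n) (n := ∞) p
  have ho : IsOpen (extChartAt (𝓡 n) p).target := isOpen_extChartAt_target p
  have h2 := h1.contMDiffOn_tangentMapWithin (m := ∞) (by simp) ho.uniqueMDiffOn
  have h3 : ContMDiffOn 𝓘(ℝ, EuclideanSpace ℝ (Fin n))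
      (𝓘(ℝ, EuclideanSpace ℝ (Fin n))).tangent ∞
      (fun y => (⟨y, u⟩ : TangentBundle 𝓘(ℝ, EuclideanSpace ℝ (Fin n))
        (EuclideanSpace ℝ (Fin n)))) (extChartAt (𝓡 n) p).target := by
    intro y hy
    exact contMDiffWithinAt_vectorSpace_iff_contDiffWithinAt.2 contDiffWithinAt_const
  have h4 := h2.comp h3 (fun y hy => hy)
  refine h4.congr ?_
  intro y hy
  simp only [Function.comp_apply, tangentMapWithin]
  rw [mfderivWithin_of_isOpen ho hy]

lemma contDiffOn_chartMetric_apply (G : RMetric n M) (p : M) (u w : EuclideanSpace ℝ (Fin n)) :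
    ContDiffOn ℝ ∞ (fun y => chartMetric G p y u w) (extChartAt (𝓡 n) p).target := by
  rw [← contMDiffOn_iff_contDiffOn]
  intro y hy
  have ho : IsOpen (extChartAt (𝓡 n) p).target := isOpen_extChartAt_target p
  have hb : ContMDiffWithinAt 𝓘(ℝ, EuclideanSpace ℝ (Fin n)) (𝓡 n) ∞ (extChartAt (𝓡 n) p).symm
      (extChartAt (𝓡 n) p).target y := contMDiffOn_extChartAt_symm (I := 𝓡 n) (n := ∞) p y hy
  have : ContMDiffWithinAt 𝓘(ℝ, EuclideanSpace ℝ (Fin n)) ((𝓡 n).prod 𝓘(ℝ)) ∞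
      (fun y ↦ TotalSpace.mk' ℝ (E := Bundle.Trivial M ℝ) ((extChartAt (𝓡 n) p).symm y)
        (G.inner ((extChartAt (𝓡 n) p).symm y)
          (mfderiv 𝓘(ℝ, EuclideanSpace ℝ (Fin n)) (𝓡 n) (extChartAt (𝓡 n) p).symm y u)
          (mfderiv 𝓘(ℝ, EuclideanSpace ℝ (Fin n)) (𝓡 n) (extChartAt (𝓡 n) p).symm y w)))
          (extChartAt (𝓡 n) p).target y := by
    apply ContMDiffWithinAt.clm_bundle_apply₂ (F₁ := EuclideanSpace ℝ (Fin n))
      (F₂ := EuclideanSpace ℝ (Fin n))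
    · exact ContMDiffAt.comp_contMDiffWithinAt y G.contMDiff.contMDiffAt hb
    · exact contMDiffOn_coordField p u y hy
    · exact contMDiffOn_coordField p w y hy
  simp only [contMDiffWithinAt_totalSpace] at this
  exact this.2

lemma contDiffOn_chartMetric (G : RMetric n M) (p : M) :
    ContDiffOn ℝ ∞ (chartMetric G p) (extChartAt (𝓡 n) p).target := by
  rw [contDiffOn_clm_apply]
  intro u
  rw [contDiffOn_clm_apply]
  intro w
  exact contDiffOn_chartMetric_apply G p u w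

lemma chartMetric_symm (G : RMetric n M) (p : M) (y u w : EuclideanSpace ℝ (Fin n)) :
    chartMetric G p y u w = chartMetric G p y w u := by
  exact G.symm _ _ _


end Pool.Agent.GeoNet
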