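import Pool.Agent.GeoNet.MfdPieces

/-! # The local net formed by the pieces of a closed geodesic net in a chart -/


set_option maxSynthPendingDepth 3

namespace Pool.Agent.GeoNet

open Set Metric Filter Bundle
open scoped Topology RealInnerProductSpace ContDiff Manifold Bundle

variable {n : ℕ} {M : Type*} [TopologicalSpace M] [ChartedSpace (EuclideanSpace ℝ (Fin n)) M]
  [IsManifold (𝓡 n) ∞ M]

section
set_option linter.unusedSectionVars false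
variable {G : RMetric n M} {p : M}
  {A : EuclideanSpace ℝ (Fin n) ≃L[ℝ] EuclideanSpace ℝ (Fin n)} {r κ : ℝ}

/-- key fact on the coincidence of points of pieces -/
lemma pieces_emb (𝒩 : ClosedGeodesicNet G) (k : 𝒩.Edge → ℕ) (hk : ∀ e, 0 < k e)
    (q q' : Σ e : 𝒩.Edge, Fin (k e)) {s t : ℝ}
    (hs : s ∈ Icc (pst 𝒩 k q.1 q.2) (pst 𝒩 k q.1 (q.2 + 1)))
    (ht : t ∈ Icc (pst 𝒩 k q'.1 q'.2) (pst 𝒩 k q'.1 (q'.2 + 1)))
    (heq : 𝒩.c q.1 s = 𝒩.c q'.1 t)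
    (hint : s ∈ Ioo (pst 𝒩 k q.1 q.2) (pst 𝒩 k q.1 (q.2 + 1))) :
    q = q' ∧ s = t := by
  obtain ⟨e, i⟩ := q
  obtain ⟨e', i'⟩ := q'
  simp only at *
  have hsI : s ∈ Ioo 0 (𝒩.ℓ e) :=
    ⟨(pst_nonneg 𝒩 k hk e _).trans_lt hint.1,
      hint.2.trans_le (pst_le 𝒩 k hk e (Nat.succ_le_of_lt i.2))⟩
  have hsV : 𝒩.c e s ∉ 𝒩.V := 𝒩.interior_not_mem e s hsI
  have ht0 : 0 ≤ t := (pst_nonneg 𝒩 k hk e' _).trans ht.1
  have htl : t ≤ 𝒩.ℓ e' := ht.2.trans (pst_le 𝒩 k hk e' (Nat.succ_le_of_lt i'.2))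
  have htI : t ∈ Ioo 0 (𝒩.ℓ e') := by
    refine ⟨lt_of_le_of_ne ht0 ?_, lt_of_le_of_ne htl ?_⟩
    · intro h
      exact hsV (heq ▸ h ▸ 𝒩.left_mem e')
    · intro h
      exact hsV (heq ▸ h ▸ 𝒩.right_mem e')
  obtain ⟨h1, h2⟩ := 𝒩.embedded e e' s hsI t htI heq
  subst h1
  subst h2
  refine ⟨?_, rfl⟩
  have h3 : (i : ℕ) = i' := by
    have hm := pst_mono 𝒩 k hk e
    have h4 : (i : ℕ) < i' + 1 := hm.lt_iff_lt.1 (hint.1.trans_le ht.2)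
    have h5 : (i' : ℕ) < i + 1 := hm.lt_iff_lt.1 (ht.1.trans_lt hint.2)
    omega
  congr 1
  exact Fin.ext h3

open scoped Classical in
/-- the local net formed by the pieces in the chart -/
noncomputable def mkNet [T2Space M] (hC : GoodChart G p A r κ) (hκ : κ ≤ 1 / 10)
    {𝒢 : LocGeo (EuclideanSpace ℝ (Fin n))} (h𝒢 : Agrees G p A r 𝒢)
    (𝒩 : ClosedGeodesicNet G) (k : 𝒩.Edge → ℕ) (hk : ∀ e, 0 < k e)
    (hk' : ∀ e, 𝒩.ℓ e / k e ≤ r / 4) : LNet 𝒢 where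
  A := {q : Σ e : 𝒩.Edge, Fin (k e) // GoodPiece 𝒩 k p A r q}
  fin := inferInstance
  X := fun q σ => zc p A r (𝒩.c q.1.1 (pst 𝒩 k q.1.1 q.1.2 + r * σ))
  X' := fun q σ => A (vel n p (𝒩.c q.1.1) (𝒩.ℓ q.1.1) (pst 𝒩 k q.1.1 q.1.2 + r * σ))
  h := fun q => (pst 𝒩 k q.1.1 (q.1.2 + 1) - pst 𝒩 k q.1.1 q.1.2) / r
  h_pos := fun q => by
    have h1 := pst_mono 𝒩 k hk q.1.1 (Nat.lt_succ_self (q.1.2 : ℕ))
    have hr := hC.r_pos
    have : 0 < pst 𝒩 k q.1.1 (q.1.2 + 1) - pst 𝒩 k q.1.1 q.1.2 := by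
      simpa using sub_pos.2 h1
    positivity
  geo := fun q => isGeo_piece hC hκ h𝒢 (𝒩.geodesic q.1.1) (pst_nonneg 𝒩 k hk q.1.1 _)
    (pst_le 𝒩 k hk q.1.1 (Nat.succ_le_of_lt q.1.2.2)) q.2
  bal := by
    intro z hz
    have hr := hC.r_pos
    have hz10 : z ∈ ball (0 : EuclideanSpace ℝ (Fin n)) 10 := ball_subset_ball (by norm_num) hz
    set x := zinv p A r z with hx
    have hxs : x ∈ (extChartAt (𝓡 n) p).source := zinv_mem hC hz10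
    have hxz : zc p A r x = z := zc_zinv hC hz10
    have hx2 : ‖zc p A r x‖ < 2 := by rw [hxz]; simpa using hz
    -- F
    let Φ : 𝒩.Edge → ℝ → EuclideanSpace ℝ (Fin n) := fun e t =>
      if 𝒩.c e t = x then A (vel n p (𝒩.c e) (𝒩.ℓ e) t) else 0
    have hiff : ∀ (q : {q : Σ e : 𝒩.Edge, Fin (k e) // GoodPiece 𝒩 k p A r q}) (t : ℝ),
        t ∈ Icc (pst 𝒩 k q.1.1 q.1.2) (pst 𝒩 k q.1.1 (q.1.2 + 1)) →
        (zc p A r (𝒩.c q.1.1 t) = z ↔ 𝒩.c q.1.1 t = x) := by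
      intro q t ht
      constructor
      · intro h
        refine zc_injOn hC (q.2 t ht).1 hxs ?_
        rw [h, hxz]
      · intro h
        rw [h, hxz]
    have hmono : ∀ q : Σ e : 𝒩.Edge, Fin (k e), pst 𝒩 k q.1 q.2 ≤ pst 𝒩 k q.1 (q.2 + 1) :=
      fun q => (pst_mono 𝒩 k hk q.1).monotone (Nat.le_succ _)
    have h1 : (∑ a : {q : Σ e : 𝒩.Edge, Fin (k e) // GoodPiece 𝒩 k p A r q},
        if zc p A r (𝒩.c a.1.1 (pst 𝒩 k a.1.1 a.1.2 + r * 0)) = z then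
          A (vel n p (𝒩.c a.1.1) (𝒩.ℓ a.1.1) (pst 𝒩 k a.1.1 a.1.2 + r * 0)) else 0)
        = ∑ e, ∑ i : Fin (k e), Φ e (pst 𝒩 k e i) := by
      rw [← sum_good 𝒩 k p A r (fun q => Φ q.1 (pst 𝒩 k q.1 q.2))]
      · refine Finset.sum_congr rfl fun a _ => ?_
        rw [mul_zero, add_zero]
        simp only [Φ]
        rw [if_congr (hiff a _ (left_mem_Icc.2 (hmono a.1))) rfl rfl]
      · intro q hq
        have hq' : 𝒩.c q.1 (pst 𝒩 k q.1 q.2) = x := by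
          by_contra h
          exact hq (by simp only [Φ]; rw [if_neg h])
        exact goodPiece_of hC hκ 𝒩 k hk hk' q (left_mem_Icc.2 (hmono q))
          (by rw [hq']; exact ⟨hxs, hx2⟩)
    have hend : ∀ q : Σ e : 𝒩.Edge, Fin (k e),
        pst 𝒩 k q.1 q.2 + r * ((pst 𝒩 k q.1 (q.2 + 1) - pst 𝒩 k q.1 q.2) / r)
          = pst 𝒩 k q.1 (q.2 + 1) := by
      intro q
      field_simp
      ring
    have h2 : (∑ a : {q : Σ e : 𝒩.Edge, Fin (k e) // GoodPiece 𝒩 k p A r q},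
        if zc p A r (𝒩.c a.1.1 (pst 𝒩 k a.1.1 a.1.2
            + r * ((pst 𝒩 k a.1.1 (a.1.2 + 1) - pst 𝒩 k a.1.1 a.1.2) / r))) = z then
          A (vel n p (𝒩.c a.1.1) (𝒩.ℓ a.1.1) (pst 𝒩 k a.1.1 a.1.2
            + r * ((pst 𝒩 k a.1.1 (a.1.2 + 1) - pst 𝒩 k a.1.1 a.1.2) / r))) else 0)
        = ∑ e, ∑ i : Fin (k e), Φ e (pst 𝒩 k e (i + 1)) := by
      rw [← sum_good 𝒩 k p A r (fun q => Φ q.1 (pst 𝒩 k q.1 (q.2 + 1)))]
      · refine Finset.sum_congr rfl fun a _ => ?_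
        rw [hend a.1]
        simp only [Φ]
        rw [if_congr (hiff a _ (right_mem_Icc.2 (hmono a.1))) rfl rfl]
      · intro q hq
        have hq' : 𝒩.c q.1 (pst 𝒩 k q.1 (q.2 + 1)) = x := by
          by_contra h
          exact hq (by simp only [Φ]; rw [if_neg h])
        exact goodPiece_of hC hκ 𝒩 k hk hk' q (right_mem_Icc.2 (hmono q))
          (by rw [hq']; exact ⟨hxs, hx2⟩)
    have h3 : ∀ e, ∑ i : Fin (k e), Φ e (pst 𝒩 k e i) - ∑ i : Fin (k e), Φ e (pst 𝒩 k e (i + 1))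
        = Φ e 0 - Φ e (𝒩.ℓ e) := by
      intro e
      rw [sum_pieces (fun i => Φ e (pst 𝒩 k e i)), pst_zero, pst_last 𝒩 k hk]
    have h4 := balanced_chart 𝒩 p A x hxs
    have h5 : ∑ e, ∑ i : Fin (k e), Φ e (pst 𝒩 k e i)
        - ∑ e, ∑ i : Fin (k e), Φ e (pst 𝒩 k e (i + 1)) = 0 := by
      rw [← Finset.sum_sub_distrib, Finset.sum_congr rfl fun e _ => h3 e]
      exact h4
    rw [← h1, ← h2] at h5
    convert h5
  emb := by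
    intro a b s hs t ht heq
    have hr := hC.r_pos
    have hend : ∀ q : Σ e : 𝒩.Edge, Fin (k e),
        pst 𝒩 k q.1 q.2 + r * ((pst 𝒩 k q.1 (q.2 + 1) - pst 𝒩 k q.1 q.2) / r)
          = pst 𝒩 k q.1 (q.2 + 1) := by
      intro q
      field_simp
      ring
    have hmaps : ∀ (q : Σ e : 𝒩.Edge, Fin (k e)) (σ : ℝ),
        σ ∈ Icc 0 ((pst 𝒩 k q.1 (q.2 + 1) - pst 𝒩 k q.1 q.2) / r) →
        pst 𝒩 k q.1 q.2 + r * σ ∈ Icc (pst 𝒩 k q.1 q.2) (pst 𝒩 k q.1 (q.2 + 1)) := by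
      intro q σ hσ
      refine ⟨by have := mul_nonneg hr.le hσ.1; linarith, ?_⟩
      rw [← hend q]
      have := hσ.2
      gcongr
    have hmaps' : ∀ (q : Σ e : 𝒩.Edge, Fin (k e)) (σ : ℝ),
        σ ∈ Icc 0 ((pst 𝒩 k q.1 (q.2 + 1) - pst 𝒩 k q.1 q.2) / r) → σ ≠ 0 →
        σ ≠ (pst 𝒩 k q.1 (q.2 + 1) - pst 𝒩 k q.1 q.2) / r →
        pst 𝒩 k q.1 q.2 + r * σ ∈ Ioo (pst 𝒩 k q.1 q.2) (pst 𝒩 k q.1 (q.2 + 1)) := by
      intro q σ hσ h0 h1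
      have h2 : 0 < σ := lt_of_le_of_ne hσ.1 (Ne.symm h0)
      have h3 := lt_of_le_of_ne hσ.2 h1
      refine ⟨by have := mul_pos hr h2; linarith, ?_⟩
      calc pst 𝒩 k q.1 q.2 + r * σ
          < pst 𝒩 k q.1 q.2 + r * ((pst 𝒩 k q.1 (q.2 + 1) - pst 𝒩 k q.1 q.2) / r) := by gcongr
        _ = _ := hend q
    have hpt : 𝒩.c a.1.1 (pst 𝒩 k a.1.1 a.1.2 + r * s)
        = 𝒩.c b.1.1 (pst 𝒩 k b.1.1 b.1.2 + r * t) :=
      zc_injOn hC (a.2 _ (hmaps a.1 s hs)).1 (b.2 _ (hmaps b.1 t ht)).1 heq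
    by_cases hs0 : s = 0 ∨ s = (pst 𝒩 k a.1.1 (a.1.2 + 1) - pst 𝒩 k a.1.1 a.1.2) / r
    · by_cases ht0 : t = 0 ∨ t = (pst 𝒩 k b.1.1 (b.1.2 + 1) - pst 𝒩 k b.1.1 b.1.2) / r
      · exact Or.inr ⟨hs0, ht0⟩
      · push Not at ht0
        obtain ⟨h1, h2⟩ := pieces_emb 𝒩 k hk b.1 a.1 (hmaps b.1 t ht) (hmaps a.1 s hs) hpt.symm
          (hmaps' b.1 t ht ht0.1 ht0.2)
        left
        have h3 : a = b := Subtype.ext h1.symm
        refine ⟨h3, ?_⟩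
        subst h3
        have h4 : r * t = r * s := by linarith
        exact (mul_left_cancel₀ hr.ne' h4).symm
    · push Not at hs0
      obtain ⟨h1, h2⟩ := pieces_emb 𝒩 k hk a.1 b.1 (hmaps a.1 s hs) (hmaps b.1 t ht) hpt
        (hmaps' a.1 s hs hs0.1 hs0.2)
      left
      have h3 : a = b := Subtype.ext h1
      refine ⟨h3, ?_⟩
      subst h3
      have h4 : r * s = r * t := by linarith
      exact mul_left_cancel₀ hr.ne' h4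

end

end Pool.Agent.GeoNet
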