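import Pool.Agent.GeoNet.MfdStay

/-! # Pieces of geodesic nets in nearly Euclidean charts -/


set_option maxSynthPendingDepth 3

namespace Pool.Agent.GeoNet

open Set Metric Filter Bundle
open scoped Topology RealInnerProductSpace ContDiff Manifold Bundle

variable {n : ℕ} {M : Type*} [TopologicalSpace M] [ChartedSpace (EuclideanSpace ℝ (Fin n)) M]
  [IsManifold (𝓡 n) ∞ M]

section
set_option linter.unusedSectionVars false
variable {G : RMetric n M} {p : M}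
  {A : EuclideanSpace ℝ (Fin n) ≃L[ℝ] EuclideanSpace ℝ (Fin n)} {r κ : ℝ}

/-- the local geometry `𝒢` agrees with the metric in the rescaled chart -/
structure Agrees (G : RMetric n M) (p : M)
    (A : EuclideanSpace ℝ (Fin n) ≃L[ℝ] EuclideanSpace ℝ (Fin n)) (r : ℝ)
    (𝒢 : LocGeo (EuclideanSpace ℝ (Fin n))) : Prop where
  g_eq : ∀ x ∈ ball (0 : EuclideanSpace ℝ (Fin n)) 3, 𝒢.g x = gc G p A r x
  acc_eq : ∀ x ∈ ball (0 : EuclideanSpace ℝ (Fin n)) 3, ∀ u w : EuclideanSpace ℝ (Fin n),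
    gc G p A r x (𝒢.acc x u) w
      = (1 / 2) * fderiv ℝ (gc G p A r) x w u u - fderiv ℝ (gc G p A r) x u u w

lemma acc_vel (hC : GoodChart G p A r κ) (hκ : κ ≤ 1 / 10)
    {𝒢 : LocGeo (EuclideanSpace ℝ (Fin n))} (h𝒢 : Agrees G p A r 𝒢) {c : ℝ → M} {ℓ : ℝ}
    (hc : IsGeodesicSegment G c ℓ) {s : ℝ} (hs : s ∈ Icc 0 ℓ)
    (hsrc : c s ∈ (extChartAt (𝓡 n) p).source ∧ ‖zc p A r (c s)‖ < 3) :
    r • A (derivWithin (vel n p c ℓ) (Icc 0 ℓ) s)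
      = 𝒢.acc (zc p A r (c s)) (A (vel n p c ℓ s)) := by
  have hz3 : zc p A r (c s) ∈ ball (0 : EuclideanSpace ℝ (Fin n)) 3 := by simpa using hsrc.2
  have hz10 : zc p A r (c s) ∈ ball (0 : EuclideanSpace ℝ (Fin n)) 10 :=
    ball_subset_ball (by norm_num) hz3
  refine gc_nondeg hC hκ hz10 ?_
  intro w
  rw [h𝒢.acc_eq _ hz3, hC.fd _ hz10, hC.fd _ hz10, gc_apply, coord_eq hC]
  simp only [map_smul, smul_apply, smul_eq_mul, ContinuousLinearEquiv.symm_apply_apply]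
  have h1 := hc.eqn p s hs hsrc.1 (A.symm w)
  rw [christoffel] at h1
  have h2 : coord n p c s = extChartAt (𝓡 n) p (c s) := rfl
  rw [h2] at h1
  linear_combination r * h1

lemma isGeo_piece (hC : GoodChart G p A r κ) (hκ : κ ≤ 1 / 10)
    {𝒢 : LocGeo (EuclideanSpace ℝ (Fin n))} (h𝒢 : Agrees G p A r 𝒢) {c : ℝ → M} {ℓ : ℝ}
    (hc : IsGeodesicSegment G c ℓ) {a b : ℝ} (h0 : 0 ≤ a) (hb : b ≤ ℓ)
    (hin : ∀ t ∈ Icc a b, c t ∈ (extChartAt (𝓡 n) p).source ∧ ‖zc p A r (c t)‖ < 3) :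
    IsGeo 𝒢.g 𝒢.acc (fun σ => zc p A r (c (a + r * σ)))
      (fun σ => A (vel n p c ℓ (a + r * σ))) 0 ((b - a) / r) := by
  have hr := hC.r_pos
  have hmaps : MapsTo (fun σ : ℝ => a + r * σ) (Icc 0 ((b - a) / r)) (Icc a b) := by
    intro σ hσ
    have h1 : r * σ ≤ b - a := by
      calc r * σ ≤ r * ((b - a) / r) := by gcongr; exact hσ.2
        _ = b - a := by field_simp
    have h2 : 0 ≤ r * σ := mul_nonneg hr.le hσ.1
    constructor <;> simp only <;> linarith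
  have hsub : Icc a b ⊆ Icc 0 ℓ := Icc_subset_Icc h0 hb
  have haff : ∀ σ : ℝ, HasDerivWithinAt (fun σ : ℝ => a + r * σ) r (Icc 0 ((b - a) / r)) σ := by
    intro σ
    have h1 := ((hasDerivAt_id σ).const_mul r).const_add a
    simpa using h1.hasDerivWithinAt
  refine ⟨?_, ?_, ?_, ?_⟩
  · intro σ hσ
    simpa using (hin _ (hmaps hσ)).2
  · intro σ hσ
    have h1 := hasDeriv_zc p A r (hc.diff p _ (hsub (hmaps hσ)) (hin _ (hmaps hσ)).1)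
    have h2 := HasDerivWithinAt.scomp σ h1 (haff σ) (hmaps.mono_right hsub)
    have h3 : r • r⁻¹ • A (vel n p c ℓ (a + r * σ)) = A (vel n p c ℓ (a + r * σ)) := by
      rw [smul_smul, mul_inv_cancel₀ hr.ne', one_smul]
    rw [h3] at h2
    exact h2
  · intro σ hσ
    have hs := hsub (hmaps hσ)
    have h1 : HasDerivWithinAt (vel n p c ℓ) (derivWithin (vel n p c ℓ) (Icc 0 ℓ) (a + r * σ))
        (Icc 0 ℓ) (a + r * σ) :=
      (hc.diff2 p _ hs (hin _ (hmaps hσ)).1).hasDerivWithinAt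
    have h2 := (A : EuclideanSpace ℝ (Fin n) →L[ℝ] EuclideanSpace ℝ
      (Fin n)).hasFDerivAt.comp_hasDerivWithinAt _ h1
    have h3 := HasDerivWithinAt.scomp σ h2 (haff σ) (hmaps.mono_right hsub)
    have h4 := acc_vel hC hκ h𝒢 hc hs (hin _ (hmaps hσ))
    simp only [ContinuousLinearEquiv.coe_coe] at h3
    rw [h4] at h3
    exact h3
  · intro σ hσ
    have hs := hsub (hmaps hσ)
    have h1 := gc_vel hC hc hs (hin _ (hmaps hσ)).1
    have h2 : zc p A r (c (a + r * σ)) ∈ ball (0 : EuclideanSpace ℝ (Fin n)) 3 := by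
      simpa using (hin _ (hmaps hσ)).2
    rw [← h𝒢.g_eq _ h2] at h1
    exact h1

end

/-- change of charts for velocities -/
lemma vel_transition {G : RMetric n M} (p v : M) {c : ℝ → M} {ℓ : ℝ}
    (hc : IsGeodesicSegment G c ℓ) {s : ℝ} (hs : s ∈ Icc 0 ℓ)
    (h1 : c s ∈ (extChartAt (𝓡 n) p).source) (h2 : c s ∈ (extChartAt (𝓡 n) v).source) :
    vel n p c ℓ s = fderiv ℝ (extChartAt (𝓡 n) p ∘ (extChartAt (𝓡 n) v).symm)
      (extChartAt (𝓡 n) v (c s)) (vel n v c ℓ s) := by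
  have hd : HasDerivWithinAt (coord n v c) (vel n v c ℓ s) (Icc 0 ℓ) s :=
    (hc.diff v s hs h2).hasDerivWithinAt
  have hT : HasFDerivAt (extChartAt (𝓡 n) p ∘ (extChartAt (𝓡 n) v).symm)
      (fderiv ℝ (extChartAt (𝓡 n) p ∘ (extChartAt (𝓡 n) v).symm) (extChartAt (𝓡 n) v (c s)))
      (coord n v c s) := by
    have h3 : ContDiffWithinAt ℝ ∞ (extChartAt (𝓡 n) p ∘ (extChartAt (𝓡 n) v).symm)
        (range (𝓡 n)) (extChartAt (𝓡 n) v (c s)) := by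
      apply contDiffWithinAt_ext_coord_change
      refine ⟨(extChartAt (𝓡 n) v).map_source h2, ?_⟩
      show (extChartAt (𝓡 n) v).symm (extChartAt (𝓡 n) v (c s)) ∈ (extChartAt (𝓡 n) p).source
      rw [(extChartAt (𝓡 n) v).left_inv h2]
      exact h1
    have hr : range (𝓡 n) = univ := by simp
    rw [hr, contDiffWithinAt_univ] at h3
    exact (h3.differentiableAt (by simp)).hasFDerivAt
  have h4 := hT.comp_hasDerivWithinAt s hd
  have h5 : coord n p c =ᶠ[𝓝[Icc 0 ℓ] s]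
      (extChartAt (𝓡 n) p ∘ (extChartAt (𝓡 n) v).symm) ∘ coord n v c := by
    have h6 : c ⁻¹' (extChartAt (𝓡 n) v).source ∈ 𝓝[Icc 0 ℓ] s :=
      hc.cont s hs ((isOpen_extChartAt_source (I := 𝓡 n) v).mem_nhds h2)
    filter_upwards [h6] with t ht
    simp only [Function.comp_apply, coord]
    rw [(extChartAt (𝓡 n) v).left_inv ht]
  have h6 := h4.congr_of_eventuallyEq h5 (h5.eq_of_nhdsWithin hs)
  exact h6.derivWithin (uniqueDiffOn_Icc hc.pos s hs)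

section
set_option linter.unusedSectionVars false
variable {G : RMetric n M} {p : M}
  {A : EuclideanSpace ℝ (Fin n) ≃L[ℝ] EuclideanSpace ℝ (Fin n)} {r κ : ℝ}

/-- start of the piece number `i` of the edge `e` divided into `k e` pieces -/
noncomputable def pst (𝒩 : ClosedGeodesicNet G) (k : 𝒩.Edge → ℕ) (e : 𝒩.Edge) (i : ℕ) : ℝ :=
  𝒩.ℓ e / k e * i

lemma pst_zero (𝒩 : ClosedGeodesicNet G) (k : 𝒩.Edge → ℕ) (e : 𝒩.Edge) : pst 𝒩 k e 0 = 0 := by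
  simp [pst]

lemma pst_last (𝒩 : ClosedGeodesicNet G) (k : 𝒩.Edge → ℕ) (hk : ∀ e, 0 < k e) (e : 𝒩.Edge) :
    pst 𝒩 k e (k e) = 𝒩.ℓ e := by
  have : (k e : ℝ) ≠ 0 := by exact_mod_cast (hk e).ne'
  simp only [pst]; field_simp

lemma pst_succ (𝒩 : ClosedGeodesicNet G) (k : 𝒩.Edge → ℕ) (e : 𝒩.Edge) (i : ℕ) :
    pst 𝒩 k e (i + 1) = pst 𝒩 k e i + 𝒩.ℓ e / k e := by
  simp only [pst]; push_cast; ring

lemma pst_mono (𝒩 : ClosedGeodesicNet G) (k : 𝒩.Edge → ℕ) (hk : ∀ e, 0 < k e) (e : 𝒩.Edge) :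
    StrictMono (pst 𝒩 k e) := by
  refine strictMono_nat_of_lt_succ fun i => ?_
  rw [pst_succ]
  have h1 : (0 : ℝ) < k e := by exact_mod_cast hk e
  have h2 := (𝒩.geodesic e).pos
  have : 0 < 𝒩.ℓ e / k e := by positivity
  linarith

lemma pst_nonneg (𝒩 : ClosedGeodesicNet G) (k : 𝒩.Edge → ℕ) (hk : ∀ e, 0 < k e) (e : 𝒩.Edge)
    (i : ℕ) : 0 ≤ pst 𝒩 k e i := by
  rw [← pst_zero 𝒩 k e]
  exact (pst_mono 𝒩 k hk e).monotone (Nat.zero_le i)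

lemma pst_le (𝒩 : ClosedGeodesicNet G) (k : 𝒩.Edge → ℕ) (hk : ∀ e, 0 < k e) (e : 𝒩.Edge)
    {i : ℕ} (hi : i ≤ k e) : pst 𝒩 k e i ≤ 𝒩.ℓ e := by
  rw [← pst_last 𝒩 k hk e]
  exact (pst_mono 𝒩 k hk e).monotone hi

/-- the piece lies in the ball of radius 3 of the chart -/
def GoodPiece (𝒩 : ClosedGeodesicNet G) (k : 𝒩.Edge → ℕ) (p : M)
    (A : EuclideanSpace ℝ (Fin n) ≃L[ℝ] EuclideanSpace ℝ (Fin n)) (r : ℝ)
    (q : Σ e : 𝒩.Edge, Fin (k e)) : Prop :=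
  ∀ t ∈ Icc (pst 𝒩 k q.1 q.2) (pst 𝒩 k q.1 (q.2 + 1)),
    𝒩.c q.1 t ∈ (extChartAt (𝓡 n) p).source ∧ ‖zc p A r (𝒩.c q.1 t)‖ < 3

lemma goodPiece_of [T2Space M] (hC : GoodChart G p A r κ) (hκ : κ ≤ 1 / 10)
    (𝒩 : ClosedGeodesicNet G) (k : 𝒩.Edge → ℕ) (hk : ∀ e, 0 < k e)
    (hk' : ∀ e, 𝒩.ℓ e / k e ≤ r / 4) (q : Σ e : 𝒩.Edge, Fin (k e)) {s₀ : ℝ}
    (hs₀ : s₀ ∈ Icc (pst 𝒩 k q.1 q.2) (pst 𝒩 k q.1 (q.2 + 1)))
    (hs : 𝒩.c q.1 s₀ ∈ (extChartAt (𝓡 n) p).source ∧ ‖zc p A r (𝒩.c q.1 s₀)‖ < 2) :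
    GoodPiece 𝒩 k p A r q := by
  refine stay hC hκ (𝒩.geodesic q.1) (pst_nonneg 𝒩 k hk q.1 _)
    (pst_le 𝒩 k hk q.1 (Nat.succ_le_of_lt q.2.2)) ?_ hs₀ hs
  rw [pst_succ]
  linarith [hk' q.1]

/-- telescoping over the pieces of one edge -/
lemma sum_pieces {E : Type*} [AddCommGroup E] {k : ℕ} (F : ℕ → E) :
    ∑ i : Fin k, F i - ∑ i : Fin k, F (i + 1) = F 0 - F k := by
  rw [← Finset.sum_sub_distrib, ← Finset.sum_range_sub' F k]
  exact (Finset.sum_range (fun i => F i - F (i + 1))).symm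

open scoped Classical in
lemma balanced_chart (𝒩 : ClosedGeodesicNet G) (p : M)
    (A : EuclideanSpace ℝ (Fin n) ≃L[ℝ] EuclideanSpace ℝ (Fin n)) (x : M)
    (hx : x ∈ (extChartAt (𝓡 n) p).source) :
    ∑ e, ((if 𝒩.c e 0 = x then A (vel n p (𝒩.c e) (𝒩.ℓ e) 0) else 0)
      - (if 𝒩.c e (𝒩.ℓ e) = x then A (vel n p (𝒩.c e) (𝒩.ℓ e) (𝒩.ℓ e)) else 0)) = 0 := by
  by_cases hV : x ∈ 𝒩.V
  · set T := fderiv ℝ (extChartAt (𝓡 n) p ∘ (extChartAt (𝓡 n) x).symm)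
      (extChartAt (𝓡 n) x x) with hT
    have h1 : ∀ e, (if 𝒩.c e 0 = x then A (vel n p (𝒩.c e) (𝒩.ℓ e) 0) else 0)
        = A (T (if 𝒩.c e 0 = x then vel n x (𝒩.c e) (𝒩.ℓ e) 0 else 0)) := by
      intro e
      split_ifs with h
      · rw [vel_transition p x (𝒩.geodesic e) (left_mem_Icc.2 (𝒩.geodesic e).pos.le)
          (by rw [h]; exact hx) (by rw [h]; exact mem_extChartAt_source x), h]
      · simp
    have h2 : ∀ e, (if 𝒩.c e (𝒩.ℓ e) = x then A (vel n p (𝒩.c e) (𝒩.ℓ e) (𝒩.ℓ e)) else 0)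
        = - A (T (if 𝒩.c e (𝒩.ℓ e) = x then - vel n x (𝒩.c e) (𝒩.ℓ e) (𝒩.ℓ e) else 0)) := by
      intro e
      split_ifs with h
      · rw [vel_transition p x (𝒩.geodesic e) (right_mem_Icc.2 (𝒩.geodesic e).pos.le)
          (by rw [h]; exact hx) (by rw [h]; exact mem_extChartAt_source x), h, map_neg, map_neg,
          neg_neg]
      · simp
    simp only [h1, h2, sub_neg_eq_add]
    rw [Finset.sum_add_distrib, ← map_sum, ← map_sum, ← map_sum, ← map_sum, ← map_add, ← map_add,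
      𝒩.balanced x hV, map_zero, map_zero]
  · refine Finset.sum_eq_zero fun e _ => ?_
    have h1 : 𝒩.c e 0 ≠ x := fun h => hV (h ▸ 𝒩.left_mem e)
    have h2 : 𝒩.c e (𝒩.ℓ e) ≠ x := fun h => hV (h ▸ 𝒩.right_mem e)
    simp [h1, h2]

open scoped Classical in
/-- sums over the good pieces -/
lemma sum_good {E : Type*} [AddCommGroup E] (𝒩 : ClosedGeodesicNet G) (k : 𝒩.Edge → ℕ) (p : M)
    (A : EuclideanSpace ℝ (Fin n) ≃L[ℝ] EuclideanSpace ℝ (Fin n)) (r : ℝ)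
    (F : (Σ e : 𝒩.Edge, Fin (k e)) → E) (hF : ∀ q, F q ≠ 0 → GoodPiece 𝒩 k p A r q) :
    ∑ a : {q : Σ e : 𝒩.Edge, Fin (k e) // GoodPiece 𝒩 k p A r q}, F a.1
      = ∑ e, ∑ i : Fin (k e), F ⟨e, i⟩ := by
  rw [← Fintype.sum_sigma' (fun e i => F ⟨e, i⟩)]
  have h1 : ∑ q ∈ Finset.univ.filter (GoodPiece 𝒩 k p A r), F q
      = ∑ a : {q : Σ e : 𝒩.Edge, Fin (k e) // GoodPiece 𝒩 k p A r q}, F a.1 :=
    Finset.sum_subtype _ (by simp) F
  rw [← h1]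
  exact Finset.sum_filter_of_ne fun x _ hx => hF x hx

end

end Pool.Agent.GeoNet
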