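import Pool.Agent.GeoNet.MfdChart

/-! # Geodesic segments in nearly Euclidean charts -/


set_option maxSynthPendingDepth 3

namespace Pool.Agent.GeoNet

open Set Metric Filter Bundle
open scoped Topology RealInnerProductSpace ContDiff Manifold Bundle

lemma forward_stay {M : Type*} [TopologicalSpace M] {f : ℝ → M} {a b : ℝ}
    (hf : ContinuousOn f (Icc a b)) (K U : Set M) (hK : IsClosed K) (hU : IsOpen U) (hUK : U ⊆ K)
    (ha : f a ∈ K) (H : ∀ t ∈ Icc a b, (∀ t' ∈ Icc a t, f t' ∈ K) → f t ∈ U) :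
    ∀ t ∈ Icc a b, f t ∈ K := by
  by_contra hcon
  push Not at hcon
  obtain ⟨t₀, ht₀, hft₀⟩ := hcon
  set T : Set ℝ := {t | t ∈ Icc a b ∧ f t ∉ K} with hT
  have hne : T.Nonempty := ⟨t₀, ht₀, hft₀⟩
  have hbdd : BddBelow T := ⟨a, fun t ht => ht.1.1⟩
  set m := sInf T with hm
  have ham : a ≤ m := le_csInf hne fun t ht => ht.1.1
  have hmt : m ≤ t₀ := csInf_le hbdd ⟨ht₀, hft₀⟩
  have hmb : m ∈ Icc a b := ⟨ham, hmt.trans ht₀.2⟩
  have hlt : ∀ t' ∈ Ico a m, f t' ∈ K := by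
    intro t' ht'
    by_contra h
    exact absurd (csInf_le hbdd (show t' ∈ T from ⟨⟨ht'.1, ht'.2.le.trans hmb.2⟩, h⟩))
      (not_le.2 ht'.2)
  have hcm : ContinuousWithinAt f (Icc a b) m := hf m hmb
  have hfm : f m ∈ K := by
    rcases eq_or_lt_of_le ham with h | h
    · rw [← h]; exact ha
    by_contra hn
    have h1 : f ⁻¹' Kᶜ ∈ 𝓝[Icc a b] m := hcm (hK.isOpen_compl.mem_nhds hn)
    obtain ⟨ε, hε, h2⟩ := Metric.mem_nhdsWithin_iff.1 h1
    obtain ⟨q, hq1, hq2⟩ := exists_between (show max a (m - ε) < m from max_lt h (by linarith))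
    have hq3 : a ≤ q := (le_max_left _ _).trans hq1.le
    have hq4 : m - ε < q := (le_max_right _ _).trans_lt hq1
    refine h2 ⟨?_, ⟨hq3, hq2.le.trans hmb.2⟩⟩ (hlt q ⟨hq3, hq2⟩)
    rw [mem_ball, Real.dist_eq, abs_sub_lt_iff]
    constructor <;> linarith
  have hle : ∀ t' ∈ Icc a m, f t' ∈ K := by
    intro t' ht'
    rcases eq_or_lt_of_le ht'.2 with h | h
    · rw [h]; exact hfm
    · exact hlt t' ⟨ht'.1, h⟩
  have hfU : f m ∈ U := H m hmb hle
  have h1 : f ⁻¹' U ∈ 𝓝[Icc a b] m := hcm (hU.mem_nhds hfU)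
  obtain ⟨ε, hε, h2⟩ := Metric.mem_nhdsWithin_iff.1 h1
  obtain ⟨q, hqT, hq⟩ := exists_lt_of_csInf_lt hne (show sInf T < m + ε by linarith)
  have hmq : m ≤ q := csInf_le hbdd hqT
  refine hqT.2 (hUK (h2 ⟨?_, hqT.1⟩))
  rw [mem_ball, Real.dist_eq, abs_sub_lt_iff]
  constructor <;> linarith

variable {n : ℕ} {M : Type*} [TopologicalSpace M] [ChartedSpace (EuclideanSpace ℝ (Fin n)) M]
  [IsManifold (𝓡 n) ∞ M]

section
set_option linter.unusedSectionVars false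
variable {G : RMetric n M} {p : M}
  {A : EuclideanSpace ℝ (Fin n) ≃L[ℝ] EuclideanSpace ℝ (Fin n)} {r κ : ℝ}

lemma coord_eq (hC : GoodChart G p A r κ) (x : M) :
    extChartAt (𝓡 n) p p + r • A.symm (zc p A r x) = extChartAt (𝓡 n) p x := by
  have hr : r ≠ 0 := hC.r_pos.ne'
  simp only [zc]
  rw [map_smul, smul_smul, mul_inv_cancel₀ hr, one_smul, ContinuousLinearEquiv.symm_apply_apply]
  abel

lemma zinv_zc (hC : GoodChart G p A r κ) {x : M} (hx : x ∈ (extChartAt (𝓡 n) p).source) :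
    zinv p A r (zc p A r x) = x := by
  unfold zinv
  rw [coord_eq hC, (extChartAt (𝓡 n) p).left_inv hx]

lemma zinv_mem (hC : GoodChart G p A r κ) {z : EuclideanSpace ℝ (Fin n)}
    (hz : z ∈ ball (0 : EuclideanSpace ℝ (Fin n)) 10) :
    zinv p A r z ∈ (extChartAt (𝓡 n) p).source :=
  (extChartAt (𝓡 n) p).map_target (hC.target z hz)

lemma zc_zinv (hC : GoodChart G p A r κ) {z : EuclideanSpace ℝ (Fin n)}
    (hz : z ∈ ball (0 : EuclideanSpace ℝ (Fin n)) 10) :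
    zc p A r (zinv p A r z) = z := by
  have hr : r ≠ 0 := hC.r_pos.ne'
  unfold zc zinv
  rw [(extChartAt (𝓡 n) p).right_inv (hC.target z hz), add_sub_cancel_left, map_smul, smul_smul,
    inv_mul_cancel₀ hr, one_smul, ContinuousLinearEquiv.apply_symm_apply]

lemma zc_injOn (hC : GoodChart G p A r κ) :
    InjOn (zc p A r) (extChartAt (𝓡 n) p).source := by
  intro x hx y hy h
  rw [← zinv_zc hC hx, ← zinv_zc hC hy, h]

lemma zc_self (p : M) (A : EuclideanSpace ℝ (Fin n) ≃L[ℝ] EuclideanSpace ℝ (Fin n)) (r : ℝ) :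
    zc p A r p = 0 := by
  simp [zc]

lemma continuousOn_zc (p : M) (A : EuclideanSpace ℝ (Fin n) ≃L[ℝ] EuclideanSpace ℝ (Fin n))
    (r : ℝ) : ContinuousOn (zc p A r) (extChartAt (𝓡 n) p).source := by
  unfold zc
  have h1 := continuousOn_extChartAt (I := 𝓡 n) p
  have h2 : ContinuousOn (fun x => A (extChartAt (𝓡 n) p x - extChartAt (𝓡 n) p p))
      (extChartAt (𝓡 n) p).source :=
    A.continuous.comp_continuousOn (h1.sub continuousOn_const)
  exact h2.const_smul r⁻¹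

lemma continuousOn_zinv (hC : GoodChart G p A r κ) :
    ContinuousOn (zinv p A r) (ball (0 : EuclideanSpace ℝ (Fin n)) 10) := by
  unfold zinv
  refine (continuousOn_extChartAt_symm (I := 𝓡 n) p).comp ?_ (fun z hz => hC.target z hz)
  have : Continuous fun z : EuclideanSpace ℝ (Fin n) =>
      extChartAt (𝓡 n) p p + r • A.symm z := by fun_prop
  exact this.continuousOn

lemma isOpen_zball (p : M) (A : EuclideanSpace ℝ (Fin n) ≃L[ℝ] EuclideanSpace ℝ (Fin n))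
    (r ρ : ℝ) : IsOpen {x | x ∈ (extChartAt (𝓡 n) p).source ∧ ‖zc p A r x‖ < ρ} := by
  have h1 := (continuousOn_zc p A r).norm.isOpen_inter_preimage
    (isOpen_extChartAt_source (I := 𝓡 n) p) (isOpen_Iio (a := ρ))
  exact h1

lemma isClosed_zball [T2Space M] (hC : GoodChart G p A r κ) {ρ : ℝ} (hρ : ρ < 10) :
    IsClosed {x | x ∈ (extChartAt (𝓡 n) p).source ∧ ‖zc p A r x‖ ≤ ρ} := by
  have h1 : {x | x ∈ (extChartAt (𝓡 n) p).source ∧ ‖zc p A r x‖ ≤ ρ}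
      = zinv p A r '' closedBall (0 : EuclideanSpace ℝ (Fin n)) ρ := by
    ext x
    constructor
    · rintro ⟨h1, h2⟩
      exact ⟨zc p A r x, by simpa using h2, zinv_zc hC h1⟩
    · rintro ⟨z, hz, rfl⟩
      have hz' : z ∈ ball (0 : EuclideanSpace ℝ (Fin n)) 10 := closedBall_subset_ball hρ hz
      refine ⟨zinv_mem hC hz', ?_⟩
      rw [zc_zinv hC hz']
      simpa using hz
  rw [h1]
  refine ((isCompact_closedBall _ _).image_of_continuousOn ?_).isClosed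
  exact (continuousOn_zinv hC).mono (closedBall_subset_ball hρ)

/-- velocity bound -/
lemma norm_le_of_gc (hC : GoodChart G p A r κ) (hκ : κ ≤ 1 / 10) {z : EuclideanSpace ℝ (Fin n)}
    (hz : z ∈ ball (0 : EuclideanSpace ℝ (Fin n)) 10) {v : EuclideanSpace ℝ (Fin n)}
    (hv : gc G p A r z v v = 1) : ‖v‖ ≤ 11 / 10 := by
  have h1 := hC.small.near z hz
  have h2 : |(gc G p A r z - inn (EuclideanSpace ℝ (Fin n))) v v| ≤ κ * ‖v‖ * ‖v‖ := by
    have h3 := (gc G p A r z - inn (EuclideanSpace ℝ (Fin n))).le_opNorm₂ v v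
    rw [Real.norm_eq_abs] at h3
    refine h3.trans ?_
    gcongr
  have h4 : (gc G p A r z - inn (EuclideanSpace ℝ (Fin n))) v v
      = gc G p A r z v v - ‖v‖ ^ 2 := by
    rw [sub_apply, sub_apply, inn_apply, real_inner_self_eq_norm_sq]
  rw [h4, hv] at h2
  have h5 := (abs_le.1 h2).1
  have h6 : κ * ‖v‖ * ‖v‖ ≤ 1 / 10 * ‖v‖ * ‖v‖ := by gcongr
  by_contra h7
  push Not at h7
  nlinarith

lemma gc_nondeg (hC : GoodChart G p A r κ) (hκ : κ ≤ 1 / 10) {z : EuclideanSpace ℝ (Fin n)}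
    (hz : z ∈ ball (0 : EuclideanSpace ℝ (Fin n)) 10) {v v' : EuclideanSpace ℝ (Fin n)}
    (hv : ∀ w, gc G p A r z v w = gc G p A r z v' w) : v = v' := by
  have h1 := hC.small.near z hz
  set d := v - v' with hd
  have h0' : gc G p A r z d = 0 := by
    rw [hd, map_sub]
    exact sub_eq_zero.2 (ContinuousLinearMap.ext hv)
  have h0 : gc G p A r z d d = 0 := by
    rw [h0']; rfl
  have h2 : |(gc G p A r z - inn (EuclideanSpace ℝ (Fin n))) d d| ≤ κ * ‖d‖ * ‖d‖ := by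
    have h3 := (gc G p A r z - inn (EuclideanSpace ℝ (Fin n))).le_opNorm₂ d d
    rw [Real.norm_eq_abs] at h3
    refine h3.trans ?_
    gcongr
  have h4 : (gc G p A r z - inn (EuclideanSpace ℝ (Fin n))) d d
      = gc G p A r z d d - ‖d‖ ^ 2 := by
    rw [sub_apply, sub_apply, inn_apply, real_inner_self_eq_norm_sq]
  rw [h4, h0] at h2
  have h5 := (abs_le.1 h2).1
  have h6 : κ * ‖d‖ * ‖d‖ ≤ 1 / 10 * ‖d‖ * ‖d‖ := by gcongr
  have h7 : ‖d‖ = 0 := by
    have := norm_nonneg d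
    by_contra h
    have : 0 < ‖d‖ := lt_of_le_of_ne this (Ne.symm h)
    nlinarith
  exact sub_eq_zero.1 (norm_eq_zero.1 h7)

lemma hasDeriv_zc (p : M) (A : EuclideanSpace ℝ (Fin n) ≃L[ℝ] EuclideanSpace ℝ (Fin n)) (r : ℝ)
    {c : ℝ → M} {ℓ s : ℝ}
    (hd : DifferentiableWithinAt ℝ (coord n p c) (Icc 0 ℓ) s) :
    HasDerivWithinAt (fun s => zc p A r (c s)) (r⁻¹ • A (vel n p c ℓ s)) (Icc 0 ℓ) s := by
  have h1 : HasDerivWithinAt (coord n p c) (vel n p c ℓ s) (Icc 0 ℓ) s := hd.hasDerivWithinAt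
  have h2 := h1.sub_const (extChartAt (𝓡 n) p p)
  have h3 := (A : EuclideanSpace ℝ (Fin n) →L[ℝ] EuclideanSpace ℝ
    (Fin n)).hasFDerivAt.comp_hasDerivWithinAt s h2
  have h4 := h3.const_smul r⁻¹
  exact h4

lemma gc_vel (hC : GoodChart G p A r κ) {c : ℝ → M} {ℓ : ℝ} (hc : IsGeodesicSegment G c ℓ)
    {s : ℝ} (hs : s ∈ Icc 0 ℓ) (hsrc : c s ∈ (extChartAt (𝓡 n) p).source) :
    gc G p A r (zc p A r (c s)) (A (vel n p c ℓ s)) (A (vel n p c ℓ s)) = 1 := by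
  rw [gc_apply, coord_eq hC]
  simp only [ContinuousLinearEquiv.symm_apply_apply]
  exact hc.unit p s hs hsrc

lemma norm_zc_sub_le (hC : GoodChart G p A r κ) (hκ : κ ≤ 1 / 10) {c : ℝ → M} {ℓ : ℝ}
    (hc : IsGeodesicSegment G c ℓ) {a b : ℝ} (h0 : 0 ≤ a) (hb : b ≤ ℓ)
    (hab : ∀ t ∈ Icc a b, c t ∈ (extChartAt (𝓡 n) p).source ∧ ‖zc p A r (c t)‖ < 10)
    {x y : ℝ} (hx : x ∈ Icc a b) (hy : y ∈ Icc a b) :
    ‖zc p A r (c y) - zc p A r (c x)‖ ≤ r⁻¹ * (11 / 10) * ‖y - x‖ := by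
  have hsub : Icc a b ⊆ Icc 0 ℓ := Icc_subset_Icc h0 hb
  have hr := hC.r_pos
  refine Convex.norm_image_sub_le_of_norm_hasDerivWithin_le (s := Icc a b)
    (f := fun s => zc p A r (c s)) (f' := fun s => r⁻¹ • A (vel n p c ℓ s)) ?_ ?_
    (convex_Icc a b) hx hy
  · intro t ht
    exact (hasDeriv_zc p A r (hc.diff p t (hsub ht) (hab t ht).1)).mono hsub
  · intro t ht
    rw [norm_smul, Real.norm_of_nonneg (by positivity)]
    gcongr
    exact norm_le_of_gc hC hκ (by simpa using (hab t ht).2) (gc_vel hC hc (hsub ht) (hab t ht).1)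

lemma stay [T2Space M] (hC : GoodChart G p A r κ) (hκ : κ ≤ 1 / 10) {c : ℝ → M} {ℓ : ℝ}
    (hc : IsGeodesicSegment G c ℓ) {a b : ℝ} (h0 : 0 ≤ a) (hb : b ≤ ℓ)
    (hlen : b - a ≤ r / 4) {s₀ : ℝ} (hs₀ : s₀ ∈ Icc a b)
    (hs : c s₀ ∈ (extChartAt (𝓡 n) p).source ∧ ‖zc p A r (c s₀)‖ < 2) :
    ∀ t ∈ Icc a b, c t ∈ (extChartAt (𝓡 n) p).source ∧ ‖zc p A r (c t)‖ < 3 := by
  have hr := hC.r_pos
  have hsub : Icc a b ⊆ Icc 0 ℓ := Icc_subset_Icc h0 hb
  set K : Set M := {x | x ∈ (extChartAt (𝓡 n) p).source ∧ ‖zc p A r x‖ ≤ 29 / 10} with hKdef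
  set U : Set M := {x | x ∈ (extChartAt (𝓡 n) p).source ∧ ‖zc p A r x‖ < 29 / 10} with hUdef
  have hK : IsClosed K := isClosed_zball hC (by norm_num)
  have hU : IsOpen U := isOpen_zball p A r _
  have hUK : U ⊆ K := fun x hx => ⟨hx.1, hx.2.le⟩
  have hs₀K : c s₀ ∈ K := ⟨hs.1, by linarith [hs.2]⟩
  have bound : ∀ x y : ℝ, r⁻¹ * (11 / 10) * ‖y - x‖ ≤ 3 / 10 ∨ r / 4 < |y - x| := by
    intro x y
    by_cases h : |y - x| ≤ r / 4
    · left
      rw [Real.norm_eq_abs]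
      calc r⁻¹ * (11 / 10) * |y - x| ≤ r⁻¹ * (11 / 10) * (r / 4) := by gcongr
        _ = 11 / 40 := by field_simp; norm_num
        _ ≤ 3 / 10 := by norm_num
    · right; push Not at h; exact h
  have hkey : ∀ x y : ℝ, a ≤ x → x ≤ y → y ≤ b → (∀ t ∈ Icc x y, c t ∈ K) →
      ‖zc p A r (c y) - zc p A r (c x)‖ ≤ 3 / 10 := by
    intro x y h1 h2 h3 h4
    have h5 := norm_zc_sub_le hC hκ hc (h0.trans h1) (h3.trans hb)
      (fun t ht => ⟨(h4 t ht).1, (h4 t ht).2.trans_lt (by norm_num)⟩)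
      (left_mem_Icc.2 h2) (right_mem_Icc.2 h2)
    refine h5.trans ((bound x y).resolve_right ?_)
    rw [not_lt, abs_le]
    constructor <;> linarith
  have hcont : ContinuousOn c (Icc a b) := hc.cont.mono hsub
  -- forward part
  have hfw : ∀ t ∈ Icc s₀ b, c t ∈ K := by
    refine forward_stay (hcont.mono (Icc_subset_Icc hs₀.1 le_rfl)) K U hK hU hUK hs₀K ?_
    intro t ht h
    refine ⟨(h t (right_mem_Icc.2 ht.1)).1, ?_⟩
    have h1 := hkey s₀ t hs₀.1 ht.1 ht.2 h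
    have h2 := norm_le_norm_add_norm_sub' (zc p A r (c t)) (zc p A r (c s₀))
    linarith [hs.2]
  have hbw : ∀ t ∈ Icc a s₀, c t ∈ K := by
    have h1 : ∀ t ∈ Icc (-s₀) (-a), (fun t => c (-t)) t ∈ K := by
      refine forward_stay (f := fun t => c (-t)) ?_ K U hK hU hUK (by simpa using hs₀K) ?_
      · refine hcont.comp continuous_neg.continuousOn ?_
        intro t ht
        exact ⟨by linarith [ht.2], by linarith [ht.1, hs₀.2]⟩
      intro t ht h
      have h' : ∀ t' ∈ Icc (-t) s₀, c t' ∈ K := by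
        intro t' ht'
        have := h (-t') ⟨by linarith [ht'.2], by linarith [ht'.1]⟩
        simpa using this
      refine ⟨(h t (right_mem_Icc.2 ht.1)).1, ?_⟩
      have h1 := hkey (-t) s₀ (by linarith [ht.2]) (by linarith [ht.1]) hs₀.2 h'
      have h2 := norm_le_norm_add_norm_sub (zc p A r (c s₀)) (zc p A r (c (-t)))
      show ‖zc p A r (c (-t))‖ < 29 / 10
      linarith [hs.2]
    intro t ht
    have := h1 (-t) ⟨by linarith [ht.2], by linarith [ht.1]⟩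
    simpa using this
  intro t ht
  have htK : c t ∈ K := by
    rcases le_total s₀ t with h | h
    · exact hfw t ⟨h, ht.2⟩
    · exact hbw t ⟨ht.1, h⟩
  exact ⟨htK.1, htK.2.trans_lt (by norm_num)⟩

end

end Pool.Agent.GeoNet
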