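import Pool.Agent.GeoNet.NetDefs
import Pool.Agent.GeoNet.MfdMain

/-! # Bridge between the definitions of the final statement and those of the proof -/

set_option maxSynthPendingDepth 3

namespace Pool.Agent.GeoNet.Nets

open Set
open scoped Topology ContDiff Manifold Bundle

variable {n : ℕ} {M : Type*} [TopologicalSpace M] [ChartedSpace (EuclideanSpace ℝ (Fin n)) M]
  [IsManifold (𝓡 n) ∞ M]

lemma coef_eq (G : RiemMetric (EuclideanSpace ℝ (Fin n)) M) (p : M)
    (u v y : EuclideanSpace ℝ (Fin n)) :
    coef G p u v y = chartMetric (n := n) G p y u v := rfl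

lemma fderiv_coef (G : RiemMetric (EuclideanSpace ℝ (Fin n)) M) (p : M)
    {y : EuclideanSpace ℝ (Fin n)} (hy : y ∈ (extChartAt (𝓡 n) p).target)
    (a b c : EuclideanSpace ℝ (Fin n)) :
    fderiv ℝ (coef G p a b) y c = fderiv ℝ (chartMetric (n := n) G p) y c a b := by
  have ho : IsOpen (extChartAt (𝓡 n) p).target := isOpen_extChartAt_target p
  have hd : DifferentiableAt ℝ (chartMetric (n := n) G p) y :=
    ((contDiffOn_chartMetric (n := n) G p).contDiffAt (ho.mem_nhds hy)).differentiableAt
      (by simp)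
  have h1 := (hd.hasFDerivAt.clm_apply (hasFDerivAt_const a y)).clm_apply (hasFDerivAt_const b y)
  have h2 : coef G p a b = fun y => chartMetric (n := n) G p y a b := rfl
  rw [h2, h1.fderiv]
  simp

lemma Gam_eq (G : RiemMetric (EuclideanSpace ℝ (Fin n)) M) (p : M)
    {y : EuclideanSpace ℝ (Fin n)} (hy : y ∈ (extChartAt (𝓡 n) p).target)
    (u v w : EuclideanSpace ℝ (Fin n)) :
    Gam G p y u v w = christoffel (n := n) G p y u v w := by
  unfold Gam christoffel
  rw [fderiv_coef G p hy, fderiv_coef G p hy, fderiv_coef G p hy]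

lemma segment_bridge {G : RiemMetric (EuclideanSpace ℝ (Fin n)) M} {c : ℝ → M} {ℓ : ℝ}
    (h : GeodesicSegment G c ℓ) : IsGeodesicSegment (n := n) G c ℓ where
  pos := h.pos
  cont := h.cont
  diff p s hs hc := (h.regular p s hs (by rwa [extChartAt_source] at hc)).1
  diff2 p s hs hc := (h.regular p s hs (by rwa [extChartAt_source] at hc)).2
  unit p s hs hc := h.unit p s hs (by rwa [extChartAt_source] at hc)
  eqn p s hs hc w := by
    have h1 := h.eqn p s hs (by rwa [extChartAt_source] at hc) w
    have hy : coor (EuclideanSpace ℝ (Fin n)) p c s ∈ (extChartAt (𝓡 n) p).target :=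
      (extChartAt (𝓡 n) p).map_source hc
    rw [Gam_eq G p hy] at h1
    exact h1

/-- the net, with the definitions used in the proof -/
noncomputable def netBridge {G : RiemMetric (EuclideanSpace ℝ (Fin n)) M} (𝒩 : ClosedNet G) :
    ClosedGeodesicNet (n := n) G where
  V := 𝒩.V
  Edge := 𝒩.Edge
  fin := 𝒩.fin
  c := 𝒩.c
  ℓ := 𝒩.ℓ
  geodesic e := segment_bridge (𝒩.geodesic e)
  left_mem := 𝒩.left_mem
  right_mem := 𝒩.right_mem
  interior_not_mem := 𝒩.interior_not_mem
  embedded := 𝒩.embedded
  balanced := 𝒩.balanced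
  degree := 𝒩.degree

end Pool.Agent.GeoNet.Nets
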