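import Mathlib

/-!
# Closed geodesic nets on Riemannian manifolds: the definitions used in the final statement
-/

namespace Pool.Agent.GeoNet.Nets

open Set
open scoped Topology ContDiff Manifold Bundle

/-- A smooth Riemannian metric on the manifold `M` modelled on `E` (Mathlib's notion). -/
abbrev RiemMetric (E M : Type*) [NormedAddCommGroup E] [NormedSpace ℝ E] [TopologicalSpace M]
    [ChartedSpace E M] [IsManifold 𝓘(ℝ, E) ∞ M] :=
  Bundle.ContMDiffRiemannianMetric 𝓘(ℝ, E) ∞ E (fun x : M => TangentSpace 𝓘(ℝ, E) x)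

variable {E M : Type*} [NormedAddCommGroup E] [NormedSpace ℝ E] [TopologicalSpace M]
    [ChartedSpace E M] [IsManifold 𝓘(ℝ, E) ∞ M]

/-- The inner product on the tangent space at `x` (Mathlib identifies the tangent space at `x` with
the model space `E` through the preferred chart at `x`). -/
noncomputable def inner (G : RiemMetric E M) (x : M) : E →L[ℝ] E →L[ℝ] ℝ := G.inner x

/-- The derivative at `y` of the inverse of the chart at `p`. -/
noncomputable def push (E : Type*) {M : Type*} [NormedAddCommGroup E] [NormedSpace ℝ E]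
    [TopologicalSpace M] [ChartedSpace E M] (p : M) (y : E) : E →L[ℝ] E :=
  mfderiv 𝓘(ℝ, E) 𝓘(ℝ, E) (extChartAt 𝓘(ℝ, E) p).symm y

/-- The metric in the chart at `p`: the coefficient `g (u, v)` at the point `y`. -/
noncomputable def coef (G : RiemMetric E M) (p : M) (u v y : E) : ℝ :=
  inner G ((extChartAt 𝓘(ℝ, E) p).symm y) (push E p y u) (push E p y v)

/-- Christoffel symbols of the first kind of the metric in the chart at `p`:
`Γ(u, v, w) = (D_u g (v, w) + D_v g (u, w) - D_w g (u, v)) / 2`. -/
noncomputable def Gam (G : RiemMetric E M) (p : M) (y u v w : E) : ℝ :=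
  (fderiv ℝ (coef G p v w) y u + fderiv ℝ (coef G p u w) y v - fderiv ℝ (coef G p u v) y w) / 2

/-- coordinates of a curve in the chart at `p` -/
noncomputable def coor (E : Type*) {M : Type*} [NormedAddCommGroup E] [NormedSpace ℝ E]
    [TopologicalSpace M] [ChartedSpace E M] (p : M) (c : ℝ → M) (s : ℝ) : E :=
  extChartAt 𝓘(ℝ, E) p (c s)

/-- coordinate velocity in the chart at `p` of a curve defined on `[0, ℓ]` -/
noncomputable def velo (E : Type*) {M : Type*} [NormedAddCommGroup E] [NormedSpace ℝ E]
    [TopologicalSpace M] [ChartedSpace E M] (p : M) (c : ℝ → M) (ℓ s : ℝ) : E :=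
  derivWithin (coor E p c) (Icc 0 ℓ) s

/-- coordinate acceleration in the chart at `p` of a curve defined on `[0, ℓ]` -/
noncomputable def accel (E : Type*) {M : Type*} [NormedAddCommGroup E] [NormedSpace ℝ E]
    [TopologicalSpace M] [ChartedSpace E M] (p : M) (c : ℝ → M) (ℓ s : ℝ) : E :=
  derivWithin (velo E p c ℓ) (Icc 0 ℓ) s

/-- The curve `c`, defined on `[0, ℓ]`, is twice differentiable at time `s` in the chart at `p`. -/
def Regular (E : Type*) {M : Type*} [NormedAddCommGroup E] [NormedSpace ℝ E]
    [TopologicalSpace M] [ChartedSpace E M] (p : M) (c : ℝ → M) (ℓ s : ℝ) : Prop :=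
  DifferentiableWithinAt ℝ (coor E p c) (Icc 0 ℓ) s ∧
    DifferentiableWithinAt ℝ (velo E p c ℓ) (Icc 0 ℓ) s

/-- Unit speed geodesic segments `c : [0, ℓ] → M`: in each chart, the coordinates satisfy the
geodesic equation `g(x'', w) + Γ(x', x', w) = 0` for all `w`, and `g(x', x') = 1`. -/
structure GeodesicSegment (G : RiemMetric E M) (c : ℝ → M) (ℓ : ℝ) : Prop where
  pos : 0 < ℓ
  cont : ContinuousOn c (Icc 0 ℓ)
  regular : ∀ p : M, ∀ s ∈ Icc 0 ℓ, c s ∈ (chartAt E p).source → Regular E p c ℓ s
  unit : ∀ p : M, ∀ s ∈ Icc 0 ℓ, c s ∈ (chartAt E p).source →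
    coef G p (velo E p c ℓ s) (velo E p c ℓ s) (coor E p c s) = 1
  eqn : ∀ p : M, ∀ s ∈ Icc 0 ℓ, c s ∈ (chartAt E p).source → ∀ w : E,
    coef G p (accel E p c ℓ s) w (coor E p c s)
      + Gam G p (coor E p c s) (velo E p c ℓ s) (velo E p c ℓ s) w = 0

open scoped Classical in
/-- Closed geodesic nets on `(M, G)` (vertices of degree at least 3; loops and multiple edges are
allowed, connectedness is not required). -/
structure ClosedNet (G : RiemMetric E M) where
  /-- vertices -/
  V : Finset M
  /-- edges -/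
  Edge : Type
  [fin : Fintype Edge]
  /-- the geodesic segments -/
  c : Edge → ℝ → M
  /-- their lengths -/
  ℓ : Edge → ℝ
  geodesic : ∀ e, GeodesicSegment G (c e) (ℓ e)
  /-- edges join two vertices -/
  left_mem : ∀ e, c e 0 ∈ V
  right_mem : ∀ e, c e (ℓ e) ∈ V
  /-- interiors of edges contain no vertices -/
  interior_not_mem : ∀ e, ∀ s ∈ Ioo 0 (ℓ e), c e s ∉ V
  /-- interiors of edges do not self intersect and distinct edges have disjoint interiors -/
  embedded : ∀ e e' : Edge, ∀ s ∈ Ioo 0 (ℓ e), ∀ t ∈ Ioo 0 (ℓ e'), c e s = c e' t → e = e' ∧ s = t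
  /-- balancing condition at each vertex: the sum of the unit tangent vectors pointing into the
  edges is zero in the tangent space at `v` (written in the chart at `v`, which is how Mathlib
  identifies the tangent space at `v` with the model space) -/
  balanced : ∀ v ∈ V, (∑ e, if c e 0 = v then velo E v (c e) (ℓ e) 0 else 0)
    + (∑ e, if c e (ℓ e) = v then - velo E v (c e) (ℓ e) (ℓ e) else 0) = 0
  /-- all vertices have degree at least three -/
  degree : ∀ v ∈ V, 3 ≤ {e | c e 0 = v}.ncard + {e | c e (ℓ e) = v}.ncard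

attribute [instance] ClosedNet.fin

/-- length of the net -/
noncomputable def ClosedNet.length {G : RiemMetric E M} (𝒩 : ClosedNet G) : ℝ :=
  ∑ e, 𝒩.ℓ e

end Pool.Agent.GeoNet.Nets
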