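import Pool.Agent.GeoNet.SweepSum

/-!
# Degrees in outward networks
-/

namespace Pool.Agent.GeoNet

open Set Metric Filter
open scoped Topology RealInnerProductSpace

variable {E : Type*} [NormedAddCommGroup E] [InnerProductSpace ℝ E]

namespace ONet

variable {𝒢 : LocGeo E} {O : E} {R : ℝ} (N : ONet 𝒢 O R)

/-- number of arcs starting at `p` -/
noncomputable def outD (p : E) : ℕ := {a | N.Y a 0 = p}.ncard

/-- number of arcs ending at `p` -/
noncomputable def inD (p : E) : ℕ := {a | N.Y a (N.h a) = p}.ncard

/-- number of ends of arcs at `p` -/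
noncomputable def deg (p : E) : ℕ := N.outD p + N.inD p

end ONet

end Pool.Agent.GeoNet
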