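import Pool.Agent.GeoNet.Len

/-!
# The plateau lemma: where the density is almost `k` there are exactly `k` active arcs
-/

namespace Pool.Agent.GeoNet

open Set Metric Filter
open scoped Topology RealInnerProductSpace

variable {E : Type*} [NormedAddCommGroup E] [InnerProductSpace ℝ E]

namespace ONet

variable {𝒢 : LocGeo E} {O : E} {R : ℝ} {N : ONet 𝒢 O R}

lemma ClosedAt.compl [DecidableEq N.A] {K : Finset N.A} {r : ℝ} (h : N.ClosedAt K r) :
    N.ClosedAt Kᶜ r := by
  intro p hp hr a b ha hb haK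
  rw [Finset.mem_compl] at haK ⊢
  exact fun hbK => haK (h p hp hr b a hb ha hbK)

lemma sum_one_sub_L (hO : O ∈ U E) {k : ℕ} {ε r : ℝ} (h0 : 0 < r) (hR : r < R)
    (hk : (N.actL r).card = k) (hd : |N.dens r - k| ≤ ε) {S : Finset N.A} (hS : S ⊆ N.actL r) :
    ∑ a ∈ S, (1 - N.co a r) ≤ ε := by
  have h1 : ∑ a ∈ S, (1 - N.co a r) ≤ ∑ a ∈ N.actL r, (1 - N.co a r) := by
    apply Finset.sum_le_sum_of_subset_of_nonneg hS
    intro a ha _
    rw [mem_actL] at ha
    have := co_le_one hO (a := a) (r := r) ⟨ha.1.le, ha.2⟩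
    linarith
  have e : ∑ a ∈ N.actL r, (1 - N.co a r) = k - N.dens r := by
    rw [Finset.sum_sub_distrib (f := fun _ => (1 : ℝ)), ← dens_eq_L hO h0 hR]
    simp only [Finset.sum_const, hk, nsmul_eq_mul, mul_one]
  rw [e] at h1
  have := (abs_le.1 hd).1
  linarith

lemma sum_one_sub_R (hO : O ∈ U E) {k : ℕ} {ε r : ℝ}
    (hk : (N.actR r).card = k) (hd : |N.dens r - k| ≤ ε) {S : Finset N.A} (hS : S ⊆ N.actR r) :
    ∑ a ∈ S, (1 - N.co a r) ≤ ε := by
  have h1 : ∑ a ∈ S, (1 - N.co a r) ≤ ∑ a ∈ N.actR r, (1 - N.co a r) := by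
    apply Finset.sum_le_sum_of_subset_of_nonneg hS
    intro a ha _
    rw [mem_actR] at ha
    have := co_le_one hO (a := a) (r := r) ⟨ha.1, ha.2.le⟩
    linarith
  have e : ∑ a ∈ N.actR r, (1 - N.co a r) = k - N.dens r := by
    rw [Finset.sum_sub_distrib (f := fun _ => (1 : ℝ)), ← dens_eq_R]
    simp only [Finset.sum_const, hk, nsmul_eq_mul, mul_one]
  rw [e] at h1
  have := (abs_le.1 hd).1
  linarith

lemma one_sub_L (hO : O ∈ U E) {k : ℕ} {ε r : ℝ} (h0 : 0 < r) (hR : r < R)
    (hk : (N.actL r).card = k) (hd : |N.dens r - k| ≤ ε) {a : N.A} (ha : a ∈ N.actL r) :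
    1 - N.co a r ≤ ε := by
  have := sum_one_sub_L hO h0 hR hk hd (S := {a}) (by simpa using ha)
  simpa using this

lemma one_sub_R (hO : O ∈ U E) {k : ℕ} {ε r : ℝ}
    (hk : (N.actR r).card = k) (hd : |N.dens r - k| ≤ ε) {a : N.A} (ha : a ∈ N.actR r) :
    1 - N.co a r ≤ ε := by
  have := sum_one_sub_R hO hk hd (S := {a}) (by simpa using ha)
  simpa using this

open scoped Classical in
/-- number of arcs of `K` entering the shell at the radius `a` -/
noncomputable def nin (K : Finset N.A) (a : ℝ) : ℕ := (K.filter (· ∈ N.actL a)).card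

open scoped Classical in
/-- number of arcs of `K` leaving the shell at the radius `b` -/
noncomputable def nout (K : Finset N.A) (b : ℝ) : ℕ := (K.filter (· ∈ N.actR b)).card

lemma sL_filter (K : Finset N.A) (φ : N.A → ℝ → ℝ) (r : ℝ) [DecidablePred (· ∈ N.actL r)] :
    N.sL K φ r = ∑ a ∈ K.filter (· ∈ N.actL r), φ a r := by
  classical
  unfold sL
  apply Finset.sum_congr _ (fun _ _ => rfl)
  ext a
  simp only [Finset.mem_filter, mem_actL]

lemma sR_filter (K : Finset N.A) (φ : N.A → ℝ → ℝ) (r : ℝ) [DecidablePred (· ∈ N.actR r)] :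
    N.sR K φ r = ∑ a ∈ K.filter (· ∈ N.actR r), φ a r := by
  classical
  unfold sR
  apply Finset.sum_congr _ (fun _ _ => rfl)
  ext a
  simp only [Finset.mem_filter, mem_actR]

/-- as many arcs of a closed set enter the shell as leave it -/
lemma count_eq (hO : O ∈ U E) {k : ℕ} {ε a b : ℝ} (h0 : 0 < a) (hab : a ≤ b) (hR : b < R)
    (hε : ε ≤ 1 / 8) (hd : ∀ r ∈ Icc a b, |N.dens r - k| ≤ ε)
    (hLa : (N.actL a).card = k) (hRb : (N.actR b).card = k) {K : Finset N.A}
    (hK : ∀ r ∈ Icc a b, N.ClosedAt K r) : N.nin K a = N.nout K b := by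
  classical
  have hb0 : 0 < b := h0.trans_le hab
  have haR : a < R := hab.trans_lt hR
  have m1 := sR_co_mono hO h0 hab hR hK
  have m2 := sR_co_mono hO h0 hab hR (K := Kᶜ) (fun r hr => (hK r hr).compl)
  have e1 := co_bal hO h0 haR (hK a ⟨le_rfl, hab⟩)
  have split : ∀ r, N.dens r = N.sR K N.co r + N.sR Kᶜ N.co r := by
    intro r
    unfold dens
    rw [sR_filter, sR_filter K, sR_filter Kᶜ, ← Finset.sum_union]
    · apply Finset.sum_congr _ (fun _ _ => rfl)
      ext c
      simp only [Finset.mem_filter, Finset.mem_univ, true_and, Finset.mem_union,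
        Finset.mem_compl]
      tauto
    · rw [Finset.disjoint_left]
      intro c hc hc'
      rw [Finset.mem_filter] at hc hc'
      exact (Finset.mem_compl.1 hc'.1) hc.1
  have h1 : (N.nin K a : ℝ) - ε ≤ N.sL K N.co a := by
    have := sum_one_sub_L hO h0 haR hLa (hd a ⟨le_rfl, hab⟩) (S := K.filter (· ∈ N.actL a))
      (fun c hc => (Finset.mem_filter.1 hc).2)
    rw [Finset.sum_sub_distrib (f := fun _ => (1 : ℝ)), ← sL_filter] at this
    simp only [Finset.sum_const, nsmul_eq_mul, mul_one] at this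
    unfold nin
    linarith
  have h2 : (N.nout K b : ℝ) - ε ≤ N.sR K N.co b := by
    have := sum_one_sub_R hO hRb (hd b ⟨hab, le_rfl⟩) (S := K.filter (· ∈ N.actR b))
      (fun c hc => (Finset.mem_filter.1 hc).2)
    rw [Finset.sum_sub_distrib (f := fun _ => (1 : ℝ)), ← sR_filter] at this
    simp only [Finset.sum_const, nsmul_eq_mul, mul_one] at this
    unfold nout
    linarith
  have h3 : N.sL K N.co a ≤ N.nin K a := by
    rw [sL_filter]
    unfold nin
    calc _ ≤ ∑ _c ∈ K.filter (· ∈ N.actL a), (1 : ℝ) := by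
          apply Finset.sum_le_sum
          intro c hc
          rw [Finset.mem_filter, mem_actL] at hc
          exact co_le_one hO ⟨hc.2.1.le, hc.2.2⟩
      _ = _ := by simp
  have h4 : N.sR K N.co b ≤ N.nout K b := by
    rw [sR_filter]
    unfold nout
    calc _ ≤ ∑ _c ∈ K.filter (· ∈ N.actR b), (1 : ℝ) := by
          apply Finset.sum_le_sum
          intro c hc
          rw [Finset.mem_filter, mem_actR] at hc
          exact co_le_one hO ⟨hc.2.1, hc.2.2.le⟩
      _ = _ := by simp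
  have sa := split a
  have sb := split b
  have da := abs_le.1 (hd a ⟨le_rfl, hab⟩)
  have db := abs_le.1 (hd b ⟨hab, le_rfl⟩)
  have h5 : (N.nin K a : ℝ) < N.nout K b + 1 := by linarith
  have h6 : (N.nout K b : ℝ) < N.nin K a + 1 := by linarith
  have h5' : N.nin K a < N.nout K b + 1 := by exact_mod_cast h5
  have h6' : N.nout K b < N.nin K a + 1 := by exact_mod_cast h6
  omega

/-- the length of a cluster -/
lemma cluster (hO : O ∈ U E) {k : ℕ} {ε a b s : ℝ} (h0 : 0 < a) (hab : a ≤ b) (hR : b < R)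
    (hε0 : 0 ≤ ε) (hε : ε ≤ 1 / 8) (hd : ∀ r ∈ Icc a b, |N.dens r - k| ≤ ε)
    (hLa : (N.actL a).card = k) (hRb : (N.actR b).card = k) {K : Finset N.A}
    (hK : ∀ r ∈ Icc a b, N.ClosedAt K r) {x₀ : E} (hx₀ : x₀ ∈ U E)
    (hs : ∀ c ∈ K, ∀ r ∈ Icc a b, r ∈ Icc (N.al c) (N.be c) → ‖N.pos c r - x₀‖ ≤ s) :
    (1 - 3 / 1000 * s) * (N.len K b - N.len K a) ≤
      N.nin K a * ((b - a) + 2 * (3 / 2 * √ε * s + 3 * s ^ 2 / a)) := by
  classical
  have hb0 : 0 < b := h0.trans_le hab
  have haR : a < R := hab.trans_lt hR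
  have h1 := first_var hO hx₀ h0 hab hR hK hs
  have hcount := count_eq hO h0 hab hR hε hd hLa hRb hK
  set err := 3 / 2 * √ε * s + 3 * s ^ 2 / a with herr
  have hB : N.sR K (fun c r => 𝒢.g x₀ (N.tan c r) (N.pos c r - x₀)) b ≤
      N.nout K b * (b - 𝒢.rho O x₀ + err) := by
    rw [sR_filter]
    calc _ ≤ ∑ _c ∈ K.filter (· ∈ N.actR b), (b - 𝒢.rho O x₀ + err) := by
          apply Finset.sum_le_sum
          intro c hc
          rw [Finset.mem_filter] at hc
          have hcb := mem_actR.1 hc.2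
          have hbm : b ∈ Icc (N.al c) (N.be c) := ⟨hcb.1, hcb.2.le⟩
          have hr := rho_pos_eq hO hbm
          have h2 := LocGeo.rho_sub_g hO (pos_mem hO hbm) hx₀ (tan_unit hO hbm)
            (by rw [hr]; exact hb0) hε0 (one_sub_R hO hRb (hd b ⟨hab, le_rfl⟩) hc.2)
          rw [hr] at h2
          have h3 := hs c hc.1 b ⟨hab, le_rfl⟩ hbm
          have h4 := (abs_le.1 h2).2
          have h5 : 3 / 2 * √ε * ‖N.pos c b - x₀‖ + 3 * ‖N.pos c b - x₀‖ ^ 2 / b ≤ err := by
            rw [herr]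
            have := norm_nonneg (N.pos c b - x₀)
            gcongr
          linarith
      _ = _ := by rw [Finset.sum_const, nsmul_eq_mul]; rfl
  have hA : N.nin K a * (a - 𝒢.rho O x₀ - err) ≤
      N.sL K (fun c r => 𝒢.g x₀ (N.tan c r) (N.pos c r - x₀)) a := by
    rw [sL_filter]
    calc N.nin K a * (a - 𝒢.rho O x₀ - err)
        = ∑ _c ∈ K.filter (· ∈ N.actL a), (a - 𝒢.rho O x₀ - err) := by
          rw [Finset.sum_const, nsmul_eq_mul]; rfl
      _ ≤ _ := by
          apply Finset.sum_le_sum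
          intro c hc
          rw [Finset.mem_filter] at hc
          have hcb := mem_actL.1 hc.2
          have hbm : a ∈ Icc (N.al c) (N.be c) := ⟨hcb.1.le, hcb.2⟩
          have hr := rho_pos_eq hO hbm
          have h2 := LocGeo.rho_sub_g hO (pos_mem hO hbm) hx₀ (tan_unit hO hbm)
            (by rw [hr]; exact h0) hε0 (one_sub_L hO h0 haR hLa (hd a ⟨le_rfl, hab⟩) hc.2)
          rw [hr] at h2
          have h3 := hs c hc.1 a ⟨le_rfl, hab⟩ hbm
          have h4 := (abs_le.1 h2).1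
          have h5 : 3 / 2 * √ε * ‖N.pos c a - x₀‖ + 3 * ‖N.pos c a - x₀‖ ^ 2 / a ≤ err := by
            rw [herr]
            have := norm_nonneg (N.pos c a - x₀)
            gcongr
          linarith
  rw [← hcount] at hB
  refine h1.trans ?_
  have : N.nin K a * ((b - a) + 2 * err) = N.nin K a * (b - 𝒢.rho O x₀ + err) -
      N.nin K a * (a - 𝒢.rho O x₀ - err) := by ring
  rw [this]
  linarith

/-- the total length in the shell is controlled by the number of entering arcs -/
lemma all_clusters (hO : O ∈ U E) {k : ℕ} {ε a b lam : ℝ} (h0 : 0 < a) (hab : a ≤ b)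
    (hR : b < R) (hε0 : 0 ≤ ε) (hε : ε ≤ 1 / 8) (hd : ∀ r ∈ Icc a b, |N.dens r - k| ≤ ε)
    (hLa : (N.actL a).card = k) (hRb : (N.actR b).card = k) (hlam : 0 < lam)
    (hlen : N.len Finset.univ b - N.len Finset.univ a ≤ lam) (K : Finset N.A) :
    (∀ r ∈ Icc a b, N.ClosedAt K r) →
    (1 - 6 / 1000 * lam) * (N.len K b - N.len K a) ≤
      N.nin K a * ((b - a) + 2 * (3 * √ε * lam + 12 * lam ^ 2 / a)) := by
  classical
  induction K using Finset.strongInduction with
  | H K ih =>
  intro hK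
  have hb0 : 0 < b := h0.trans_le hab
  have hsq : 0 ≤ √ε := Real.sqrt_nonneg _
  -- length of K is at most the total length
  have hlenK : N.len K b - N.len K a ≤ lam := by
    refine le_trans ?_ hlen
    have e : ∀ S : Finset N.A, N.len S b - N.len S a
        = ∑ c ∈ S, (N.sg c (N.cl c b) - N.sg c (N.cl c a)) := by
      intro S; unfold len; rw [Finset.sum_sub_distrib]
    rw [e, e]
    apply Finset.sum_le_sum_of_subset_of_nonneg (Finset.subset_univ K)
    intro c _ _
    have := sgcl_mono hO c hab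
    simp only at this
    linarith
  by_cases hne : ∃ c ∈ K, N.al c ≤ b ∧ a ≤ N.be c
  · obtain ⟨c₀, hc₀, hc₀b, hc₀a⟩ := hne
    set r₀ := max (N.al c₀) a with hr₀
    have hr₀I : r₀ ∈ Icc a b := ⟨le_max_right _ _, max_le hc₀b hab⟩
    have hr₀c : r₀ ∈ Icc (N.al c₀) (N.be c₀) := ⟨le_max_left _ _, max_le (al_lt_be c₀).le hc₀a⟩
    set x₀ := N.pos c₀ r₀ with hx₀
    have hx₀U : x₀ ∈ U E := pos_mem hO hr₀c
    -- a gap
    have hgap : ∃ s ∈ Ioo 0 (2 * lam), ∀ c ∈ K, ∀ t ∈ Icc (N.sg c (N.cl c a)) (N.sg c (N.cl c b)),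
        ‖N.Y c t - x₀‖ ≠ s := by
      apply exists_gap K (fun c t => ‖N.Y c t - x₀‖) (fun c => N.sg c (N.cl c a))
        (fun c => N.sg c (N.cl c b)) (fun c _ => sgcl_mono hO c hab) (C := 1001 / 1000)
        (by norm_num)
      · intro c _ s hs t ht
        have hs' : s ∈ Icc 0 (N.h c) := ⟨(sg_mem hO (cl_mem c a)).1.trans hs.1,
          hs.2.trans (sg_mem hO (cl_mem c b)).2⟩
        have ht' : t ∈ Icc 0 (N.h c) := ⟨(sg_mem hO (cl_mem c a)).1.trans ht.1,
          ht.2.trans (sg_mem hO (cl_mem c b)).2⟩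
        have h1 := (N.geo c).norm_sub_le hs' ht'
        have h2 := abs_norm_sub_norm_le (N.Y c s - x₀) (N.Y c t - x₀)
        rw [sub_sub_sub_cancel_right] at h2
        exact h2.trans h1
      · have e : ∑ i ∈ K, (N.sg i (N.cl i b) - N.sg i (N.cl i a)) = N.len K b - N.len K a := by
          unfold len; rw [Finset.sum_sub_distrib]
        rw [e]
        linarith
    obtain ⟨s, ⟨hs0, hs2⟩, hsgap⟩ := hgap
    -- no position at distance exactly s
    have hpos : ∀ c ∈ K, ∀ r ∈ Icc a b, r ∈ Icc (N.al c) (N.be c) → ‖N.pos c r - x₀‖ ≠ s := by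
      intro c hc r hr hrc
      have h1 := hsgap c hc (N.sg c r)
      apply h1
      constructor
      · have := sgcl_mono hO c hr.1
        simpa only [cl_eq hrc] using this
      · have := sgcl_mono hO c hr.2
        simpa only [cl_eq hrc] using this
    -- connectedness
    have hconn : ∀ c ∈ K, ∀ r ∈ Icc a b, r ∈ Icc (N.al c) (N.be c) →
        ∀ r' ∈ Icc a b, r' ∈ Icc (N.al c) (N.be c) →
        ‖N.pos c r - x₀‖ < s → ‖N.pos c r' - x₀‖ < s := by
      intro c hc r hr hrc r' hr' hrc' hlt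
      by_contra hcon
      push Not at hcon
      have hcont : ContinuousOn (fun r => ‖N.pos c r - x₀‖) (uIcc r r') := by
        apply ContinuousOn.norm
        apply ContinuousOn.sub _ continuousOn_const
        apply (pos_cont hO c).mono
        exact uIcc_subset_Icc hrc hrc'
      have hiv := intermediate_value_uIcc hcont
      have hsm : s ∈ uIcc ‖N.pos c r - x₀‖ ‖N.pos c r' - x₀‖ := by
        rw [mem_uIcc]; left; exact ⟨hlt.le, hcon⟩
      obtain ⟨r'', hr'', hs''⟩ := hiv hsm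
      exact hpos c hc r'' (uIcc_subset_Icc hr hr' hr'') (uIcc_subset_Icc hrc hrc' hr'') hs''
    set K₁ := K.filter (fun c => ∃ r ∈ Icc a b, r ∈ Icc (N.al c) (N.be c) ∧
      ‖N.pos c r - x₀‖ < s) with hK₁
    set K₂ := K.filter (fun c => ¬ ∃ r ∈ Icc a b, r ∈ Icc (N.al c) (N.be c) ∧
      ‖N.pos c r - x₀‖ < s) with hK₂
    have hendp : ∀ {p : E} {c : N.A}, N.endp c p →
        𝒢.rho O p ∈ Icc (N.al c) (N.be c) ∧ N.pos c (𝒢.rho O p) = p := by
      intro p c hc
      rcases hc with h | h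
      · subst h
        exact ⟨⟨le_rfl, (al_lt_be c).le⟩, pos_al hO c⟩
      · subst h
        exact ⟨⟨(al_lt_be c).le, le_rfl⟩, pos_be hO c⟩
    have hK₁c : ∀ r ∈ Icc a b, N.ClosedAt K₁ r := by
      intro r hr p hp hpr c d hc hd hcK
      rw [hK₁, Finset.mem_filter] at hcK ⊢
      obtain ⟨hcK, r', hr', hrc', hlt⟩ := hcK
      refine ⟨hK r hr p hp hpr c d hc hd hcK, ?_⟩
      obtain ⟨h1, h2⟩ := hendp hc
      obtain ⟨h3, h4⟩ := hendp hd
      rw [hpr] at h1 h2 h3 h4
      refine ⟨r, hr, h3, ?_⟩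
      rw [h4, ← h2]
      exact hconn c hcK r' hr' hrc' r hr h1 hlt
    have hK₂c : ∀ r ∈ Icc a b, N.ClosedAt K₂ r := by
      intro r hr p hp hpr c d hc hd hcK
      rw [hK₂, Finset.mem_filter] at hcK ⊢
      obtain ⟨hcK, hnc⟩ := hcK
      have hdK := hK r hr p hp hpr c d hc hd hcK
      refine ⟨hdK, fun hcon => hnc ?_⟩
      have hd1 : d ∈ K₁ := by rw [hK₁, Finset.mem_filter]; exact ⟨hdK, hcon⟩
      have hc1 := hK₁c r hr p hp hpr d c hd hc hd1
      rw [hK₁, Finset.mem_filter] at hc1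
      exact hc1.2
    have hc₀1 : c₀ ∈ K₁ := by
      rw [hK₁, Finset.mem_filter]
      refine ⟨hc₀, r₀, hr₀I, hr₀c, ?_⟩
      rw [← hx₀, sub_self, norm_zero]
      exact hs0
    have hK₂s : K₂ ⊂ K := by
      rw [Finset.ssubset_iff_of_subset (Finset.filter_subset _ _)]
      refine ⟨c₀, hc₀, fun h => ?_⟩
      rw [Finset.mem_filter] at h
      rw [hK₁, Finset.mem_filter] at hc₀1
      exact h.2 hc₀1.2
    have ih2 := ih K₂ hK₂s hK₂c
    have h1 := cluster hO h0 hab hR hε0 hε hd hLa hRb hK₁c hx₀U (s := s) (by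
      intro c hc r hr hrc
      rw [hK₁, Finset.mem_filter] at hc
      obtain ⟨hcK, r', hr', hrc', hlt⟩ := hc
      exact (hconn c hcK r' hr' hrc' r hr hrc hlt).le)
    have hlen1 : 0 ≤ N.len K₁ b - N.len K₁ a := sub_nonneg.2 (len_mono hO K₁ hab)
    have hsplit : N.len K b - N.len K a
        = (N.len K₁ b - N.len K₁ a) + (N.len K₂ b - N.len K₂ a) := by
      have e : ∀ r, N.len K r = N.len K₁ r + N.len K₂ r := by
        intro r
        unfold len
        rw [hK₁, hK₂, Finset.sum_filter_add_sum_filter_not]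
      rw [e, e]; ring
    have hnsplit : (N.nin K a : ℝ) = N.nin K₁ a + N.nin K₂ a := by
      have : N.nin K a = N.nin K₁ a + N.nin K₂ a := by
        unfold nin
        rw [hK₁, hK₂, ← Finset.card_filter_add_card_filter_not (s := K.filter (· ∈ N.actL a))
          (fun c => ∃ r ∈ Icc a b, r ∈ Icc (N.al c) (N.be c) ∧ ‖N.pos c r - x₀‖ < s)]
        rw [Finset.filter_filter, Finset.filter_filter, Finset.filter_filter,
          Finset.filter_filter]
        congr 2
        · apply Finset.filter_congr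
          intro c _
          tauto
        · apply Finset.filter_congr
          intro c _
          tauto
      exact_mod_cast this
    have h2 : (1 - 6 / 1000 * lam) * (N.len K₁ b - N.len K₁ a) ≤
        (1 - 3 / 1000 * s) * (N.len K₁ b - N.len K₁ a) := by
      apply mul_le_mul_of_nonneg_right _ hlen1
      linarith
    have h3 : N.nin K₁ a * ((b - a) + 2 * (3 / 2 * √ε * s + 3 * s ^ 2 / a)) ≤
        N.nin K₁ a * ((b - a) + 2 * (3 * √ε * lam + 12 * lam ^ 2 / a)) := by
      apply mul_le_mul_of_nonneg_left _ (Nat.cast_nonneg _)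
      have h4 : 3 / 2 * √ε * s ≤ 3 * √ε * lam := by nlinarith
      have h5 : 3 * s ^ 2 / a ≤ 12 * lam ^ 2 / a := by
        apply div_le_div_of_nonneg_right _ h0.le
        nlinarith
      linarith
    rw [hsplit, hnsplit]
    nlinarith
  · push Not at hne
    have e : N.len K b = N.len K a := by
      unfold len
      apply Finset.sum_congr rfl
      intro c hc
      by_cases h : N.al c ≤ b
      · have h1 := hne c hc h
        rw [cl_of_ge h1.le, cl_of_ge (h1.le.trans hab)]
      · push Not at h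
        rw [cl_of_le h.le, cl_of_le (hab.trans h.le)]
    rw [e, sub_self, mul_zero]
    apply mul_nonneg (Nat.cast_nonneg _)
    have : 0 ≤ b - a := sub_nonneg.2 hab
    positivity

/-- the small constant of the plateau lemma -/
noncomputable def eps0 (k : ℕ) : ℝ := (1 / (1000 * ((k : ℝ) + 2) ^ 2)) ^ 2

lemma eps0_pos (k : ℕ) : 0 < eps0 k := by unfold eps0; positivity

lemma sqrt_eps0 (k : ℕ) : √(eps0 k) = 1 / (1000 * ((k : ℝ) + 2) ^ 2) := by
  unfold eps0
  rw [Real.sqrt_sq (by positivity)]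

/-- there is no bad run -/
lemma no_bad_run (hO : O ∈ U E) {k : ℕ} {a b : ℝ} (h0 : 0 < a) (hab : a < b)
    (hR : b < R) (hR1 : R ≤ 1) (hd : ∀ r ∈ Icc a b, |N.dens r - k| ≤ eps0 k)
    (hLa : (N.actL a).card = k) (hRb : (N.actR b).card = k)
    (hbad : ∀ r ∈ Ioo a b, k + 1 ≤ (N.actR r).card) : False := by
  have hk0 : (0 : ℝ) ≤ k := Nat.cast_nonneg k
  have hsq := sqrt_eps0 k
  set ε := eps0 k with hε
  have hε0 : 0 < ε := eps0_pos k
  set y : ℝ := (k : ℝ) + 2 with hy
  have hy2 : 2 ≤ y := by linarith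
  have hky : (k : ℝ) = y - 2 := by rw [hy]; ring
  set q := √ε with hq
  have hqq : ε = q ^ 2 := (Real.sq_sqrt hε0.le).symm
  have hq1 : q * (1000 * y ^ 2) = 1 := by rw [hsq]; field_simp
  have hq0 : 0 < q := by rw [hsq]; positivity
  have hqs : q ≤ 1 / 4000 := by
    rw [hsq, div_le_div_iff₀ (by positivity) (by norm_num)]
    nlinarith
  have hε8 : ε ≤ 1 / 8 := by rw [hqq]; nlinarith
  have hb0 : 0 < b := h0.trans hab
  have hb1 : b ≤ 1 := by linarith
  have hbad' : ∀ r ∈ Ioo a b, (k : ℝ) + 1 ≤ (N.actR r).card := by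
    intro r hr
    have := hbad r hr
    exact_mod_cast this
  set lam := N.len Finset.univ b - N.len Finset.univ a with hlam
  have h1 : ((k : ℝ) + 1) * (b - a) ≤ lam := len_ge hO hab.le hbad'
  have hdens : ∀ r ∈ Icc a b, N.dens r ≤ k + ε := by
    intro r hr
    have := (abs_le.1 (hd r hr)).2
    linarith
  have h2 : lam ≤ 2 * b * (N.dens b - N.dens a) + (k + ε) * (b - a) :=
    len_le hO h0 hab.le hR hdens
  have h3 := bad_short hO h0 hab.le hR (by linarith) hbad' hdens
  have hda := abs_le.1 (hd a ⟨le_rfl, hab.le⟩)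
  have hdb := abs_le.1 (hd b ⟨hab.le, le_rfl⟩)
  have h4 : N.dens b - N.dens a ≤ 2 * ε := by linarith
  have hba : 0 < b - a := sub_pos.2 hab
  have h5 : b - a ≤ 4 * ε * b := by
    have h6 : b * (N.dens b - N.dens a) ≤ b * (2 * ε) := mul_le_mul_of_nonneg_left h4 hb0.le
    nlinarith
  have hlam0 : 0 < lam := lt_of_lt_of_le (by positivity) h1
  have h6 : lam ≤ 4 * y * ε * b := by
    have h7 : 2 * b * (N.dens b - N.dens a) ≤ 2 * b * (2 * ε) :=
      mul_le_mul_of_nonneg_left h4 (by positivity)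
    have h8 : (k + ε) * (b - a) ≤ (k + 1) * (4 * ε * b) := by
      apply mul_le_mul (by linarith) h5 hba.le (by positivity)
    rw [hy]
    nlinarith
  have h7 := all_clusters hO h0 hab.le hR hε0.le hε8 hd hLa hRb hlam0 le_rfl Finset.univ
    (fun r _ => closedAt_univ r)
  rw [← hlam] at h7
  have hn : N.nin Finset.univ a = k := by
    classical
    unfold nin
    rw [← hLa]
    congr 1
    ext c
    simp
  rw [hn] at h7
  have ha2 : b / 2 ≤ a := by nlinarith
  have h8 : 12 * lam ^ 2 / a ≤ 96 * y * ε * lam := by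
    rw [div_le_iff₀ h0]
    have : lam * lam ≤ (4 * y * ε * b) * lam := mul_le_mul_of_nonneg_right h6 hlam0.le
    have h9 : 96 * y * ε * lam * (b / 2) ≤ 96 * y * ε * lam * a :=
      mul_le_mul_of_nonneg_left ha2 (by positivity)
    nlinarith
  have h9 : 4 * y * ε * b ≤ 4 * y * ε := by
    have : 4 * y * ε * b ≤ 4 * y * ε * 1 := mul_le_mul_of_nonneg_left hb1 (by positivity)
    linarith
  have hlam1 : lam ≤ 4 * y * ε := h6.trans h9
  -- divide by lam
  have h10 : (1 - 6 / 1000 * (4 * y * ε)) * lam ≤ (1 - 6 / 1000 * lam) * lam := by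
    apply mul_le_mul_of_nonneg_right _ hlam0.le
    linarith
  have h11 : (k : ℝ) * (b - a + 2 * (3 * q * lam + 12 * lam ^ 2 / a)) ≤
      k * (b - a) + k * (2 * (3 * q * lam + 96 * y * ε * lam)) := by
    have : (k : ℝ) * (b - a + 2 * (3 * q * lam + 12 * lam ^ 2 / a)) =
      k * (b - a) + k * (2 * (3 * q * lam + 12 * lam ^ 2 / a)) := by ring
    rw [this]
    gcongr
  have h12 : (k : ℝ) * (b - a) * (k + 1) ≤ k * lam := by nlinarith
  have h13 : (1 - 6 / 1000 * (4 * y * ε)) * lam * (k + 1) ≤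
      k * lam + (k + 1) * (k * (2 * (3 * q * lam + 96 * y * ε * lam))) := by
    have := (h10.trans h7).trans h11
    nlinarith
  have h14 : (1 - 6 / 1000 * (4 * y * ε)) * (k + 1) ≤
      k + (k + 1) * (k * (2 * (3 * q + 96 * y * ε))) := by
    have e1 : (1 - 6 / 1000 * (4 * y * ε)) * lam * (k + 1)
      = ((1 - 6 / 1000 * (4 * y * ε)) * (k + 1)) * lam := by ring
    have e2 : k * lam + (k + 1) * (k * (2 * (3 * q * lam + 96 * y * ε * lam)))
      = (k + (k + 1) * (k * (2 * (3 * q + 96 * y * ε)))) * lam := by ring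
    rw [e1, e2] at h13
    exact le_of_mul_le_mul_right h13 hlam0
  -- numerical contradiction
  have hqy : q * y ^ 2 = 1 / 1000 := by linarith
  have hk1 : (k : ℝ) + 1 ≤ y := by linarith
  have hε2 : y * ε ≤ q / 1000 := by
    rw [hqq]
    have : y * q ≤ 1 / 1000 := by nlinarith
    nlinarith
  have h15 : (k + 1) * (k * (2 * (3 * q + 96 * y * ε))) ≤ y * (y * (2 * (3 * q + 96 / 1000 * q))) := by
    have e1 : (k : ℝ) ≤ y := by linarith
    have e2 : 3 * q + 96 * y * ε ≤ 3 * q + 96 / 1000 * q := by nlinarith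
    gcongr
  have h16 : 6 / 1000 * (4 * y * ε) * (k + 1) ≤ 1 / 10 := by
    have e1 : y * ε ≤ 1 / 1000000 * 1 := by nlinarith
    have e2 : (y * ε) * y ≤ q / 1000 * y := mul_le_mul_of_nonneg_right hε2 (by linarith)
    have e3 : q * y ≤ 1 / 1000 := by nlinarith
    have e4 : (y * ε) * (k + 1) ≤ (y * ε) * y := mul_le_mul_of_nonneg_left hk1 (by positivity)
    nlinarith
  nlinarith

end ONet

end Pool.Agent.GeoNet
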