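import Pool.Agent.GeoNet.Plateau

/-!
# The plateau lemma, conclusion
-/

namespace Pool.Agent.GeoNet

open Set Metric Filter
open scoped Topology RealInnerProductSpace

variable {E : Type*} [NormedAddCommGroup E] [InnerProductSpace ℝ E]

namespace ONet

lemma eps0_le (k : ℕ) : eps0 k ≤ 1 / 1000000 := by
  unfold eps0
  have h1 : (1 : ℝ) / (1000 * ((k : ℝ) + 2) ^ 2) ≤ 1 / 1000 := by
    apply div_le_div_of_nonneg_left (by norm_num) (by norm_num)
    have : (0 : ℝ) ≤ k := Nat.cast_nonneg k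
    nlinarith
  have h0 : (0 : ℝ) ≤ 1 / (1000 * ((k : ℝ) + 2) ^ 2) := by positivity
  calc _ ≤ (1 / 1000 : ℝ) ^ 2 := by gcongr
    _ = _ := by norm_num

variable {𝒢 : LocGeo E} {O : E} {R : ℝ} {N : ONet 𝒢 O R}

lemma actR_eq_of_right (r : ℝ) : ∀ᶠ r' in 𝓝[≥] r, N.actR r' = N.actR r := by
  filter_upwards [ev_actR_right (N := N) r] with r' h
  ext a
  rw [mem_actR, mem_actR, h a]

lemma actR_eq_of_left (r : ℝ) : ∀ᶠ r' in 𝓝[<] r, N.actR r' = N.actL r := by
  filter_upwards [ev_actR_left (N := N) r] with r' h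
  ext a
  rw [mem_actR, mem_actL, h a]

lemma card_ge (hO : O ∈ U E) {k : ℕ} {ε r : ℝ} (hε : ε < 1) (hd : |N.dens r - k| ≤ ε) :
    k ≤ (N.actR r).card := by
  have h1 := dens_le_card (N := N) hO r
  have h2 := (abs_le.1 hd).1
  have h3 : (k : ℝ) < (N.actR r).card + 1 := by linarith
  have : k < (N.actR r).card + 1 := by exact_mod_cast h3
  omega

/-- Where the density is almost `k` there are exactly `k` active arcs. -/
theorem plateau (hO : O ∈ U E) {k : ℕ} {R₁ R₂ : ℝ} (h1 : 0 < R₁) (h2 : R₂ ≤ R) (hR : R ≤ 1)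
    (hd : ∀ r ∈ Ioo R₁ R₂, |N.dens r - k| ≤ eps0 k) {r : ℝ}
    (hr : r ∈ Ioo (3 / 2 * R₁) (2 / 3 * R₂)) : (N.actR r).card = k := by
  have hε := eps0_le k
  set ε := eps0 k with hεd
  by_contra hne
  have hr0 : 0 < r := by linarith [hr.1]
  have hge : ∀ t ∈ Ioo R₁ R₂, (N.actR t).card ≠ k → k + 1 ≤ (N.actR t).card := by
    intro t ht hn
    have := card_ge hO (by linarith) (hd t ht)
    omega
  have hge' : ∀ t ∈ Ioo R₁ R₂, (N.actR t).card ≠ k → (k : ℝ) + 1 ≤ (N.actR t).card := by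
    intro t ht hn
    exact_mod_cast hge t ht hn
  have hdens : ∀ t ∈ Ioo R₁ R₂, N.dens t ≤ k + ε := by
    intro t ht
    have := (abs_le.1 (hd t ht)).2
    linarith
  -- a good radius on each side
  have hgood : ∀ u w, R₁ < u → u < w → w < R₂ → w - u = w / 3 → ∃ t ∈ Ioo u w, (N.actR t).card = k := by
    intro u w hu huw hw hw3
    by_contra hcon
    push Not at hcon
    have h3 := bad_short (k := k) (ε := ε) hO (h1.trans hu) huw.le (hw.trans_le h2) (by linarith)
      (fun t ht => hge' t ⟨hu.trans ht.1, ht.2.trans hw⟩ (hcon t ht))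
      (fun t ht => hdens t ⟨hu.trans_le ht.1, ht.2.trans_lt hw⟩)
    have h4 := (abs_le.1 (hd u ⟨hu, huw.trans hw⟩)).1
    have h5 := (abs_le.1 (hd w ⟨hu.trans huw, hw⟩)).2
    have hw0 : 0 < w := (h1.trans hu).trans huw
    have h6 : w * (N.dens w - N.dens u) ≤ w * (2 * ε) :=
      mul_le_mul_of_nonneg_left (by linarith) hw0.le
    rw [hw3] at h3
    nlinarith
  obtain ⟨g₁, hg₁, hg₁k⟩ := hgood (2 / 3 * r) r (by linarith [hr.1]) (by linarith)
    (by linarith [hr.2]) (by ring)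
  obtain ⟨g₂, hg₂, hg₂k⟩ := hgood r (3 / 2 * r) (by linarith [hr.1]) (by linarith)
    (by linarith [hr.2]) (by ring)
  have hg₁R : R₁ < g₁ := by linarith [hr.1, hg₁.1]
  have hg₂R : g₂ < R₂ := by linarith [hr.2, hg₂.2]
  -- the bad run
  set A : Set ℝ := {t | g₁ ≤ t ∧ t ≤ r ∧ (N.actR t).card = k} with hA
  set B : Set ℝ := {t | r ≤ t ∧ t ≤ g₂ ∧ (N.actR t).card = k} with hB
  have hAne : A.Nonempty := ⟨g₁, le_rfl, hg₁.2.le, hg₁k⟩
  have hBne : B.Nonempty := ⟨g₂, hg₂.1.le, le_rfl, hg₂k⟩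
  have hAb : BddAbove A := ⟨r, fun t ht => ht.2.1⟩
  have hBb : BddBelow B := ⟨r, fun t ht => ht.1⟩
  set a := sSup A with ha
  set b := sInf B with hb
  have hag : g₁ ≤ a := le_csSup hAb ⟨le_rfl, hg₁.2.le, hg₁k⟩
  have har : a ≤ r := csSup_le hAne fun t ht => ht.2.1
  have hbr : r ≤ b := le_csInf hBne fun t ht => ht.1
  have hbg : b ≤ g₂ := csInf_le hBb ⟨hg₂.1.le, le_rfl, hg₂k⟩
  have hbad1 : ∀ t, a < t → t ≤ r → (N.actR t).card ≠ k := by
    intro t hat htr hcon
    have : t ≤ a := le_csSup hAb ⟨hag.trans hat.le, htr, hcon⟩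
    linarith
  have hbad2 : ∀ t, r ≤ t → t < b → (N.actR t).card ≠ k := by
    intro t hrt htb hcon
    have : b ≤ t := csInf_le hBb ⟨hrt, htb.le.trans hbg, hcon⟩
    linarith
  -- a is bad
  have ha_bad : (N.actR a).card ≠ k := by
    intro hcon
    have har' : a < r := lt_of_le_of_ne har (by rintro h; rw [h] at hcon; exact hne hcon)
    have h3 := (actR_eq_of_right (N := N) a).filter_mono (nhdsWithin_mono _ Ioi_subset_Ici_self)
    have h4 : ∀ᶠ t in 𝓝[>] a, t ∈ Ioo a r := Ioo_mem_nhdsGT har'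
    obtain ⟨t, ht1, ht2⟩ := (h3.and h4).exists
    exact hbad1 t ht2.1 ht2.2.le (by rw [ht1]; exact hcon)
  have hLa : (N.actL a).card = k := by
    have h3 := actR_eq_of_left (N := N) a
    have h4 : ∃ᶠ t in 𝓝[<] a, (N.actR t).card = k := by
      rw [frequently_iff]
      intro S hS
      rw [mem_nhdsLT_iff_exists_Ioo_subset] at hS
      obtain ⟨l, hl, hlS⟩ := hS
      obtain ⟨t, htA, hlt⟩ := exists_lt_of_lt_csSup hAne hl
      have hta : t < a := lt_of_le_of_ne (le_csSup hAb htA)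
        (by rintro h; rw [h] at htA; exact ha_bad htA.2.2)
      exact ⟨t, hlS ⟨hlt, hta⟩, htA.2.2⟩
    obtain ⟨t, ht1, ht2⟩ := (h4.and_eventually h3).exists
    rw [← ht2]; exact ht1
  have hRb : (N.actR b).card = k := by
    by_contra hcon
    have h3 := (actR_eq_of_right (N := N) b).filter_mono (nhdsWithin_mono _ Ioi_subset_Ici_self)
    have h4 : ∃ᶠ t in 𝓝[>] b, (N.actR t).card = k := by
      rw [frequently_iff]
      intro S hS
      rw [mem_nhdsGT_iff_exists_Ioo_subset] at hS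
      obtain ⟨u, hu, huS⟩ := hS
      obtain ⟨t, htB, htu⟩ := exists_lt_of_csInf_lt hBne hu
      have hta : b < t := lt_of_le_of_ne (csInf_le hBb htB)
        (by rintro h; rw [← h] at htB; exact hcon htB.2.2)
      exact ⟨t, huS ⟨hta, htu⟩, htB.2.2⟩
    obtain ⟨t, ht1, ht2⟩ := (h4.and_eventually h3).exists
    rw [ht2] at ht1
    exact hcon ht1
  have hrb : r < b := lt_of_le_of_ne hbr (by rintro h; rw [← h] at hRb; exact hne hRb)
  have hab : a < b := har.trans_lt hrb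
  refine no_bad_run hO (by linarith) hab (by linarith) hR
    (fun t ht => hd t ⟨by linarith [ht.1], by linarith [ht.2]⟩) hLa hRb ?_
  intro t ht
  apply hge t ⟨by linarith [ht.1], by linarith [ht.2]⟩
  rcases le_total t r with h | h
  · exact hbad1 t ht.1 h
  · exact hbad2 t h ht.2

theorem plateauL (hO : O ∈ U E) {k : ℕ} {R₁ R₂ : ℝ} (h1 : 0 < R₁) (h2 : R₂ ≤ R) (hR : R ≤ 1)
    (hd : ∀ r ∈ Ioo R₁ R₂, |N.dens r - k| ≤ eps0 k) {r : ℝ}
    (hr : r ∈ Ioo (3 / 2 * R₁) (2 / 3 * R₂)) : (N.actL r).card = k := by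
  have h3 := actR_eq_of_left (N := N) r
  have h4 : ∀ᶠ t in 𝓝[<] r, t ∈ Ioo (3 / 2 * R₁) r := Ioo_mem_nhdsLT hr.1
  obtain ⟨t, ht1, ht2⟩ := (h3.and h4).exists
  rw [← ht1]
  exact plateau hO h1 h2 hR hd ⟨ht2.1, ht2.2.trans hr.2⟩

/-- as many arcs end at a vertex as start there -/
theorem outD_eq_inD (hO : O ∈ U E) {k : ℕ} {ε r : ℝ} (h0 : 0 < r) (hR : r < R) (hε : ε < 1)
    (hd : |N.dens r - k| ≤ ε) (hcR : (N.actR r).card = k) (hcL : (N.actL r).card = k)
    {p : E} (hp : p ∈ U E) (hpr : 𝒢.rho O p = r) : N.outD p = N.inD p := by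
  classical
  have hpO : p ≠ O := by
    rintro rfl
    rw [LocGeo.rho_self hO] at hpr
    linarith
  have hb := N.bal p hp hpO (by rw [hpr]; exact hR)
  have e1 : N.outD p = (Finset.univ.filter (fun a => N.Y a 0 = p)).card := by
    unfold outD
    rw [← Set.ncard_coe_finset]
    congr 1
    ext a; simp
  have e2 : N.inD p = (Finset.univ.filter (fun a => N.Y a (N.h a) = p)).card := by
    unfold inD
    rw [← Set.ncard_coe_finset]
    congr 1
    ext a; simp
  set S₁ := Finset.univ.filter (fun a => N.Y a 0 = p) with hS₁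
  set S₂ := Finset.univ.filter (fun a => N.Y a (N.h a) = p) with hS₂
  have m1 : ∀ a ∈ S₁, N.al a = r := by
    intro a ha
    rw [hS₁, Finset.mem_filter] at ha
    unfold al; rw [ha.2, hpr]
  have m2 : ∀ a ∈ S₂, N.be a = r := by
    intro a ha
    rw [hS₂, Finset.mem_filter] at ha
    unfold be; rw [ha.2, hpr]
  have c1 : ∀ a ∈ S₁, 𝒢.g p (𝒢.Z O p) (N.Y' a 0) = r * N.co a r := by
    intro a ha
    have h3 := gZ_eq hO (a := a) (r := r) (by rw [← m1 a ha]; exact ⟨le_rfl, (al_lt_be a).le⟩)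
    rw [← h3]
    rw [hS₁, Finset.mem_filter] at ha
    have : N.sg a r = 0 := by
      rw [← m1 a (by rw [hS₁, Finset.mem_filter]; exact ha)]; exact sg_al hO a
    unfold pos tan
    rw [this, ha.2]
  have c2 : ∀ a ∈ S₂, 𝒢.g p (𝒢.Z O p) (N.Y' a (N.h a)) = r * N.co a r := by
    intro a ha
    have h3 := gZ_eq hO (a := a) (r := r) (by rw [← m2 a ha]; exact ⟨(al_lt_be a).le, le_rfl⟩)
    rw [← h3]
    rw [hS₂, Finset.mem_filter] at ha
    have : N.sg a r = N.h a := by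
      rw [← m2 a (by rw [hS₂, Finset.mem_filter]; exact ha)]; exact sg_be hO a
    unfold pos tan
    rw [this, ha.2]
  have h3 := congrArg (fun w => 𝒢.g p (𝒢.Z O p) w) hb
  simp only [map_sum] at h3
  rw [Finset.sum_congr rfl c1, Finset.sum_congr rfl c2, ← Finset.mul_sum, ← Finset.mul_sum] at h3
  have h4 : ∑ a ∈ S₁, N.co a r = ∑ a ∈ S₂, N.co a r := mul_left_cancel₀ h0.ne' h3
  have s1 : S₁ ⊆ N.actR r := by
    intro a ha
    rw [mem_actR]
    have := m1 a ha
    exact ⟨this.le, by rw [← this]; exact al_lt_be a⟩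
  have s2 : S₂ ⊆ N.actL r := by
    intro a ha
    rw [mem_actL]
    have := m2 a ha
    exact ⟨by rw [← this]; exact al_lt_be a, this.ge⟩
  have b1 := sum_one_sub_R hO hcR hd s1
  have b2 := sum_one_sub_L hO h0 hR hcL hd s2
  have b3 : ∑ a ∈ S₁, N.co a r ≤ S₁.card := by
    calc _ ≤ ∑ _a ∈ S₁, (1 : ℝ) := by
          apply Finset.sum_le_sum
          intro a ha
          have := mem_actR.1 (s1 ha)
          exact co_le_one hO ⟨this.1, this.2.le⟩
      _ = _ := by simp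
  have b4 : ∑ a ∈ S₂, N.co a r ≤ S₂.card := by
    calc _ ≤ ∑ _a ∈ S₂, (1 : ℝ) := by
          apply Finset.sum_le_sum
          intro a ha
          have := mem_actL.1 (s2 ha)
          exact co_le_one hO ⟨this.1.le, this.2⟩
      _ = _ := by simp
  rw [Finset.sum_sub_distrib (f := fun _ => (1 : ℝ))] at b1 b2
  simp only [Finset.sum_const, nsmul_eq_mul, mul_one] at b1 b2
  have f1 : (S₁.card : ℝ) < S₂.card + 1 := by linarith
  have f2 : (S₂.card : ℝ) < S₁.card + 1 := by linarith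
  have f1' : S₁.card < S₂.card + 1 := by exact_mod_cast f1
  have f2' : S₂.card < S₁.card + 1 := by exact_mod_cast f2
  rw [e1, e2]
  omega

end ONet

end Pool.Agent.GeoNet
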