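import Pool.Agent.GeoNet.Thread
import Pool.Agent.GeoNet.Drift

/-!
# Outward oriented networks, parametrised by the distance from a centre
-/

namespace Pool.Agent.GeoNet

open Set Metric Filter
open scoped Topology RealInnerProductSpace

variable {E : Type*} [NormedAddCommGroup E] [InnerProductSpace ℝ E]

/-- introduction rule for left germs -/
lemma LGerm.intro' {𝒢 : LocGeo E} {X τ : ℝ → E} {t : ℝ} {Y Y' : ℝ → E} {s₀ h : ℝ} {σ : ℝ → ℝ}
    {c : ℝ} (hlt : s₀ < h) (hY : 𝒢.Geo Y Y' s₀ h) (hσt : σ t ∈ Icc s₀ h) (hc : 1 / 2 ≤ c)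
    (hc' : c ≤ 2) (hσ : HasDerivWithinAt σ c (Iic t) t)
    (hev : ∀ᶠ t' in 𝓝[≤] t, σ t' ∈ Icc s₀ h ∧ X t' = Y (σ t') ∧ τ t' = Y' (σ t')) :
    LGerm 𝒢 X τ t := by
  refine ⟨fun s => Y (0 - s), fun s => -Y' (0 - s), 0 - h, 0 - s₀, fun s => -σ (-s), c,
    by linarith, hY.reverse 𝒢.acc_neg 0, ?_, hc, hc', ?_, ?_⟩
  · simp only [neg_neg]
    exact ⟨by linarith [hσt.2], by linarith [hσt.1]⟩
  · have h1 : HasDerivWithinAt (fun s : ℝ => -s) (-1) (Ici (-t)) (-t) :=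
      (hasDerivAt_neg (-t)).hasDerivWithinAt
    have h2 : MapsTo (fun s : ℝ => -s) (Ici (-t)) (Iic t) := fun s hs => by
      simp only [mem_Iic, mem_Ici] at *; linarith
    have hσ' : HasDerivWithinAt σ c (Iic t) ((fun s : ℝ => -s) (-t)) := by simpa using hσ
    have h3 := (HasDerivWithinAt.scomp (-t) hσ' h1 h2).neg
    have h4 : HasDerivWithinAt (fun s => -σ (-s)) (-((-1 : ℝ) • c)) (Ici (-t)) (-t) := h3
    convert h4 using 1
    simp
  · have h2 : Tendsto (fun s : ℝ => -s) (𝓝[≥] (-t)) (𝓝[≤] t) := by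
      have := tendsto_neg_nhdsGE (a := -t)
      simpa using this
    filter_upwards [h2.eventually hev] with r hr
    refine ⟨⟨by linarith [hr.1.2], by linarith [hr.1.1]⟩, ?_, ?_⟩
    · rw [hr.2.1]; congr 1; ring
    · rw [hr.2.2]; congr 2; ring

open scoped Classical in
/-- A finite network of geodesic arcs along which the distance `rho O` from the centre `O` is
strictly increasing, balanced at all points at distance less than `R` from `O`, except `O`. -/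
structure ONet (𝒢 : LocGeo E) (O : E) (R : ℝ) where
  A : Type
  fin : Fintype A
  Y : A → ℝ → E
  Y' : A → ℝ → E
  h : A → ℝ
  h_pos : ∀ a, 0 < h a
  geo : ∀ a, 𝒢.Geo (Y a) (Y' a) 0 (h a)
  out : ∀ a, StrictMonoOn (fun s => 𝒢.rho O (Y a s)) (Icc 0 (h a))
  bal : ∀ p ∈ U E, p ≠ O → 𝒢.rho O p < R →
    ∑ a with Y a 0 = p, Y' a 0 = ∑ a with Y a (h a) = p, Y' a (h a)
  emb : ∀ a b : A, ∀ s ∈ Icc 0 (h a), ∀ t ∈ Icc 0 (h b), Y a s = Y b t →
    (a = b ∧ s = t) ∨ ((s = 0 ∨ s = h a) ∧ (t = 0 ∨ t = h b))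

attribute [instance] ONet.fin

namespace ONet

variable {𝒢 : LocGeo E} {O : E} {R : ℝ} (N : ONet 𝒢 O R)

/-- initial distance -/
noncomputable def al (a : N.A) : ℝ := 𝒢.rho O (N.Y a 0)

/-- final distance -/
noncomputable def be (a : N.A) : ℝ := 𝒢.rho O (N.Y a (N.h a))

/-- the parameter at which the arc `a` is at distance `r` from `O` -/
noncomputable def sg (a : N.A) (r : ℝ) : ℝ :=
  Function.invFunOn (fun s => 𝒢.rho O (N.Y a s)) (Icc 0 (N.h a)) r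

/-- position at distance `r` -/
noncomputable def pos (a : N.A) (r : ℝ) : E := N.Y a (N.sg a r)

/-- tangent at distance `r` -/
noncomputable def tan (a : N.A) (r : ℝ) : E := N.Y' a (N.sg a r)

/-- cosine of the angle with the radial direction at distance `r` -/
noncomputable def co (a : N.A) (r : ℝ) : ℝ := 𝒢.cs O (N.pos a r) (N.tan a r)

open scoped Classical in
/-- arcs which are active just after `r` -/
noncomputable def actR (r : ℝ) : Finset N.A := {a | N.al a ≤ r ∧ r < N.be a}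

open scoped Classical in
/-- arcs which are active just before `r` -/
noncomputable def actL (r : ℝ) : Finset N.A := {a | N.al a < r ∧ r ≤ N.be a}

variable {N}

lemma mem_actR {a : N.A} {r : ℝ} : a ∈ N.actR r ↔ N.al a ≤ r ∧ r < N.be a := by
  simp [actR]

lemma mem_actL {a : N.A} {r : ℝ} : a ∈ N.actL r ↔ N.al a < r ∧ r ≤ N.be a := by
  simp [actL]

lemma al_lt_be (a : N.A) : N.al a < N.be a :=
  N.out a ⟨le_rfl, (N.h_pos a).le⟩ ⟨(N.h_pos a).le, le_rfl⟩ (N.h_pos a)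

lemma al_nonneg (a : N.A) : 0 ≤ N.al a := LocGeo.rho_nonneg _ _

lemma rho_cont (hO : O ∈ U E) (a : N.A) :
    ContinuousOn (fun s => 𝒢.rho O (N.Y a s)) (Icc 0 (N.h a)) := by
  have h1 : ContinuousOn (fun x => 𝒢.rho O x) (U E) := by
    have : LipschitzOnWith 2 (fun x => 𝒢.rho O x) (U E) := by
      apply LipschitzOnWith.of_dist_le_mul
      intro x hx y hy
      rw [Real.dist_eq, dist_eq_norm]
      have := LocGeo.rho_sub_le (𝒢 := 𝒢) hO hx hy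
      have h0 := norm_nonneg (x - y)
      simp only [NNReal.coe_ofNat]
      linarith
    exact this.continuousOn
  exact h1.comp (N.geo a).continuousOn (fun t ht => (N.geo a).mem t ht)

lemma sg_spec (hO : O ∈ U E) {a : N.A} {r : ℝ} (hr : r ∈ Icc (N.al a) (N.be a)) :
    N.sg a r ∈ Icc 0 (N.h a) ∧ 𝒢.rho O (N.pos a r) = r := by
  have h1 : r ∈ (fun s => 𝒢.rho O (N.Y a s)) '' Icc 0 (N.h a) :=
    intermediate_value_Icc (N.h_pos a).le (rho_cont hO a) hr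
  obtain ⟨s, hs, hsr⟩ := h1
  exact ⟨Function.invFunOn_mem ⟨s, hs, hsr⟩,
    Function.invFunOn_eq (f := fun s => 𝒢.rho O (N.Y a s)) ⟨s, hs, hsr⟩⟩

lemma sg_mem (hO : O ∈ U E) {a : N.A} {r : ℝ} (hr : r ∈ Icc (N.al a) (N.be a)) :
    N.sg a r ∈ Icc 0 (N.h a) := (sg_spec hO hr).1

lemma rho_pos_eq (hO : O ∈ U E) {a : N.A} {r : ℝ} (hr : r ∈ Icc (N.al a) (N.be a)) :
    𝒢.rho O (N.pos a r) = r := (sg_spec hO hr).2

lemma rho_mem {a : N.A} {s : ℝ} (hs : s ∈ Icc 0 (N.h a)) :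
    𝒢.rho O (N.Y a s) ∈ Icc (N.al a) (N.be a) :=
  ⟨(N.out a).monotoneOn ⟨le_rfl, (N.h_pos a).le⟩ hs hs.1,
    (N.out a).monotoneOn hs ⟨(N.h_pos a).le, le_rfl⟩ hs.2⟩

lemma sg_rho (hO : O ∈ U E) {a : N.A} {s : ℝ} (hs : s ∈ Icc 0 (N.h a)) :
    N.sg a (𝒢.rho O (N.Y a s)) = s := by
  have h1 := sg_spec hO (rho_mem hs)
  exact (N.out a).injOn h1.1 hs h1.2

lemma sg_al (hO : O ∈ U E) (a : N.A) : N.sg a (N.al a) = 0 :=
  sg_rho hO ⟨le_rfl, (N.h_pos a).le⟩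

lemma sg_be (hO : O ∈ U E) (a : N.A) : N.sg a (N.be a) = N.h a :=
  sg_rho hO ⟨(N.h_pos a).le, le_rfl⟩

lemma pos_al (hO : O ∈ U E) (a : N.A) : N.pos a (N.al a) = N.Y a 0 := by
  unfold pos; rw [sg_al hO]

lemma pos_be (hO : O ∈ U E) (a : N.A) : N.pos a (N.be a) = N.Y a (N.h a) := by
  unfold pos; rw [sg_be hO]

lemma tan_al (hO : O ∈ U E) (a : N.A) : N.tan a (N.al a) = N.Y' a 0 := by
  unfold tan; rw [sg_al hO]

lemma tan_be (hO : O ∈ U E) (a : N.A) : N.tan a (N.be a) = N.Y' a (N.h a) := by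
  unfold tan; rw [sg_be hO]

lemma sg_strictMono (hO : O ∈ U E) (a : N.A) :
    StrictMonoOn (N.sg a) (Icc (N.al a) (N.be a)) := by
  intro r hr r' hr' hlt
  by_contra hcon
  push Not at hcon
  have h1 : 𝒢.rho O (N.Y a (N.sg a r')) ≤ 𝒢.rho O (N.Y a (N.sg a r)) :=
    (N.out a).monotoneOn (sg_mem hO hr') (sg_mem hO hr) hcon
  have h2 := rho_pos_eq hO hr
  have h3 := rho_pos_eq hO hr'
  unfold pos at h2 h3
  rw [h2, h3] at h1
  linarith

lemma sg_cont (hO : O ∈ U E) (a : N.A) : ContinuousOn (N.sg a) (Icc (N.al a) (N.be a)) := by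
  have hle : N.al a ≤ N.be a := (al_lt_be a).le
  set F : ℝ → Icc 0 (N.h a) := fun r =>
    ⟨N.sg a (projIcc (N.al a) (N.be a) hle r), sg_mem hO (projIcc (N.al a) (N.be a) hle r).2⟩
    with hF
  have hmono : Monotone F := by
    intro r r' hrr
    apply Subtype.mk_le_mk.2
    exact (sg_strictMono hO a).monotoneOn (projIcc _ _ hle r).2 (projIcc _ _ hle r').2
      (monotone_projIcc hle hrr)
  have hsurj : Function.Surjective F := by
    rintro ⟨s, hs⟩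
    refine ⟨𝒢.rho O (N.Y a s), ?_⟩
    apply Subtype.ext
    simp only [hF]
    rw [projIcc_of_mem hle (rho_mem hs)]
    exact sg_rho hO hs
  have hc := hmono.continuous_of_surjective hsurj
  have hc2 : Continuous (fun r => (F r : ℝ)) := continuous_subtype_val.comp hc
  refine hc2.continuousOn.congr ?_
  intro r hr
  simp only [hF]
  rw [projIcc_of_mem hle hr]

lemma pos_mem (hO : O ∈ U E) {a : N.A} {r : ℝ} (hr : r ∈ Icc (N.al a) (N.be a)) :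
    N.pos a r ∈ U E := (N.geo a).mem _ (sg_mem hO hr)

lemma tan_unit (hO : O ∈ U E) {a : N.A} {r : ℝ} (hr : r ∈ Icc (N.al a) (N.be a)) :
    𝒢.g (N.pos a r) (N.tan a r) (N.tan a r) = 1 := (N.geo a).unit _ (sg_mem hO hr)

lemma pos_cont (hO : O ∈ U E) (a : N.A) : ContinuousOn (N.pos a) (Icc (N.al a) (N.be a)) :=
  (N.geo a).continuousOn.comp (sg_cont hO a) (fun _ hr => sg_mem hO hr)

lemma tan_cont (hO : O ∈ U E) (a : N.A) : ContinuousOn (N.tan a) (Icc (N.al a) (N.be a)) :=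
  (N.geo a).continuousOn'.comp (sg_cont hO a) (fun _ hr => sg_mem hO hr)

/-- the radial component `rho * cos` is nonnegative, and positive except at the start -/
lemma gZ_nonneg (hO : O ∈ U E) {a : N.A} {s : ℝ} (hs : s ∈ Icc 0 (N.h a)) :
    0 ≤ 𝒢.g (N.Y a s) (𝒢.Z O (N.Y a s)) (N.Y' a s) := by
  have h1 := (N.geo a).f_deriv hO hs
  have hmono : MonotoneOn (fun s => 𝒢.rho O (N.Y a s) ^ 2 / 2) (Icc 0 (N.h a)) := by
    intro r hr r' hr' hrr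
    have e : 𝒢.rho O (N.Y a r) ≤ 𝒢.rho O (N.Y a r') := (N.out a).monotoneOn hr hr' hrr
    have e0 := LocGeo.rho_nonneg (𝒢 := 𝒢) O (N.Y a r)
    simp only
    gcongr
  exact h1.nonneg_of_monotoneOn
    (uniqueDiffWithinAt_iff_accPt.1 (uniqueDiffOn_Icc (N.h_pos a) s hs)) hmono

lemma gZ_strictMono (hO : O ∈ U E) (a : N.A) :
    StrictMonoOn (fun s => 𝒢.g (N.Y a s) (𝒢.Z O (N.Y a s)) (N.Y' a s)) (Icc 0 (N.h a)) := by
  have hA : ∀ s : ℝ, ∃ A : ℝ, s ∈ Icc 0 (N.h a) →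
      HasDerivWithinAt (fun s => 𝒢.g (N.Y a s) (𝒢.Z O (N.Y a s)) (N.Y' a s)) A (Icc 0 (N.h a)) s ∧
      0 < A := by
    intro s
    by_cases hs : s ∈ Icc 0 (N.h a)
    · obtain ⟨A, hA, hA'⟩ := (N.geo a).second' hO hs
      refine ⟨A, fun _ => ⟨hA, ?_⟩⟩
      nlinarith [sq_nonneg (𝒢.cs O (N.Y a s) (N.Y' a s))]
    · exact ⟨0, fun h => absurd h hs⟩
  choose A hA using hA
  apply strictMonoOn_of_deriv_pos (convex_Icc _ _)
  · intro s hs
    exact (hA s hs).1.continuousWithinAt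
  · intro s hs
    rw [interior_Icc] at hs
    have h1 := (hA s ⟨hs.1.le, hs.2.le⟩).1.hasDerivAt (Icc_mem_nhds hs.1 hs.2)
    rw [h1.deriv]
    exact (hA s ⟨hs.1.le, hs.2.le⟩).2

lemma gZ_pos (hO : O ∈ U E) {a : N.A} {s : ℝ} (hs : s ∈ Ioc 0 (N.h a)) :
    0 < 𝒢.g (N.Y a s) (𝒢.Z O (N.Y a s)) (N.Y' a s) :=
  lt_of_le_of_lt (gZ_nonneg hO ⟨le_rfl, (N.h_pos a).le⟩)
    (gZ_strictMono hO a ⟨le_rfl, (N.h_pos a).le⟩ ⟨hs.1.le, hs.2⟩ hs.1)

lemma sg_pos (hO : O ∈ U E) {a : N.A} {r : ℝ} (hr : r ∈ Ioc (N.al a) (N.be a)) :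
    N.sg a r ∈ Ioc 0 (N.h a) := by
  have h1 := sg_mem hO ⟨hr.1.le, hr.2⟩
  have h2 := sg_strictMono hO a ⟨le_rfl, (al_lt_be a).le⟩ ⟨hr.1.le, hr.2⟩ hr.1
  rw [sg_al hO] at h2
  exact ⟨h2, h1.2⟩

lemma co_nonneg (hO : O ∈ U E) {a : N.A} {r : ℝ} (hr : r ∈ Icc (N.al a) (N.be a)) :
    0 ≤ N.co a r := by
  unfold co LocGeo.cs
  exact div_nonneg (gZ_nonneg hO (sg_mem hO hr)) (LocGeo.rho_nonneg _ _)

lemma co_pos (hO : O ∈ U E) {a : N.A} {r : ℝ} (hr : r ∈ Ioc (N.al a) (N.be a)) :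
    0 < N.co a r := by
  unfold co LocGeo.cs
  have hr' : r ∈ Icc (N.al a) (N.be a) := ⟨hr.1.le, hr.2⟩
  have h0 : 0 < r := lt_of_le_of_lt (al_nonneg a) hr.1
  have h1 := rho_pos_eq hO hr'
  exact div_pos (gZ_pos hO (sg_pos hO hr)) (by rw [h1]; exact h0)

lemma co_le_one (hO : O ∈ U E) {a : N.A} {r : ℝ} (hr : r ∈ Icc (N.al a) (N.be a)) :
    N.co a r ≤ 1 :=
  (abs_le.1 (LocGeo.cs_abs_le (𝒢 := 𝒢) hO (pos_mem hO hr) (tan_unit hO hr))).2

lemma gZ_eq (hO : O ∈ U E) {a : N.A} {r : ℝ} (hr : r ∈ Icc (N.al a) (N.be a)) :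
    𝒢.g (N.pos a r) (𝒢.Z O (N.pos a r)) (N.tan a r) = r * N.co a r := by
  rw [LocGeo.g_Z_eq hO (pos_mem hO hr), rho_pos_eq hO hr]
  rfl

lemma pos_ne (hO : O ∈ U E) {a : N.A} {r : ℝ} (hr : r ∈ Icc (N.al a) (N.be a)) (h0 : 0 < r) :
    N.pos a r ≠ O := by
  intro h
  have := rho_pos_eq hO hr
  rw [h, LocGeo.rho_self hO] at this
  linarith

/-- derivative of the inverse parametrisation -/
lemma sg_deriv (hO : O ∈ U E) {a : N.A} {r : ℝ} (hr : r ∈ Icc (N.al a) (N.be a)) (h0 : 0 < r)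
    (hc : 0 < N.co a r) :
    HasDerivWithinAt (N.sg a) (N.co a r)⁻¹ (Icc (N.al a) (N.be a)) r := by
  have h1 := (N.geo a).rho_deriv hO (sg_mem hO hr) (pos_ne hO hr h0)
  have h1' : HasDerivWithinAt (fun s => 𝒢.rho O (N.Y a s)) (N.co a r) (Icc 0 (N.h a))
      (N.sg a r) := h1
  have h2 := h1'.hasFDerivWithinAt
  set e : ℝ ≃L[ℝ] ℝ := ContinuousLinearEquiv.unitsEquivAut ℝ (Units.mk0 (N.co a r) hc.ne') with he
  have he1 : (e : ℝ →L[ℝ] ℝ) = ContinuousLinearMap.toSpanSingleton ℝ (N.co a r) := by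
    ext
    simp [he]
  have h3 : HasFDerivWithinAt (fun s => 𝒢.rho O (N.Y a s)) (e : ℝ →L[ℝ] ℝ) (Icc 0 (N.h a))
      (N.sg a r) := by
    rw [he1]; exact h2
  have h4 : Tendsto (N.sg a) (𝓝[Icc (N.al a) (N.be a)] r) (𝓝[Icc 0 (N.h a)] (N.sg a r)) :=
    tendsto_nhdsWithin_iff.2 ⟨(sg_cont hO a) r hr,
      eventually_of_mem self_mem_nhdsWithin fun x hx => sg_mem hO hx⟩
  have h5 := h3.of_local_left_inverse h4 hr
    (eventually_of_mem self_mem_nhdsWithin fun x hx => rho_pos_eq hO hx)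
  have h6 := h5.hasDerivWithinAt
  have h7 : (e.symm : ℝ →L[ℝ] ℝ) 1 = (N.co a r)⁻¹ := by
    have : e ((N.co a r)⁻¹) = 1 := by
      simp [he, hc.ne']
    show e.symm 1 = _
    rw [← this, ContinuousLinearEquiv.symm_apply_apply]
  rw [h7] at h6
  exact h6

lemma rgerm (hO : O ∈ U E) {a : N.A} {r : ℝ} (hr : r ∈ Ico (N.al a) (N.be a)) (h0 : 0 < r)
    (hc : 1 / 2 ≤ N.co a r) : RGerm 𝒢 (N.pos a) (N.tan a) r := by
  have hr' : r ∈ Icc (N.al a) (N.be a) := ⟨hr.1, hr.2.le⟩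
  have h1 := co_le_one hO hr'
  have hpos : 0 < N.co a r := by linarith
  refine ⟨N.Y a, N.Y' a, 0, N.h a, N.sg a, (N.co a r)⁻¹, N.h_pos a, N.geo a, sg_mem hO hr',
    ?_, ?_, ?_, ?_⟩
  · rw [le_inv_comm₀ (by norm_num) hpos]; linarith
  · rw [inv_le_comm₀ hpos (by norm_num)]; linarith
  · refine (sg_deriv hO hr' h0 hpos).mono_of_mem_nhdsWithin ?_
    exact mem_of_superset (Ico_mem_nhdsGE hr.2) (fun x hx => ⟨hr.1.trans hx.1, hx.2.le⟩)
  · have : ∀ᶠ x in 𝓝[≥] r, x ∈ Icc (N.al a) (N.be a) :=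
      mem_of_superset (Ico_mem_nhdsGE hr.2) (fun x hx => ⟨hr.1.trans hx.1, hx.2.le⟩)
    filter_upwards [this] with x hx
    exact ⟨sg_mem hO hx, rfl, rfl⟩

lemma lgerm (hO : O ∈ U E) {a : N.A} {r : ℝ} (hr : r ∈ Ioc (N.al a) (N.be a))
    (hc : 1 / 2 ≤ N.co a r) : LGerm 𝒢 (N.pos a) (N.tan a) r := by
  have hr' : r ∈ Icc (N.al a) (N.be a) := ⟨hr.1.le, hr.2⟩
  have h1 := co_le_one hO hr'
  have hpos : 0 < N.co a r := by linarith
  have h0 : 0 < r := lt_of_le_of_lt (al_nonneg a) hr.1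
  refine LGerm.intro' (Y := N.Y a) (Y' := N.Y' a) (σ := N.sg a) (c := (N.co a r)⁻¹) (N.h_pos a)
    (N.geo a) (sg_mem hO hr') ?_ ?_ ?_ ?_
  · rw [le_inv_comm₀ (by norm_num) hpos]; linarith
  · rw [inv_le_comm₀ hpos (by norm_num)]; linarith
  · refine (sg_deriv hO hr' h0 hpos).mono_of_mem_nhdsWithin ?_
    exact mem_of_superset (Ioc_mem_nhdsLE hr.1) (fun x hx => ⟨hx.1.le, hx.2.trans hr.2⟩)
  · have : ∀ᶠ x in 𝓝[≤] r, x ∈ Icc (N.al a) (N.be a) :=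
      mem_of_superset (Ioc_mem_nhdsLE hr.1) (fun x hx => ⟨hx.1.le, hx.2.trans hr.2⟩)
    filter_upwards [this] with x hx
    exact ⟨sg_mem hO hx, rfl, rfl⟩

end ONet

end Pool.Agent.GeoNet
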