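import Pool.Agent.GeoNet.Sweep

/-!
# Sums over the active arcs of an outward network
-/

namespace Pool.Agent.GeoNet

open Set Metric Filter
open scoped Topology RealInnerProductSpace

variable {E : Type*} [NormedAddCommGroup E] [InnerProductSpace ℝ E]

/-- a continuous function whose derivative is nonnegative off a finite set is monotone -/
lemma le_of_deriv_off_finite {F : ℝ → ℝ} (T : Finset ℝ) : ∀ {a b : ℝ}, a ≤ b →
    ContinuousOn F (Icc a b) →
    (∀ r ∈ Ioo a b, r ∉ T → ∃ F', 0 ≤ F' ∧ HasDerivAt F F' r) → F a ≤ F b := by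
  classical
  induction T using Finset.induction_on with
  | empty =>
    intro a b hab hc hd
    have hm : MonotoneOn F (Icc a b) := by
      apply monotoneOn_of_deriv_nonneg (convex_Icc a b) hc
      · rw [interior_Icc]
        intro r hr
        obtain ⟨F', -, h⟩ := hd r hr (by simp)
        exact h.differentiableAt.differentiableWithinAt
      · rw [interior_Icc]
        intro r hr
        obtain ⟨F', h0, h⟩ := hd r hr (by simp)
        rw [h.deriv]; exact h0
    exact hm ⟨le_rfl, hab⟩ ⟨hab, le_rfl⟩ hab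
  | insert x T hx ih =>
    intro a b hab hc hd
    by_cases hxI : x ∈ Ioo a b
    · have h1 : F a ≤ F x := by
        apply ih hxI.1.le (hc.mono (Icc_subset_Icc le_rfl hxI.2.le))
        intro r hr hrT
        apply hd r ⟨hr.1, hr.2.trans hxI.2⟩
        rw [Finset.mem_insert]
        push Not
        exact ⟨hr.2.ne, hrT⟩
      have h2 : F x ≤ F b := by
        apply ih hxI.2.le (hc.mono (Icc_subset_Icc hxI.1.le le_rfl))
        intro r hr hrT
        apply hd r ⟨hxI.1.trans hr.1, hr.2⟩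
        rw [Finset.mem_insert]
        push Not
        exact ⟨hr.1.ne', hrT⟩
      exact h1.trans h2
    · apply ih hab hc
      intro r hr hrT
      apply hd r hr
      rw [Finset.mem_insert]
      push Not
      refine ⟨?_, hrT⟩
      rintro rfl
      exact hxI hr

namespace ONet

variable {𝒢 : LocGeo E} {O : E} {R : ℝ} (N : ONet 𝒢 O R)

open scoped Classical in
/-- sum over the arcs of `K` which are active just after `r` -/
noncomputable def sR (K : Finset N.A) (φ : N.A → ℝ → ℝ) (r : ℝ) : ℝ :=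
  ∑ a ∈ K with N.al a ≤ r ∧ r < N.be a, φ a r

open scoped Classical in
/-- sum over the arcs of `K` which are active just before `r` -/
noncomputable def sL (K : Finset N.A) (φ : N.A → ℝ → ℝ) (r : ℝ) : ℝ :=
  ∑ a ∈ K with N.al a < r ∧ r ≤ N.be a, φ a r

open scoped Classical in
/-- the critical radii -/
noncomputable def crit : Finset ℝ := Finset.univ.image N.al ∪ Finset.univ.image N.be

/-- `p` is an end point of the arc `a` -/
def endp (a : N.A) (p : E) : Prop := N.Y a 0 = p ∨ N.Y a (N.h a) = p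

/-- `K` is closed at the radius `r`: arcs sharing an end point at distance `r` are both in `K` or
both outside `K` -/
def ClosedAt (K : Finset N.A) (r : ℝ) : Prop :=
  ∀ p ∈ U E, 𝒢.rho O p = r → ∀ a b, N.endp a p → N.endp b p → a ∈ K → b ∈ K

variable {N}

lemma mem_crit {r : ℝ} : r ∈ N.crit ↔ (∃ a, N.al a = r) ∨ (∃ a, N.be a = r) := by
  classical
  simp [crit]

lemma ev_actR_right (r : ℝ) : ∀ᶠ r' in 𝓝[≥] r, ∀ a : N.A,
    (N.al a ≤ r' ∧ r' < N.be a) ↔ (N.al a ≤ r ∧ r < N.be a) := by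
  rw [Filter.eventually_all]
  intro a
  by_cases h1 : N.al a ≤ r
  · by_cases h2 : r < N.be a
    · filter_upwards [Ico_mem_nhdsGE h2] with r' hr'
      exact ⟨fun _ => ⟨h1, h2⟩, fun _ => ⟨h1.trans hr'.1, hr'.2⟩⟩
    · filter_upwards [self_mem_nhdsWithin] with r' hr'
      push Not at h2
      constructor
      · intro h; exact absurd h.2 (not_lt.2 (h2.trans hr'))
      · intro h; exact absurd h.2 (not_lt.2 h2)
  · push Not at h1
    filter_upwards [Ico_mem_nhdsGE h1] with r' hr'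
    constructor
    · intro h; exact absurd h.1 (not_le.2 hr'.2)
    · intro h; exact absurd h.1 (not_le.2 h1)

lemma ev_actR_left (r : ℝ) : ∀ᶠ r' in 𝓝[<] r, ∀ a : N.A,
    (N.al a ≤ r' ∧ r' < N.be a) ↔ (N.al a < r ∧ r ≤ N.be a) := by
  rw [Filter.eventually_all]
  intro a
  by_cases h1 : N.al a < r
  · by_cases h2 : r ≤ N.be a
    · filter_upwards [Ioo_mem_nhdsLT h1] with r' hr'
      exact ⟨fun _ => ⟨h1, h2⟩, fun _ => ⟨hr'.1.le, hr'.2.trans_le h2⟩⟩
    · push Not at h2
      filter_upwards [Ioo_mem_nhdsLT h2] with r' hr'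
      constructor
      · intro h; exact absurd h.2 (not_lt.2 hr'.1.le)
      · intro h; exact absurd h.2 (not_le.2 h2)
  · push Not at h1
    filter_upwards [self_mem_nhdsWithin] with r' hr'
    constructor
    · intro h; exact absurd (h.1.trans_lt hr') (not_lt.2 h1)
    · intro h; exact absurd h.1 (not_lt.2 h1)

lemma ev_generic {r : ℝ} (hr : r ∉ N.crit) : ∀ᶠ r' in 𝓝 r, ∀ a : N.A,
    (N.al a ≤ r' ∧ r' < N.be a) ↔ (N.al a ≤ r ∧ r < N.be a) := by
  have h1 := ev_actR_right (N := N) r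
  have h2 := ev_actR_left (N := N) r
  rw [← nhdsLT_sup_nhdsGE, eventually_sup]
  refine ⟨?_, h1⟩
  filter_upwards [h2] with r' hr' a
  rw [hr' a]
  rw [mem_crit] at hr
  push Not at hr
  constructor
  · intro h; exact ⟨h.1.le, lt_of_le_of_ne h.2 (hr.2 a).symm⟩
  · intro h; exact ⟨lt_of_le_of_ne h.1 (hr.1 a), h.2.le⟩

lemma sR_cont {K : Finset N.A} {φ : N.A → ℝ → ℝ} {R₁ R₂ : ℝ}
    (hφ : ∀ a ∈ K, ContinuousOn (φ a) (Icc (N.al a) (N.be a)))
    (hbal : ∀ r ∈ Ioo R₁ R₂, N.sR K φ r = N.sL K φ r) :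
    ContinuousOn (N.sR K φ) (Ioo R₁ R₂) := by
  classical
  intro r hr
  have hR : ContinuousWithinAt (N.sR K φ) (Ici r) r := by
    have h1 : ContinuousWithinAt (fun r' => ∑ a ∈ K with N.al a ≤ r ∧ r < N.be a, φ a r')
        (Ici r) r := by
      apply tendsto_finsetSum
      intro a ha
      rw [Finset.mem_filter] at ha
      have h2 := hφ a ha.1 r ⟨ha.2.1, ha.2.2.le⟩
      refine h2.mono_of_mem_nhdsWithin ?_
      exact mem_of_superset (Ico_mem_nhdsGE ha.2.2) (fun x hx => ⟨ha.2.1.trans hx.1, hx.2.le⟩)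
    refine h1.congr_of_eventuallyEq ?_ rfl
    filter_upwards [ev_actR_right (N := N) r] with r' hr'
    unfold sR
    apply Finset.sum_congr _ (fun _ _ => rfl)
    ext a
    simp only [Finset.mem_filter, hr' a]
  have hL : ContinuousWithinAt (N.sR K φ) (Iio r) r := by
    have h1 : ContinuousWithinAt (fun r' => ∑ a ∈ K with N.al a < r ∧ r ≤ N.be a, φ a r')
        (Iio r) r := by
      apply tendsto_finsetSum
      intro a ha
      rw [Finset.mem_filter] at ha
      have h2 := hφ a ha.1 r ⟨ha.2.1.le, ha.2.2⟩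
      refine h2.mono_of_mem_nhdsWithin ?_
      exact mem_of_superset (Ioo_mem_nhdsLT ha.2.1)
        (fun x hx => ⟨hx.1.le, hx.2.le.trans ha.2.2⟩)
    have h2 : ContinuousWithinAt (N.sR K φ) (Iio r) r ↔ Tendsto (N.sR K φ) (𝓝[<] r)
      (𝓝 (N.sR K φ r)) := Iff.rfl
    rw [h2, hbal r hr]
    refine Tendsto.congr' ?_ h1
    filter_upwards [ev_actR_left (N := N) r] with r' hr'
    unfold sR
    apply Finset.sum_congr _ (fun _ _ => rfl)
    ext a
    simp only [Finset.mem_filter, hr' a]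
  have : ContinuousAt (N.sR K φ) r := by
    rw [ContinuousAt, ← nhdsLT_sup_nhdsGE, tendsto_sup]
    exact ⟨hL, hR⟩
  exact this.continuousWithinAt

lemma sR_deriv {K : Finset N.A} {φ : N.A → ℝ → ℝ} {r : ℝ} (hr : r ∉ N.crit) {φ' : N.A → ℝ}
    (hφ : ∀ a ∈ K, r ∈ Ioo (N.al a) (N.be a) → HasDerivAt (φ a) (φ' a) r) :
    HasDerivAt (N.sR K φ) (N.sR K (fun a _ => φ' a) r) r := by
  classical
  have hr' : ∀ a, N.al a ≠ r ∧ N.be a ≠ r := by
    rw [mem_crit] at hr
    push Not at hr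
    exact fun a => ⟨hr.1 a, hr.2 a⟩
  have h1 : HasDerivAt (fun r' => ∑ a ∈ K with N.al a ≤ r ∧ r < N.be a, φ a r')
      (∑ a ∈ K with N.al a ≤ r ∧ r < N.be a, φ' a) r := by
    apply HasDerivAt.fun_sum
    intro a ha
    rw [Finset.mem_filter] at ha
    exact hφ a ha.1 ⟨lt_of_le_of_ne ha.2.1 (hr' a).1, ha.2.2⟩
  refine h1.congr_of_eventuallyEq ?_
  filter_upwards [ev_generic hr] with r' hr'
  unfold sR
  apply Finset.sum_congr _ (fun _ _ => rfl)
  ext a
  simp only [Finset.mem_filter, hr' a]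

/-- balance of closed sets of arcs -/
lemma closed_bal (hO : O ∈ U E) {K : Finset N.A} {r : ℝ} (h0 : 0 < r) (hR : r < R)
    (hK : N.ClosedAt K r) {φ : N.A → ℝ → ℝ} {L : E → E →L[ℝ] ℝ}
    (hφ : ∀ a ∈ K, ∀ r ∈ Icc (N.al a) (N.be a), φ a r = L (N.pos a r) (N.tan a r)) :
    N.sR K φ r = N.sL K φ r := by
  classical
  -- reduce to arcs starting or ending at `r`
  have key : ∑ a ∈ K with N.al a = r, L (N.Y a 0) (N.Y' a 0)
      = ∑ a ∈ K with N.be a = r, L (N.Y a (N.h a)) (N.Y' a (N.h a)) := by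
    set P : Finset E := (K.filter (fun a => N.al a = r)).image (fun a => N.Y a 0)
      ∪ (K.filter (fun a => N.be a = r)).image (fun a => N.Y a (N.h a)) with hP
    have hPr : ∀ p ∈ P, p ∈ U E ∧ 𝒢.rho O p = r ∧ ∃ a ∈ K, N.endp a p := by
      intro p hp
      rw [hP, Finset.mem_union, Finset.mem_image, Finset.mem_image] at hp
      rcases hp with ⟨a, ha, rfl⟩ | ⟨a, ha, rfl⟩
      · rw [Finset.mem_filter] at ha
        exact ⟨(N.geo a).mem _ ⟨le_rfl, (N.h_pos a).le⟩, ha.2, a, ha.1, Or.inl rfl⟩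
      · rw [Finset.mem_filter] at ha
        exact ⟨(N.geo a).mem _ ⟨(N.h_pos a).le, le_rfl⟩, ha.2, a, ha.1, Or.inr rfl⟩
    rw [← Finset.sum_fiberwise_of_maps_to (s := K.filter (fun a => N.al a = r)) (t := P)
        (g := fun a => N.Y a 0) (fun a ha => Finset.mem_union_left _
          (Finset.mem_image_of_mem _ ha)),
      ← Finset.sum_fiberwise_of_maps_to (s := K.filter (fun a => N.be a = r)) (t := P)
        (g := fun a => N.Y a (N.h a)) (fun a ha => Finset.mem_union_right _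
          (Finset.mem_image_of_mem (fun a => N.Y a (N.h a)) ha))]
    refine Finset.sum_congr rfl fun p hp => ?_
    obtain ⟨hpU, hpr, a₀, ha₀, hend⟩ := hPr p hp
    have hpO : p ≠ O := by
      rintro rfl
      rw [LocGeo.rho_self hO] at hpr
      linarith
    have hb := N.bal p hpU hpO (by rw [hpr]; exact hR)
    have e1 : (K.filter (fun a => N.al a = r)).filter (fun a => N.Y a 0 = p)
        = Finset.univ.filter (fun a => N.Y a 0 = p) := by
      ext a
      simp only [Finset.mem_filter, Finset.mem_univ, true_and]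
      constructor
      · rintro ⟨-, h⟩; exact h
      · intro h
        refine ⟨⟨hK p hpU hpr a₀ a hend (Or.inl h) ha₀, ?_⟩, h⟩
        unfold al; rw [h, hpr]
    have e2 : (K.filter (fun a => N.be a = r)).filter (fun a => N.Y a (N.h a) = p)
        = Finset.univ.filter (fun a => N.Y a (N.h a) = p) := by
      ext a
      simp only [Finset.mem_filter, Finset.mem_univ, true_and]
      constructor
      · rintro ⟨-, h⟩; exact h
      · intro h
        refine ⟨⟨hK p hpU hpr a₀ a hend (Or.inr h) ha₀, ?_⟩, h⟩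
        unfold be; rw [h, hpr]
    rw [e1, e2]
    calc ∑ a with N.Y a 0 = p, L (N.Y a 0) (N.Y' a 0)
        = L p (∑ a with N.Y a 0 = p, N.Y' a 0) := by
          rw [map_sum]
          refine Finset.sum_congr rfl fun a ha => ?_
          rw [(Finset.mem_filter.1 ha).2]
      _ = L p (∑ a with N.Y a (N.h a) = p, N.Y' a (N.h a)) := by rw [hb]
      _ = _ := by
          rw [map_sum]
          refine Finset.sum_congr rfl fun a ha => ?_
          rw [(Finset.mem_filter.1 ha).2]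
  have hsplitR : N.sR K φ r = (∑ a ∈ K with N.al a < r ∧ r < N.be a, φ a r)
      + ∑ a ∈ K with N.al a = r, L (N.Y a 0) (N.Y' a 0) := by
    unfold sR
    have e : K.filter (fun a => N.al a ≤ r ∧ r < N.be a)
        = K.filter (fun a => N.al a < r ∧ r < N.be a) ∪ K.filter (fun a => N.al a = r) := by
      ext a
      simp only [Finset.mem_filter, Finset.mem_union]
      constructor
      · rintro ⟨h1, h2, h3⟩
        rcases eq_or_lt_of_le h2 with h | h
        · right; exact ⟨h1, h⟩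
        · left; exact ⟨h1, h, h3⟩
      · rintro (⟨h1, h2, h3⟩ | ⟨h1, h2⟩)
        · exact ⟨h1, h2.le, h3⟩
        · exact ⟨h1, h2.le, by rw [← h2]; exact al_lt_be a⟩
    rw [e, Finset.sum_union]
    · congr 1
      refine Finset.sum_congr rfl fun a ha => ?_
      rw [Finset.mem_filter] at ha
      rw [hφ a ha.1 r (by rw [← ha.2]; exact ⟨le_rfl, (al_lt_be a).le⟩), ← ha.2, pos_al hO,
        tan_al hO]
    · rw [Finset.disjoint_filter]
      intro a _ h1 h2
      exact absurd h2 h1.1.ne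
  have hsplitL : N.sL K φ r = (∑ a ∈ K with N.al a < r ∧ r < N.be a, φ a r)
      + ∑ a ∈ K with N.be a = r, L (N.Y a (N.h a)) (N.Y' a (N.h a)) := by
    unfold sL
    have e : K.filter (fun a => N.al a < r ∧ r ≤ N.be a)
        = K.filter (fun a => N.al a < r ∧ r < N.be a) ∪ K.filter (fun a => N.be a = r) := by
      ext a
      simp only [Finset.mem_filter, Finset.mem_union]
      constructor
      · rintro ⟨h1, h2, h3⟩
        rcases eq_or_lt_of_le h3 with h | h
        · right; exact ⟨h1, h.symm⟩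
        · left; exact ⟨h1, h2, h⟩
      · rintro (⟨h1, h2, h3⟩ | ⟨h1, h2⟩)
        · exact ⟨h1, h2, h3.le⟩
        · exact ⟨h1, by rw [← h2]; exact al_lt_be a, h2.ge⟩
    rw [e, Finset.sum_union]
    · congr 1
      refine Finset.sum_congr rfl fun a ha => ?_
      rw [Finset.mem_filter] at ha
      rw [hφ a ha.1 r (by rw [← ha.2]; exact ⟨(al_lt_be a).le, le_rfl⟩), ← ha.2, pos_be hO,
        tan_be hO]
    · rw [Finset.disjoint_filter]
      intro a _ h1 h2
      exact absurd h2 h1.2.ne'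
  rw [hsplitR, hsplitL, key]

lemma closedAt_univ (r : ℝ) : N.ClosedAt Finset.univ r := fun _ _ _ _ _ _ _ _ =>
  Finset.mem_univ _

/-- chain rule along an arc -/
lemma comp_sg_deriv (hO : O ∈ U E) {a : N.A} {r : ℝ} (hr : r ∈ Ioo (N.al a) (N.be a))
    {F : ℝ → ℝ} {F' : ℝ} (hF : HasDerivWithinAt F F' (Icc 0 (N.h a)) (N.sg a r)) :
    HasDerivAt (fun r => F (N.sg a r)) (F' * (N.co a r)⁻¹) r := by
  have hr' : r ∈ Icc (N.al a) (N.be a) := ⟨hr.1.le, hr.2.le⟩
  have h0 : 0 < r := lt_of_le_of_lt (al_nonneg a) hr.1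
  have h1 := sg_deriv hO hr' h0 (co_pos hO ⟨hr.1, hr.2.le⟩)
  have h2 := HasDerivWithinAt.scomp r hF h1 (fun x hx => sg_mem hO hx)
  have h3 := h2.hasDerivAt (Icc_mem_nhds hr.1 hr.2)
  have h4 : HasDerivAt (fun r => F (N.sg a r)) ((N.co a r)⁻¹ • F') r := h3
  rw [smul_eq_mul, mul_comm] at h4
  exact h4

/-- the cosine as a function of the distance: derivative bound -/
lemma co_deriv (hO : O ∈ U E) {a : N.A} {r : ℝ} (hr : r ∈ Ioo (N.al a) (N.be a)) :
    ∃ D : ℝ, HasDerivAt (N.co a) D r ∧ (1 - N.co a r) / r ≤ D ∧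
      ((N.co a r)⁻¹ - N.co a r) / (2 * r) ≤ D := by
  have hr' : r ∈ Icc (N.al a) (N.be a) := ⟨hr.1.le, hr.2.le⟩
  have h0 : 0 < r := lt_of_le_of_lt (al_nonneg a) hr.1
  have hc := co_pos hO (a := a) (r := r) ⟨hr.1, hr.2.le⟩
  have hc1 := co_le_one hO hr'
  obtain ⟨A, hA, hA'⟩ := (N.geo a).second' hO (sg_mem hO hr')
  have h1 := comp_sg_deriv hO hr hA
  have h2 : HasDerivAt (fun x => x * N.co a x) (A * (N.co a r)⁻¹) r := by
    refine h1.congr_of_eventuallyEq ?_
    filter_upwards [Icc_mem_nhds hr.1 hr.2] with x hx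
    exact (gZ_eq hO hx).symm
  have h3 : HasDerivAt (N.co a) ((A * (N.co a r)⁻¹ * r - r * N.co a r * 1) / r ^ 2) r := by
    have h4 := h2.div (hasDerivAt_id r) h0.ne'
    refine h4.congr_of_eventuallyEq ?_
    filter_upwards [Ioi_mem_nhds h0] with x hx
    have hx' : (0:ℝ) < x := hx
    simp only [Pi.div_apply, id]
    field_simp
  refine ⟨_, h3, ?_, ?_⟩
  · have e : (A * (N.co a r)⁻¹ * r - r * N.co a r * 1) / r ^ 2
        = (A * (N.co a r)⁻¹ - N.co a r) / r := by field_simp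
    rw [e]
    apply div_le_div_of_nonneg_right _ h0.le
    have hA2 : (1 + N.co a r ^ 2) / 2 ≤ A := hA'
    have : (1 + N.co a r ^ 2) / 2 * (N.co a r)⁻¹ ≤ A * (N.co a r)⁻¹ :=
      mul_le_mul_of_nonneg_right hA2 (by positivity)
    have h5 : 1 ≤ (1 + N.co a r ^ 2) / 2 * (N.co a r)⁻¹ := by
      rw [← div_eq_mul_inv, le_div_iff₀ hc]
      nlinarith [sq_nonneg (1 - N.co a r)]
    linarith
  · have e : (A * (N.co a r)⁻¹ * r - r * N.co a r * 1) / r ^ 2
        = (2 * (A * (N.co a r)⁻¹) - 2 * N.co a r) / (2 * r) := by field_simp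
    rw [e]
    apply div_le_div_of_nonneg_right _ (by positivity)
    have hA2 : (1 + N.co a r ^ 2) / 2 ≤ A := hA'
    have : (1 + N.co a r ^ 2) / 2 * (N.co a r)⁻¹ ≤ A * (N.co a r)⁻¹ :=
      mul_le_mul_of_nonneg_right hA2 (by positivity)
    have h5 : (1 + N.co a r ^ 2) / 2 * (N.co a r)⁻¹ = ((N.co a r)⁻¹ + N.co a r) / 2 := by
      field_simp
    linarith

lemma co_cont (hO : O ∈ U E) (a : N.A) : ContinuousOn (fun r => r * N.co a r)
    (Icc (N.al a) (N.be a)) := by
  have h1 : ContinuousOn (fun s => 𝒢.g (N.Y a s) (𝒢.Z O (N.Y a s)) (N.Y' a s))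
      (Icc 0 (N.h a)) := by
    intro s hs
    obtain ⟨A, hA, -⟩ := (N.geo a).second' hO hs
    exact hA.continuousWithinAt
  have h2 := h1.comp (sg_cont hO a) (fun _ hr => sg_mem hO hr)
  refine h2.congr ?_
  intro r hr
  exact (gZ_eq hO hr).symm

/-- the density: the sum of the cosines of the active arcs -/
noncomputable def dens (N : ONet 𝒢 O R) (r : ℝ) : ℝ := N.sR Finset.univ N.co r

lemma dens_eq_R (r : ℝ) : N.dens r = ∑ a ∈ N.actR r, N.co a r := by
  classical
  unfold dens sR actR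
  apply Finset.sum_congr _ (fun _ _ => rfl)
  ext a; simp

lemma sL_eq (φ : N.A → ℝ → ℝ) (r : ℝ) : N.sL Finset.univ φ r = ∑ a ∈ N.actL r, φ a r := by
  classical
  unfold sL actL
  apply Finset.sum_congr _ (fun _ _ => rfl)
  ext a; simp

lemma sR_eq (φ : N.A → ℝ → ℝ) (r : ℝ) : N.sR Finset.univ φ r = ∑ a ∈ N.actR r, φ a r := by
  classical
  unfold sR actR
  apply Finset.sum_congr _ (fun _ _ => rfl)
  ext a; simp

lemma dens_eq_L (hO : O ∈ U E) {r : ℝ} (h0 : 0 < r) (hR : r < R) :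
    N.dens r = ∑ a ∈ N.actL r, N.co a r := by
  have h1 := closed_bal (N := N) hO h0 hR (closedAt_univ r) (φ := fun a r => r * N.co a r)
    (L := fun x => 𝒢.g x (𝒢.Z O x)) (fun a _ r hr => (gZ_eq hO hr).symm)
  rw [sR_eq, sL_eq, ← Finset.mul_sum, ← Finset.mul_sum] at h1
  rw [dens_eq_R]
  exact mul_left_cancel₀ h0.ne' h1

lemma dens_cont (hO : O ∈ U E) : ContinuousOn N.dens (Ioo 0 R) := by
  have h1 : ContinuousOn (N.sR Finset.univ (fun a r => r * N.co a r)) (Ioo 0 R) := by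
    apply sR_cont (fun a _ => co_cont hO a)
    intro r hr
    exact closed_bal (N := N) hO hr.1 hr.2 (closedAt_univ r)
      (L := fun x => 𝒢.g x (𝒢.Z O x)) (fun a _ r hr => (gZ_eq hO hr).symm)
  have h2 : ContinuousOn (fun r => N.sR Finset.univ (fun a r => r * N.co a r) r / r)
      (Ioo 0 R) := h1.div continuousOn_id (fun r hr => hr.1.ne')
  refine h2.congr ?_
  intro r hr
  have h3 : r ≠ 0 := hr.1.ne'
  simp only
  rw [sR_eq, ← Finset.mul_sum, dens_eq_R]
  field_simp

lemma dens_deriv (hO : O ∈ U E) {r : ℝ} (hr : r ∉ N.crit) (h0 : 0 < r) :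
    ∃ D : ℝ, HasDerivAt N.dens D r ∧ (((N.actR r).card : ℝ) - N.dens r) / r ≤ D ∧
      ((∑ a ∈ N.actR r, (N.co a r)⁻¹) - N.dens r) / (2 * r) ≤ D := by
  classical
  have h1 : ∀ a : N.A, ∃ D : ℝ, r ∈ Ioo (N.al a) (N.be a) → HasDerivAt (N.co a) D r ∧
      (1 - N.co a r) / r ≤ D ∧ ((N.co a r)⁻¹ - N.co a r) / (2 * r) ≤ D := by
    intro a
    by_cases ha : r ∈ Ioo (N.al a) (N.be a)
    · obtain ⟨D, hD⟩ := co_deriv hO ha
      exact ⟨D, fun _ => hD⟩
    · exact ⟨0, fun h => absurd h ha⟩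
  choose D hD using h1
  have hr' : ∀ a, N.al a ≠ r ∧ N.be a ≠ r := by
    rw [mem_crit] at hr
    push Not at hr
    exact fun a => ⟨hr.1 a, hr.2 a⟩
  have hact : ∀ a ∈ N.actR r, r ∈ Ioo (N.al a) (N.be a) := by
    intro a ha
    rw [mem_actR] at ha
    exact ⟨lt_of_le_of_ne ha.1 (hr' a).1, ha.2⟩
  refine ⟨_, sR_deriv hr (fun a _ ha => (hD a ha).1), ?_, ?_⟩
  · rw [sR_eq]
    have h2 : ((N.actR r).card : ℝ) - N.dens r = ∑ a ∈ N.actR r, (1 - N.co a r) := by
      rw [Finset.sum_sub_distrib, dens_eq_R]; simp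
    rw [h2, Finset.sum_div]
    exact Finset.sum_le_sum fun a ha => (hD a (hact a ha)).2.1
  · rw [sR_eq]
    have h2 : (∑ a ∈ N.actR r, (N.co a r)⁻¹) - N.dens r
        = ∑ a ∈ N.actR r, ((N.co a r)⁻¹ - N.co a r) := by
      rw [Finset.sum_sub_distrib, dens_eq_R]
    rw [h2, Finset.sum_div]
    exact Finset.sum_le_sum fun a ha => (hD a (hact a ha)).2.2

lemma dens_le_card (hO : O ∈ U E) (r : ℝ) : N.dens r ≤ (N.actR r).card := by
  rw [dens_eq_R]
  calc ∑ a ∈ N.actR r, N.co a r ≤ ∑ _a ∈ N.actR r, (1:ℝ) := by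
        apply Finset.sum_le_sum
        intro a ha
        rw [mem_actR] at ha
        exact co_le_one hO ⟨ha.1, ha.2.le⟩
    _ = _ := by simp

lemma dens_le_cardL (hO : O ∈ U E) {r : ℝ} (h0 : 0 < r) (hR : r < R) :
    N.dens r ≤ (N.actL r).card := by
  rw [dens_eq_L hO h0 hR]
  calc ∑ a ∈ N.actL r, N.co a r ≤ ∑ _a ∈ N.actL r, (1:ℝ) := by
        apply Finset.sum_le_sum
        intro a ha
        rw [mem_actL] at ha
        exact co_le_one hO ⟨ha.1.le, ha.2⟩
    _ = _ := by simp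

lemma dens_mono (hO : O ∈ U E) {r r' : ℝ} (h0 : 0 < r) (h1 : r ≤ r') (h2 : r' < R) :
    N.dens r ≤ N.dens r' := by
  apply le_of_deriv_off_finite N.crit h1 ((dens_cont hO).mono
    (fun x hx => ⟨h0.trans_le hx.1, hx.2.trans_lt h2⟩))
  intro x hx hxc
  have hx0 : 0 < x := h0.trans hx.1
  obtain ⟨D, hD, hD1, -⟩ := dens_deriv hO hxc hx0
  refine ⟨D, le_trans ?_ hD1, hD⟩
  have := dens_le_card (N := N) hO x
  apply div_nonneg _ hx0.le
  linarith

end ONet

end Pool.Agent.GeoNet
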