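import Pool.Agent.GeoNet.Basic

/-!
# Thread systems

A thread system is a finite family of curves `X i`, parametrised by a common time, each of which is
a broken geodesic; at each time the tangent vectors of the threads through each point are balanced.
-/

namespace Pool.Agent.GeoNet

open Set Metric Filter
open scoped Topology RealInnerProductSpace

variable {E : Type*} [NormedAddCommGroup E] [InnerProductSpace ℝ E]

lemma comp_germ {F' : Type*} [NormedAddCommGroup F'] [NormedSpace ℝ F'] {f F : ℝ → F'} {f' : F'}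
    {σ : ℝ → ℝ} {c t s₀ h : ℝ} (hf : HasDerivWithinAt f f' (Icc s₀ h) (σ t))
    (hσ : HasDerivWithinAt σ c (Ici t) t) (hmem : ∀ᶠ t' in 𝓝[≥] t, σ t' ∈ Icc s₀ h)
    (hF : ∀ᶠ t' in 𝓝[≥] t, F t' = f (σ t')) : HasDerivWithinAt F (c • f') (Ici t) t := by
  set S : Set ℝ := {t' | t ≤ t' ∧ σ t' ∈ Icc s₀ h} with hS
  have h1 : HasDerivWithinAt σ c S t := hσ.mono (fun r hr => hr.1)
  have h2 : MapsTo σ S (Icc s₀ h) := fun r hr => hr.2
  have h3 := HasDerivWithinAt.scomp t hf h1 h2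
  have h4 : S ∈ 𝓝[≥] t := by
    filter_upwards [hmem, self_mem_nhdsWithin] with r hr hr'
    exact ⟨hr', hr⟩
  have h5 := h3.mono_of_mem_nhdsWithin h4
  refine h5.congr_of_eventuallyEq ?_ ?_
  · filter_upwards [hF] with r hr
    exact hr
  · exact hF.self_of_nhdsWithin (mem_Ici.2 le_rfl)

/-- right germ: near `t` on the right, `X` runs along a geodesic arc with tangent `τ` -/
def RGerm (𝒢 : LocGeo E) (X τ : ℝ → E) (t : ℝ) : Prop :=
  ∃ (Y Y' : ℝ → E) (s₀ h : ℝ) (σ : ℝ → ℝ) (c : ℝ), s₀ < h ∧ 𝒢.Geo Y Y' s₀ h ∧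
    σ t ∈ Icc s₀ h ∧ 1 / 2 ≤ c ∧ c ≤ 2 ∧ HasDerivWithinAt σ c (Ici t) t ∧
    ∀ᶠ t' in 𝓝[≥] t, σ t' ∈ Icc s₀ h ∧ X t' = Y (σ t') ∧ τ t' = Y' (σ t')

/-- left germ -/
def LGerm (𝒢 : LocGeo E) (X τ : ℝ → E) (t : ℝ) : Prop :=
  RGerm 𝒢 (fun s => X (-s)) (fun s => -τ (-s)) (-t)

namespace RGerm

variable {𝒢 : LocGeo E} {X τ : ℝ → E} {t : ℝ}

lemma mem (h : RGerm 𝒢 X τ t) : X t ∈ U E := by
  obtain ⟨Y, Y', s₀, h₁, σ, c, hlt, hY, hσt, hc, hc', hσ, hev⟩ := h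
  obtain ⟨h1, h2, h3⟩ := hev.self_of_nhdsWithin (mem_Ici.2 le_rfl)
  rw [h2]; exact hY.mem _ h1

lemma unit (h : RGerm 𝒢 X τ t) : 𝒢.g (X t) (τ t) (τ t) = 1 := by
  obtain ⟨Y, Y', s₀, h₁, σ, c, hlt, hY, hσt, hc, hc', hσ, hev⟩ := h
  obtain ⟨h1, h2, h3⟩ := hev.self_of_nhdsWithin (mem_Ici.2 le_rfl)
  rw [h2, h3]; exact hY.unit _ h1

lemma cont_tau (h : RGerm 𝒢 X τ t) : ContinuousWithinAt τ (Ici t) t := by
  obtain ⟨Y, Y', s₀, h₁, σ, c, hlt, hY, hσt, hc, hc', hσ, hev⟩ := h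
  exact (comp_germ (hY.d2 _ hσt) hσ (hev.mono fun _ h => h.1)
    (hev.mono fun _ h => h.2.2)).continuousWithinAt

lemma deriv (h : RGerm 𝒢 X τ t) : ∃ c : ℝ, 1 / 2 ≤ c ∧ c ≤ 2 ∧
    HasDerivWithinAt X (c • τ t) (Ici t) t ∧
    ∀ O ∈ U E, (∃ A : ℝ, (1 + 𝒢.cs O (X t) (τ t) ^ 2) / 2 ≤ A ∧
      HasDerivWithinAt (fun t => 𝒢.g (X t) (𝒢.Z O (X t)) (τ t)) (c * A) (Ici t) t) ∧
      (X t ≠ O → HasDerivWithinAt (fun t => 𝒢.rho O (X t)) (c * 𝒢.cs O (X t) (τ t)) (Ici t) t ∧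
        ∃ D : E, HasDerivWithinAt (fun t => (𝒢.rho O (X t))⁻¹ • 𝒢.v O (X t)) (c • D) (Ici t) t ∧
          ‖D‖ ≤ 2 * √(1 - 𝒢.cs O (X t) (τ t) ^ 2) / 𝒢.rho O (X t)) := by
  obtain ⟨Y, Y', s₀, h₁, σ, c, hlt, hY, hσt, hc, hc', hσ, hev⟩ := h
  obtain ⟨h1, h2, h3⟩ := hev.self_of_nhdsWithin (mem_Ici.2 le_rfl)
  refine ⟨c, hc, hc', ?_, ?_⟩
  · rw [h3]
    exact comp_germ (hY.d1 _ hσt) hσ (hev.mono fun _ h => h.1) (hev.mono fun _ h => h.2.1)
  · intro O hO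
    refine ⟨?_, ?_⟩
    · obtain ⟨A, hA, hA'⟩ := hY.second' hO hσt
      refine ⟨A, ?_, ?_⟩
      · rw [h2, h3]; exact hA'
      · have := comp_germ (F := fun t => 𝒢.g (X t) (𝒢.Z O (X t)) (τ t)) hA hσ
          (hev.mono fun _ h => h.1) (hev.mono fun _ h => by rw [h.2.1, h.2.2])
        simpa using this
    · intro hne
      rw [h2] at hne
      refine ⟨?_, ?_⟩
      · have := comp_germ (F := fun t => 𝒢.rho O (X t)) (hY.rho_deriv hO hσt hne) hσ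
          (hev.mono fun _ h => h.1) (hev.mono fun _ h => by rw [h.2.1])
        rw [h2, h3]
        simpa using this
      · obtain ⟨D, hD, hD'⟩ := hY.angular' hO hσt hne
        refine ⟨D, ?_, ?_⟩
        · exact comp_germ (F := fun t => (𝒢.rho O (X t))⁻¹ • 𝒢.v O (X t)) hD hσ
            (hev.mono fun _ h => h.1) (hev.mono fun _ h => by rw [h.2.1])
        · rw [h2, h3]; exact hD'

lemma cont (h : RGerm 𝒢 X τ t) : ContinuousWithinAt X (Ici t) t := by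
  obtain ⟨c, _, _, h1, _⟩ := h.deriv
  exact h1.continuousWithinAt

end RGerm

namespace LGerm

variable {𝒢 : LocGeo E} {X τ : ℝ → E} {t : ℝ}

lemma mem (h : LGerm 𝒢 X τ t) : X t ∈ U E := by
  have := RGerm.mem h
  simpa using this

lemma unit (h : LGerm 𝒢 X τ t) : 𝒢.g (X t) (τ t) (τ t) = 1 := by
  have := RGerm.unit h
  simpa using this

lemma neg_cont {F : Type*} [TopologicalSpace F] {f : ℝ → F} {t : ℝ}
    (h : ContinuousWithinAt (fun s => f (-s)) (Ici (-t)) (-t)) : ContinuousWithinAt f (Iic t) t := by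
  have h1 : ContinuousWithinAt (fun s : ℝ => -s) (Iic t) t := continuous_neg.continuousWithinAt
  have h2 : MapsTo (fun s : ℝ => -s) (Iic t) (Ici (-t)) := fun s hs => by
    simp only [mem_Iic, mem_Ici] at *; linarith
  have h3 := ContinuousWithinAt.comp (t := Ici (-t)) h h1 h2
  simpa [Function.comp_def] using h3

lemma cont_tau (h : LGerm 𝒢 X τ t) : ContinuousWithinAt τ (Iic t) t := by
  have h1 := RGerm.cont_tau h
  have h2 : ContinuousWithinAt (fun s => τ (-s)) (Ici (-t)) (-t) :=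
    h1.neg.congr (fun s _ => by simp) (by simp)
  exact neg_cont h2

lemma cont (h : LGerm 𝒢 X τ t) : ContinuousWithinAt X (Iic t) t :=
  neg_cont (RGerm.cont h)

end LGerm

open scoped Classical in
/-- Basic thread systems on the time interval `[a, b]`. -/
structure TBase (𝒢 : LocGeo E) {ι : Type*} (I : Finset ι) (X τp τm : ι → ℝ → E) (a b : ℝ) :
    Prop where
  lt : a < b
  right : ∀ i ∈ I, ∀ t ∈ Ico a b, RGerm 𝒢 (X i) (τp i) t
  left : ∀ i ∈ I, ∀ t ∈ Ioc a b, LGerm 𝒢 (X i) (τm i) t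
  eqL : ∀ i ∈ I, ∀ t ∈ Ioc a b, ∀ᶠ t' in 𝓝[<] t, τp i t' = τm i t'
  eqR : ∀ i ∈ I, ∀ t ∈ Ico a b, ∀ᶠ t' in 𝓝[>] t, τp i t' = τm i t'
  bal : ∀ t ∈ Ioo a b, ∀ x : E,
    ∑ i ∈ I with X i t = x, τp i t = ∑ i ∈ I with X i t = x, τm i t

namespace TBase

variable {𝒢 : LocGeo E} {ι : Type*} {I : Finset ι} {X τp τm : ι → ℝ → E} {a b : ℝ}

lemma mem (S : TBase 𝒢 I X τp τm a b) {i : ι} (hi : i ∈ I) {t : ℝ} (ht : t ∈ Icc a b) :
    X i t ∈ U E := by
  rcases eq_or_lt_of_le ht.2 with h | h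
  · rw [h]; exact (S.left i hi b ⟨S.lt, le_rfl⟩).mem
  · exact (S.right i hi t ⟨ht.1, h⟩).mem

lemma cont (S : TBase 𝒢 I X τp τm a b) {i : ι} (hi : i ∈ I) : ContinuousOn (X i) (Icc a b) := by
  intro t ht
  rcases eq_or_lt_of_le ht.2 with h | h
  · subst h
    exact ((S.left i hi t ⟨S.lt, le_rfl⟩).cont).mono (fun r hr => hr.2)
  · rcases eq_or_lt_of_le ht.1 with h' | h'
    · subst h'
      exact ((S.right i hi a ⟨le_rfl, h⟩).cont).mono (fun r hr => hr.1)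
    · have h1 := (S.left i hi t ⟨h', h.le⟩).cont
      have h2 := (S.right i hi t ⟨h'.le, h⟩).cont
      exact (continuousWithinAt_union.2 ⟨h1, h2⟩).mono (fun r _ => le_total r t)

open scoped Classical in
lemma bal_sum (S : TBase 𝒢 I X τp τm a b) {t : ℝ} (ht : t ∈ Ioo a b) (L : E → E →L[ℝ] ℝ) :
    ∑ i ∈ I, L (X i t) (τp i t) = ∑ i ∈ I, L (X i t) (τm i t) := by
  classical
  rw [← Finset.sum_fiberwise_of_maps_to (s := I) (t := I.image (fun i => X i t))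
      (g := fun i => X i t) (fun i hi => Finset.mem_image_of_mem _ hi)
      (fun i => L (X i t) (τp i t)),
    ← Finset.sum_fiberwise_of_maps_to (s := I) (t := I.image (fun i => X i t))
      (g := fun i => X i t) (fun i hi => Finset.mem_image_of_mem _ hi)
      (fun i => L (X i t) (τm i t))]
  refine Finset.sum_congr rfl fun x _ => ?_
  have h1 : ∀ τ : ι → E, ∑ i ∈ I with X i t = x, L (X i t) (τ i)
      = L x (∑ i ∈ I with X i t = x, τ i) := by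
    intro τ
    rw [map_sum]
    refine Finset.sum_congr rfl fun i hi => ?_
    rw [(Finset.mem_filter.1 hi).2]
  have h2 := h1 (fun i => τp i t)
  have h3 := h1 (fun i => τm i t)
  rw [h2, h3, S.bal t ht x]

/-- the monotone functional -/
noncomputable def Phi (𝒢 : LocGeo E) {ι : Type*} (I : Finset ι) (X τ : ι → ℝ → E) (O : E)
    (t : ℝ) : ℝ :=
  ∑ i ∈ I, (𝒢.rho O (X i t) - 𝒢.g (X i t) (𝒢.Z O (X i t)) (τ i t))

lemma cont_rho (S : TBase 𝒢 I X τp τm a b) {O : E} (hO : O ∈ U E) {i : ι} (hi : i ∈ I) :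
    ContinuousOn (fun t => 𝒢.rho O (X i t)) (Icc a b) := by
  have h1 : ContinuousOn (fun x => 𝒢.rho O x) (U E) := by
    have : LipschitzOnWith 2 (fun x => 𝒢.rho O x) (U E) := by
      apply LipschitzOnWith.of_dist_le_mul
      intro x hx y hy
      rw [Real.dist_eq, dist_eq_norm]
      have := LocGeo.rho_sub_le (𝒢 := 𝒢) hO hx hy
      have h0 := norm_nonneg (x - y)
      simp only [NNReal.coe_ofNat]
      linarith
    exact this.continuousOn
  exact h1.comp (S.cont hi) (fun t ht => S.mem hi ht)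

lemma cont_v (S : TBase 𝒢 I X τp τm a b) {O : E} (hO : O ∈ U E) {i : ι} (hi : i ∈ I) :
    ContinuousOn (fun t => 𝒢.v O (X i t)) (Icc a b) := by
  have h1 : ContinuousOn (fun x => 𝒢.v O x) (U E) := by
    have : LipschitzOnWith 2 (fun x => 𝒢.v O x) (U E) := by
      apply LipschitzOnWith.of_dist_le_mul
      intro x hx y hy
      rw [dist_eq_norm, dist_eq_norm]
      have := (LocGeo.v_sub_le (𝒢 := 𝒢) hO hx hy).1
      have h0 := norm_nonneg (x - y)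
      simp only [NNReal.coe_ofNat]
      norm_num [dl] at this
      linarith
    exact this.continuousOn
  exact h1.comp (S.cont hi) (fun t ht => S.mem hi ht)

lemma Phi_deriv (S : TBase 𝒢 I X τp τm a b) {O : E} (hO : O ∈ U E)
    {t : ℝ} (ht : t ∈ Ico a b) (hne : ∀ i ∈ I, X i t ≠ O) :
    ∃ p : ℝ, p ≤ 0 ∧ HasDerivWithinAt (Phi 𝒢 I X τp O) p (Ici t) t := by
  have h1 : ∀ i : ι, ∃ p : ℝ, i ∈ I → p ≤ 0 ∧
      HasDerivWithinAt (fun t => 𝒢.rho O (X i t) - 𝒢.g (X i t) (𝒢.Z O (X i t)) (τp i t)) p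
        (Ici t) t := by
    intro i
    by_cases hi : i ∈ I
    · obtain ⟨c, hc, hc', h1, h2⟩ := (S.right i hi t ht).deriv
      obtain ⟨⟨A, hA, hA'⟩, h3⟩ := h2 O hO
      obtain ⟨h4, -⟩ := h3 (hne i hi)
      refine ⟨c * 𝒢.cs O (X i t) (τp i t) - c * A, fun _ => ⟨?_, h4.sub hA'⟩⟩
      nlinarith [sq_nonneg (1 - 𝒢.cs O (X i t) (τp i t))]
    · exact ⟨0, fun h => absurd h hi⟩
  choose p hp using h1
  refine ⟨∑ i ∈ I, p i, Finset.sum_nonpos fun i hi => (hp i hi).1, ?_⟩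
  have := HasDerivWithinAt.fun_sum (fun i hi => (hp i hi).2) (u := I)
  exact this

lemma Phi_cont (S : TBase 𝒢 I X τp τm a b) {O : E} (hO : O ∈ U E)
    (hne : ∀ t ∈ Ico a b, ∀ i ∈ I, X i t ≠ O) : ContinuousOn (Phi 𝒢 I X τp O) (Ico a b) := by
  intro t ht
  have hR : ContinuousWithinAt (Phi 𝒢 I X τp O) (Ici t) t := by
    obtain ⟨p, _, hp⟩ := S.Phi_deriv hO ht (hne t ht)
    exact hp.continuousWithinAt
  rcases eq_or_lt_of_le ht.1 with h' | h'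
  · subst h'
    exact hR.mono (fun r hr => hr.1)
  have hL : ContinuousWithinAt (Phi 𝒢 I X τp O) (Iic t) t := by
    have h1 : ContinuousWithinAt (Phi 𝒢 I X τm O) (Iic t) t := by
      have h2 : ∀ i ∈ I, ContinuousWithinAt
          (fun t => 𝒢.rho O (X i t) - 𝒢.g (X i t) (𝒢.Z O (X i t)) (τm i t)) (Iic t) t := by
        intro i hi
        have hg := S.left i hi t ⟨h', ht.2.le⟩
        have h3 : ContinuousWithinAt (fun t => 𝒢.rho O (X i t)) (Iic t) t := by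
          have := (S.cont_rho hO hi) t ⟨ht.1, ht.2.le⟩
          refine this.mono_of_mem_nhdsWithin ?_
          exact mem_of_superset (Ioc_mem_nhdsLE h') (fun r hr => ⟨hr.1.le, hr.2.trans ht.2.le⟩)
        obtain ⟨c, hc, hc', h5, h6⟩ := RGerm.deriv hg
        obtain ⟨⟨A, hA, hA'⟩, -⟩ := h6 O hO
        have h7 : ContinuousWithinAt (fun s => 𝒢.g (X i s) (𝒢.Z O (X i s)) (-τm i s))
            (Iic t) t := LGerm.neg_cont (by simpa using hA'.continuousWithinAt)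
        have h8 : ContinuousWithinAt (fun s => 𝒢.g (X i s) (𝒢.Z O (X i s)) (τm i s))
            (Iic t) t := h7.neg.congr (fun s _ => by simp) (by simp)
        exact h3.sub h8
      exact tendsto_finsetSum _ h2
    have h9 : Phi 𝒢 I X τp O t = Phi 𝒢 I X τm O t := by
      unfold Phi
      rw [Finset.sum_sub_distrib, Finset.sum_sub_distrib,
        S.bal_sum ⟨h', ht.2⟩ (fun x => 𝒢.g x (𝒢.Z O x))]
    have h10 : ∀ᶠ r in 𝓝[<] t, Phi 𝒢 I X τp O r = Phi 𝒢 I X τm O r := by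
      have : ∀ᶠ r in 𝓝[<] t, ∀ i ∈ I, τp i r = τm i r := by
        rw [Filter.eventually_all_finset]
        exact fun i hi => S.eqL i hi t ⟨h', ht.2.le⟩
      filter_upwards [this] with r hr
      unfold Phi
      refine Finset.sum_congr rfl fun i hi => ?_
      rw [hr i hi]
    have h11 : ∀ᶠ r in 𝓝[≤] t, Phi 𝒢 I X τp O r = Phi 𝒢 I X τm O r := by
      rw [← Iio_insert, nhdsWithin_insert, eventually_sup]
      exact ⟨h9, h10⟩
    exact h1.congr_of_eventuallyEq h11 h9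
  exact (continuousWithinAt_union.2 ⟨hL, hR⟩).mono (fun r _ => le_total r t)

lemma Phi_anti (S : TBase 𝒢 I X τp τm a b) {O : E} (hO : O ∈ U E)
    (hne : ∀ t ∈ Ico a b, ∀ i ∈ I, X i t ≠ O) {t₀ t : ℝ} (h0 : a ≤ t₀) (h1 : t₀ ≤ t)
    (h2 : t < b) : Phi 𝒢 I X τp O t ≤ Phi 𝒢 I X τp O t₀ := by
  have hsub : Icc t₀ t ⊆ Ico a b := fun r hr => ⟨h0.trans hr.1, lt_of_le_of_lt hr.2 h2⟩
  have hc := (S.Phi_cont hO hne).mono hsub
  have hd : ∀ x : ℝ, ∃ p : ℝ, x ∈ Ico t₀ t → p ≤ 0 ∧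
      HasDerivWithinAt (Phi 𝒢 I X τp O) p (Ici x) x := by
    intro x
    by_cases hx : x ∈ Ico t₀ t
    · have hx' : x ∈ Ico a b := ⟨h0.trans hx.1, hx.2.trans h2⟩
      obtain ⟨p, hp⟩ := S.Phi_deriv hO hx' (hne x hx')
      exact ⟨p, fun _ => hp⟩
    · exact ⟨0, fun h => absurd h hx⟩
  choose p hp using hd
  exact image_le_of_deriv_right_le_deriv_boundary hc (fun x hx => (hp x hx).2)
    (B := fun _ => Phi 𝒢 I X τp O t₀) (B' := fun _ => 0) le_rfl continuousOn_const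
    (fun x _ => hasDerivWithinAt_const _ _ _) (fun x hx => (hp x hx).1) ⟨h1, le_rfl⟩

/-- each term of `Phi` is nonnegative -/
lemma term_nonneg (S : TBase 𝒢 I X τp τm a b) {O : E} (hO : O ∈ U E) {t : ℝ} (ht : t ∈ Ico a b)
    {i : ι} (hi : i ∈ I) : 0 ≤ 𝒢.rho O (X i t) - 𝒢.g (X i t) (𝒢.Z O (X i t)) (τp i t) := by
  have h := S.right i hi t ht
  have := LocGeo.g_Z_le (𝒢 := 𝒢) hO h.mem h.unit
  linarith

lemma rho_mul_le (S : TBase 𝒢 I X τp τm a b) {O : E} (hO : O ∈ U E) {t : ℝ} (ht : t ∈ Ico a b)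
    {i : ι} (hi : i ∈ I) :
    𝒢.rho O (X i t) * (1 - 𝒢.cs O (X i t) (τp i t)) ≤ Phi 𝒢 I X τp O t := by
  have h := S.right i hi t ht
  have h1 := LocGeo.g_Z_eq (𝒢 := 𝒢) hO h.mem (τp i t)
  calc 𝒢.rho O (X i t) * (1 - 𝒢.cs O (X i t) (τp i t))
      = 𝒢.rho O (X i t) - 𝒢.g (X i t) (𝒢.Z O (X i t)) (τp i t) := by rw [h1]; ring
    _ ≤ _ := Finset.single_le_sum (f := fun i => 𝒢.rho O (X i t)
        - 𝒢.g (X i t) (𝒢.Z O (X i t)) (τp i t)) (fun j hj => S.term_nonneg hO ht hj) hi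

end TBase

end Pool.Agent.GeoNet
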