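import Pool.Agent.GeoNet.ODeg

/-!
# Tools for the plateau lemma: gaps, second order estimates, lengths
-/

namespace Pool.Agent.GeoNet

open Set Metric Filter MeasureTheory
open scoped Topology RealInnerProductSpace

variable {E : Type*} [NormedAddCommGroup E] [InnerProductSpace ℝ E]

/-- finitely many short images do not cover an interval -/
lemma exists_gap {ι : Type*} (K : Finset ι) (f : ι → ℝ → ℝ) (u w : ι → ℝ)
    (huw : ∀ i ∈ K, u i ≤ w i) {C : ℝ} (hC : 0 ≤ C)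
    (hf : ∀ i ∈ K, ∀ s ∈ Icc (u i) (w i), ∀ t ∈ Icc (u i) (w i), |f i s - f i t| ≤ C * |s - t|)
    {L : ℝ} (hL : C * ∑ i ∈ K, (w i - u i) < L) :
    ∃ s ∈ Ioo 0 L, ∀ i ∈ K, ∀ t ∈ Icc (u i) (w i), f i t ≠ s := by
  classical
  by_contra hcon
  push Not at hcon
  have hI : ∀ i ∈ K, ∃ m, ∀ t ∈ Icc (u i) (w i), f i t ∈ Icc m (m + C * (w i - u i)) := by
    intro i hi
    have hc : ContinuousOn (f i) (Icc (u i) (w i)) := by
      have : LipschitzOnWith ⟨C, hC⟩ (f i) (Icc (u i) (w i)) := by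
        apply LipschitzOnWith.of_dist_le_mul
        intro x hx y hy
        rw [Real.dist_eq, Real.dist_eq]
        exact hf i hi x hx y hy
      exact this.continuousOn
    obtain ⟨t0, ht0, hmin⟩ := isCompact_Icc.exists_isMinOn (nonempty_Icc.2 (huw i hi)) hc
    refine ⟨f i t0, fun t ht => ⟨hmin ht, ?_⟩⟩
    have h1 := hf i hi t ht t0 ht0
    have h2 : |t - t0| ≤ w i - u i := by
      rw [abs_le]; constructor <;> linarith [ht.1, ht.2, ht0.1, ht0.2]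
    have h3 := le_abs_self (f i t - f i t0)
    have h4 := mul_le_mul_of_nonneg_left h2 hC
    linarith
  choose! m hm using hI
  have hcov : Ioo 0 L ⊆ ⋃ i ∈ K, Icc (m i) (m i + C * (w i - u i)) := by
    intro s hs
    obtain ⟨i, hi, t, ht, hst⟩ := hcon s hs
    rw [mem_iUnion₂]
    exact ⟨i, hi, hst ▸ hm i hi t ht⟩
  have h1 : volume (Ioo 0 L) ≤ ∑ i ∈ K, volume (Icc (m i) (m i + C * (w i - u i))) :=
    (measure_mono hcov).trans (measure_biUnion_finset_le K _)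
  rw [Real.volume_Ioo] at h1
  simp only [Real.volume_Icc, add_sub_cancel_left] at h1
  rw [← ENNReal.ofReal_sum_of_nonneg] at h1
  · rw [ENNReal.ofReal_le_ofReal_iff] at h1
    · rw [← Finset.mul_sum] at h1
      linarith
    · apply Finset.sum_nonneg
      intro i hi
      exact mul_nonneg hC (by linarith [huw i hi])
  · intro i hi
    exact mul_nonneg hC (by linarith [huw i hi])

namespace LocGeo

variable {𝒢 : LocGeo E}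

/-- second order estimate for half the squared distance -/
lemma f_second {O x y : E} (hO : O ∈ U E) (hx : x ∈ U E) (hy : y ∈ U E) :
    |𝒢.rho O y ^ 2 / 2 - 𝒢.rho O x ^ 2 / 2 - 𝒢.g x (𝒢.Z O x) (y - x)| ≤
      11 / 10 * ‖y - x‖ ^ 2 := by
  have hseg : segment ℝ x y ⊆ U E := (convex_ball (0 : E) 3).segment_subset hx hy
  have hd : ∀ z ∈ segment ℝ x y, HasFDerivWithinAt (fun y => 𝒢.g O (𝒢.v O y) (𝒢.v O y) / 2)
      (𝒢.g z (𝒢.Z O z)) (segment ℝ x y) z := fun z hz =>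
    (𝒢.f_deriv O hO z (hseg hz)).hasFDerivWithinAt
  have hn0 : ‖y - x‖ = ‖x - y‖ := norm_sub_rev _ _
  have hbound : ∀ z ∈ segment ℝ x y, ‖𝒢.g z (𝒢.Z O z) - 𝒢.g x (𝒢.Z O x)‖ ≤
      11 / 10 * ‖y - x‖ := by
    intro z hz
    have hzU := hseg hz
    have hzx : ‖z - x‖ ≤ ‖y - x‖ := by
      obtain ⟨a, b, ha, hb, hab, rfl⟩ := hz
      have : a • x + b • y - x = b • (y - x) := by
        have : a = 1 - b := by linarith
        subst this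
        module
      rw [this, norm_smul, Real.norm_eq_abs, abs_of_nonneg hb]
      have := norm_nonneg (y - x)
      nlinarith
    apply ContinuousLinearMap.opNorm_le_bound _ (by positivity)
    intro w
    have e : (𝒢.g z (𝒢.Z O z) - 𝒢.g x (𝒢.Z O x)) w
        = 𝒢.g z (𝒢.Z O z - 𝒢.Z O x) w + (𝒢.g z (𝒢.Z O x) w - 𝒢.g x (𝒢.Z O x) w) := by
      simp only [map_sub, _root_.sub_apply]
      ring
    rw [e, Real.norm_eq_abs]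
    have h1 := g_abs_le (𝒢 := 𝒢) hzU (𝒢.Z O z - 𝒢.Z O x) w
    have h2 := 𝒢.g_lip z hzU x hx (𝒢.Z O x) w
    have h3 := (Z_sub_le (𝒢 := 𝒢) hO hzU hx).1
    have h4 : ‖𝒢.Z O x‖ ≤ 61 / 10 := by
      have h5 := (Z_sub_le (𝒢 := 𝒢) hO hx hO).1
      rw [𝒢.Z_self O hO, sub_zero] at h5
      have h6 : ‖x - O‖ ≤ 6 := by
        have := norm_sub_le x O
        have h7 : ‖x‖ < 3 := by simpa using hx
        have h8 : ‖O‖ < 3 := by simpa using hO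
        linarith
      norm_num [dl] at h5
      linarith
    have hw := norm_nonneg w
    have hz0 := norm_nonneg (z - x)
    norm_num [dl] at h1 h2 h3
    calc |𝒢.g z (𝒢.Z O z - 𝒢.Z O x) w + (𝒢.g z (𝒢.Z O x) w - 𝒢.g x (𝒢.Z O x) w)|
        ≤ |𝒢.g z (𝒢.Z O z - 𝒢.Z O x) w| + |𝒢.g z (𝒢.Z O x) w - 𝒢.g x (𝒢.Z O x) w| :=
          abs_add_le _ _
      _ ≤ 1001 / 1000 * ‖𝒢.Z O z - 𝒢.Z O x‖ * ‖w‖ + 1 / 1000 * ‖z - x‖ * ‖𝒢.Z O x‖ * ‖w‖ := by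
          simpa using add_le_add h1 h2
      _ ≤ 1001 / 1000 * (1001 / 1000 * ‖z - x‖) * ‖w‖ + 1 / 1000 * ‖z - x‖ * (61 / 10) * ‖w‖ := by
          gcongr
      _ ≤ 11 / 10 * ‖z - x‖ * ‖w‖ := by nlinarith [mul_nonneg hz0 hw]
      _ ≤ 11 / 10 * ‖y - x‖ * ‖w‖ := by gcongr
  have h := Convex.norm_image_sub_le_of_norm_hasFDerivWithin_le' hd hbound (convex_segment x y)
    (left_mem_segment ℝ x y) (right_mem_segment ℝ x y)
  rw [Real.norm_eq_abs] at h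
  rw [rho_sq hO, rho_sq hO]
  calc _ ≤ _ := h
    _ = _ := by ring

/-- the pairing of an almost radial unit vector with a small displacement -/
lemma rho_sub_g {O x x₀ τ : E} {ε : ℝ} (hO : O ∈ U E) (hx : x ∈ U E) (hx₀ : x₀ ∈ U E)
    (hτ : 𝒢.g x τ τ = 1) (hρ : 0 < 𝒢.rho O x) (hε : 0 ≤ ε) (hc : 1 - 𝒢.cs O x τ ≤ ε) :
    |𝒢.g x₀ τ (x - x₀) - (𝒢.rho O x - 𝒢.rho O x₀)| ≤
      3 / 2 * √ε * ‖x - x₀‖ + 3 * ‖x - x₀‖ ^ 2 / 𝒢.rho O x := by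
  set ρ := 𝒢.rho O x with hρd
  set ρ0 := 𝒢.rho O x₀ with hρ0d
  have h1 := f_second (𝒢 := 𝒢) hO hx₀ hx
  have h2 := g_abs_le (𝒢 := 𝒢) hx₀ (𝒢.Z O x - 𝒢.Z O x₀) (x - x₀)
  have h3 := (Z_sub_le (𝒢 := 𝒢) hO hx hx₀).1
  have h4 := rho_sub_le (𝒢 := 𝒢) hO hx hx₀
  have h5 := norm_sub_sq_le (𝒢 := 𝒢) hO hx hτ hρ
  have h6 := g_abs_le (𝒢 := 𝒢) hx₀ ((𝒢.rho O x)⁻¹ • 𝒢.Z O x - τ) (x - x₀)
  rw [← hρd] at h1 h4 h5 h6
  rw [← hρ0d] at h1 h4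
  set n := ‖x - x₀‖ with hn
  have hn0 : 0 ≤ n := norm_nonneg _
  norm_num [dl] at h2 h3 h6
  -- radial part
  have h7 : ‖ρ⁻¹ • 𝒢.Z O x - τ‖ ≤ 149 / 100 * √ε := by
    apply le_of_sq_le_sq _ (by positivity)
    rw [mul_pow, Real.sq_sqrt hε]
    nlinarith
  have h8 : |𝒢.g x₀ (ρ⁻¹ • 𝒢.Z O x - τ) (x - x₀)| ≤ 3 / 2 * √ε * n := by
    have h0 : 0 ≤ √ε := Real.sqrt_nonneg _
    calc |𝒢.g x₀ (ρ⁻¹ • 𝒢.Z O x - τ) (x - x₀)|
        ≤ 1001 / 1000 * ‖ρ⁻¹ • 𝒢.Z O x - τ‖ * n := by simpa using h6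
      _ ≤ 1001 / 1000 * (149 / 100 * √ε) * n := by gcongr
      _ ≤ 3 / 2 * √ε * n := by nlinarith [mul_nonneg h0 hn0]
  have h9 : |𝒢.g x₀ (𝒢.Z O x - 𝒢.Z O x₀) (x - x₀)| ≤ 11 / 10 * n ^ 2 := by
    calc _ ≤ 1001 / 1000 * ‖𝒢.Z O x - 𝒢.Z O x₀‖ * n := by simpa using h2
      _ ≤ 1001 / 1000 * (1001 / 1000 * n) * n := by gcongr
      _ ≤ 11 / 10 * n ^ 2 := by nlinarith [sq_nonneg n]
  have h10 : (ρ - ρ0) ^ 2 ≤ 11 / 10 * n ^ 2 := by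
    have : (ρ - ρ0) ^ 2 = |ρ - ρ0| ^ 2 := (sq_abs _).symm
    rw [this]
    calc |ρ - ρ0| ^ 2 ≤ (1003 / 1000 * n) ^ 2 := by gcongr
      _ ≤ _ := by nlinarith [sq_nonneg n]
  have h11 : |(ρ - ρ0) * ρ - 𝒢.g x₀ (𝒢.Z O x) (x - x₀)| ≤ 3 * n ^ 2 := by
    have e : (ρ - ρ0) * ρ - 𝒢.g x₀ (𝒢.Z O x) (x - x₀)
        = (ρ ^ 2 / 2 - ρ0 ^ 2 / 2 - 𝒢.g x₀ (𝒢.Z O x₀) (x - x₀)) + (ρ - ρ0) ^ 2 / 2
          - 𝒢.g x₀ (𝒢.Z O x - 𝒢.Z O x₀) (x - x₀) := by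
      simp only [map_sub, _root_.sub_apply]
      ring
    rw [e]
    have h12 := abs_le.1 h1
    have h13 := abs_le.1 h9
    rw [abs_le]
    constructor <;> nlinarith [sq_nonneg n, sq_nonneg (ρ - ρ0)]
  have h12 : |(ρ - ρ0) - 𝒢.g x₀ (ρ⁻¹ • 𝒢.Z O x) (x - x₀)| ≤ 3 * n ^ 2 / ρ := by
    have e : (ρ - ρ0) - 𝒢.g x₀ (ρ⁻¹ • 𝒢.Z O x) (x - x₀)
        = ((ρ - ρ0) * ρ - 𝒢.g x₀ (𝒢.Z O x) (x - x₀)) / ρ := by
      simp only [map_smul, smul_apply, smul_eq_mul]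
      field_simp
    rw [e, abs_div, abs_of_pos hρ]
    gcongr
  have e : 𝒢.g x₀ τ (x - x₀) - (ρ - ρ0)
      = -𝒢.g x₀ (ρ⁻¹ • 𝒢.Z O x - τ) (x - x₀)
        - ((ρ - ρ0) - 𝒢.g x₀ (ρ⁻¹ • 𝒢.Z O x) (x - x₀)) := by
    simp only [map_sub, _root_.sub_apply]
    ring
  rw [e]
  have h13 := abs_le.1 h8
  have h14 := abs_le.1 h12
  rw [abs_le]
  constructor <;> linarith

/-- arcs are almost 1-Lipschitz -/
lemma Geo.norm_sub_le {X X' : ℝ → E} {a b : ℝ} (h : 𝒢.Geo X X' a b) {s t : ℝ}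
    (hs : s ∈ Icc a b) (ht : t ∈ Icc a b) : ‖X s - X t‖ ≤ 1001 / 1000 * |s - t| := by
  have h1 := Convex.norm_image_sub_le_of_norm_hasDerivWithin_le (f := X) (f' := X')
    (s := Icc a b) (C := 1001 / 1000) (fun x hx => h.d1 x hx)
    (fun x hx => (unit_norm (h.mem x hx) (h.unit x hx)).1) (convex_Icc a b) ht hs
  rwa [Real.norm_eq_abs] at h1

/-- first variation along an arc, with the metric frozen at `x₀` -/
lemma Geo.first {X X' : ℝ → E} {a b : ℝ} (h : 𝒢.Geo X X' a b) {x₀ : E} (hx₀ : x₀ ∈ U E) {s : ℝ} (hs : s ∈ Icc a b) :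
    ∃ D : ℝ, HasDerivWithinAt (fun s => 𝒢.g x₀ (X' s) (X s - x₀)) D (Icc a b) s ∧
      1 - 3 / 1000 * ‖X s - x₀‖ ≤ D := by
  have hXU := h.mem s hs
  have h1 : HasDerivWithinAt (fun s => 𝒢.g x₀ (X' s)) (𝒢.g x₀ (𝒢.acc (X s) (X' s)))
      (Icc a b) s := (𝒢.g x₀).hasFDerivAt.comp_hasDerivWithinAt s (h.d2 s hs)
  have h2 : HasDerivWithinAt (fun s => X s - x₀) (X' s) (Icc a b) s := (h.d1 s hs).sub_const _
  have h3 := h1.clm_apply h2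
  refine ⟨_, h3, ?_⟩
  have hu := h.unit s hs
  have hn := (unit_norm hXU hu).1
  have h4 := 𝒢.g_lip x₀ hx₀ (X s) hXU (X' s) (X' s)
  rw [hu] at h4
  have h5 := g_abs_le (𝒢 := 𝒢) hx₀ (𝒢.acc (X s) (X' s)) (X s - x₀)
  have h6 := 𝒢.acc_le (X s) hXU (X' s)
  have hn0 := norm_nonneg (X' s)
  have hm0 := norm_nonneg (X s - x₀)
  rw [norm_sub_rev x₀ (X s)] at h4
  norm_num [dl] at h4 h5 h6
  have h7 : ‖X' s‖ ^ 2 ≤ 1003 / 1000 := by nlinarith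
  have h8 : |𝒢.g x₀ (𝒢.acc (X s) (X' s)) (X s - x₀)| ≤ 11 / 10000 * ‖X s - x₀‖ := by
    calc _ ≤ 1001 / 1000 * ‖𝒢.acc (X s) (X' s)‖ * ‖X s - x₀‖ := by simpa using h5
      _ ≤ 1001 / 1000 * (1 / 1000 * (1003 / 1000)) * ‖X s - x₀‖ := by
          gcongr
          calc _ ≤ _ := h6
            _ ≤ _ := by gcongr
      _ ≤ _ := by nlinarith
  have h9 : |𝒢.g x₀ (X' s) (X' s) - 1| ≤ 11 / 10000 * ‖X s - x₀‖ := by
    calc _ ≤ 1 / 1000 * ‖X s - x₀‖ * ‖X' s‖ * ‖X' s‖ := by simpa using h4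
      _ = 1 / 1000 * ‖X s - x₀‖ * ‖X' s‖ ^ 2 := by ring
      _ ≤ 1 / 1000 * ‖X s - x₀‖ * (1003 / 1000) := by gcongr
      _ ≤ _ := by nlinarith
  have h10 := (abs_le.1 h8).1
  have h11 := (abs_le.1 h9).1
  linarith

end LocGeo

end Pool.Agent.GeoNet
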